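import Mathlib

set_option autoImplicit false

namespace Pool.Agent.Helper474

open Polynomial

theorem exists_monic_factor (g : (PowerSeries ℂ)[X]) (e : ℕ)
    (h0 : ∀ i < e, PowerSeries.constantCoeff (R := ℂ) (g.coeff i) = 0)
    (h1 : PowerSeries.constantCoeff (R := ℂ) (g.coeff e) ≠ 0) :
    ∃ f : (PowerSeries ℂ)[X], f.Monic ∧ f.natDegree = e ∧ f ∣ g := by
  have hmax : IsLocalRing.maximalIdeal (PowerSeries ℂ) = Ideal.span {PowerSeries.X} :=
    PowerSeries.maximalIdeal_eq_span_X
  have : IsAdicComplete (IsLocalRing.maximalIdeal (PowerSeries ℂ)) (PowerSeries ℂ) := by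
    rw [hmax]; infer_instance
  have hres : ∀ a : PowerSeries ℂ, IsLocalRing.residue (PowerSeries ℂ) a = 0 ↔
      PowerSeries.constantCoeff (R := ℂ) a = 0 := by
    intro a
    rw [IsLocalRing.residue_eq_zero_iff, hmax, Ideal.mem_span_singleton, PowerSeries.X_dvd_iff]
  set G : PowerSeries (PowerSeries ℂ) := (g : PowerSeries (PowerSeries ℂ)) with hG
  have hord : (G.map (IsLocalRing.residue (PowerSeries ℂ))).order = e := by
    rw [PowerSeries.order_eq_nat]
    refine ⟨?_, ?_⟩
    · rw [PowerSeries.coeff_map, hG, Polynomial.coeff_coe]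
      intro h
      exact h1 ((hres _).1 h)
    · intro i hi
      rw [PowerSeries.coeff_map, hG, Polynomial.coeff_coe]
      exact (hres _).2 (h0 i hi)
  have hne : G.map (IsLocalRing.residue (PowerSeries ℂ)) ≠ 0 := by
    intro h
    rw [h, PowerSeries.order_zero] at hord
    exact absurd hord (by simp)
  obtain ⟨f, h, H⟩ := G.exists_isWeierstrassFactorization hne
  have hdeg : f.natDegree = e := by
    rw [H.natDegree_eq_toNat_order_map, hord]; rfl
  have hfm := H.isDistinguishedAt.monic
  refine ⟨f, hfm, hdeg, ?_⟩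
  have hdiv : (f : PowerSeries (PowerSeries ℂ)).IsWeierstrassDivisorAt
      (IsLocalRing.maximalIdeal (PowerSeries ℂ)) := H.isDistinguishedAt.isWeierstrassDivisorAt'
  have hordf : ((f : PowerSeries (PowerSeries ℂ)).map
      (Ideal.Quotient.mk (IsLocalRing.maximalIdeal (PowerSeries ℂ)))).order.toNat
        = f.natDegree := by
    have := H.isDistinguishedAt.coe_natDegree_eq_order_map
      (f : PowerSeries (PowerSeries ℂ)) 1 (by
        rw [map_one, ← Ideal.ne_top_iff_one]; exact Ideal.IsMaximal.ne_top inferInstance) (by simp)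
    rw [← this]; rfl
  have hmod := Polynomial.modByMonic_add_div g f
  have hlt : (g %ₘ f).degree < (f.natDegree : WithBot ℕ) := by
    have := Polynomial.degree_modByMonic_lt g hfm
    rwa [Polynomial.degree_eq_natDegree hfm.ne_zero] at this
  have huniq := hdiv.eq_of_mul_add_eq_mul_add (q := h) (q' := ((g /ₘ f : (PowerSeries ℂ)[X]) :
      PowerSeries (PowerSeries ℂ))) (r := 0) (r' := g %ₘ f) (by simp) (by rw [hordf]; exact hlt) (by
      rw [← H.eq_mul, Polynomial.coe_zero, add_zero, ← Polynomial.coe_mul, ← Polynomial.coe_add,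
        add_comm, hmod])
  rw [← huniq.2, zero_add] at hmod
  exact ⟨_, hmod.symm⟩

/-- The field of Laurent series in one variable s over the complex numbers. -/
abbrev K : Type := HahnSeries ℤ ℂ

theorem mulLeft_inj' (m : ℕ) (hm : 0 < m) :
    Function.Injective (AddMonoidHom.mulLeft (m : ℤ) : ℤ →+ ℤ) := by
  intro a b h
  have h' : (m : ℤ) * a = (m : ℤ) * b := h
  have : (m : ℤ) ≠ 0 := by positivity
  exact mul_left_cancel₀ this h'

theorem mulLeft_le' (m : ℕ) (hm : 0 < m) (a b : ℤ) :
    (AddMonoidHom.mulLeft (m : ℤ) : ℤ →+ ℤ) a ≤ (AddMonoidHom.mulLeft (m : ℤ) : ℤ →+ ℤ) b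
      ↔ a ≤ b := by
  change (m : ℤ) * a ≤ (m : ℤ) * b ↔ a ≤ b
  have : (0 : ℤ) < (m : ℤ) := by positivity
  exact mul_le_mul_iff_right₀ this

/-- substitution of s by its m-th power. -/
noncomputable def expandHom (m : ℕ) (hm : 0 < m) : K →+* K :=
  HahnSeries.embDomainRingHom (AddMonoidHom.mulLeft (m : ℤ)) (mulLeft_inj' m hm)
    (mulLeft_le' m hm)

theorem expandHom_coeff (m : ℕ) (hm : 0 < m) (x : K) (n : ℤ) :
    (expandHom m hm x).coeff ((m : ℤ) * n) = x.coeff n := by
  unfold expandHom
  rw [HahnSeries.embDomainRingHom_apply]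
  exact HahnSeries.embDomain_coeff (a := n)

theorem expandHom_coeff_of_not_dvd (m : ℕ) (hm : 0 < m) (x : K) (n : ℤ)
    (h : ¬ (m : ℤ) ∣ n) : (expandHom m hm x).coeff n = 0 := by
  unfold expandHom
  rw [HahnSeries.embDomainRingHom_apply]
  apply HahnSeries.embDomain_of_notMem_range
  rintro ⟨a, ha⟩
  exact h ⟨a, ha.symm⟩

theorem expandHom_single (m : ℕ) (hm : 0 < m) (n : ℤ) (c : ℂ) :
    expandHom m hm (HahnSeries.single n c) = HahnSeries.single ((m : ℤ) * n) c := by
  unfold expandHom
  rw [HahnSeries.embDomainRingHom_apply]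
  exact HahnSeries.embDomain_single

theorem expandHom_C (m : ℕ) (hm : 0 < m) (c : ℂ) :
    expandHom m hm (HahnSeries.C c) = HahnSeries.C c := by
  unfold expandHom
  exact HahnSeries.embDomainRingHom_C

theorem expandHom_comp (m m' : ℕ) (hm : 0 < m) (hm' : 0 < m') :
    (expandHom m' hm').comp (expandHom m hm) = expandHom (m' * m) (Nat.mul_pos hm' hm) := by
  ext x n
  rw [RingHom.comp_apply]
  by_cases h : ((m' * m : ℕ) : ℤ) ∣ n
  · obtain ⟨k, rfl⟩ := h
    rw [expandHom_coeff (m' * m)]
    have : (((m' * m : ℕ) : ℤ) * k) = (m' : ℤ) * ((m : ℤ) * k) := by push_cast; ring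
    rw [this, expandHom_coeff, expandHom_coeff]
  · rw [expandHom_coeff_of_not_dvd (m' * m) _ x n h]
    by_cases h' : (m' : ℤ) ∣ n
    · obtain ⟨k, rfl⟩ := h'
      rw [expandHom_coeff]
      apply expandHom_coeff_of_not_dvd
      rintro ⟨l, rfl⟩
      exact h ⟨l, by push_cast; ring⟩
    · exact expandHom_coeff_of_not_dvd _ _ _ _ h'

theorem expandHom_order (m : ℕ) (hm : 0 < m) (x : K) (i : ℤ) (hi : i < (m : ℤ) * x.order) :
    (expandHom m hm x).coeff i = 0 := by
  by_cases h : (m : ℤ) ∣ i
  · obtain ⟨k, rfl⟩ := h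
    rw [expandHom_coeff]
    apply HahnSeries.coeff_eq_zero_of_lt_order
    have : (0 : ℤ) < (m : ℤ) := by positivity
    exact lt_of_mul_lt_mul_left hi this.le
  · exact expandHom_coeff_of_not_dvd _ _ _ _ h

theorem mem_range_ofPowerSeries (x : K) (hx : ∀ i < 0, x.coeff i = 0) :
    ∃ a : PowerSeries ℂ, HahnSeries.ofPowerSeries ℤ ℂ a = x := by
  refine ⟨PowerSeries.mk fun n => x.coeff (n : ℤ), ?_⟩
  ext i
  rcases lt_or_ge i 0 with h | h
  · rw [hx i h]
    rw [HahnSeries.ofPowerSeries_apply]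
    apply HahnSeries.embDomain_notin_image_support
    rintro ⟨k, _, hk⟩
    have : (k : ℤ) = i := hk
    omega
  · obtain ⟨k, rfl⟩ := Int.eq_ofNat_of_zero_le h
    have := HahnSeries.ofPowerSeries_apply_coeff (Γ := ℤ) (R := ℂ)
      (PowerSeries.mk fun n => x.coeff (n : ℤ)) k
    simpa using this

theorem coeff_taylor_sub_one {R : Type*} [CommRing R] (p : R[X]) (n : ℕ) (hn : 1 ≤ n)
    (hp : p.Monic) (hd : p.natDegree = n) (r : R) :
    (taylor r p).coeff (n - 1) = p.coeff (n - 1) + n * r := by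
  rw [taylor_coeff]
  have : hasseDeriv (n - 1) p = C (p.coeff (n - 1)) + C (n : R) * X := by
    ext k
    rw [hasseDeriv_coeff]
    simp only [coeff_add, coeff_C, coeff_C_mul, coeff_X]
    rcases k with _ | _ | k
    · simp
    · have h1 : 0 + 1 + (n - 1) = n := by omega
      rw [h1]
      have h2 : p.coeff n = 1 := by rw [← hd]; exact hp
      rw [h2]
      obtain ⟨j, rfl⟩ : ∃ j, n = j + 1 := ⟨n - 1, by omega⟩
      simp
    · have : p.coeff (k + 1 + 1 + (n - 1)) = 0 := by
        apply coeff_eq_zero_of_natDegree_lt; omega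
      rw [this]
      simp
  rw [this]
  simp

instance charZeroK : CharZero K :=
  charZero_of_injective_algebraMap (R := ℂ) (A := K) (algebraMap ℂ K).injective

theorem taylor_monic' {R : Type*} [CommRing R] [Nontrivial R] (p : R[X]) (hp : p.Monic) (r : R) :
    (taylor r p).Monic := by
  rw [Monic, leadingCoeff_taylor]
  exact hp

theorem NP_root (n : ℕ) : ∀ p : K[X], p.Monic → p.natDegree = n → 0 < n →
    ∃ (m : ℕ) (hm : 0 < m) (x : K), (p.map (expandHom m hm)).eval x = 0 := by
  induction n using Nat.strong_induction_on with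
  | _ n ih =>
  intro p hp hdeg hn
  rcases Nat.lt_or_ge n 2 with h2 | h2
  · -- degree one
    have hn1 : n = 1 := by omega
    subst hn1
    refine ⟨1, one_pos, -(expandHom 1 one_pos (p.coeff 0)), ?_⟩
    have hp' : p = X + C (p.coeff 0) := by
      have := Polynomial.eq_X_add_C_of_natDegree_le_one (p := p) (by omega)
      have h1 : p.coeff 1 = 1 := by rw [← hdeg]; exact hp
      rw [h1, map_one, one_mul] at this
      exact this
    rw [hp']
    simp
  -- shift
  set a : K := -(p.coeff (n - 1)) / (n : K) with ha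
  set p1 : K[X] := taylor a p with hp1
  have hnK : (n : K) ≠ 0 := by
    have : n ≠ 0 := by omega
    exact Nat.cast_ne_zero.2 this
  have hp1m : p1.Monic := by
    rw [hp1]; exact taylor_monic' p hp a
  have hp1d : p1.natDegree = n := by rw [hp1, natDegree_taylor, hdeg]
  have hp1c : p1.coeff (n - 1) = 0 := by
    rw [hp1, coeff_taylor_sub_one p n (by omega) hp hdeg, ha]
    field_simp
    ring
  suffices hsuff : ∃ (m : ℕ) (hm : 0 < m) (x : K), (p1.map (expandHom m hm)).eval x = 0 by
    obtain ⟨m, hm, x, hx⟩ := hsuff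
    refine ⟨m, hm, x + expandHom m hm a, ?_⟩
    rw [hp1, Polynomial.map_taylor, taylor_eval] at hx
    exact hx
  clear_value p1
  clear hp1 ha
  by_cases hzero : ∀ i < n, p1.coeff i = 0
  · refine ⟨1, one_pos, 0, ?_⟩
    have : p1 = X ^ n := by
      apply Polynomial.ext
      intro i
      rw [coeff_X_pow]
      split_ifs with h
      · rw [h, ← hp1d]; exact hp1m
      · rcases lt_or_gt_of_ne h with h' | h'
        · exact hzero i h'
        · exact coeff_eq_zero_of_natDegree_lt (by omega)
    rw [this]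
    simp
    omega
  push Not at hzero
  obtain ⟨j0, hj0n, hj0⟩ := hzero
  -- minimal slope
  classical
  set S : Finset ℕ := (Finset.range n).filter (fun i => p1.coeff i ≠ 0) with hS
  have hSne : S.Nonempty := ⟨j0, by simp [hS, hj0n, hj0]⟩
  obtain ⟨i0, hi0S, hi0min⟩ := Finset.exists_min_image S
    (fun i => ((p1.coeff i).order : ℚ) / ((n - i : ℕ) : ℚ)) hSne
  have hi0 : i0 < n ∧ p1.coeff i0 ≠ 0 := by simpa [hS] using hi0S
  obtain ⟨hi0n, hi0c⟩ := hi0
  set m : ℕ := n - i0 with hm
  have hmpos : 0 < m := by omega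
  set R : ℤ := (p1.coeff i0).order with hR
  have hslope : ∀ i < n, p1.coeff i ≠ 0 →
      ((n - i : ℕ) : ℤ) * R ≤ (m : ℤ) * (p1.coeff i).order := by
    intro i hi hci
    have hiS : i ∈ S := by simp [hS, hi, hci]
    have h := hi0min i hiS
    have h1 : (0 : ℚ) < ((n - i0 : ℕ) : ℚ) := by exact_mod_cast hmpos
    have h2 : (0 : ℚ) < ((n - i : ℕ) : ℚ) := by
      have : 0 < n - i := by omega
      exact_mod_cast this
    rw [div_le_div_iff₀ h1 h2] at h
    have h3 : ((p1.coeff i0).order * ((n - i : ℕ) : ℤ) : ℤ) ≤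
      (p1.coeff i).order * ((n - i0 : ℕ) : ℤ) := by exact_mod_cast h
    rw [hR, hm]
    linarith
  set φ := expandHom m hmpos with hφ
  set u : K := HahnSeries.single (-R) 1 with hu
  set p2 : K[X] := (p1.map φ).scaleRoots u with hp2
  have hp1φm : (p1.map φ).Monic := hp1m.map φ
  have hp1φd : (p1.map φ).natDegree = n := by rw [hp1m.natDegree_map, hp1d]
  have hp2m : p2.Monic := by
    rw [hp2]; exact (monic_scaleRoots_iff u).2 hp1φm
  have hp2d : p2.natDegree = n := by rw [hp2, natDegree_scaleRoots, hp1φd]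
  have hp2c : ∀ i, p2.coeff i = φ (p1.coeff i) * u ^ (n - i) := by
    intro i
    rw [hp2, coeff_scaleRoots, hp1φd, coeff_map]
  have hupow : ∀ k : ℕ, u ^ k = HahnSeries.single (-(k : ℤ) * R) 1 := by
    intro k
    rw [hu, HahnSeries.single_pow]
    simp
  have hcoef : ∀ i : ℕ, ∀ j : ℤ, (p2.coeff i).coeff j
      = (φ (p1.coeff i)).coeff (j + ((n - i : ℕ) : ℤ) * R) := by
    intro i j
    rw [hp2c, hupow]
    have : j = (j + ((n - i : ℕ) : ℤ) * R) + (-((n - i : ℕ) : ℤ) * R) := by ring
    conv_lhs => rw [this]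
    rw [HahnSeries.coeff_mul_single_add, mul_one]
  have hrange : ∀ i, ∃ a : PowerSeries ℂ, HahnSeries.ofPowerSeries ℤ ℂ a = p2.coeff i := by
    intro i
    apply mem_range_ofPowerSeries
    intro j hj
    rcases lt_trichotomy i n with h | h | h
    · by_cases hc : p1.coeff i = 0
      · rw [hp2c, hc]; simp
      · rw [hcoef]
        apply expandHom_order
        have := hslope i h hc
        linarith
    · rw [h, ← hp2d, hp2m.coeff_natDegree]
      rw [HahnSeries.coeff_one]
      rw [if_neg (by omega)]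
    · rw [coeff_eq_zero_of_natDegree_lt (by omega)]; simp
  have hlift : p2 ∈ Polynomial.lifts (HahnSeries.ofPowerSeries ℤ ℂ) := by
    rw [Polynomial.lifts_iff_coeff_lifts]
    intro i
    obtain ⟨a, ha⟩ := hrange i
    exact ⟨a, ha⟩
  obtain ⟨q, hqmap, hqd, hqm⟩ := Polynomial.lifts_and_natDegree_eq_and_monic hlift hp2m
  rw [hp2d] at hqd
  have hqcoef : ∀ i, PowerSeries.constantCoeff (R := ℂ) (q.coeff i) = (p2.coeff i).coeff 0 := by
    intro i
    rw [← hqmap, coeff_map]
    have := HahnSeries.ofPowerSeries_apply_coeff (Γ := ℤ) (R := ℂ) (q.coeff i) 0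
    rw [Nat.cast_zero] at this
    rw [this, PowerSeries.coeff_zero_eq_constantCoeff]
  set qb : ℂ[X] := q.map (PowerSeries.constantCoeff (R := ℂ)) with hqb
  have hqbm : qb.Monic := hqm.map _
  have hqbd : qb.natDegree = n := by rw [hqb, hqm.natDegree_map, hqd]
  have hqbn1 : qb.coeff (n - 1) = 0 := by
    rw [hqb, coeff_map, hqcoef, hp2c, hp1c]; simp
  have hqbi0 : qb.coeff i0 ≠ 0 := by
    rw [hqb, coeff_map, hqcoef, hcoef]
    rw [zero_add, ← hm, hφ, expandHom_coeff, hR]
    rw [Ne, HahnSeries.coeff_order_eq_zero]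
    exact hi0c
  obtain ⟨c, hc⟩ := IsAlgClosed.exists_root qb (by
    rw [degree_eq_natDegree hqbm.ne_zero, hqbd]
    exact_mod_cast (by omega : n ≠ 0))
  set e := rootMultiplicity c qb with he
  have hepos : 0 < e := (rootMultiplicity_pos hqbm.ne_zero).2 hc
  have hele : e < n := by
    by_contra hcon
    push Not at hcon
    have hdvd : (X - C c) ^ n ∣ qb :=
      (pow_dvd_pow _ hcon).trans (pow_rootMultiplicity_dvd qb c)
    have hmon : ((X - C c) ^ n : ℂ[X]).Monic := (monic_X_sub_C c).pow n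
    have heq : qb = (X - C c) ^ n := by
      symm
      apply Polynomial.eq_of_monic_of_associated hmon hqbm
      apply associated_of_dvd_dvd hdvd
      obtain ⟨r, hr⟩ := hdvd
      have hrd : r.natDegree = 0 := by
        have h1 := hqbd
        have hrm : r.Monic := by
          rw [hr] at hqbm
          exact hmon.of_mul_monic_left hqbm
        rw [hr, hmon.natDegree_mul hrm, (monic_X_sub_C c).natDegree_pow,
          natDegree_X_sub_C] at h1
        omega
      have hrm : r.Monic := by
        rw [hr] at hqbm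
        exact hmon.of_mul_monic_left hqbm
      have : r = 1 := by
        exact (hrm.natDegree_eq_zero).1 hrd
      rw [hr, this, mul_one]
    have h1 : qb.coeff (n - 1) = -(n * c) := by
      rw [heq]
      have := coeff_taylor_sub_one (X ^ n : ℂ[X]) n (by omega) (monic_X_pow n)
        (natDegree_X_pow n) (-c)
      have h3 : (X - C c : ℂ[X]) ^ n = taylor (-c) (X ^ n) := by
        rw [taylor_apply, X_pow_comp, map_neg, sub_eq_add_neg]
      rw [h3, this, coeff_X_pow, if_neg (by omega)]
      ring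
    rw [hqbn1] at h1
    have hc0 : c = 0 := by
      have hn0 : (n : ℂ) ≠ 0 := by
        have : n ≠ 0 := by omega
        exact_mod_cast this
      have : (n : ℂ) * c = 0 := by linear_combination h1
      exact (mul_eq_zero.1 this).resolve_left hn0
    rw [hc0, map_zero, sub_zero] at heq
    apply hqbi0
    rw [heq, coeff_X_pow, if_neg (by omega)]
  -- shift and factor
  set qc : (PowerSeries ℂ)[X] := taylor (PowerSeries.C c) q with hqc
  have hqcmap : qc.map (PowerSeries.constantCoeff (R := ℂ)) = taylor c qb := by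
    rw [hqc, Polynomial.map_taylor]
    simp [hqb]
  have hcomp : taylor c qb = qb.comp (X + C c) := taylor_apply c qb
  have htr : (taylor c qb).natTrailingDegree = e := by
    rw [hcomp, he, rootMultiplicity_eq_natTrailingDegree]
  have hlow : ∀ i < e, PowerSeries.constantCoeff (R := ℂ) (qc.coeff i) = 0 := by
    intro i hi
    have : PowerSeries.constantCoeff (R := ℂ) (qc.coeff i) = (taylor c qb).coeff i := by
      rw [← hqcmap, coeff_map]
    rw [this]
    apply coeff_eq_zero_of_lt_natTrailingDegree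
    rw [htr]; exact hi
  have hhigh : PowerSeries.constantCoeff (R := ℂ) (qc.coeff e) ≠ 0 := by
    have : PowerSeries.constantCoeff (R := ℂ) (qc.coeff e) = (taylor c qb).coeff e := by
      rw [← hqcmap, coeff_map]
    rw [this, ← htr]
    rw [coeff_natTrailingDegree_ne_zero]
    intro h
    have := taylor_monic' qb hqbm c
    exact this.ne_zero h
  obtain ⟨f, hfm, hfd, hfdvd⟩ := exists_monic_factor qc e hlow hhigh
  set F : K[X] := f.map (HahnSeries.ofPowerSeries ℤ ℂ) with hF
  have hFm : F.Monic := hfm.map _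
  have hFd : F.natDegree = e := by rw [hF, hfm.natDegree_map, hfd]
  obtain ⟨m', hm', x, hx⟩ := ih e hele F hFm hFd hepos
  set ψ := expandHom m' hm' with hψ
  have hroot : ((qc.map (HahnSeries.ofPowerSeries ℤ ℂ)).map ψ).eval x = 0 := by
    obtain ⟨r, hr⟩ := hfdvd
    rw [hr, Polynomial.map_mul, Polynomial.map_mul, eval_mul, ← hF, hx, zero_mul]
  have hqcK : qc.map (HahnSeries.ofPowerSeries ℤ ℂ) = taylor (HahnSeries.C c) p2 := by
    rw [hqc, Polynomial.map_taylor, hqmap, HahnSeries.ofPowerSeries_C]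
  rw [hqcK, Polynomial.map_taylor, taylor_eval] at hroot
  set y : K := x + ψ (HahnSeries.C c) with hy
  have hψu : ψ u ≠ 0 := by
    rw [Ne, map_eq_zero, hu]
    exact HahnSeries.single_ne_zero one_ne_zero
  have hmapscale : p2.map ψ = ((p1.map φ).map ψ).scaleRoots (ψ u) := by
    rw [hp2, Polynomial.map_scaleRoots]
    rw [hp1φm.leadingCoeff, map_one]
    exact one_ne_zero
  refine ⟨m' * m, Nat.mul_pos hm' hmpos, y / ψ u, ?_⟩
  rw [← expandHom_comp m m' hmpos hm', ← Polynomial.map_map]
  have key := Polynomial.scaleRoots_eval₂_mul (RingHom.id K) (p := (p1.map φ).map ψ)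
    (r := y / ψ u) (s := ψ u)
  rw [RingHom.id_apply, mul_div_cancel₀ _ hψu, ← hmapscale] at key
  have h0 : eval₂ (RingHom.id K) y (p2.map ψ) = 0 := by
    have : eval₂ (RingHom.id K) y (p2.map ψ) = (p2.map ψ).eval y := rfl
    rw [this]
    exact hroot
  rw [h0] at key
  have hpow : (ψ u) ^ ((p1.map φ).map ψ).natDegree ≠ 0 := pow_ne_zero _ hψu
  exact (mul_eq_zero.1 key.symm).resolve_left hpow

theorem NP_splits_monic (n : ℕ) : ∀ p : K[X], p.Monic → p.natDegree = n →
    ∃ (m : ℕ) (hm : 0 < m), (p.map (expandHom m hm)).Splits := by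
  induction n with
  | zero =>
    intro p hp hd
    refine ⟨1, one_pos, ?_⟩
    rw [hp.natDegree_eq_zero.1 hd]
    simp
  | succ n ih =>
    intro p hp hd
    obtain ⟨m, hm, x, hx⟩ := NP_root (n + 1) p hp hd (Nat.succ_pos n)
    have hdvd : (X - C x) ∣ p.map (expandHom m hm) := dvd_iff_isRoot.2 hx
    obtain ⟨r, hr⟩ := hdvd
    have hpm : (p.map (expandHom m hm)).Monic := hp.map _
    have hrm : r.Monic := by
      rw [hr] at hpm
      exact (monic_X_sub_C x).of_mul_monic_left hpm
    have hrd : r.natDegree = n := by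
      have h1 : (p.map (expandHom m hm)).natDegree = n + 1 := by rw [hp.natDegree_map, hd]
      rw [hr, (monic_X_sub_C x).natDegree_mul hrm, natDegree_X_sub_C] at h1
      omega
    obtain ⟨m', hm', hs⟩ := ih r hrm hrd
    refine ⟨m' * m, Nat.mul_pos hm' hm, ?_⟩
    rw [← expandHom_comp m m' hm hm', ← Polynomial.map_map, hr, Polynomial.map_mul]
    apply Splits.mul _ hs
    simp only [Polynomial.map_sub, map_X, map_C]
    exact Splits.X_sub_C _

theorem NP_splits (p : K[X]) :
    ∃ (m : ℕ) (hm : 0 < m), (p.map (expandHom m hm)).Splits := by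
  by_cases hp : p = 0
  · refine ⟨1, one_pos, ?_⟩
    rw [hp]; simp
  have hlc : p.leadingCoeff ≠ 0 := leadingCoeff_ne_zero.2 hp
  obtain ⟨m, hm, hs⟩ := NP_splits_monic _ (C (p.leadingCoeff⁻¹) * p)
    (monic_C_mul_of_mul_leadingCoeff_eq_one (inv_mul_cancel₀ hlc)) rfl
  refine ⟨m, hm, ?_⟩
  have : p = C p.leadingCoeff * (C (p.leadingCoeff⁻¹) * p) := by
    rw [← mul_assoc, ← C_mul, mul_inv_cancel₀ hlc, C_1, one_mul]
  rw [this, Polynomial.map_mul]
  apply Splits.mul _ hs
  rw [map_C]
  exact Splits.C _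

end Pool.Agent.Helper474
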