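import Mathlib
import Pool.Agent.Helper474.NP

set_option autoImplicit false

namespace Pool.Agent.Helper474

open Polynomial

/-- x has no coefficient below n. -/
def Ord (n : ℤ) (x : K) : Prop := ∀ i < n, x.coeff i = 0

/-- constants. -/
noncomputable abbrev Cc : ℂ →+* K := HahnSeries.C

theorem Ord.mono {n n' : ℤ} {x : K} (h : Ord n x) (hn : n' ≤ n) : Ord n' x :=
  fun i hi => h i (lt_of_lt_of_le hi hn)

theorem Ord.zero (n : ℤ) : Ord n 0 := fun i _ => by simp

theorem Ord.add {n : ℤ} {x y : K} (hx : Ord n x) (hy : Ord n y) : Ord n (x + y) :=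
  fun i hi => by rw [HahnSeries.coeff_add, hx i hi, hy i hi, add_zero]

theorem Ord.neg {n : ℤ} {x : K} (hx : Ord n x) : Ord n (-x) :=
  fun i hi => by rw [HahnSeries.coeff_neg, hx i hi, neg_zero]

theorem Ord.sub {n : ℤ} {x y : K} (hx : Ord n x) (hy : Ord n y) : Ord n (x - y) := by
  rw [sub_eq_add_neg]; exact hx.add hy.neg

theorem mem_antidiag {x y : K} {n : ℤ} {p : ℤ × ℤ} :
    p ∈ Finset.antidiagonal x.isPWO_support y.isPWO_support n ↔
      x.coeff p.1 ≠ 0 ∧ y.coeff p.2 ≠ 0 ∧ p.1 + p.2 = n := by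
  rw [Finset.mem_antidiagonal]
  simp [HahnSeries.mem_support]

theorem Ord.mul {a b : ℤ} {x y : K} (hx : Ord a x) (hy : Ord b y) : Ord (a + b) (x * y) := by
  intro i hi
  rw [HahnSeries.coeff_mul]
  apply Finset.sum_eq_zero
  intro p hp
  by_cases h1 : p.1 < a
  · rw [hx _ h1, zero_mul]
  · by_cases h2 : p.2 < b
    · rw [hy _ h2, mul_zero]
    · have := mem_antidiag.1 hp
      exfalso
      have h3 := this.2.2
      push Not at h1 h2
      linarith

theorem coeff_mul_of_Ord {a b : ℤ} {x y : K} (hx : Ord a x) (hy : Ord b y) :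
    (x * y).coeff (a + b) = x.coeff a * y.coeff b := by
  rw [HahnSeries.coeff_mul]
  rw [Finset.sum_eq_single (a, b)]
  · intro p hp hpne
    by_cases h1 : p.1 < a
    · rw [hx _ h1, zero_mul]
    · by_cases h2 : p.2 < b
      · rw [hy _ h2, mul_zero]
      · have := mem_antidiag.1 hp
        exfalso
        have h3 := this.2.2
        push Not at h1 h2
        apply hpne
        ext <;> simp <;> linarith
  · intro hp
    rw [mem_antidiag] at hp
    by_contra hne
    apply hp
    refine ⟨left_ne_zero_of_mul hne, right_ne_zero_of_mul hne, rfl⟩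

theorem Ord.single (n : ℤ) (c : ℂ) : Ord n (HahnSeries.single n c) := by
  intro i hi
  exact HahnSeries.coeff_single_of_ne (ne_of_lt hi)

theorem Ord.C (c : ℂ) : Ord 0 (Cc c) := by
  intro i hi
  rw [HahnSeries.C_apply]
  exact HahnSeries.coeff_single_of_ne (ne_of_lt hi)

theorem coeff_C_zero' (c : ℂ) : (Cc c).coeff 0 = c := by
  rw [HahnSeries.C_apply, HahnSeries.coeff_single_same]

theorem coeff_C' (c : ℂ) (n : ℤ) : (Cc c).coeff n = if n = 0 then c else 0 := by
  rw [HahnSeries.C_apply]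
  by_cases h : n = 0
  · rw [if_pos h, h, HahnSeries.coeff_single_same]
  · rw [if_neg h, HahnSeries.coeff_single_of_ne h]

theorem coeff_Cc_mul (c : ℂ) (x : K) (n : ℤ) : (Cc c * x).coeff n = c * x.coeff n := by
  rw [HahnSeries.C_apply, HahnSeries.coeff_single_zero_mul]

theorem Ord.one : Ord 0 (1 : K) := by
  have := Ord.C 1
  rwa [map_one] at this

theorem Ord.pow {a : ℤ} {x : K} (hx : Ord a x) (n : ℕ) : Ord (a * n) (x ^ n) := by
  induction n with
  | zero => simpa using Ord.one
  | succ n ih =>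
    rw [pow_succ]
    have := ih.mul hx
    refine this.mono (le_of_eq ?_)
    push_cast; ring

theorem coeff_pow_of_Ord {a : ℤ} {x : K} (hx : Ord a x) (n : ℕ) :
    (x ^ n).coeff (a * n) = x.coeff a ^ n := by
  induction n with
  | zero => simp [HahnSeries.coeff_one]
  | succ n ih =>
    rw [pow_succ, pow_succ]
    have h := coeff_mul_of_Ord (hx.pow n) hx
    rw [ih] at h
    rw [← h]
    congr 1
    push_cast; ring

theorem Ord.C_mul {a : ℤ} {x : K} (hx : Ord a x) (c : ℂ) : Ord a (Cc c * x) := by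
  intro i hi
  rw [coeff_Cc_mul, hx i hi, mul_zero]

theorem Ord.order (x : K) : Ord x.order x := fun _ hi => HahnSeries.coeff_eq_zero_of_lt_order hi

theorem coeff_order_ne {x : K} (hx : x ≠ 0) : x.coeff x.order ≠ 0 := by
  rw [Ne, HahnSeries.coeff_order_eq_zero]; exact hx

theorem Ord.le_order {n : ℤ} {x : K} (hx : Ord n x) (h0 : x ≠ 0) : n ≤ x.order := by
  by_contra hcon
  push Not at hcon
  exact coeff_order_ne h0 (hx _ hcon)

theorem order_eq_of {n : ℤ} {x : K} (hx : Ord n x) (h0 : x.coeff n ≠ 0) : x.order = n := by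
  have hne : x ≠ 0 := by rintro rfl; simp at h0
  apply le_antisymm
  · exact HahnSeries.order_le_of_coeff_ne_zero h0
  · exact hx.le_order hne

theorem Ord.inv {x : K} (hx : Ord 0 x) (h0 : x.coeff 0 ≠ 0) : Ord 0 x⁻¹ := by
  have hne : x ≠ 0 := by rintro rfl; simp at h0
  have h1 := coeff_mul_of_Ord (Ord.order x⁻¹) hx
  have h2 : x⁻¹ ≠ 0 := inv_ne_zero hne
  by_contra hcon
  have h3 : x⁻¹.order < 0 := by
    by_contra h4
    push Not at h4
    exact hcon ((Ord.order _).mono h4)
  rw [inv_mul_cancel₀ hne, add_zero, HahnSeries.coeff_one, if_neg (ne_of_lt h3)] at h1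
  exact mul_ne_zero (coeff_order_ne h2) h0 h1.symm

/-- cancel a unit of order zero -/
theorem Ord.of_mul {n : ℤ} {x y : K} (hx : Ord 0 x) (h0 : x.coeff 0 ≠ 0) (h : Ord n (x * y)) :
    Ord n y := by
  have hne : x ≠ 0 := by rintro rfl; simp at h0
  have h1 := (hx.inv h0).mul h
  rw [← mul_assoc, inv_mul_cancel₀ hne, one_mul, zero_add] at h1
  exact h1

/-- Euler derivation s d/ds on Laurent series. -/
noncomputable def eulerFun (x : K) : K where
  coeff n := (n : ℂ) * x.coeff n
  isPWO_support' := by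
    apply x.isPWO_support.mono
    intro n hn
    rw [HahnSeries.mem_support]
    intro h
    apply hn
    simp [h]

theorem eulerFun_coeff (x : K) (n : ℤ) : (eulerFun x).coeff n = (n : ℂ) * x.coeff n := rfl

theorem eulerFun_mul (x y : K) : eulerFun (x * y) = x * eulerFun y + y * eulerFun x := by
  ext n
  rw [eulerFun_coeff, HahnSeries.coeff_add, mul_comm y (eulerFun x)]
  have hsx : (eulerFun x).support ⊆ x.support := by
    intro n hn
    rw [HahnSeries.mem_support] at hn ⊢
    intro h
    apply hn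
    rw [eulerFun_coeff, h, mul_zero]
  have hsy : (eulerFun y).support ⊆ y.support := by
    intro n hn
    rw [HahnSeries.mem_support] at hn ⊢
    intro h
    apply hn
    rw [eulerFun_coeff, h, mul_zero]
  rw [HahnSeries.coeff_mul, HahnSeries.coeff_mul_left' x.isPWO_support hsx,
    HahnSeries.coeff_mul_right' y.isPWO_support hsy, Finset.mul_sum, ← Finset.sum_add_distrib]
  apply Finset.sum_congr rfl
  intro p hp
  have hp' := mem_antidiag.1 hp
  rw [eulerFun_coeff, eulerFun_coeff, ← hp'.2.2]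
  push_cast
  ring

/-- the derivation z d/dz where z is the inverse of s^m. -/
noncomputable def D (m : ℕ) (x : K) : K := Cc (-(m : ℂ)⁻¹) * eulerFun x

theorem D_coeff (m : ℕ) (x : K) (n : ℤ) :
    (D m x).coeff n = -(m : ℂ)⁻¹ * ((n : ℂ) * x.coeff n) := by
  rw [D, coeff_Cc_mul, eulerFun_coeff]

theorem D_add (m : ℕ) (x y : K) : D m (x + y) = D m x + D m y := by
  ext n
  simp only [D_coeff, HahnSeries.coeff_add]
  ring

theorem D_sub (m : ℕ) (x y : K) : D m (x - y) = D m x - D m y := by
  ext n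
  simp only [D_coeff, HahnSeries.coeff_sub]
  ring

theorem D_mul (m : ℕ) (x y : K) : D m (x * y) = x * D m y + y * D m x := by
  unfold D
  rw [eulerFun_mul]
  ring

theorem D_C (m : ℕ) (c : ℂ) : D m (Cc c) = 0 := by
  ext n
  rw [D_coeff, coeff_C']
  split_ifs with h
  · rw [h]; simp
  · simp

theorem Ord.D {n : ℤ} {x : K} (hx : Ord n x) (m : ℕ) : Ord n (D m x) := by
  intro i hi
  rw [D_coeff, hx i hi]; simp

theorem D_eval₂ (m : ℕ) (w : K) (f : ℂ[X]) :
    D m (f.eval₂ Cc w) = f.derivative.eval₂ Cc w * D m w := by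
  induction f using Polynomial.induction_on' with
  | add p q hp hq => rw [eval₂_add, D_add, hp, hq, derivative_add, eval₂_add]; ring
  | monomial n a =>
    rw [eval₂_monomial, derivative_monomial, eval₂_monomial, D_mul, D_C]
    have hpow : ∀ n : ℕ, D m (w ^ n) = (n : K) * w ^ (n - 1) * D m w := by
      intro n
      induction n with
      | zero =>
        have := D_C m 1
        rw [map_one] at this
        simp [this]
      | succ n ih =>
        rw [pow_succ, D_mul, ih]
        rcases n with _ | n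
        · simp
        · simp only [Nat.add_sub_cancel]
          push_cast
          ring
    rw [hpow, map_mul, map_natCast]
    ring

/-- the element z, the inverse of s^m. -/
noncomputable def zz (m : ℕ) : K := HahnSeries.single (-(m : ℤ)) 1

theorem zz_Ord (m : ℕ) : Ord (-(m : ℤ)) (zz m) := Ord.single _ _

theorem zz_coeff (m : ℕ) : (zz m).coeff (-(m : ℤ)) = 1 := HahnSeries.coeff_single_same _ _

theorem zz_coeff_ne (m : ℕ) (n : ℤ) (hn : n ≠ -(m : ℤ)) : (zz m).coeff n = 0 :=
  HahnSeries.coeff_single_of_ne hn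

theorem zz_pow (m n : ℕ) : (zz m) ^ n = HahnSeries.single (-(m : ℤ) * n) 1 := by
  rw [zz, HahnSeries.single_pow]
  simp [mul_comm]

theorem zz_ne_zero (m : ℕ) : zz m ≠ 0 := HahnSeries.single_ne_zero one_ne_zero

theorem D_zz (m : ℕ) (hm : 0 < m) : D m (zz m) = zz m := by
  ext n
  rw [D_coeff]
  by_cases h : n = -(m : ℤ)
  · rw [h, zz_coeff]
    have : (m : ℂ) ≠ 0 := by exact_mod_cast hm.ne'
    push_cast
    field_simp
  · rw [zz, HahnSeries.coeff_single_of_ne h]; simp

theorem zz_mul_coeff (m : ℕ) (x : K) (n : ℤ) : (zz m * x).coeff n = x.coeff (n + m) := by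
  rw [zz, HahnSeries.coeff_single_mul, one_mul, sub_neg_eq_add]

theorem zz_pow_mul_coeff (m k : ℕ) (x : K) (n : ℤ) :
    (zz m ^ k * x).coeff n = x.coeff (n + m * k) := by
  rw [zz_pow, HahnSeries.coeff_single_mul, one_mul]
  congr 1; ring

theorem eq_C_of_D_eq_zero (m : ℕ) (hm : 0 < m) (x : K) (h : D m x = 0) :
    x = Cc (x.coeff 0) := by
  ext n
  rw [coeff_C']
  split_ifs with hn
  · rw [hn]
  · have h1 := D_coeff m x n
    rw [h, HahnSeries.coeff_zero] at h1
    have hm' : (m : ℂ) ≠ 0 := by exact_mod_cast hm.ne'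
    have hn' : (n : ℂ) ≠ 0 := by exact_mod_cast hn
    have h2 : -(m : ℂ)⁻¹ ≠ 0 := neg_ne_zero.2 (inv_ne_zero hm')
    have h3 := mul_eq_zero.1 h1.symm
    exact (mul_eq_zero.1 (h3.resolve_left h2)).resolve_left hn'

end Pool.Agent.Helper474
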