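import Mathlib
import Pool.Agent.Helper474.Ord

set_option autoImplicit false

namespace Pool.Agent.Helper474

open Polynomial

/-- evaluation of a complex polynomial at a Laurent series. -/
noncomputable abbrev ev (w : K) (f : ℂ[X]) : K := f.eval₂ Cc w

theorem Ord.sum {ι : Type*} (s : Finset ι) (g : ι → K) (n : ℤ) (h : ∀ i ∈ s, Ord n (g i)) :
    Ord n (∑ i ∈ s, g i) := by
  classical
  induction s using Finset.induction_on with
  | empty => simpa using Ord.zero n
  | insert a s ha ih =>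
    rw [Finset.sum_insert ha]
    exact (h a (Finset.mem_insert_self a s)).add
      (ih (fun i hi => h i (Finset.mem_insert_of_mem hi)))

theorem ev_sum (w : K) (f : ℂ[X]) (d : ℕ) (hd : f.natDegree ≤ d) :
    ev w f = ∑ i ∈ Finset.range (d + 1), Cc (f.coeff i) * w ^ i :=
  eval₂_eq_sum_range' _ (Nat.lt_succ_of_le hd) _

theorem ev_Ord {w : K} {a : ℤ} (ha : a ≤ 0) (hw : Ord a w) (f : ℂ[X]) (d : ℕ)
    (hd : f.natDegree ≤ d) : Ord (a * d) (ev w f) := by
  rw [ev_sum w f d hd]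
  apply Ord.sum
  intro i hi
  apply Ord.C_mul
  apply (hw.pow i).mono
  have : (i : ℤ) ≤ (d : ℤ) := by
    have := Finset.mem_range.1 hi
    exact_mod_cast (by omega : i ≤ d)
  exact mul_le_mul_of_nonpos_left this ha

theorem ev_coeff {w : K} {a : ℤ} (ha : a < 0) (hw : Ord a w) (f : ℂ[X]) (d : ℕ)
    (hd : f.natDegree ≤ d) : (ev w f).coeff (a * d) = f.coeff d * (w.coeff a) ^ d := by
  rw [ev_sum w f d hd, Finset.sum_range_succ, HahnSeries.coeff_add]
  have h1 : (∑ i ∈ Finset.range d, Cc (f.coeff i) * w ^ i).coeff (a * d) = 0 := by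
    have : Ord (a * d + 1) (∑ i ∈ Finset.range d, Cc (f.coeff i) * w ^ i) := by
      apply Ord.sum
      intro i hi
      apply Ord.C_mul
      apply (hw.pow i).mono
      have : (i : ℤ) + 1 ≤ (d : ℤ) := by
        have := Finset.mem_range.1 hi
        exact_mod_cast this
      nlinarith
    exact this _ (by omega)
  rw [h1, zero_add, coeff_Cc_mul, coeff_pow_of_Ord hw]

theorem coeff_ev_zz (m : ℕ) (hm : 0 < m) (f : ℂ[X]) (k : ℕ) :
    (ev (zz m) f).coeff (-(m : ℤ) * k) = f.coeff k := by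
  rw [ev_sum (zz m) f (f.natDegree) le_rfl]
  rw [HahnSeries.coeff_sum]
  have hm' : (m : ℤ) ≠ 0 := by exact_mod_cast hm.ne'
  have h1 : ∀ i ∈ Finset.range (f.natDegree + 1),
      (Cc (f.coeff i) * zz m ^ i).coeff (-(m : ℤ) * k) = if i = k then f.coeff k else 0 := by
    intro i _
    rw [coeff_Cc_mul, zz_pow]
    split_ifs with h
    · rw [h, HahnSeries.coeff_single_same, mul_one]
    · rw [HahnSeries.coeff_single_of_ne, mul_zero]
      intro h2
      apply h
      have h3 : (m : ℤ) * (k : ℤ) = (m : ℤ) * (i : ℤ) := by linarith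
      have := mul_left_cancel₀ hm' h3
      exact_mod_cast this.symm
  rw [Finset.sum_congr rfl h1, Finset.sum_ite_eq']
  split_ifs with h
  · rfl
  · rw [Finset.mem_range] at h
    exact (coeff_eq_zero_of_natDegree_lt (by omega)).symm

theorem coeff_ev_zz_ne (m : ℕ) (f : ℂ[X]) (n : ℤ) (hn : ∀ k : ℕ, n ≠ -(m : ℤ) * k) :
    (ev (zz m) f).coeff n = 0 := by
  rw [ev_sum (zz m) f (f.natDegree) le_rfl]
  rw [HahnSeries.coeff_sum]
  apply Finset.sum_eq_zero
  intro i _
  rw [coeff_Cc_mul, zz_pow, HahnSeries.coeff_single_of_ne (hn i), mul_zero]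

theorem pow_second {m : ℕ} {c : ℂ} {η : K} {j : ℤ} (hη : Ord (-j) η) (hj : 0 ≤ j)
    (hjm : j < m) (d : ℕ) :
    Ord (-(m : ℤ) * d + 2 * (m - j))
      ((Cc c * zz m + η) ^ d - (Cc (c ^ d) * zz m ^ d
        + Cc ((d : ℂ) * c ^ (d - 1)) * zz m ^ (d - 1) * η)) := by
  have hw : Ord (-(m : ℤ)) (Cc c * zz m + η) :=
    ((zz_Ord m).C_mul c).add (hη.mono (by omega))
  induction d with
  | zero => simpa using Ord.zero _
  | succ d ih =>
    rcases d with _ | d
    · simpa using Ord.zero _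
    · set E := (Cc c * zz m + η) ^ (d + 1) - (Cc (c ^ (d + 1)) * zz m ^ (d + 1)
        + Cc (((d + 1 : ℕ) : ℂ) * c ^ (d + 1 - 1)) * zz m ^ (d + 1 - 1) * η) with hE
      have key : (Cc c * zz m + η) ^ (d + 1 + 1) - (Cc (c ^ (d + 1 + 1)) * zz m ^ (d + 1 + 1)
          + Cc (((d + 1 + 1 : ℕ) : ℂ) * c ^ (d + 1 + 1 - 1)) * zz m ^ (d + 1 + 1 - 1) * η)
          = (Cc c * zz m + η) * E
            + Cc (((d + 1 : ℕ) : ℂ) * c ^ d) * (zz m ^ d * η ^ 2) := by
        rw [hE]
        simp only [Nat.add_sub_cancel, map_mul, map_pow, map_natCast]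
        push_cast
        ring
      rw [key]
      apply Ord.add
      · refine (hw.mul ih).mono (le_of_eq ?_)
        push_cast; ring
      · apply Ord.C_mul
        refine (((zz_Ord m).pow d).mul (hη.pow 2)).mono (le_of_eq ?_)
        push_cast; ring

theorem ev_second {m : ℕ} (hm : 0 < m) {c : ℂ} {η : K} {j : ℤ} (hη : Ord (-j) η) (hj : 0 ≤ j)
    (hjm : j < m) (f : ℂ[X]) (d : ℕ) (hd1 : 1 ≤ d) (hd : f.natDegree ≤ d) :
    Ord (-(m : ℤ) * (d - 1) - j + 1)
      (ev (Cc c * zz m + η) f - (Cc (f.coeff d) * (Cc (c ^ d) * zz m ^ d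
        + Cc ((d : ℂ) * c ^ (d - 1)) * zz m ^ (d - 1) * η)
        + Cc (f.coeff (d - 1)) * (Cc (c ^ (d - 1)) * zz m ^ (d - 1)))) := by
  have hw : Ord (-(m : ℤ)) (Cc c * zz m + η) :=
    ((zz_Ord m).C_mul c).add (hη.mono (by omega))
  obtain ⟨e, rfl⟩ : ∃ e, d = e + 1 := ⟨d - 1, by omega⟩
  simp only [Nat.add_sub_cancel]
  rw [ev_sum _ f (e + 1) hd, Finset.sum_range_succ, Finset.sum_range_succ]
  have h1 := pow_second (c := c) hη hj hjm (e + 1)
  have h2 := pow_second (c := c) hη hj hjm e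
  simp only [Nat.add_sub_cancel] at h1
  set w := Cc c * zz m + η with hwdef
  set A := Cc (c ^ (e + 1)) * zz m ^ (e + 1) + Cc (((e + 1 : ℕ) : ℂ) * c ^ e) * zz m ^ e * η
    with hA
  set B := Cc (c ^ e) * zz m ^ e with hB
  set B' := Cc ((e : ℂ) * c ^ (e - 1)) * zz m ^ (e - 1) * η with hB'
  have key : ∑ i ∈ Finset.range e, Cc (f.coeff i) * w ^ i + Cc (f.coeff e) * w ^ e
      + Cc (f.coeff (e + 1)) * w ^ (e + 1)
      - (Cc (f.coeff (e + 1)) * A + Cc (f.coeff e) * B)
      = ∑ i ∈ Finset.range e, Cc (f.coeff i) * w ^ i + Cc (f.coeff e) * (w ^ e - (B + B'))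
        + Cc (f.coeff e) * B' + Cc (f.coeff (e + 1)) * (w ^ (e + 1) - A) := by ring
  rw [key]
  have hm1 : (1 : ℤ) ≤ m := by exact_mod_cast hm
  apply Ord.add
  apply Ord.add
  apply Ord.add
  · apply Ord.sum
    intro i hi
    apply Ord.C_mul
    apply (hw.pow i).mono
    have hi' : (i : ℤ) + 1 ≤ (e : ℤ) := by
      have := Finset.mem_range.1 hi
      exact_mod_cast this
    push_cast
    nlinarith
  · apply Ord.C_mul
    apply h2.mono
    push_cast
    linarith
  · apply Ord.C_mul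
    rcases e with _ | e
    · rw [hB']; simpa using Ord.zero _
    · rw [hB']
      simp only [Nat.add_sub_cancel]
      rw [mul_assoc]
      apply Ord.C_mul
      apply (((zz_Ord m).pow e).mul hη).mono
      push_cast
      linarith
  · apply Ord.C_mul
    apply h1.mono
    push_cast
    linarith

end Pool.Agent.Helper474
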