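import Mathlib
import Pool.Agent.Helper474.Ev

set_option autoImplicit false

namespace Pool.Agent.Helper474

open Polynomial

/-- the polynomial with conjugated coefficients. -/
noncomputable abbrev cj (f : ℂ[X]) : ℂ[X] := f.map (starRingEnd ℂ)

theorem natDegree_cj (f : ℂ[X]) : (cj f).natDegree = f.natDegree := by
  exact natDegree_map _

theorem coeff_cj (f : ℂ[X]) (i : ℕ) : (cj f).coeff i = (starRingEnd ℂ) (f.coeff i) := coeff_map _ _

theorem derivative_cj (f : ℂ[X]) : derivative (cj f) = cj (derivative f) :=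
  derivative_map _ _

theorem coeff_der_top (f : ℂ[X]) (hf : 0 < f.natDegree) :
    (derivative f).coeff (f.natDegree - 1) = f.natDegree * f.leadingCoeff := by
  rw [coeff_derivative, Nat.sub_add_cancel hf, leadingCoeff]
  have : ((f.natDegree - 1 : ℕ) : ℂ) + 1 = (f.natDegree : ℂ) := by
    rw [Nat.cast_sub hf]; push_cast; ring
  rw [this]; ring

/-- the boundary relation on a branch. -/
def EK (m : ℕ) (w ρ : K) (f : ℂ[X]) (σ : ℝ) : Prop :=
  ev (zz m) (derivative f) + ρ ^ 2 * ev w (derivative (cj f))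
    = Cc (σ : ℂ) * ρ * (ev (zz m) f + ev w (cj f))

/-- a branch of the boundary curve at infinity. -/
structure Branch (m : ℕ) (E : Set (ℂ[X] × ℝ)) (w ρ : K) : Prop where
  hD : D m w = -(zz m * ρ ^ 2)
  hE : ∀ p ∈ E, EK m w ρ p.1 p.2

/-- standing assumptions on the family of eigenpairs. -/
structure Fam (E : Set (ℂ[X] × ℝ)) : Prop where
  hpos : ∀ p ∈ E, 0 < p.1.natDegree
  hσ : ∀ p ∈ E, p.2 ≠ 0
  hunb : ∀ n : ℕ, ∃ p ∈ E, n < p.1.natDegree

theorem Branch.rho_ne {m : ℕ} {E : Set (ℂ[X] × ℝ)} (hE : Fam E) (hm : 0 < m) {w ρ : K}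
    (B : Branch m E w ρ) : ρ ≠ 0 := by
  rintro rfl
  obtain ⟨p, hp, _⟩ := hE.hunb 0
  have h := B.hE p hp
  have hd := hE.hpos p hp
  unfold EK at h
  simp only [ne_eq, OfNat.ofNat_ne_zero, not_false_eq_true, zero_pow, zero_mul, add_zero,
    mul_zero] at h
  have h1 := coeff_ev_zz m hm (derivative p.1) (p.1.natDegree - 1)
  rw [h, coeff_der_top _ hd] at h1
  simp only [HahnSeries.coeff_zero] at h1
  have h2 : (p.1.natDegree : ℂ) ≠ 0 := by exact_mod_cast hd.ne'
  have h3 : p.1.leadingCoeff ≠ 0 := by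
    rw [leadingCoeff_ne_zero]; rintro h4; rw [h4] at hd; simp at hd
  exact mul_ne_zero h2 h3 h1.symm

theorem caseI_aux {m : ℕ} {E : Set (ℂ[X] × ℝ)} (hE : Fam E) (hm : 0 < m) {w ρ : K}
    (B : Branch m E w ρ) (hw : Ord (-(m : ℤ) + 1) w) (p : ℂ[X] × ℝ) (hp : p ∈ E)
    (hcond : 0 < 2 * ρ.order + ((p.1.natDegree : ℤ) - 1)) :
    ρ.order = m ∧ (p.2 : ℂ) * ρ.coeff m = p.1.natDegree := by
  have hρ := B.rho_ne hE hm
  have h := B.hE p hp
  have hd := hE.hpos p hp
  have hσ := hE.hσ p hp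
  unfold EK at h
  set f := p.1 with hf
  set d := f.natDegree with hdd
  set r := ρ.order with hr
  have hm1 : (1 : ℤ) ≤ m := by exact_mod_cast hm
  have hd1 : (1 : ℤ) ≤ d := by exact_mod_cast hd
  have hlc : f.leadingCoeff ≠ 0 := by
    rw [leadingCoeff_ne_zero]; rintro h4; rw [h4] at hdd; simp at hdd; omega
  have hd0 : (d : ℂ) ≠ 0 := by exact_mod_cast hd.ne'
  have hder : (derivative f).natDegree ≤ d - 1 := natDegree_derivative_le f
  have hdercj : (derivative (cj f)).natDegree ≤ d - 1 := by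
    rw [derivative_cj, natDegree_cj]; exact hder
  have hcast : ((d - 1 : ℕ) : ℤ) = (d : ℤ) - 1 := by
    rw [Nat.cast_sub hd]; simp
  -- LHS
  have hL1 : Ord (-(m : ℤ) * (d - 1)) (ev (zz m) (derivative f)) := by
    have := ev_Ord (by omega) (zz_Ord m) (derivative f) (d - 1) hder
    rwa [hcast] at this
  have hL1c : (ev (zz m) (derivative f)).coeff (-(m : ℤ) * (d - 1)) = d * f.leadingCoeff := by
    have := coeff_ev_zz m hm (derivative f) (d - 1)
    rwa [hcast, hdd, coeff_der_top f hd] at this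
  have hL2 : Ord (2 * r + (-(m : ℤ) + 1) * (d - 1)) (ρ ^ 2 * ev w (derivative (cj f))) := by
    have h1 := ev_Ord (by omega) hw (derivative (cj f)) (d - 1) hdercj
    rw [hcast] at h1
    have h2 := ((Ord.order ρ).pow 2).mul h1
    refine h2.mono (le_of_eq ?_)
    push_cast; ring
  have hL2' : Ord (-(m : ℤ) * (d - 1) + 1) (ρ ^ 2 * ev w (derivative (cj f))) := by
    apply hL2.mono
    have : (-(m : ℤ) + 1) * (d - 1) = -(m : ℤ) * (d - 1) + (d - 1) := by ring
    rw [this]; omega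
  have hLord : Ord (-(m : ℤ) * (d - 1))
      (ev (zz m) (derivative f) + ρ ^ 2 * ev w (derivative (cj f))) :=
    hL1.add (hL2'.mono (by omega))
  have hLc : (ev (zz m) (derivative f) + ρ ^ 2 * ev w (derivative (cj f))).coeff
      (-(m : ℤ) * (d - 1)) = d * f.leadingCoeff := by
    rw [HahnSeries.coeff_add, hL1c, hL2' _ (by omega), add_zero]
  -- RHS
  have hR1 : Ord (-(m : ℤ) * d) (ev (zz m) f) := ev_Ord (by omega) (zz_Ord m) f d le_rfl
  have hR1c : (ev (zz m) f).coeff (-(m : ℤ) * d) = f.leadingCoeff := coeff_ev_zz m hm f d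
  have hR2 : Ord ((-(m : ℤ) + 1) * d) (ev w (cj f)) :=
    ev_Ord (by omega) hw (cj f) d (by rw [natDegree_cj])
  have hR2' : Ord (-(m : ℤ) * d + 1) (ev w (cj f)) := by
    apply hR2.mono
    have : (-(m : ℤ) + 1) * d = -(m : ℤ) * d + d := by ring
    rw [this]; omega
  have hY : Ord (-(m : ℤ) * d) (ev (zz m) f + ev w (cj f)) :=
    hR1.add (hR2'.mono (by omega))
  have hYc : (ev (zz m) f + ev w (cj f)).coeff (-(m : ℤ) * d) = f.leadingCoeff := by
    rw [HahnSeries.coeff_add, hR1c, hR2' _ (by omega), add_zero]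
  have hRord := ((Ord.order ρ).C_mul (p.2 : ℂ)).mul hY
  have hRc := coeff_mul_of_Ord ((Ord.order ρ).C_mul (p.2 : ℂ)) hY
  rw [hYc, coeff_Cc_mul] at hRc
  have hRne : (p.2 : ℂ) * ρ.coeff ρ.order * f.leadingCoeff ≠ 0 := by
    apply mul_ne_zero (mul_ne_zero _ (coeff_order_ne hρ)) hlc
    exact_mod_cast hσ
  have ho1 := order_eq_of hLord (by rw [hLc]; exact mul_ne_zero hd0 hlc)
  have ho2 := order_eq_of hRord (by rw [hRc]; exact hRne)
  rw [h, ho2] at ho1
  have hrm : r = m := by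
    have : (-(m : ℤ)) * (d - 1) = -(m : ℤ) * d + m := by ring
    rw [this] at ho1
    linarith
  refine ⟨hrm, ?_⟩
  rw [h, ← ho1, hRc, ← hr, hrm] at hLc
  exact mul_right_cancel₀ hlc hLc

theorem caseI {m : ℕ} {E : Set (ℂ[X] × ℝ)} (hE : Fam E) (hm : 0 < m) {w ρ : K}
    (B : Branch m E w ρ) (hw : Ord (-(m : ℤ) + 1) w) :
    Ord m ρ ∧ (∀ p ∈ E, (p.2 : ℂ) * ρ.coeff m = p.1.natDegree) ∧ Ord 0 w := by
  have hρm : ρ.order = m := by
    obtain ⟨p, hp, hpn⟩ := hE.hunb ((1 - 2 * ρ.order).toNat + 1)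
    refine (caseI_aux hE hm B hw p hp ?_).1
    have : ((1 - 2 * ρ.order).toNat + 1 : ℤ) < (p.1.natDegree : ℤ) := by exact_mod_cast hpn
    have h2 := Int.self_le_toNat (1 - 2 * ρ.order)
    omega
  have hm1 : (1 : ℤ) ≤ m := by exact_mod_cast hm
  have hρO : Ord m ρ := by rw [← hρm]; exact Ord.order ρ
  refine ⟨hρO, ?_, ?_⟩
  · intro p hp
    refine (caseI_aux hE hm B hw p hp ?_).2
    have hd := hE.hpos p hp
    have : (1 : ℤ) ≤ p.1.natDegree := by exact_mod_cast hd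
    rw [hρm]; omega
  · intro i hi
    have h1 : Ord (m : ℤ) (D m w) := by
      rw [B.hD]
      apply Ord.neg
      refine ((zz_Ord m).mul (hρO.pow 2)).mono (le_of_eq ?_)
      push_cast; ring
    have h2 := h1 i (by omega)
    rw [D_coeff] at h2
    have hm' : (m : ℂ) ≠ 0 := by exact_mod_cast hm.ne'
    have hi' : (i : ℂ) ≠ 0 := by exact_mod_cast hi.ne
    have h3 : -(m : ℂ)⁻¹ ≠ 0 := neg_ne_zero.2 (inv_ne_zero hm')
    exact (mul_eq_zero.1 ((mul_eq_zero.1 h2).resolve_left h3)).resolve_left hi'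

theorem caseII {m : ℕ} {E : Set (ℂ[X] × ℝ)} (hE : Fam E) (hm : 0 < m) {w ρ : K}
    (B : Branch m E w ρ) (hw0 : w ≠ 0) (hw : w.order < -(m : ℤ)) : False := by
  have hρ := B.rho_ne hE hm
  set r := ρ.order with hr
  set o := w.order with ho
  obtain ⟨p, hp, hpn⟩ := hE.hunb ((2 * r).toNat + 1)
  have h := B.hE p hp
  have hd := hE.hpos p hp
  have hσ := hE.hσ p hp
  unfold EK at h
  set f := p.1 with hf
  set d := f.natDegree with hdd
  have hm1 : (1 : ℤ) ≤ m := by exact_mod_cast hm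
  have hd1 : (1 : ℤ) ≤ d := by exact_mod_cast hd
  have hbig : 2 * r + 1 < (d : ℤ) := by
    have : ((2 * r).toNat + 1 : ℤ) < (d : ℤ) := by exact_mod_cast hpn
    have h2 := Int.self_le_toNat (2 * r)
    omega
  have hlc : f.leadingCoeff ≠ 0 := by
    rw [leadingCoeff_ne_zero]; rintro h4; rw [h4] at hdd; simp at hdd; omega
  have hlc' : (starRingEnd ℂ) f.leadingCoeff ≠ 0 := by
    rwa [Ne, map_eq_zero]
  have hd0 : (d : ℂ) ≠ 0 := by exact_mod_cast hd.ne'
  have hder : (derivative f).natDegree ≤ d - 1 := natDegree_derivative_le f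
  have hdercj : (derivative (cj f)).natDegree ≤ d - 1 := by
    rw [derivative_cj, natDegree_cj]; exact hder
  have hcast : ((d - 1 : ℕ) : ℤ) = (d : ℤ) - 1 := by
    rw [Nat.cast_sub hd]; simp
  have hwO := Ord.order w
  rw [← ho] at hwO
  have ho0 : o < 0 := by omega
  have hwc : w.coeff o ≠ 0 := coeff_order_ne hw0
  -- LHS
  have hL1 : Ord (-(m : ℤ) * (d - 1)) (ev (zz m) (derivative f)) := by
    have := ev_Ord (by omega) (zz_Ord m) (derivative f) (d - 1) hder
    rwa [hcast] at this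
  have hineq : 2 * r + o * (d - 1) < -(m : ℤ) * (d - 1) := by
    nlinarith
  have hL2w := ev_Ord ho0.le hwO (derivative (cj f)) (d - 1) hdercj
  have hL2wc := ev_coeff ho0 hwO (derivative (cj f)) (d - 1) hdercj
  rw [derivative_cj, coeff_cj, hdd, coeff_der_top f hd, map_mul, map_natCast, ← hdd, hcast]
    at hL2wc
  rw [hcast] at hL2w
  rw [derivative_cj] at hL2w h
  have hρ2 := (Ord.order ρ).pow 2
  have hρ2c := coeff_pow_of_Ord (Ord.order ρ) 2
  have hL2 := hρ2.mul hL2w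
  have hL2c := coeff_mul_of_Ord hρ2 hL2w
  rw [hL2wc, hρ2c] at hL2c
  have heq : ρ.order * ((2 : ℕ) : ℤ) + o * ((d : ℤ) - 1) = 2 * r + o * (d - 1) := by
    push_cast; ring
  rw [heq] at hL2 hL2c
  have hLord : Ord (2 * r + o * (d - 1))
      (ev (zz m) (derivative f) + ρ ^ 2 * ev w (cj (derivative f))) :=
    (hL1.mono hineq.le).add hL2
  have hLc : (ev (zz m) (derivative f) + ρ ^ 2 * ev w (cj (derivative f))).coeff
      (2 * r + o * (d - 1)) ≠ 0 := by
    rw [HahnSeries.coeff_add, hL1 _ hineq, zero_add, hL2c]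
    exact mul_ne_zero (pow_ne_zero _ (coeff_order_ne hρ))
      (mul_ne_zero (mul_ne_zero hd0 hlc') (pow_ne_zero _ hwc))
  -- RHS
  have hR1 : Ord (-(m : ℤ) * d) (ev (zz m) f) := ev_Ord (by omega) (zz_Ord m) f d le_rfl
  have hineq2 : o * d < -(m : ℤ) * d := by nlinarith
  have hR2 : Ord (o * d) (ev w (cj f)) :=
    ev_Ord ho0.le hwO (cj f) d (by rw [natDegree_cj])
  have hR2c : (ev w (cj f)).coeff (o * d) = (starRingEnd ℂ) f.leadingCoeff * w.coeff o ^ d := by
    rw [ev_coeff ho0 hwO (cj f) d (by rw [natDegree_cj]), coeff_cj]; rfl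
  have hY : Ord (o * d) (ev (zz m) f + ev w (cj f)) := (hR1.mono hineq2.le).add hR2
  have hYc : (ev (zz m) f + ev w (cj f)).coeff (o * d)
      = (starRingEnd ℂ) f.leadingCoeff * w.coeff o ^ d := by
    rw [HahnSeries.coeff_add, hR1 _ hineq2, zero_add, hR2c]
  have hRord := ((Ord.order ρ).C_mul (p.2 : ℂ)).mul hY
  have hRc := coeff_mul_of_Ord ((Ord.order ρ).C_mul (p.2 : ℂ)) hY
  rw [hYc, coeff_Cc_mul] at hRc
  have hRne : (p.2 : ℂ) * ρ.coeff ρ.order
      * ((starRingEnd ℂ) f.leadingCoeff * w.coeff o ^ d) ≠ 0 := by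
    apply mul_ne_zero (mul_ne_zero _ (coeff_order_ne hρ)) (mul_ne_zero hlc' (pow_ne_zero _ hwc))
    exact_mod_cast hσ
  have ho1 := order_eq_of hLord hLc
  have ho2 := order_eq_of hRord (by rw [hRc]; exact hRne)
  rw [h, ho2] at ho1
  have hro : r = o := by
    have : o * ((d : ℤ) - 1) = o * d - o := by ring
    rw [this, ← hr] at ho1
    linarith
  -- contradiction with the derivation
  have hDw := hwO.D m
  rw [B.hD] at hDw
  have hc := coeff_mul_of_Ord (zz_Ord m) hρ2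
  rw [zz_coeff, hρ2c, one_mul] at hc
  have h3 := hDw (-(m : ℤ) + ρ.order * ((2 : ℕ) : ℤ)) (by rw [← hr, hro]; push_cast; omega)
  rw [HahnSeries.coeff_neg, hc, neg_eq_zero] at h3
  exact pow_ne_zero 2 (coeff_order_ne hρ) h3

end Pool.Agent.Helper474
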