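import Mathlib
import Pool.Agent.Helper474.Branch

set_option autoImplicit false

namespace Pool.Agent.Helper474

open Polynomial

/-- centroid of the zeros of f. -/
noncomputable def cen (f : ℂ[X]) : ℂ :=
  -(f.coeff (f.natDegree - 1)) / (f.natDegree * f.leadingCoeff)

theorem ev_zz_second {m : ℕ} (hm : 0 < m) {j : ℤ} (hj : 0 ≤ j) (hjm : j < m) (f : ℂ[X]) (d : ℕ)
    (hd1 : 1 ≤ d) (hd : f.natDegree ≤ d) :
    Ord (-(m : ℤ) * (d - 1) - j + 1)
      (ev (zz m) f - (Cc (f.coeff d) * zz m ^ d + Cc (f.coeff (d - 1)) * zz m ^ (d - 1))) := by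
  have h := ev_second hm (c := 1) (η := 0) (j := j) (Ord.zero _) hj hjm f d hd1 hd
  simpa using h

structure CaseThree (m : ℕ) (E : Set (ℂ[X] × ℝ)) (w ρ : K) : Prop where
  ordw : Ord (-(m : ℤ)) w
  ordρ : Ord 0 ρ
  hc : w.coeff (-(m : ℤ)) = -(ρ.coeff 0) ^ 2
  hnorm : ‖ρ.coeff 0‖ = 1
  ordη : Ord 0 (w - Cc (w.coeff (-(m : ℤ))) * zz m)
  hlead : ∀ p ∈ E, p.1.leadingCoeff
    + (starRingEnd ℂ) p.1.leadingCoeff * w.coeff (-(m : ℤ)) ^ p.1.natDegree = 0
  hrel : ∀ p ∈ E, (p.2 : ℂ) * ((starRingEnd ℂ) (ρ.coeff 0) * w.coeff 0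
    - ρ.coeff 0 * cen p.1 - (starRingEnd ℂ) (ρ.coeff 0 * cen p.1)) = 2
  hY : ∀ p ∈ E, Ord (-(m : ℤ) * (p.1.natDegree - 1)) (ev (zz m) p.1 + ev w (cj p.1))

theorem caseIII_basic {m : ℕ} {E : Set (ℂ[X] × ℝ)} (hE : Fam E) (hm : 0 < m) {w ρ : K}
    (B : Branch m E w ρ) (hw : Ord (-(m : ℤ)) w) (hw0 : w.coeff (-(m : ℤ)) ≠ 0) :
    Ord 0 ρ ∧ w.coeff (-(m : ℤ)) = -(ρ.coeff 0) ^ 2 := by
  have hρ := B.rho_ne hE hm
  have hm' : (m : ℂ) ≠ 0 := by exact_mod_cast hm.ne'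
  have h1 : ∀ n : ℤ, (ρ ^ 2).coeff n
      = (m : ℂ)⁻¹ * (((n - m : ℤ) : ℂ) * w.coeff (n - m)) := by
    intro n
    have h2 : (D m w).coeff (n - m) = (-(zz m * ρ ^ 2)).coeff (n - m) := by rw [B.hD]
    rw [D_coeff, HahnSeries.coeff_neg, zz_mul_coeff, sub_add_cancel] at h2
    linear_combination h2
  have h2 : Ord 0 (ρ ^ 2) := by
    intro i hi
    rw [h1, hw _ (by omega)]; simp
  have h3 := coeff_pow_of_Ord (Ord.order ρ) 2
  have h4 : 0 ≤ ρ.order := by
    by_contra hcon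
    push Not at hcon
    have := h2 (ρ.order * ((2 : ℕ) : ℤ)) (by push_cast; omega)
    rw [h3] at this
    exact pow_ne_zero 2 (coeff_order_ne hρ) this
  have h5 : Ord 0 ρ := (Ord.order ρ).mono h4
  refine ⟨h5, ?_⟩
  have h6 := coeff_pow_of_Ord h5 2
  rw [zero_mul, h1] at h6
  rw [← h6]
  simp only [zero_sub]
  push_cast
  field_simp

theorem caseIII {m : ℕ} {E : Set (ℂ[X] × ℝ)} (hE : Fam E) (hm : 0 < m) {w ρ : K}
    (B : Branch m E w ρ) (hw : Ord (-(m : ℤ)) w) (hw0 : w.coeff (-(m : ℤ)) ≠ 0) :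
    CaseThree m E w ρ := by
  obtain ⟨hρO, hc⟩ := caseIII_basic hE hm B hw hw0
  set c := w.coeff (-(m : ℤ)) with hcdef
  set ρ0 := ρ.coeff 0 with hρ0
  have hρ0ne : ρ0 ≠ 0 := by
    intro h; rw [h] at hc; apply hw0; rw [hc]; simp
  have hm1 : (1 : ℤ) ≤ m := by exact_mod_cast hm
  -- facts for each pair
  have key : ∀ p ∈ E,
      Ord (-(m : ℤ) * (p.1.natDegree - 1)) (ev (zz m) p.1 + ev w (cj p.1)) ∧
      p.1.leadingCoeff + (starRingEnd ℂ) p.1.leadingCoeff * c ^ p.1.natDegree = 0 ∧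
      (p.1.natDegree : ℂ) * p.1.leadingCoeff
        - c * ((p.1.natDegree : ℂ) * (starRingEnd ℂ) p.1.leadingCoeff
          * c ^ (p.1.natDegree - 1))
        = (p.2 : ℂ) * ρ0 * (ev (zz m) p.1 + ev w (cj p.1)).coeff
          (-(m : ℤ) * (p.1.natDegree - 1)) := by
    intro p hp
    have h := B.hE p hp
    have hd := hE.hpos p hp
    have hσ := hE.hσ p hp
    unfold EK at h
    set f := p.1 with hf
    set d := f.natDegree with hdd
    have hd1 : (1 : ℤ) ≤ d := by exact_mod_cast hd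
    have hder : (derivative f).natDegree ≤ d - 1 := natDegree_derivative_le f
    have hdercj : (derivative (cj f)).natDegree ≤ d - 1 := by
      rw [derivative_cj, natDegree_cj]; exact hder
    have hcast : ((d - 1 : ℕ) : ℤ) = (d : ℤ) - 1 := by
      rw [Nat.cast_sub hd]; simp
    have hL1 : Ord (-(m : ℤ) * (d - 1)) (ev (zz m) (derivative f)) := by
      have := ev_Ord (by omega) (zz_Ord m) (derivative f) (d - 1) hder
      rwa [hcast] at this
    have hL1c : (ev (zz m) (derivative f)).coeff (-(m : ℤ) * (d - 1)) = d * f.leadingCoeff := by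
      have := coeff_ev_zz m hm (derivative f) (d - 1)
      rwa [hcast, hdd, coeff_der_top f hd] at this
    have hL2w := ev_Ord (by omega) hw (derivative (cj f)) (d - 1) hdercj
    have hL2wc := ev_coeff (by omega) hw (derivative (cj f)) (d - 1) hdercj
    rw [derivative_cj, coeff_cj, hdd, coeff_der_top f hd, map_mul, map_natCast, ← hdd, hcast]
      at hL2wc
    rw [hcast] at hL2w
    rw [derivative_cj] at hL2w h
    have hL2 := (hρO.pow 2).mul hL2w
    have hL2c := coeff_mul_of_Ord (hρO.pow 2) hL2w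
    rw [coeff_pow_of_Ord hρO 2, hL2wc] at hL2c
    have heq : (0 : ℤ) * ((2 : ℕ) : ℤ) + -(m : ℤ) * ((d : ℤ) - 1) = -(m : ℤ) * (d - 1) := by ring
    rw [heq] at hL2 hL2c
    have hL := hL1.add hL2
    have hLc : (ev (zz m) (derivative f) + ρ ^ 2 * ev w (cj (derivative f))).coeff
        (-(m : ℤ) * (d - 1)) = d * f.leadingCoeff
          - c * ((d : ℂ) * (starRingEnd ℂ) f.leadingCoeff * c ^ (d - 1)) := by
      rw [HahnSeries.coeff_add, hL1c, hL2c, ← hρ0]
      have : ρ0 ^ 2 = -c := by rw [hc]; ring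
      rw [this]; ring
    rw [h] at hL hLc
    have hxO : Ord 0 (Cc (p.2 : ℂ) * ρ) := hρO.C_mul _
    have hxc : (Cc (p.2 : ℂ) * ρ).coeff 0 ≠ 0 := by
      rw [coeff_Cc_mul]
      apply mul_ne_zero _ hρ0ne
      exact_mod_cast hσ
    have hY : Ord (-(m : ℤ) * (d - 1)) (ev (zz m) f + ev w (cj f)) := Ord.of_mul hxO hxc hL
    refine ⟨hY, ?_, ?_⟩
    · have h1 := coeff_ev_zz m hm f d
      have h2 := ev_coeff (by omega) hw (cj f) d (by rw [natDegree_cj])
      have h3 := hY (-(m : ℤ) * d) (by nlinarith)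
      rw [HahnSeries.coeff_add, h1, h2, coeff_cj] at h3
      exact h3
    · have h1 := coeff_mul_of_Ord hxO hY
      rw [zero_add, coeff_Cc_mul, hLc] at h1
      rw [h1]
  -- norm
  obtain ⟨p0, hp0, _⟩ := hE.hunb 0
  have hnormc : ‖c‖ = 1 := by
    have h1 := (key p0 hp0).2.1
    have hd := hE.hpos p0 hp0
    have hlc : p0.1.leadingCoeff ≠ 0 := by
      rw [leadingCoeff_ne_zero]; rintro h4; rw [h4] at hd; simp at hd
    have h2 : ‖p0.1.leadingCoeff‖ = ‖p0.1.leadingCoeff‖ * ‖c‖ ^ p0.1.natDegree := by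
      have : p0.1.leadingCoeff = -((starRingEnd ℂ) p0.1.leadingCoeff * c ^ p0.1.natDegree) := by
        linear_combination h1
      calc ‖p0.1.leadingCoeff‖ = ‖-((starRingEnd ℂ) p0.1.leadingCoeff * c ^ p0.1.natDegree)‖ := by
            rw [← this]
        _ = _ := by rw [norm_neg, norm_mul, norm_pow, RCLike.norm_conj]
    have h3 : ‖c‖ ^ p0.1.natDegree = 1 := by
      have h4 : ‖p0.1.leadingCoeff‖ ≠ 0 := norm_ne_zero_iff.2 hlc
      have h5 : ‖p0.1.leadingCoeff‖ * (‖c‖ ^ p0.1.natDegree) = ‖p0.1.leadingCoeff‖ * 1 := by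
        rw [mul_one]; exact h2.symm
      exact mul_left_cancel₀ h4 h5
    exact (pow_eq_one_iff_of_nonneg (norm_nonneg c) hd.ne').1 h3
  have hnorm : ‖ρ0‖ = 1 := by
    have h1 : ‖ρ0‖ ^ 2 = 1 := by
      rw [← norm_pow, ← hnormc, hc, norm_neg]
    exact (pow_eq_one_iff_of_nonneg (norm_nonneg _) two_ne_zero).1 h1
  -- eta
  set η := w - Cc c * zz m with hη
  have hweq : w = Cc c * zz m + η := by rw [hη]; ring
  have hη1 : Ord (-(m : ℤ) + 1) η := by
    intro i hi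
    rw [hη, HahnSeries.coeff_sub, coeff_Cc_mul]
    rcases lt_or_ge i (-(m : ℤ)) with h | h
    · rw [hw i h, zz_Ord m i h]; simp
    · have : i = -(m : ℤ) := by omega
      rw [this, zz_coeff, ← hcdef]; ring
  have hmain : ∀ (j : ℤ), 0 ≤ j → j < m → Ord (-j) η → ∀ p ∈ E,
      (ev (zz m) p.1 + ev w (cj p.1)).coeff (-(m : ℤ) * (p.1.natDegree - 1) - j)
        = (if j = 0 then p.1.coeff (p.1.natDegree - 1)
            + (starRingEnd ℂ) (p.1.coeff (p.1.natDegree - 1)) * c ^ (p.1.natDegree - 1) else 0)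
          + (p.1.natDegree : ℂ) * (starRingEnd ℂ) p.1.leadingCoeff * c ^ (p.1.natDegree - 1)
            * η.coeff (-j) := by
    intro j hj hjm hηj p hp
    have hd := hE.hpos p hp
    set f := p.1 with hf
    set d := f.natDegree with hdd
    have hcast : ((d - 1 : ℕ) : ℤ) = (d : ℤ) - 1 := by
      rw [Nat.cast_sub hd]; simp
    have h1 := ev_zz_second hm hj hjm f d hd le_rfl
    have h2 := ev_second hm (c := c) hηj hj hjm (cj f) d hd (by rw [natDegree_cj])
    rw [← hweq] at h2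
    have h3 := (h1.add h2) (-(m : ℤ) * (d - 1) - j) (by omega)
    rw [HahnSeries.coeff_add, HahnSeries.coeff_sub, HahnSeries.coeff_sub] at h3
    have hz : ∀ k : ℕ, ∀ n : ℤ, (zz m ^ k).coeff n = if n = -(m : ℤ) * k then 1 else 0 := by
      intro k n
      rw [zz_pow]
      split_ifs with h
      · rw [h, HahnSeries.coeff_single_same]
      · rw [HahnSeries.coeff_single_of_ne h]
    have hzd : (zz m ^ d).coeff (-(m : ℤ) * (d - 1) - j) = 0 := by
      rw [hz, if_neg]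
      intro h
      have : -(m : ℤ) * (d - 1) = -(m : ℤ) * d + m := by ring
      omega
    have hzd1 : (zz m ^ (d - 1)).coeff (-(m : ℤ) * (d - 1) - j) = if j = 0 then 1 else 0 := by
      rw [hz, hcast]
      by_cases h : j = 0
      · rw [if_pos h, if_pos (by rw [h]; ring)]
      · rw [if_neg h, if_neg (by omega)]
    have hzη : (Cc ((d : ℂ) * c ^ (d - 1)) * zz m ^ (d - 1) * η).coeff (-(m : ℤ) * (d - 1) - j)
        = (d : ℂ) * c ^ (d - 1) * η.coeff (-j) := by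
      rw [mul_assoc, coeff_Cc_mul, zz_pow_mul_coeff, hcast]
      congr 2
      ring
    simp only [HahnSeries.coeff_add, coeff_Cc_mul, hzd, hzd1, hzη, coeff_cj, mul_add] at h3
    rw [HahnSeries.coeff_add]
    have hl : f.coeff d = f.leadingCoeff := rfl
    rw [hl] at h3
    split_ifs with h
    · rw [if_pos h] at h3
      linear_combination h3
    · rw [if_neg h] at h3
      linear_combination h3
  have hlcE : ∀ p ∈ E, p.1.leadingCoeff ≠ 0 := by
    intro p hp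
    have hd := hE.hpos p hp
    rw [leadingCoeff_ne_zero]; rintro h4; rw [h4] at hd; simp at hd
  have hc0 : c ≠ 0 := hw0
  have hη0 : Ord 0 η := by
    by_contra hcon
    have hηne : η ≠ 0 := by rintro h; apply hcon; rw [h]; exact Ord.zero 0
    have ho : η.order < 0 := by
      by_contra h; push Not at h; exact hcon ((Ord.order η).mono h)
    have ho2 : -(m : ℤ) + 1 ≤ η.order := hη1.le_order hηne
    have h1 := hmain (-η.order) (by omega) (by omega) (by rw [neg_neg]; exact Ord.order η) p0 hp0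
    rw [if_neg (by omega), zero_add, neg_neg] at h1
    have h2 := (key p0 hp0).1 (-(m : ℤ) * (p0.1.natDegree - 1) - -η.order) (by omega)
    rw [h2] at h1
    have hd := hE.hpos p0 hp0
    have hd0 : (p0.1.natDegree : ℂ) ≠ 0 := by exact_mod_cast hd.ne'
    have hl : (starRingEnd ℂ) p0.1.leadingCoeff ≠ 0 := by
      rw [Ne, map_eq_zero]; exact hlcE p0 hp0
    exact mul_ne_zero (mul_ne_zero (mul_ne_zero hd0 hl) (pow_ne_zero _ hc0))
      (coeff_order_ne hηne) h1.symm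
  have hηc : η.coeff 0 = w.coeff 0 := by
    rw [hη, HahnSeries.coeff_sub, coeff_Cc_mul, zz_coeff_ne m 0 (by omega)]
    ring
  refine ⟨hw, hρO, hc, hnorm, hη0, fun p hp => (key p hp).2.1, ?_, fun p hp => (key p hp).1⟩
  intro p hp
  have h1 := hmain 0 le_rfl (by omega) (by simpa using hη0) p hp
  rw [if_pos rfl, sub_zero, neg_zero, hηc] at h1
  have h2 := (key p hp).2.2
  rw [h1] at h2
  have h3 := (key p hp).2.1
  have hd := hE.hpos p hp
  have hd0 : (p.1.natDegree : ℂ) ≠ 0 := by exact_mod_cast hd.ne'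
  have hl0 := hlcE p hp
  set a := p.1.leadingCoeff with ha
  set b := p.1.coeff (p.1.natDegree - 1) with hb
  set d := p.1.natDegree with hdd
  set e := w.coeff 0 with he
  have hl : (starRingEnd ℂ) a ≠ 0 := by rwa [Ne, map_eq_zero]
  have hρρ : (starRingEnd ℂ) ρ0 * ρ0 = 1 := by
    rw [← Complex.normSq_eq_conj_mul_self, Complex.normSq_eq_norm_sq, hnorm]; simp
  have hcen : cen p.1 = -b / (d * a) := rfl
  rw [hcen]
  -- c^(d-1) = ...
  obtain ⟨k, hk⟩ : ∃ k, d = k + 1 := ⟨d - 1, by omega⟩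
  rw [hk] at h3
  have hpow : c ^ (d - 1) = c ^ k := by rw [hk]; simp
  rw [hpow] at h2
  rw [pow_succ] at h3
  -- a + conj a * c^k * c = 0, c = -ρ0^2
  have hck : (starRingEnd ℂ) a * c ^ k = a * (starRingEnd ℂ) ρ0 ^ 2 := by
    have h4 : (starRingEnd ℂ) a * c ^ k * ρ0 ^ 2 = a := by
      have : c = -ρ0 ^ 2 := hc
      have h5 : a + (starRingEnd ℂ) a * c ^ k * c = 0 := by linear_combination h3
      rw [this] at h5 ⊢
      linear_combination -h5
    have h5 : (starRingEnd ℂ) a * c ^ k * ((starRingEnd ℂ) ρ0 * ρ0) ^ 2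
        = a * (starRingEnd ℂ) ρ0 ^ 2 := by
      calc _ = ((starRingEnd ℂ) a * c ^ k * ρ0 ^ 2) * (starRingEnd ℂ) ρ0 ^ 2 := by ring
        _ = _ := by rw [h4]
    rw [hρρ, one_pow, mul_one] at h5
    exact h5
  have hbk : (starRingEnd ℂ) b * c ^ k = (starRingEnd ℂ) b / (starRingEnd ℂ) a
      * (a * (starRingEnd ℂ) ρ0 ^ 2) := by
    rw [← hck]; field_simp
  have h6 : 2 * (d : ℂ) * a = (p.2 : ℂ) * ρ0 * (b + (starRingEnd ℂ) b / (starRingEnd ℂ) a
      * (a * (starRingEnd ℂ) ρ0 ^ 2) + d * (a * (starRingEnd ℂ) ρ0 ^ 2) * e) := by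
    have h7 : c * ((d : ℂ) * (starRingEnd ℂ) a * c ^ k) = -((d : ℂ) * a) := by
      linear_combination (d : ℂ) * h3
    rw [h7] at h2
    have h8 : (d : ℂ) * (starRingEnd ℂ) a * c ^ k * e = d * (a * (starRingEnd ℂ) ρ0 ^ 2) * e := by
      rw [← hck]; ring
    rw [h8, hbk] at h2
    linear_combination h2
  have h9 : (starRingEnd ℂ) (ρ0 * (-b / (d * a)))
      = (starRingEnd ℂ) ρ0 * (-(starRingEnd ℂ) b / (d * (starRingEnd ℂ) a)) := by
    simp [map_div₀]
  rw [h9]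
  have h10 : (d : ℂ) * a ≠ 0 := mul_ne_zero hd0 hl0
  have h11 : (p.2 : ℂ) * ((starRingEnd ℂ) ρ0 * e - ρ0 * (-b / (d * a))
      - (starRingEnd ℂ) ρ0 * (-(starRingEnd ℂ) b / (d * (starRingEnd ℂ) a)))
      = (p.2 : ℂ) * ((starRingEnd ℂ) ρ0 * ρ0 * (starRingEnd ℂ) ρ0 * e - ρ0 * (-b / (d * a))
      - (starRingEnd ℂ) ρ0 * ρ0 * (starRingEnd ℂ) ρ0
        * (-(starRingEnd ℂ) b / (d * (starRingEnd ℂ) a))) := by
    rw [hρρ]; ring
  rw [h11]
  have h12 : (d : ℂ) * a * ((p.2 : ℂ) * ((starRingEnd ℂ) ρ0 * ρ0 * (starRingEnd ℂ) ρ0 * e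
      - ρ0 * (-b / (d * a))
      - (starRingEnd ℂ) ρ0 * ρ0 * (starRingEnd ℂ) ρ0
        * (-(starRingEnd ℂ) b / (d * (starRingEnd ℂ) a)))) = d * a * 2 := by
    have h13 : (d : ℂ) * a * 2 = 2 * d * a := by ring
    rw [h13, h6]
    field_simp
    ring
  exact mul_left_cancel₀ h10 h12

end Pool.Agent.Helper474
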