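import Mathlib
import Pool.Agent.Helper474.CaseThree

set_option autoImplicit false

namespace Pool.Agent.Helper474

open Polynomial

theorem Fam.lc_ne {E : Set (ℂ[X] × ℝ)} (hE : Fam E) : ∀ p ∈ E, p.1.leadingCoeff ≠ 0 := by
  intro p hp
  have hd := hE.hpos p hp
  rw [leadingCoeff_ne_zero]; rintro h4; rw [h4] at hd; simp at hd

theorem uniqI {m : ℕ} {E : Set (ℂ[X] × ℝ)} (hE : Fam E) (hm : 0 < m) {w₁ ρ₁ w₂ ρ₂ : K}
    (B₁ : Branch m E w₁ ρ₁) (B₂ : Branch m E w₂ ρ₂) (hw₁ : Ord (-(m : ℤ) + 1) w₁)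
    (hw₂ : Ord (-(m : ℤ) + 1) w₂) : ρ₁ = ρ₂ := by
  obtain ⟨hρ₁, _, hw₁0⟩ := caseI hE hm B₁ hw₁
  obtain ⟨hρ₂, _, hw₂0⟩ := caseI hE hm B₂ hw₂
  by_contra hne
  have hδ : ρ₁ - ρ₂ ≠ 0 := sub_ne_zero.2 hne
  obtain ⟨p, hp, hpn⟩ := hE.hunb ((ρ₁ - ρ₂).order.toNat)
  have h₁ := B₁.hE p hp
  have h₂ := B₂.hE p hp
  have hσ := hE.hσ p hp
  unfold EK at h₁ h₂
  set f := p.1 with hf
  set d := f.natDegree with hd
  have hm1 : (1 : ℤ) ≤ m := by exact_mod_cast hm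
  have e0 : ∀ (w : K), Ord 0 w → ∀ g : ℂ[X], Ord 0 (ev w g) := by
    intro w hw g
    have := ev_Ord (le_refl (0 : ℤ)) hw g g.natDegree le_rfl
    simpa using this
  have hρsq : ∀ ρ : K, Ord m ρ → Ord m (ρ ^ 2) := by
    intro ρ hρ
    exact (hρ.pow 2).mono (by push_cast; omega)
  have hO : Ord (m : ℤ) (Cc (p.2 : ℂ) * (ρ₁ - ρ₂) * ev (zz m) f) := by
    have : Cc (p.2 : ℂ) * (ρ₁ - ρ₂) * ev (zz m) f
        = ρ₁ ^ 2 * ev w₁ (derivative (cj f)) - ρ₂ ^ 2 * ev w₂ (derivative (cj f))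
          - Cc (p.2 : ℂ) * (ρ₁ * ev w₁ (cj f)) + Cc (p.2 : ℂ) * (ρ₂ * ev w₂ (cj f)) := by
      linear_combination h₂ - h₁
    rw [this]
    apply Ord.add
    apply Ord.sub
    apply Ord.sub
    · exact ((hρsq _ hρ₁).mul (e0 _ hw₁0 _)).mono (by omega)
    · exact ((hρsq _ hρ₂).mul (e0 _ hw₂0 _)).mono (by omega)
    · exact ((hρ₁.mul (e0 _ hw₁0 _)).C_mul _).mono (by omega)
    · exact ((hρ₂.mul (e0 _ hw₂0 _)).C_mul _).mono (by omega)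
  have hf1 : Ord (-(m : ℤ) * d) (ev (zz m) f) := ev_Ord (by omega) (zz_Ord m) f d le_rfl
  have hf1c : (ev (zz m) f).coeff (-(m : ℤ) * d) = f.leadingCoeff := coeff_ev_zz m hm f d
  have hx := (Ord.order (ρ₁ - ρ₂)).C_mul (p.2 : ℂ)
  have h3 := coeff_mul_of_Ord hx hf1
  rw [hf1c, coeff_Cc_mul] at h3
  have h4 := hO ((ρ₁ - ρ₂).order + -(m : ℤ) * d) (by
    have : ((ρ₁ - ρ₂).order.toNat : ℤ) < (d : ℤ) := by exact_mod_cast hpn
    have h5 := Int.self_le_toNat ((ρ₁ - ρ₂).order)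
    nlinarith)
  rw [h3] at h4
  refine mul_ne_zero (mul_ne_zero ?_ (coeff_order_ne hδ)) (hE.lc_ne p hp) h4
  exact_mod_cast hσ

theorem mixed {m : ℕ} {E : Set (ℂ[X] × ℝ)} (hE : Fam E) (hm : 0 < m) {w₁ ρ₁ w₃ ρ₃ : K}
    (B₁ : Branch m E w₁ ρ₁) (hw₁ : Ord (-(m : ℤ) + 1) w₁)
    (B₃ : CaseThree m E w₃ ρ₃) : False := by
  obtain ⟨hρ₁, hR, hw₁0⟩ := caseI hE hm B₁ hw₁
  have hm1 : (1 : ℤ) ≤ m := by exact_mod_cast hm
  have e0 : ∀ (w : K), Ord 0 w → ∀ g : ℂ[X], Ord 0 (ev w g) := by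
    intro w hw g
    have := ev_Ord (le_refl (0 : ℤ)) hw g g.natDegree le_rfl
    simpa using this
  set R := ρ₁.coeff m with hRdef
  set ρ0 := ρ₃.coeff 0 with hρ0
  set T := fun P : ℂ => (starRingEnd ℂ) ρ0 * w₃.coeff 0 - ρ0 * P - (starRingEnd ℂ) (ρ0 * P)
    with hT
  have key : ∀ p ∈ E, 2 ≤ p.1.natDegree → cen p.1 = ρ₁.coeff (2 * m) / R ∧ R ≠ 0 := by
    intro p hp hd2
    have h₁ := B₁.hE p hp
    have hσ := hE.hσ p hp
    have hRp := hR p hp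
    unfold EK at h₁
    set f := p.1 with hf
    set d := f.natDegree with hd
    have hO : Ord (m : ℤ) (ev (zz m) (derivative f) - Cc (p.2 : ℂ) * (ρ₁ * ev (zz m) f)) := by
      have : ev (zz m) (derivative f) - Cc (p.2 : ℂ) * (ρ₁ * ev (zz m) f)
          = Cc (p.2 : ℂ) * (ρ₁ * ev w₁ (cj f)) - ρ₁ ^ 2 * ev w₁ (derivative (cj f)) := by
        linear_combination h₁
      rw [this]
      apply Ord.sub
      · exact ((hρ₁.mul (e0 _ hw₁0 _)).C_mul _).mono (by omega)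
      · exact ((hρ₁.pow 2).mul (e0 _ hw₁0 _)).mono (by push_cast; omega)
    have hcast2 : ((d - 2 : ℕ) : ℤ) = (d : ℤ) - 2 := by rw [Nat.cast_sub hd2]; simp
    have hcast1 : ((d - 1 : ℕ) : ℤ) = (d : ℤ) - 1 := by rw [Nat.cast_sub (by omega)]; simp
    have hd2' : (2 : ℤ) ≤ d := by exact_mod_cast hd2
    have h0 := hO (-(m : ℤ) * (d - 2)) (by nlinarith)
    have h1 := coeff_ev_zz m hm (derivative f) (d - 2)
    rw [hcast2, coeff_derivative] at h1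
    have h2 : d - 2 + 1 = d - 1 := by omega
    rw [h2] at h1
    have h3 := ev_zz_second hm (le_refl (0 : ℤ)) (by omega) f d (by omega) le_rfl
    set Er := ev (zz m) f - (Cc (f.coeff d) * zz m ^ d + Cc (f.coeff (d - 1)) * zz m ^ (d - 1))
      with hEr
    have h4 : ev (zz m) f = Cc (f.coeff d) * zz m ^ d + Cc (f.coeff (d - 1)) * zz m ^ (d - 1) + Er
      := by rw [hEr]; ring
    have h5 : (ρ₁ * ev (zz m) f).coeff (-(m : ℤ) * (d - 2))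
        = f.coeff d * ρ₁.coeff (2 * m) + f.coeff (d - 1) * R := by
      rw [h4]
      have h6 : ρ₁ * (Cc (f.coeff d) * zz m ^ d + Cc (f.coeff (d - 1)) * zz m ^ (d - 1) + Er)
          = Cc (f.coeff d) * (zz m ^ d * ρ₁) + Cc (f.coeff (d - 1)) * (zz m ^ (d - 1) * ρ₁)
            + ρ₁ * Er := by ring
      rw [h6, HahnSeries.coeff_add, HahnSeries.coeff_add, coeff_Cc_mul, coeff_Cc_mul,
        zz_pow_mul_coeff, zz_pow_mul_coeff, hcast1]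
      have h7 : (ρ₁ * Er).coeff (-(m : ℤ) * (d - 2)) = 0 := by
        have := hρ₁.mul h3
        apply this
        have : (-(m : ℤ)) * (d - 2) = -(m : ℤ) * (d - 1) + m := by ring
        rw [this]; omega
      rw [h7, add_zero]
      congr 3
      · ring
      · ring
    rw [HahnSeries.coeff_sub, h1, coeff_Cc_mul, h5] at h0
    have hl : f.coeff d = f.leadingCoeff := rfl
    have hlc := hE.lc_ne p hp
    have hdne : (d : ℂ) ≠ 0 := by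
      have : d ≠ 0 := by omega
      exact_mod_cast this
    have hσ' : (p.2 : ℂ) ≠ 0 := by exact_mod_cast hσ
    have hRne : R ≠ 0 := by
      intro h; rw [h, mul_zero] at hRp; exact hdne hRp.symm
    refine ⟨?_, hRne⟩
    have hcen : cen f = -(f.coeff (d - 1)) / (d * f.leadingCoeff) := rfl
    rw [hcen]
    have hd2c : ((d - 2 : ℕ) : ℂ) = (d : ℂ) - 2 := by
      rw [Nat.cast_sub hd2]; simp
    rw [hd2c, hl] at h0
    rw [div_eq_div_iff (mul_ne_zero hdne hlc) hRne]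
    have h8 : -(f.coeff (d - 1)) = (p.2 : ℂ) * f.leadingCoeff * ρ₁.coeff (2 * m) := by
      linear_combination h0 + f.coeff (d - 1) * hRp
    rw [h8]
    linear_combination f.leadingCoeff * ρ₁.coeff (2 * m) * hRp
  obtain ⟨p, hp, hpn⟩ := hE.hunb 1
  obtain ⟨q, hq, hqn⟩ := hE.hunb p.1.natDegree
  obtain ⟨hcp, hRne⟩ := key p hp (by omega)
  obtain ⟨hcq, _⟩ := key q hq (by omega)
  have h1 := B₃.hrel p hp
  have h2 := B₃.hrel q hq
  rw [hcp] at h1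
  rw [hcq] at h2
  have hRp := hR p hp
  have hRq := hR q hq
  set T0 := (starRingEnd ℂ) (ρ₃.coeff 0) * w₃.coeff 0
    - ρ₃.coeff 0 * (ρ₁.coeff (2 * m) / R)
    - (starRingEnd ℂ) (ρ₃.coeff 0 * (ρ₁.coeff (2 * m) / R)) with hT0
  have h3 : (p.1.natDegree : ℂ) * T0 = 2 * R := by
    rw [← hRp, ← h1]; ring
  have h4 : (q.1.natDegree : ℂ) * T0 = 2 * R := by
    rw [← hRq, ← h2]; ring
  have h5 : ((q.1.natDegree : ℂ) - (p.1.natDegree : ℂ)) * T0 = 0 := by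
    linear_combination h4 - h3
  have h6 : (q.1.natDegree : ℂ) - (p.1.natDegree : ℂ) ≠ 0 := by
    rw [sub_ne_zero]
    have : q.1.natDegree ≠ p.1.natDegree := by omega
    exact_mod_cast this
  have h7 := (mul_eq_zero.1 h5).resolve_left h6
  rw [h7, mul_zero] at h1
  exact two_ne_zero h1.symm

theorem pow_diff {m : ℕ} {w₁ w₂ : K} {c : ℂ} {j : ℤ} (h₁ : Ord (-(m : ℤ)) w₁)
    (h₂ : Ord (-(m : ℤ)) w₂) (hc₁ : w₁.coeff (-(m : ℤ)) = c) (hc₂ : w₂.coeff (-(m : ℤ)) = c)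
    (hj : Ord j (w₁ - w₂)) (i : ℕ) :
    Ord (-(m : ℤ) * (i - 1) + j) (w₁ ^ i - w₂ ^ i) ∧
    (w₁ ^ i - w₂ ^ i).coeff (-(m : ℤ) * (i - 1) + j)
      = (i : ℂ) * c ^ (i - 1) * (w₁ - w₂).coeff j := by
  induction i with
  | zero => simpa using Ord.zero _
  | succ i ih =>
    have key : w₁ ^ (i + 1) - w₂ ^ (i + 1) = w₁ * (w₁ ^ i - w₂ ^ i) + (w₁ - w₂) * w₂ ^ i := by
      ring
    have h3 := h₁.mul ih.1
    have h3c := coeff_mul_of_Ord h₁ ih.1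
    have h4 := hj.mul (h₂.pow i)
    have h4c := coeff_mul_of_Ord hj (h₂.pow i)
    rw [coeff_pow_of_Ord h₂, hc₂] at h4c
    rw [ih.2, hc₁] at h3c
    have e1 : -(m : ℤ) + (-(m : ℤ) * (i - 1) + j) = -(m : ℤ) * (((i + 1 : ℕ) : ℤ) - 1) + j := by
      push_cast; ring
    have e2 : j + -(m : ℤ) * i = -(m : ℤ) * (((i + 1 : ℕ) : ℤ) - 1) + j := by
      push_cast; ring
    rw [e1] at h3 h3c
    rw [e2] at h4 h4c
    rw [key]
    refine ⟨h3.add h4, ?_⟩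
    rw [HahnSeries.coeff_add, h3c, h4c]
    rcases i with _ | i
    · simp
    · simp only [Nat.add_sub_cancel]
      push_cast
      ring

theorem ev_diff {m : ℕ} (hm : 0 < m) {w₁ w₂ : K} {c : ℂ} {j : ℤ} (h₁ : Ord (-(m : ℤ)) w₁)
    (h₂ : Ord (-(m : ℤ)) w₂) (hc₁ : w₁.coeff (-(m : ℤ)) = c) (hc₂ : w₂.coeff (-(m : ℤ)) = c)
    (hj : Ord j (w₁ - w₂)) (g : ℂ[X]) (d : ℕ) (hd : g.natDegree ≤ d) :
    Ord (-(m : ℤ) * (d - 1) + j) (ev w₁ g - ev w₂ g) ∧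
    (ev w₁ g - ev w₂ g).coeff (-(m : ℤ) * (d - 1) + j)
      = g.coeff d * ((d : ℂ) * c ^ (d - 1) * (w₁ - w₂).coeff j) := by
  have hm1 : (1 : ℤ) ≤ m := by exact_mod_cast hm
  have hsum : ev w₁ g - ev w₂ g
      = ∑ i ∈ Finset.range d, Cc (g.coeff i) * (w₁ ^ i - w₂ ^ i)
        + Cc (g.coeff d) * (w₁ ^ d - w₂ ^ d) := by
    rw [ev_sum w₁ g d hd, ev_sum w₂ g d hd, ← Finset.sum_sub_distrib, Finset.sum_range_succ]
    congr 1
    · apply Finset.sum_congr rfl; intro i _; ring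
    · ring
  have hlow : Ord (-(m : ℤ) * (d - 1) + j + 1)
      (∑ i ∈ Finset.range d, Cc (g.coeff i) * (w₁ ^ i - w₂ ^ i)) := by
    apply Ord.sum
    intro i hi
    apply Ord.C_mul
    apply (pow_diff h₁ h₂ hc₁ hc₂ hj i).1.mono
    have : (i : ℤ) + 1 ≤ (d : ℤ) := by
      have := Finset.mem_range.1 hi
      exact_mod_cast this
    nlinarith
  obtain ⟨h3, h4⟩ := pow_diff h₁ h₂ hc₁ hc₂ hj d
  rw [hsum]
  refine ⟨(hlow.mono (by omega)).add (h3.C_mul _), ?_⟩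
  rw [HahnSeries.coeff_add, hlow _ (by omega), zero_add, coeff_Cc_mul, h4]

theorem uniqIII {m : ℕ} {E : Set (ℂ[X] × ℝ)} (hE : Fam E) (hm : 0 < m) {w₁ ρ₁ w₂ ρ₂ : K}
    (B₁ : Branch m E w₁ ρ₁) (B₂ : Branch m E w₂ ρ₂) (C₁ : CaseThree m E w₁ ρ₁)
    (C₂ : CaseThree m E w₂ ρ₂) (h0 : ρ₁.coeff 0 = ρ₂.coeff 0) : w₁ = w₂ := by
  by_contra hne
  have hΔ : w₁ - w₂ ≠ 0 := sub_ne_zero.2 hne
  set j := (w₁ - w₂).order with hj
  have hjO : Ord j (w₁ - w₂) := Ord.order _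
  have hm1 : (1 : ℤ) ≤ m := by exact_mod_cast hm
  obtain ⟨p, hp, _⟩ := hE.hunb 0
  have h₁ := B₁.hE p hp
  have h₂ := B₂.hE p hp
  have hd := hE.hpos p hp
  have hσ := hE.hσ p hp
  have hlc := hE.lc_ne p hp
  unfold EK at h₁ h₂
  have hY := C₁.hY p hp
  set f := p.1 with hf
  set d := f.natDegree with hdd
  set c := w₁.coeff (-(m : ℤ)) with hc
  have hc₂ : w₂.coeff (-(m : ℤ)) = c := by rw [C₂.hc, hc, C₁.hc, h0]
  have hρ0 : ρ₁.coeff 0 ≠ 0 := by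
    intro h; have := C₁.hnorm; rw [h] at this; simp at this
  have hc0 : c ≠ 0 := by rw [hc, C₁.hc]; exact neg_ne_zero.2 (pow_ne_zero _ hρ0)
  obtain ⟨hG, hGc⟩ := ev_diff hm C₁.ordw C₂.ordw rfl hc₂ hjO (cj f) d (by rw [natDegree_cj])
  set G := ev w₁ (cj f) - ev w₂ (cj f) with hGdef
  -- derivative
  have hshift : ∀ (n : ℤ) (x : K), Ord n (zz m * x) → Ord (n + m) x := by
    intro n x hx i hi
    have := hx (i - m) (by omega)
    rw [zz_mul_coeff, sub_add_cancel] at this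
    exact this
  have hDG : D m G = -(zz m * (ρ₁ ^ 2 * ev w₁ (derivative (cj f))
      - ρ₂ ^ 2 * ev w₂ (derivative (cj f)))) := by
    rw [hGdef, D_sub]
    have e1 := D_eval₂ m w₁ (cj f)
    have e2 := D_eval₂ m w₂ (cj f)
    rw [B₁.hD] at e1
    rw [B₂.hD] at e2
    rw [e1, e2]; ring
  have hA : Ord (-(m : ℤ) * (d - 1) + j + m) (ρ₁ ^ 2 * ev w₁ (derivative (cj f))
      - ρ₂ ^ 2 * ev w₂ (derivative (cj f))) := by
    apply hshift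
    have := (hG.D m).neg
    rw [hDG, neg_neg] at this
    exact this
  have hDΔ : D m (w₁ - w₂) = -(zz m * ((ρ₁ + ρ₂) * (ρ₁ - ρ₂))) := by
    rw [D_sub, B₁.hD, B₂.hD]; ring
  have hB : Ord (j + m) (ρ₁ - ρ₂) := by
    have h3 : Ord (j + m) ((ρ₁ + ρ₂) * (ρ₁ - ρ₂)) := by
      apply hshift
      have := (hjO.D m).neg
      rw [hDΔ, neg_neg] at this
      exact this
    apply Ord.of_mul (C₁.ordρ.add C₂.ordρ) _ h3
    rw [HahnSeries.coeff_add, ← h0, ← two_mul]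
    exact mul_ne_zero two_ne_zero hρ0
  have hfin : Ord (-(m : ℤ) * (d - 1) + j + m) (Cc (p.2 : ℂ) * ρ₂ * G) := by
    have : Cc (p.2 : ℂ) * ρ₂ * G = (ρ₁ ^ 2 * ev w₁ (derivative (cj f))
      - ρ₂ ^ 2 * ev w₂ (derivative (cj f)))
        - Cc (p.2 : ℂ) * ((ρ₁ - ρ₂) * (ev (zz m) f + ev w₁ (cj f))) := by
      rw [hGdef]
      linear_combination h₂ - h₁
    rw [this]
    apply hA.sub
    apply Ord.C_mul
    apply (hB.mul hY).mono
    linarith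
  have hcoef := coeff_mul_of_Ord (C₂.ordρ.C_mul (p.2 : ℂ)) hG
  rw [zero_add, hGc, coeff_Cc_mul, hfin _ (by omega)] at hcoef
  have hd0 : (d : ℂ) ≠ 0 := by exact_mod_cast hd.ne'
  refine mul_ne_zero (mul_ne_zero ?_ ?_) (mul_ne_zero ?_ (mul_ne_zero (mul_ne_zero hd0
    (pow_ne_zero _ hc0)) (coeff_order_ne hΔ))) hcoef.symm
  · exact_mod_cast hσ
  · rwa [← h0]
  · rw [coeff_cj, Ne, map_eq_zero]; exact hlc

theorem three_caseIII {m : ℕ} {E : Set (ℂ[X] × ℝ)} {w₁ ρ₁ w₂ ρ₂ w₃ ρ₃ : K}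
    (C₁ : CaseThree m E w₁ ρ₁) (C₂ : CaseThree m E w₂ ρ₂) (C₃ : CaseThree m E w₃ ρ₃)
    (p q : ℂ[X] × ℝ) (hp : p ∈ E) (hq : q ∈ E) (hp0 : p.2 ≠ 0) (hq0 : q.2 ≠ 0)
    (hpq : p.2 ≠ q.2) :
    ρ₁.coeff 0 = ρ₂.coeff 0 ∨ ρ₁.coeff 0 = ρ₃.coeff 0 ∨ ρ₂.coeff 0 = ρ₃.coeff 0 := by
  by_contra hcon
  push Not at hcon
  obtain ⟨h12, h13, h23⟩ := hcon
  have hp0' : (p.2 : ℂ) ≠ 0 := by exact_mod_cast hp0
  have hq0' : (q.2 : ℂ) ≠ 0 := by exact_mod_cast hq0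
  set u := cen p.1 - cen q.1 with hu
  set κ : ℂ := 2 / (p.2 : ℂ) - 2 / (q.2 : ℂ) with hκ
  have hκ0 : κ ≠ 0 := by
    rw [hκ, sub_ne_zero, Ne, div_eq_div_iff hp0' hq0']
    intro h
    have : (q.2 : ℂ) = (p.2 : ℂ) := mul_left_cancel₀ two_ne_zero h
    exact hpq (by exact_mod_cast this.symm)
  have key : ∀ (w ρ : K), CaseThree m E w ρ →
      u * ρ.coeff 0 ^ 2 + κ * ρ.coeff 0 + (starRingEnd ℂ) u = 0 := by
    intro w ρ C
    have h1 := C.hrel p hp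
    have h2 := C.hrel q hq
    have hρρ : (starRingEnd ℂ) (ρ.coeff 0) * ρ.coeff 0 = 1 := by
      rw [← Complex.normSq_eq_conj_mul_self, Complex.normSq_eq_norm_sq, C.hnorm]; simp
    have h1' : (starRingEnd ℂ) (ρ.coeff 0) * w.coeff 0 - ρ.coeff 0 * cen p.1
        - (starRingEnd ℂ) (ρ.coeff 0 * cen p.1) = 2 / (p.2 : ℂ) := by
      rw [eq_div_iff hp0', mul_comm]; exact h1
    have h2' : (starRingEnd ℂ) (ρ.coeff 0) * w.coeff 0 - ρ.coeff 0 * cen q.1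
        - (starRingEnd ℂ) (ρ.coeff 0 * cen q.1) = 2 / (q.2 : ℂ) := by
      rw [eq_div_iff hq0', mul_comm]; exact h2
    have h3 : -(ρ.coeff 0 * u) - (starRingEnd ℂ) (ρ.coeff 0) * (starRingEnd ℂ) u = κ := by
      rw [hκ, ← h1', ← h2', hu]
      simp only [map_mul, map_sub]
      ring
    have h4 : u * ρ.coeff 0 ^ 2 + κ * ρ.coeff 0 + (starRingEnd ℂ) u
        = (starRingEnd ℂ) u * (1 - (starRingEnd ℂ) (ρ.coeff 0) * ρ.coeff 0) := by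
      rw [← h3]; ring
    rw [h4, hρρ]; ring
  have k1 := key _ _ C₁
  have k2 := key _ _ C₂
  have k3 := key _ _ C₃
  have e1 : (ρ₁.coeff 0 - ρ₂.coeff 0) * (u * (ρ₁.coeff 0 + ρ₂.coeff 0) + κ) = 0 := by
    linear_combination k1 - k2
  have e2 : (ρ₁.coeff 0 - ρ₃.coeff 0) * (u * (ρ₁.coeff 0 + ρ₃.coeff 0) + κ) = 0 := by
    linear_combination k1 - k3
  have e1' := (mul_eq_zero.1 e1).resolve_left (sub_ne_zero.2 h12)
  have e2' := (mul_eq_zero.1 e2).resolve_left (sub_ne_zero.2 h13)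
  have e3 : (ρ₂.coeff 0 - ρ₃.coeff 0) * u = 0 := by linear_combination e1' - e2'
  have hu0 := (mul_eq_zero.1 e3).resolve_left (sub_ne_zero.2 h23)
  rw [hu0, zero_mul, zero_add] at e1'
  exact hκ0 e1'

end Pool.Agent.Helper474
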