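import Mathlib
import Pool.Agent.Helper474.Uniq

set_option autoImplicit false

namespace Pool.Agent.Helper474

open Polynomial

/-- vanishing of a bivariate polynomial at all points (z, conj z), z in S. -/
def Van (S : Set ℂ) (p : ℂ[X][X]) : Prop := ∀ z ∈ S, evalEval z ((starRingEnd ℂ) z) p = 0

theorem pdiv {R : Type*} [CommRing R] [IsDomain R] (P : R[X]) (hP : 0 < P.natDegree) :
    ∀ n : ℕ, ∀ q : R[X], q.natDegree < n →
      ∃ (k : ℕ) (A r : R[X]), C (P.leadingCoeff ^ k) * q = P * A + r ∧
        r.natDegree < P.natDegree := by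
  intro n
  induction n with
  | zero => intro q hq; omega
  | succ n ih =>
    intro q hq
    by_cases hlt : q.natDegree < P.natDegree
    · exact ⟨0, 0, q, by simp, hlt⟩
    push Not at hlt
    set e := q.natDegree - P.natDegree with he
    set q1 := C P.leadingCoeff * q - P * (C q.leadingCoeff * X ^ e) with hq1
    have hq0 : q ≠ 0 := by
      rintro rfl; simp at hlt; omega
    have hd1 : q1.natDegree < q.natDegree := by
      have hle : q1.natDegree ≤ q.natDegree := by
        apply (natDegree_sub_le _ _).trans
        apply max_le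
        · exact natDegree_C_mul_le _ _
        · apply (natDegree_mul_le).trans
          have : (C q.leadingCoeff * X ^ e).natDegree ≤ e := natDegree_C_mul_X_pow_le _ _
          omega
      have hc : q1.coeff q.natDegree = 0 := by
        have h1 : q.natDegree = P.natDegree + e := by omega
        rw [hq1, coeff_sub, coeff_C_mul, ← mul_assoc, mul_comm P (C q.leadingCoeff), mul_assoc,
          coeff_C_mul]
        conv_lhs => rw [h1]
        rw [coeff_mul_X_pow, ← h1, coeff_natDegree, coeff_natDegree]
        ring
      rcases Nat.lt_or_ge q1.natDegree q.natDegree with h | h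
      · exact h
      · exfalso
        have heq : q1.natDegree = q.natDegree := le_antisymm hle h
        rw [← heq, coeff_natDegree, leadingCoeff_eq_zero] at hc
        rw [hc] at heq
        simp at heq
        omega
    obtain ⟨k, A, r, h1, h2⟩ := ih q1 (by omega)
    refine ⟨k + 1, A + C (P.leadingCoeff ^ k) * (C q.leadingCoeff * X ^ e), r, ?_, h2⟩
    rw [hq1] at h1
    rw [pow_succ, C_mul]
    linear_combination h1

theorem dvd_of_dvd_C_mul {P : ℂ[X][X]} (hprim : ∀ r : ℂ[X], C r ∣ P → IsUnit r) (l : ℂ[X])
    (hl : l ≠ 0) : ∀ q : ℂ[X][X], P ∣ C l * q → P ∣ q := by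
  induction l using WfDvdMonoid.induction_on_irreducible with
  | zero => exact absurd rfl hl
  | unit u hu =>
    intro q hq
    obtain ⟨v, rfl⟩ := hu
    have : IsUnit (C (v : ℂ[X]) : ℂ[X][X]) := Polynomial.isUnit_C.2 v.isUnit
    exact (this.dvd_mul_left).1 hq
  | mul a i ha hi ih =>
    intro q hq
    have ha' : a ≠ 0 := ha
    rw [C_mul, mul_assoc] at hq
    apply ih ha'
    obtain ⟨A, hA⟩ := hq
    have hpr : Prime (C i : ℂ[X][X]) := Polynomial.prime_C_iff.2 hi.prime
    have hd : C i ∣ P * A := ⟨C a * q, hA.symm⟩
    rcases hpr.dvd_or_dvd hd with h | h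
    · exact absurd (hprim i h) hi.not_isUnit
    · obtain ⟨A', rfl⟩ := h
      refine ⟨A', ?_⟩
      have : C i * (C a * q) = C i * (P * A') := by rw [hA]; ring
      exact mul_left_cancel₀ hpr.ne_zero this

/-- evaluation of a bivariate polynomial at a pair of Laurent series. -/
noncomputable def evK (z w : K) : ℂ[X][X] →+* K := eval₂RingHom (eval₂RingHom Cc z) w

theorem evK_C (z w : K) (f : ℂ[X]) : evK z w (C f) = ev z f := by
  simp [evK]

theorem evK_X (z w : K) : evK z w X = w := by
  simp [evK]

theorem evK_mapC (z w : K) (g : ℂ[X]) : evK z w (g.map C) = ev w g := by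
  simp only [evK, coe_eval₂RingHom, eval₂_map]
  congr 1
  ext c
  simp

/-- derivative in the inner variable. -/
noncomputable def dz (p : ℂ[X][X]) : ℂ[X][X] := p.sum (fun i a => monomial i (derivative a))

theorem coeff_dz (p : ℂ[X][X]) (i : ℕ) : (dz p).coeff i = derivative (p.coeff i) := by
  unfold dz
  rw [Polynomial.sum_def, finsetSum_coeff]
  simp only [coeff_monomial]
  rw [Finset.sum_ite_eq']
  split_ifs with h
  · rfl
  · rw [notMem_support_iff.1 h, derivative_zero]

theorem dz_add (p q : ℂ[X][X]) : dz (p + q) = dz p + dz q := by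
  apply Polynomial.ext; intro i
  rw [coeff_add, coeff_dz, coeff_dz, coeff_dz, coeff_add, derivative_add]

theorem dz_monomial (n : ℕ) (a : ℂ[X]) : dz (monomial n a) = monomial n (derivative a) := by
  apply Polynomial.ext; intro i
  rw [coeff_dz, coeff_monomial, coeff_monomial]
  split_ifs <;> simp

theorem D_pow (m : ℕ) (w : K) (n : ℕ) : D m (w ^ n) = (n : K) * w ^ (n - 1) * D m w := by
  have := D_eval₂ m w (X ^ n)
  rw [derivative_X_pow, eval₂_mul, eval₂_C, eval₂_X_pow, eval₂_X_pow, map_natCast] at this
  exact this

theorem D_evK (m : ℕ) (z w : K) (p : ℂ[X][X]) :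
    D m (evK z w p) = evK z w (dz p) * D m z + evK z w (derivative p) * D m w := by
  induction p using Polynomial.induction_on' with
  | add p q hp hq =>
    rw [map_add, D_add, hp, hq, dz_add, derivative_add, map_add, map_add]; ring
  | monomial n a =>
    rw [dz_monomial, derivative_monomial]
    simp only [evK, coe_eval₂RingHom, eval₂_monomial, map_mul, map_natCast]
    rw [D_mul, D_pow, D_eval₂]
    ring

end Pool.Agent.Helper474
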