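import Mathlib
import Pool.Agent.Helper474.AlgA

set_option autoImplicit false

namespace Pool.Agent.Helper474

open Polynomial

theorem ev_zz_inj (m : ℕ) (hm : 0 < m) (f : ℂ[X]) (h : ev (zz m) f = 0) : f = 0 := by
  apply Polynomial.ext; intro k
  rw [← coeff_ev_zz m hm f k, h]; simp

theorem evalEval_monomial' (z w : ℂ) (n : ℕ) (a : ℂ[X]) :
    evalEval z w (monomial n a) = a.eval z * w ^ n := by
  simp [evalEval, eval_monomial]

theorem continuous_evalEval_conj (q : ℂ[X][X]) :
    Continuous (fun z : ℂ => evalEval z ((starRingEnd ℂ) z) q) := by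
  induction q using Polynomial.induction_on' with
  | add p q hp hq =>
    simp only [evalEval_add]
    exact hp.add hq
  | monomial n a =>
    simp only [evalEval_monomial']
    exact (Polynomial.continuous a).mul (Complex.continuous_conj.pow n)

/-- no isolated points, in a strong form. -/
def NoIso (S : Set ℂ) : Prop := ∀ F : Set ℂ, F.Finite → S ⊆ closure (S \ F)

theorem NoIso.van {S : Set ℂ} (hS : NoIso S) {F : Set ℂ} (hF : F.Finite) {q : ℂ[X][X]}
    (h : ∀ z ∈ S \ F, evalEval z ((starRingEnd ℂ) z) q = 0) : Van S q := by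
  intro z hz
  have hcl : IsClosed {z : ℂ | evalEval z ((starRingEnd ℂ) z) q = 0} :=
    isClosed_eq (continuous_evalEval_conj q) continuous_const
  exact (closure_minimal (fun z hz => h z hz) hcl) (hS F hF hz)

theorem NoIso.infinite {S : Set ℂ} (hS : NoIso S) (hne : S.Nonempty) : S.Infinite := by
  intro hfin
  have h := hS S hfin
  rw [Set.sdiff_self, closure_empty] at h
  obtain ⟨z, hz⟩ := hne
  exact h hz

structure MinP (S : Set ℂ) (P : ℂ[X][X]) : Prop where
  ne : P ≠ 0
  van : Van S P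
  min : ∀ q : ℂ[X][X], q ≠ 0 → Van S q → P.natDegree ≤ q.natDegree
  prim : ∀ r : ℂ[X], C r ∣ P → IsUnit r

theorem exists_MinP {S : Set ℂ} (hS : NoIso S) (h : ∃ p : ℂ[X][X], p ≠ 0 ∧ Van S p) :
    ∃ P, MinP S P := by
  classical
  have h1 : ∃ n : ℕ, ∃ p : ℂ[X][X], p ≠ 0 ∧ Van S p ∧ p.natDegree = n := by
    obtain ⟨p, hp0, hp⟩ := h
    exact ⟨_, p, hp0, hp, rfl⟩
  set N := Nat.find h1 with hN
  have hNspec := Nat.find_spec h1
  have hNmin : ∀ q : ℂ[X][X], q ≠ 0 → Van S q → N ≤ q.natDegree := by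
    intro q hq0 hq
    exact Nat.find_min' h1 ⟨q, hq0, hq, rfl⟩
  have h2 : ∃ l : ℕ, ∃ p : ℂ[X][X], p ≠ 0 ∧ Van S p ∧ p.natDegree = N ∧
      p.leadingCoeff.natDegree = l := by
    obtain ⟨p, hp0, hp, hpN⟩ := hNspec
    exact ⟨_, p, hp0, hp, hpN, rfl⟩
  obtain ⟨P, hP0, hPv, hPN, hPl⟩ := Nat.find_spec h2
  have hlmin : ∀ q : ℂ[X][X], q ≠ 0 → Van S q → q.natDegree = N →
      P.leadingCoeff.natDegree ≤ q.leadingCoeff.natDegree := by
    intro q hq0 hq hqN
    rw [hPl]
    exact Nat.find_min' h2 ⟨q, hq0, hq, hqN, rfl⟩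
  refine ⟨P, hP0, hPv, ?_, ?_⟩
  · intro q hq0 hq
    rw [hPN]; exact hNmin q hq0 hq
  · intro r hr
    by_contra hru
    obtain ⟨P', hP'⟩ := hr
    have hr0 : r ≠ 0 := by
      rintro rfl; rw [C_0, zero_mul] at hP'; exact hP0 hP'
    have hP'0 : P' ≠ 0 := by
      rintro rfl; rw [mul_zero] at hP'; exact hP0 hP'
    have hP'v : Van S P' := by
      apply hS.van (F := {z | r.eval z = 0})
      · have : {z | r.eval z = 0} = (↑(r.roots.toFinset) : Set ℂ) := by
          ext z; simp [hr0]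
        rw [this]; exact Finset.finite_toSet _
      · intro z hz
        have h3 := hPv z hz.1
        rw [hP', evalEval_mul, evalEval_C] at h3
        exact (mul_eq_zero.1 h3).resolve_left hz.2
    have hdeg : P'.natDegree = N := by
      rw [← hPN, hP', natDegree_C_mul hr0]
    have h4 := hlmin P' hP'0 hP'v hdeg
    rw [hP', leadingCoeff_mul, leadingCoeff_C, natDegree_mul hr0 (leadingCoeff_ne_zero.2 hP'0)]
      at h4
    have h5 : r.natDegree = 0 := by omega
    apply hru
    rw [eq_C_of_natDegree_eq_zero h5]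
    rw [Polynomial.isUnit_C, isUnit_iff_ne_zero]
    intro h6
    apply hr0
    rw [eq_C_of_natDegree_eq_zero h5, h6, C_0]

theorem eq_zero_of_eval_infinite {S : Set ℂ} (hS : S.Infinite) (c : ℂ[X])
    (h : ∀ z ∈ S, c.eval z = 0) : c = 0 :=
  Polynomial.eq_zero_of_infinite_isRoot c (hS.mono h)

theorem MinP.natDegree_pos {S : Set ℂ} {P : ℂ[X][X]} (hP : MinP S P) (hS : S.Infinite) :
    0 < P.natDegree := by
  rcases Nat.eq_zero_or_pos P.natDegree with h | h
  · exfalso
    have h1 := eq_C_of_natDegree_eq_zero h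
    have h2 : P.coeff 0 = 0 := by
      apply eq_zero_of_eval_infinite hS
      intro z hz
      have := hP.van z hz
      rw [h1, evalEval_C] at this
      exact this
    apply hP.ne
    rw [h1, h2, C_0]
  · exact h

theorem ne_zero_lc {p : ℂ[X][X]} (m : ℕ) (hm : 0 < m) (w : K) (hp : p ≠ 0) (k : ℕ) :
    evK (zz m) w (C (p.leadingCoeff ^ k)) ≠ 0 := by
  rw [evK_C]
  intro h
  exact pow_ne_zero k (leadingCoeff_ne_zero.2 hp) (ev_zz_inj m hm _ h)

theorem MinP.van_root {S : Set ℂ} {P : ℂ[X][X]} (hP : MinP S P) (hS : S.Infinite) {m : ℕ}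
    (hm : 0 < m) {w : K} (hw : evK (zz m) w P = 0) (q : ℂ[X][X]) (hq : Van S q) :
    evK (zz m) w q = 0 := by
  obtain ⟨k, A, r, h1, h2⟩ := pdiv P (hP.natDegree_pos hS) (q.natDegree + 1) q (by omega)
  have hr : r = 0 := by
    by_contra hr0
    have hrv : Van S r := by
      intro z hz
      have : r = C (P.leadingCoeff ^ k) * q - P * A := by rw [h1]; ring
      rw [this, evalEval_sub, evalEval_mul, evalEval_mul, hP.van z hz, hq z hz]
      ring
    have := hP.min r hr0 hrv
    omega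
  rw [hr, add_zero] at h1
  have h3 : evK (zz m) w (C (P.leadingCoeff ^ k) * q) = 0 := by
    rw [h1, map_mul, hw, zero_mul]
  rw [map_mul] at h3
  exact (mul_eq_zero.1 h3).resolve_left (ne_zero_lc m hm w hP.ne k)

theorem MinP.dvd_C_mul {S : Set ℂ} {P : ℂ[X][X]} (hP : MinP S P) (hS : S.Infinite)
    (q : ℂ[X][X]) (hq : Van S q) : P ∣ q := by
  obtain ⟨k, A, r, h1, h2⟩ := pdiv P (hP.natDegree_pos hS) (q.natDegree + 1) q (by omega)
  have hr : r = 0 := by
    by_contra hr0
    have hrv : Van S r := by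
      intro z hz
      have : r = C (P.leadingCoeff ^ k) * q - P * A := by rw [h1]; ring
      rw [this, evalEval_sub, evalEval_mul, evalEval_mul, hP.van z hz, hq z hz]
      ring
    have := hP.min r hr0 hrv
    omega
  rw [hr, add_zero] at h1
  exact dvd_of_dvd_C_mul hP.prim _ (pow_ne_zero k (leadingCoeff_ne_zero.2 hP.ne)) q ⟨A, h1⟩

theorem MinP.der_ne {S : Set ℂ} {P : ℂ[X][X]} (hP : MinP S P) (hS : S.Infinite) {m : ℕ}
    (hm : 0 < m) {w : K} (hw : evK (zz m) w P = 0) : evK (zz m) w (derivative P) ≠ 0 := by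
  classical
  intro hder
  have hPpos := hP.natDegree_pos hS
  have hder0 : derivative P ≠ 0 := by
    intro h
    have := derivative_eq_zero.1 h
    omega
  have hex : ∃ n : ℕ, ∃ q : ℂ[X][X], q ≠ 0 ∧ evK (zz m) w q = 0 ∧ q.natDegree = n :=
    ⟨_, derivative P, hder0, hder, rfl⟩
  obtain ⟨Q, hQ0, hQw, hQn⟩ := Nat.find_spec hex
  have hQmin : ∀ q : ℂ[X][X], q ≠ 0 → evK (zz m) w q = 0 → Q.natDegree ≤ q.natDegree := by
    intro q hq0 hq
    rw [hQn]; exact Nat.find_min' hex ⟨q, hq0, hq, rfl⟩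
  have hQlt : Q.natDegree < P.natDegree :=
    lt_of_le_of_lt (hQmin _ hder0 hder) (natDegree_derivative_lt (by omega))
  have hQpos : 0 < Q.natDegree := by
    rcases Nat.eq_zero_or_pos Q.natDegree with h | h
    · exfalso
      have h1 := eq_C_of_natDegree_eq_zero h
      rw [h1, evK_C] at hQw
      have h2 := ev_zz_inj m hm _ hQw
      apply hQ0
      rw [h1, h2, C_0]
    · exact h
  have hdivQ : ∀ q : ℂ[X][X], evK (zz m) w q = 0 →
      ∃ (k : ℕ) (A : ℂ[X][X]), C (Q.leadingCoeff ^ k) * q = Q * A := by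
    intro q hq
    obtain ⟨k, A, r, h1, h2⟩ := pdiv Q hQpos (q.natDegree + 1) q (by omega)
    have hr : r = 0 := by
      by_contra hr0
      have : evK (zz m) w r = 0 := by
        have h3 : r = C (Q.leadingCoeff ^ k) * q - Q * A := by rw [h1]; ring
        rw [h3, map_sub, map_mul, map_mul, hq, hQw]; ring
      have := hQmin r hr0 this
      omega
    exact ⟨k, A, by rw [h1, hr, add_zero]⟩
  obtain ⟨k, U, hU⟩ := hdivQ P hw
  have hQ'0 : evK (zz m) w (derivative Q) ≠ 0 := by
    intro h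
    have h1 : derivative Q ≠ 0 := by
      intro h
      have := derivative_eq_zero.1 h
      omega
    have h2 := hQmin _ h1 h
    have h3 := natDegree_derivative_lt (p := Q) (by omega)
    omega
  have hUw : evK (zz m) w U = 0 := by
    have h1 := congrArg (fun q => evK (zz m) w (derivative q)) hU
    simp only [derivative_mul, derivative_C, zero_mul, zero_add, map_add, map_mul, hder, hQw,
      mul_zero, add_zero] at h1
    exact (mul_eq_zero.1 h1.symm).resolve_left hQ'0
  obtain ⟨k', V, hV⟩ := hdivQ U hUw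
  have hQV : C (Q.leadingCoeff ^ (k' + k)) * P = Q * (Q * V) := by
    rw [pow_add, C_mul, mul_assoc, hU, ← mul_assoc, mul_comm (C _) Q, mul_assoc, hV]
  have hv : Van S (Q * V) := by
    intro z hz
    have h1 : evalEval z ((starRingEnd ℂ) z) ((Q * V) * (Q * V)) = 0 := by
      have : (Q * V) * (Q * V) = C (Q.leadingCoeff ^ (k' + k)) * P * V := by
        rw [hQV]; ring
      rw [this, evalEval_mul, evalEval_mul, hP.van z hz]; ring
    rw [evalEval_mul] at h1
    exact mul_self_eq_zero.1 h1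
  have hlc : Q.leadingCoeff ^ (k' + k) ≠ 0 := pow_ne_zero _ (leadingCoeff_ne_zero.2 hQ0)
  have hQV0 : Q * V ≠ 0 := by
    intro h
    rw [h, mul_zero] at hQV
    rcases mul_eq_zero.1 hQV with h1 | h1
    · exact hlc (C_eq_zero.1 h1)
    · exact hP.ne h1
  have h1 := hP.min _ hQV0 hv
  have h2 : P.natDegree = Q.natDegree + (Q * V).natDegree := by
    rw [← natDegree_mul hQ0 hQV0, ← hQV, natDegree_C_mul hlc]
  omega

theorem MinP.dz_ne {S : Set ℂ} {P : ℂ[X][X]} (hP : MinP S P) (hNI : NoIso S)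
    (hS : S.Infinite) {m : ℕ}
    (hm : 0 < m) {w : K} (hw : evK (zz m) w P = 0) : evK (zz m) w (dz P) ≠ 0 := by
  intro hdz
  have h1 := D_evK m (zz m) w P
  have hD0 : D m (0 : K) = 0 := by
    have := D_C m 0
    rwa [map_zero] at this
  rw [hw, hdz, hD0, zero_mul, zero_add] at h1
  have hDw : D m w = 0 := (mul_eq_zero.1 h1.symm).resolve_left (hP.der_ne hS hm hw)
  have hwC := eq_C_of_D_eq_zero m hm w hDw
  set κ := w.coeff 0 with hκ
  have hdvd : (X - C (C κ)) ∣ P := by
    rw [dvd_iff_isRoot]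
    have h2 : evK (zz m) w P = ev (zz m) (P.eval (C κ)) := by
      have h3 : evK (zz m) w (P - C (P.eval (C κ))) = 0 := by
        obtain ⟨q, hq⟩ := Polynomial.X_sub_C_dvd_sub_C_eval (a := C κ) (p := P)
        rw [hq, map_mul, map_sub, evK_X, evK_C]
        have : ev (zz m) (C κ) = w := by rw [hwC]; simp
        rw [this]; ring
      rw [map_sub, evK_C, sub_eq_zero] at h3
      exact h3
    rw [hw] at h2
    exact ev_zz_inj m hm _ h2.symm
  obtain ⟨U, hU⟩ := hdvd
  have hU0 : U ≠ 0 := by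
    rintro rfl; rw [mul_zero] at hU; exact hP.ne hU
  have hUv : Van S U := by
    apply hNI.van (F := {(starRingEnd ℂ) κ}) (Set.finite_singleton _)
    intro z hz
    have h3 := hP.van z hz.1
    rw [hU, evalEval_mul, evalEval_sub, evalEval_X, evalEval_C, eval_C] at h3
    refine (mul_eq_zero.1 h3).resolve_left ?_
    intro h4
    apply hz.2
    have : (starRingEnd ℂ) z = κ := by linear_combination h4
    rw [Set.mem_singleton_iff, ← this]; simp
  have h5 := hP.min U hU0 hUv
  have h6 : P.natDegree = 1 + U.natDegree := by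
    rw [hU, natDegree_mul (X_sub_C_ne_zero _) hU0, natDegree_X_sub_C]
  omega

end Pool.Agent.Helper474
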