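import Mathlib
import Pool.Agent.Helper474.AlgB

set_option autoImplicit false

namespace Pool.Agent.Helper474

open Polynomial Polynomial.Bivariate

/-- swap the variables and conjugate the coefficients. -/
noncomputable def star' (q : ℂ[X][X]) : ℂ[X][X] := swap (q.map (mapRingHom (starRingEnd ℂ)))

theorem evalEval_swap' (x y : ℂ) (p : ℂ[X][X]) : evalEval x y (swap p) = evalEval y x p := by
  have h := aevalAeval_swap (R := ℂ) (A := ℂ) x y p
  rw [coe_aevalAeval_eq_evalEval, coe_aevalAeval_eq_evalEval] at h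
  exact h

theorem evalEval_star (z : ℂ) (q : ℂ[X][X]) :
    evalEval z ((starRingEnd ℂ) z) (star' q)
      = (starRingEnd ℂ) (evalEval z ((starRingEnd ℂ) z) q) := by
  rw [star', evalEval_swap']
  have h := map_mapRingHom_evalEval (starRingEnd ℂ) z ((starRingEnd ℂ) z) (p := q)
  rw [Complex.conj_conj] at h
  exact h

theorem swap_map (q : ℂ[X][X]) (f : ℂ →+* ℂ) :
    swap (q.map (mapRingHom f)) = (swap q).map (mapRingHom f) := by
  induction q using Polynomial.induction_on' with
  | add p q hp hq => rw [Polynomial.map_add, map_add, hp, hq, map_add, Polynomial.map_add]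
  | monomial n a =>
    induction a using Polynomial.induction_on' with
    | add p q hp hq =>
      rw [(monomial n).map_add, Polynomial.map_add, map_add, hp, hq, map_add,
        Polynomial.map_add]
    | monomial k c =>
      rw [map_monomial, coe_mapRingHom, map_monomial, swap_monomial_monomial,
        swap_monomial_monomial, map_monomial, coe_mapRingHom, map_monomial]

theorem mapRingHom_conj_injective :
    Function.Injective (mapRingHom (starRingEnd ℂ) : ℂ[X] →+* ℂ[X]) := by
  intro a b h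
  exact Polynomial.map_injective _ (starRingEnd ℂ).injective h

theorem natDegree_star (q : ℂ[X][X]) : (star' q).natDegree = (swap q).natDegree := by
  rw [star', swap_map]
  exact natDegree_map_eq_of_injective mapRingHom_conj_injective _

theorem swap_star (q : ℂ[X][X]) : swap (star' q) = q.map (mapRingHom (starRingEnd ℂ)) := by
  rw [star', swap_swap_apply]

theorem map_conj_ne {P : ℂ[X][X]} (hP : P ≠ 0) :
    P.map (mapRingHom (starRingEnd ℂ)) ≠ 0 :=
  (Polynomial.map_ne_zero_iff mapRingHom_conj_injective).2 hP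

theorem natDegree_map_conj (P : ℂ[X][X]) :
    (P.map (mapRingHom (starRingEnd ℂ))).natDegree = P.natDegree :=
  natDegree_map_eq_of_injective mapRingHom_conj_injective _

theorem MinP.natDegree_swap {S : Set ℂ} {P : ℂ[X][X]} (hP : MinP S P) (hS : S.Infinite) :
    (swap P).natDegree = P.natDegree := by
  have hv : Van S (star' P) := by
    intro z hz
    rw [evalEval_star, hP.van z hz, map_zero]
  obtain ⟨A, hA⟩ := hP.dvd_C_mul hS _ hv
  have hs := swap_star P
  have hne' := map_conj_ne hP.ne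
  have hA0 : A ≠ 0 := by
    rintro rfl
    rw [hA, mul_zero, map_zero] at hs
    exact hne' hs.symm
  have hsA : swap P * swap A = P.map (mapRingHom (starRingEnd ℂ)) := by
    rw [← hs, hA, map_mul]
  have hsP0 : swap P ≠ 0 := by
    intro h; rw [h, zero_mul] at hsA; exact hne' hsA.symm
  have hsA0 : swap A ≠ 0 := by
    intro h; rw [h, mul_zero] at hsA; exact hne' hsA.symm
  have h1 : (swap P).natDegree + (swap A).natDegree = P.natDegree := by
    rw [← natDegree_mul hsP0 hsA0, hsA, natDegree_map_conj]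
  have h2 : P.natDegree + A.natDegree = (swap P).natDegree := by
    rw [← natDegree_mul hP.ne hA0, ← hA, natDegree_star]
  omega

noncomputable def MM (p : ℂ[X][X]) (f : ℂ[X]) : ℂ[X][X] :=
  derivative p * C (derivative f) + dz p * (derivative (cj f)).map C

noncomputable def YY (f : ℂ[X]) : ℂ[X][X] := C f + (cj f).map C

noncomputable def R1 (p : ℂ[X][X]) (f : ℂ[X]) (σ : ℝ) : ℂ[X][X] :=
  (MM p f) ^ 2 - C (C ((σ : ℂ) ^ 2)) * (derivative p * dz p * (YY f) ^ 2)

noncomputable def R2 (p : ℂ[X][X]) (f : ℂ[X]) (σ : ℝ) (g : ℂ[X]) (τ : ℝ) : ℂ[X][X] :=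
  C (C (τ : ℂ)) * (MM p f * YY g) - C (C (σ : ℂ)) * (MM p g * YY f)

structure Rel (S : Set ℂ) (E : Set (ℂ[X] × ℝ)) : Prop where
  r1 : ∀ p, Van S p → ∀ e ∈ E, Van S (R1 p e.1 e.2)
  r2 : ∀ p, Van S p → ∀ e ∈ E, ∀ e' ∈ E, Van S (R2 p e.1 e.2 e'.1 e'.2)

theorem evK_CC (m : ℕ) (w : K) (c : ℂ) : evK (zz m) w (C (C c)) = Cc c := by
  rw [evK_C, ev, eval₂_C]

theorem branch_of_root {S : Set ℂ} {E : Set (ℂ[X] × ℝ)} {P : ℂ[X][X]} (hE : Fam E)
    (hP : MinP S P) (hNI : NoIso S) (hS : S.Infinite) (hR : Rel S E) {m : ℕ} (hm : 0 < m)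
    {w : K} (hw : evK (zz m) w P = 0) : ∃ ρ, Branch m E w ρ := by
  have hPw := hP.der_ne hS hm hw
  have hPz := hP.dz_ne hNI hS hm hw
  set Pw := evK (zz m) w (derivative P) with hPwdef
  set Pz := evK (zz m) w (dz P) with hPzdef
  have hchain : Pz * zz m + Pw * D m w = 0 := by
    have h1 := D_evK m (zz m) w P
    have hD0 : D m (0 : K) = 0 := by
      have := D_C m 0
      rwa [map_zero] at this
    rw [hw, hD0, D_zz m hm] at h1
    exact h1.symm
  -- abbreviations
  set a : ℂ[X] → K := fun f => ev (zz m) (derivative f) with ha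
  set b : ℂ[X] → K := fun f => ev w (derivative (cj f)) with hb
  set y : ℂ[X] → K := fun f => ev (zz m) f + ev w (cj f) with hy
  have hM : ∀ f, evK (zz m) w (MM P f) = Pw * a f + Pz * b f := by
    intro f
    simp only [MM, map_add, map_mul, evK_C, evK_mapC, ha, hb, hPwdef, hPzdef]
  have hY : ∀ f, evK (zz m) w (YY f) = y f := by
    intro f
    simp only [YY, map_add, evK_C, evK_mapC, hy]
  have hr1 : ∀ e ∈ E, (Pw * a e.1 + Pz * b e.1) ^ 2
      = Cc ((e.2 : ℂ) ^ 2) * (Pw * Pz * y e.1 ^ 2) := by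
    intro e he
    have h1 := hP.van_root hS hm hw _ (hR.r1 P hP.van e he)
    simp only [R1, map_sub, map_pow, map_mul, hM, hY, evK_CC] at h1
    rw [← hPwdef, ← hPzdef] at h1
    rw [map_pow]
    linear_combination h1
  have hr2 : ∀ e ∈ E, ∀ e' ∈ E, Cc (e'.2 : ℂ) * ((Pw * a e.1 + Pz * b e.1) * y e'.1)
      = Cc (e.2 : ℂ) * ((Pw * a e'.1 + Pz * b e'.1) * y e.1) := by
    intro e he e' he'
    have h1 := hP.van_root hS hm hw _ (hR.r2 P hP.van e he e' he')
    simp only [R2, map_sub, map_mul, hM, hY, evK_CC] at h1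
    linear_combination h1
  have hYne : ∀ e ∈ E, y e.1 ≠ 0 := by
    intro e he h0
    have h1 := hr1 e he
    rw [h0] at h1
    have h2 : Pw * a e.1 + Pz * b e.1 = 0 := by
      have : (Pw * a e.1 + Pz * b e.1) ^ 2 = 0 := by rw [h1]; ring
      exact pow_eq_zero_iff two_ne_zero |>.1 this
    have h3 : a e.1 * zz m + b e.1 * D m w = 0 := by
      have h4 : D m (y e.1) = a e.1 * zz m + b e.1 * D m w := by
        rw [hy, D_add, D_eval₂, D_eval₂, D_zz m hm]
      rw [← h4, h0]
      have := D_C m 0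
      rwa [map_zero] at this
    have h5 : Pw * (2 * (a e.1 * zz m)) = 0 := by
      linear_combination zz m * h2 + Pw * h3 - b e.1 * hchain
    have h6 : a e.1 = 0 := by
      rcases mul_eq_zero.1 h5 with h | h
      · exact absurd h hPw
      · rcases mul_eq_zero.1 h with h' | h'
        · exact absurd h' two_ne_zero
        · exact (mul_eq_zero.1 h').resolve_right (zz_ne_zero m)
    have h7 := ev_zz_inj m hm _ h6
    have h8 := Polynomial.derivative_eq_zero.1 h7
    have := hE.hpos e he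
    omega
  obtain ⟨e0, he0, _⟩ := hE.hunb 0
  have hσ0 : Cc (e0.2 : ℂ) ≠ 0 := by
    rw [Ne, map_eq_zero]
    exact_mod_cast hE.hσ e0 he0
  set M0 := Pw * a e0.1 + Pz * b e0.1 with hM0
  have hM0ne : M0 ≠ 0 := by
    intro h
    have h1 := hr1 e0 he0
    rw [← hM0, h] at h1
    have h2 : Cc ((e0.2 : ℂ) ^ 2) * (Pw * Pz * y e0.1 ^ 2) ≠ 0 := by
      rw [map_pow]
      exact mul_ne_zero (pow_ne_zero _ hσ0)
        (mul_ne_zero (mul_ne_zero hPw hPz) (pow_ne_zero _ (hYne e0 he0)))
    apply h2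
    rw [← h1]; ring
  refine ⟨Cc (e0.2 : ℂ) * Pz * y e0.1 / M0, ?_, ?_⟩
  · have h1 := hr1 e0 he0
    rw [← hM0, map_pow] at h1
    have h2 : (Cc (e0.2 : ℂ) * Pz * y e0.1 / M0) ^ 2 = Pz / Pw := by
      rw [div_pow, div_eq_div_iff (pow_ne_zero _ hM0ne) hPw, h1]
      ring
    rw [h2]
    have h3 : D m w = -(Pz * zz m) / Pw := by
      rw [eq_div_iff hPw]
      linear_combination hchain
    rw [h3]; ring
  · intro e he
    unfold EK
    have h1 := hr1 e0 he0
    rw [← hM0, map_pow] at h1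
    have h2 : (Cc (e0.2 : ℂ) * Pz * y e0.1 / M0) ^ 2 = Pz / Pw := by
      rw [div_pow, div_eq_div_iff (pow_ne_zero _ hM0ne) hPw, h1]
      ring
    rw [h2]
    have h3 := hr2 e0 he0 e he
    rw [← hM0] at h3
    have h4 : (Pw * a e.1 + Pz * b e.1) = Cc (e.2 : ℂ) * M0 * y e.1 / (Cc (e0.2 : ℂ) * y e0.1) := by
      rw [eq_div_iff (mul_ne_zero hσ0 (hYne e0 he0))]
      linear_combination -h3
    have h5 : M0 / (Cc (e0.2 : ℂ) * y e0.1 * Pw) = Cc (e0.2 : ℂ) * Pz * y e0.1 / M0 := by
      rw [div_eq_div_iff (mul_ne_zero (mul_ne_zero hσ0 (hYne e0 he0)) hPw) hM0ne]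
      linear_combination h1
    have h6 : ev (zz m) (derivative e.1) + Pz / Pw * ev w (derivative (cj e.1))
        = (Pw * a e.1 + Pz * b e.1) / Pw := by
      rw [eq_div_iff hPw, ha, hb]
      field_simp
    rw [h6, h4, ← h5]
    have hye := hYne e0 he0
    have h7 : ev (zz m) e.1 + ev w (cj e.1) = y e.1 := rfl
    rw [h7]
    field_simp

end Pool.Agent.Helper474
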