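import Mathlib
import Pool.Agent.Helper474.AlgC

set_option autoImplicit false

namespace Pool.Agent.Helper474

open Polynomial Polynomial.Bivariate

theorem coeff_coeff_swap (p : ℂ[X][X]) (i j : ℕ) :
    ((swap p).coeff j).coeff i = (p.coeff i).coeff j := by
  induction p using Polynomial.induction_on' with
  | add p q hp hq => rw [map_add, coeff_add, coeff_add, hp, hq, coeff_add, coeff_add]
  | monomial n a =>
    induction a using Polynomial.induction_on' with
    | add p q hp hq =>
      rw [(monomial n).map_add, map_add, coeff_add, coeff_add, hp, hq, coeff_add, coeff_add]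
    | monomial k c =>
      rw [swap_monomial_monomial]
      simp only [coeff_monomial]
      by_cases h1 : k = j <;> by_cases h2 : n = i <;> simp [h1, h2, coeff_monomial]

theorem natDegree_coeff_le_swap (p : ℂ[X][X]) (i : ℕ) :
    (p.coeff i).natDegree ≤ (swap p).natDegree := by
  rw [natDegree_le_iff_coeff_eq_zero]
  intro j hj
  rw [← coeff_coeff_swap, coeff_eq_zero_of_natDegree_lt hj, coeff_zero]

/-- the coefficient map from complex polynomials to Laurent series. -/
noncomputable abbrev phi (m : ℕ) : ℂ[X] →+* K := eval₂RingHom Cc (zz m)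

theorem phi_inj (m : ℕ) (hm : 0 < m) : Function.Injective (phi m) := by
  rw [injective_iff_map_eq_zero]
  intro f hf
  exact ev_zz_inj m hm f hf

theorem expandHom_phi (m : ℕ) (hm : 0 < m) : (expandHom m hm).comp (phi 1) = phi m := by
  apply Polynomial.ringHom_ext
  · intro c
    simp only [RingHom.comp_apply, phi, coe_eval₂RingHom, eval₂_C]
    exact expandHom_C m hm c
  · simp only [RingHom.comp_apply, phi, coe_eval₂RingHom, eval₂_X]
    rw [zz, expandHom_single, zz]
    congr 1
    push_cast; ring_nf

theorem exists_splits (P : ℂ[X][X]) : ∃ m : ℕ, 0 < m ∧ (P.map (phi m)).Splits := by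
  obtain ⟨m, hm, h⟩ := NP_splits (P.map (phi 1))
  refine ⟨m, hm, ?_⟩
  rwa [Polynomial.map_map, expandHom_phi] at h

theorem evK_eq_eval (m : ℕ) (w : K) (P : ℂ[X][X]) :
    evK (zz m) w P = (P.map (phi m)).eval w := by
  rw [eval_map]; rfl

theorem trichotomy {m : ℕ} {E : Set (ℂ[X] × ℝ)} (hE : Fam E) (hm : 0 < m) {w ρ : K}
    (B : Branch m E w ρ) : Ord (-(m : ℤ) + 1) w ∨ CaseThree m E w ρ := by
  by_cases hw : w = 0
  · left; rw [hw]; exact Ord.zero _
  rcases lt_trichotomy w.order (-(m : ℤ)) with h | h | h
  · exact (caseII hE hm B hw h).elim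
  · right
    apply caseIII hE hm B
    · rw [← h]; exact Ord.order w
    · rw [← h]; exact coeff_order_ne hw
  · left; exact (Ord.order w).mono (by omega)

theorem prod_Ord (n : ℤ) (t : Multiset K) (ht : ∀ a ∈ t, Ord n a) :
    Ord (n * Multiset.card t) t.prod ∧
    t.prod.coeff (n * Multiset.card t) = (t.map (fun a => a.coeff n)).prod := by
  induction t using Multiset.induction_on with
  | empty => simpa [HahnSeries.coeff_one] using Ord.one
  | cons a t ih =>
    have h1 := ih (fun b hb => ht b (Multiset.mem_cons_of_mem hb))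
    have h2 := ht a (Multiset.mem_cons_self a t)
    rw [Multiset.prod_cons, Multiset.map_cons, Multiset.prod_cons, Multiset.card_cons]
    have h3 := h2.mul h1.1
    have h4 := coeff_mul_of_Ord h2 h1.1
    have e1 : n + n * (Multiset.card t : ℤ) = n * ((Multiset.card t + 1 : ℕ) : ℤ) := by
      push_cast; ring
    rw [e1] at h3 h4
    exact ⟨h3, by rw [h4, h1.2]⟩

theorem roots_nodup {S : Set ℂ} {P : ℂ[X][X]} (hP : MinP S P) (hS : S.Infinite) {m : ℕ}
    (hm : 0 < m) : (P.map (phi m)).roots.Nodup := by
  classical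
  have hne : P.map (phi m) ≠ 0 := (Polynomial.map_ne_zero_iff (phi_inj m hm)).2 hP.ne
  rw [Multiset.nodup_iff_count_le_one]
  intro w
  rw [count_roots]
  by_contra hcon
  push Not at hcon
  have h1 := (one_lt_rootMultiplicity_iff_isRoot hne).1 hcon
  have h2 : evK (zz m) w P = 0 := by rw [evK_eq_eval]; exact h1.1
  apply hP.der_ne hS hm h2
  rw [evK_eq_eval, ← derivative_map]
  exact h1.2

end Pool.Agent.Helper474
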