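import Mathlib
import Pool.Agent.Helper474.AlgD

set_option autoImplicit false

namespace Pool.Agent.Helper474

open Polynomial Polynomial.Bivariate

theorem evalEval_line (P : ℂ[X][X]) (c e x : ℂ) :
    evalEval x (c * x + e) P = (P.eval (C c * X + C e)).eval x := by
  have h1 : evalEval x (c * x + e) P = eval₂ (evalRingHom x) (c * x + e) P := by
    rw [eval₂_evalRingHom]
  have h2 : c * x + e = evalRingHom x (C c * X + C e) := by simp
  rw [h1, h2, eval₂_at_apply, coe_evalRingHom]

theorem caseB {S : Set ℂ} {E : Set (ℂ[X] × ℝ)} (hE : Fam E)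
    (hσ2 : ∃ p ∈ E, ∃ q ∈ E, p.2 ≠ q.2) (hS : S.Infinite)
    {P : ℂ[X][X]} (hP : MinP S P) {m : ℕ} (hm : 0 < m) (hsp : (P.map (phi m)).Splits)
    (hall : ∀ w ∈ (P.map (phi m)).roots, ∃ ρ, Branch m E w ρ ∧ CaseThree m E w ρ) :
    ∃ v : ℂ, v ≠ 0 ∧ ∀ z : ℂ, ∃ α β : ℂ, ∀ t : ℝ,
      evalEval (z + t * v) ((starRingEnd ℂ) (z + t * v)) P = α + β * t := by
  classical
  have hne : P.map (phi m) ≠ 0 := (Polynomial.map_ne_zero_iff (phi_inj m hm)).2 hP.ne
  have hdeg : (P.map (phi m)).natDegree = P.natDegree :=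
    natDegree_map_eq_of_injective (phi_inj m hm) P
  have hcard : Multiset.card (P.map (phi m)).roots = P.natDegree := by
    rw [← hdeg]; exact splits_iff_card_roots.1 hsp
  have hPpos := hP.natDegree_pos hS
  have hnodup := roots_nodup hP hS hm
  -- at most two roots
  have hle2 : P.natDegree ≤ 2 := by
    by_contra hcon
    push Not at hcon
    have h1 : 2 < (P.map (phi m)).roots.toFinset.card := by
      rw [Multiset.toFinset_card_of_nodup hnodup, hcard]; exact hcon
    obtain ⟨w₁, w₂, w₃, h₁, h₂, h₃, h12, h13, h23⟩ := Finset.two_lt_card_iff.1 h1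
    obtain ⟨ρ₁, B₁, C₁⟩ := hall w₁ (Multiset.mem_toFinset.1 h₁)
    obtain ⟨ρ₂, B₂, C₂⟩ := hall w₂ (Multiset.mem_toFinset.1 h₂)
    obtain ⟨ρ₃, B₃, C₃⟩ := hall w₃ (Multiset.mem_toFinset.1 h₃)
    obtain ⟨p, hp, q, hq, hpq⟩ := hσ2
    rcases three_caseIII C₁ C₂ C₃ p q hp hq (hE.hσ p hp) (hE.hσ q hq) hpq with h | h | h
    · exact h12 (uniqIII hE hm B₁ B₂ C₁ C₂ h)
    · exact h13 (uniqIII hE hm B₁ B₃ C₁ C₃ h)
    · exact h23 (uniqIII hE hm B₂ B₃ C₂ C₃ h)
  -- a root
  have hex : ∃ w, w ∈ (P.map (phi m)).roots := by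
    apply Multiset.card_pos_iff_exists_mem.1
    rw [hcard]; exact hPpos
  obtain ⟨w₁, hw₁⟩ := hex
  obtain ⟨ρ₁, B₁, C₁⟩ := hall w₁ hw₁
  set c := w₁.coeff (-(m : ℤ)) with hc
  set ρ0 := ρ₁.coeff 0 with hρ0
  have hm1 : (1 : ℤ) ≤ m := by exact_mod_cast hm
  have hρρ : (starRingEnd ℂ) ρ0 * ρ0 = 1 := by
    rw [← Complex.normSq_eq_conj_mul_self, Complex.normSq_eq_norm_sq, C₁.hnorm]; simp
  have hρ0ne : ρ0 ≠ 0 := by
    intro h; rw [h, mul_zero] at hρρ; exact zero_ne_one hρρ
  have hrootOrd : ∀ a ∈ (P.map (phi m)).roots, Ord (-(m : ℤ)) a := by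
    intro a ha
    obtain ⟨_, _, C⟩ := hall a ha
    exact C.ordw
  -- leading coefficient has degree zero
  have hlc0 : P.leadingCoeff ≠ 0 := leadingCoeff_ne_zero.2 hP.ne
  set l := P.leadingCoeff.natDegree with hl
  have hlcK : (P.map (phi m)).leadingCoeff = ev (zz m) P.leadingCoeff := by
    rw [leadingCoeff, hdeg, coeff_map]; rfl
  have hlcO : Ord (-(m : ℤ) * l) (ev (zz m) P.leadingCoeff) :=
    ev_Ord (by omega) (zz_Ord m) _ _ le_rfl
  have hlcc : (ev (zz m) P.leadingCoeff).coeff (-(m : ℤ) * l) ≠ 0 := by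
    rw [coeff_ev_zz m hm]
    exact leadingCoeff_ne_zero.2 hlc0
  have hl0 : l = 0 := by
    obtain ⟨hprod, hprodc⟩ := prod_Ord (-(m : ℤ)) (P.map (phi m)).roots hrootOrd
    have h1 := hsp.coeff_zero_eq_leadingCoeff_mul_prod_roots
    have h2 := hlcO.mul hprod
    have h3 := coeff_mul_of_Ord hlcO hprod
    rw [← hlcK] at h3 h2
    have h4 : ((P.map (phi m)).leadingCoeff * (P.map (phi m)).roots.prod).coeff
        (-(m : ℤ) * l + -(m : ℤ) * (Multiset.card (P.map (phi m)).roots)) ≠ 0 := by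
      rw [h3, hlcK, hprodc]
      apply mul_ne_zero hlcc
      rw [Ne, Multiset.prod_eq_zero_iff, Multiset.mem_map]
      rintro ⟨a, ha, ha0⟩
      obtain ⟨ρ, _, C⟩ := hall a ha
      have h5 := C.hc
      rw [ha0] at h5
      have h6 : ρ.coeff 0 = 0 := by
        have : (ρ.coeff 0) ^ 2 = 0 := by linear_combination h5
        exact pow_eq_zero_iff two_ne_zero |>.1 this
      have h7 := C.hnorm
      rw [h6] at h7; simp at h7
    have h5 : ((P.map (phi m)).coeff 0).coeff
        (-(m : ℤ) * l + -(m : ℤ) * (Multiset.card (P.map (phi m)).roots)) ≠ 0 := by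
      rw [h1]
      have hunit : ∀ (n : ℕ) (x : K) (i : ℤ), x.coeff i ≠ 0 → ((-1 : K) ^ n * x).coeff i ≠ 0 := by
        intro n x i hx
        rcases neg_one_pow_eq_or K n with h | h
        · rw [h, one_mul]; exact hx
        · rw [h, neg_one_mul, HahnSeries.coeff_neg, neg_ne_zero]; exact hx
      have := hunit (P.map (phi m)).natDegree _ _ h4
      rw [mul_assoc]
      exact this
    rw [coeff_map] at h5
    have h6 : Ord (-(m : ℤ) * P.natDegree) (phi m (P.coeff 0)) := by
      have := natDegree_coeff_le_swap P 0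
      rw [hP.natDegree_swap hS] at this
      exact ev_Ord (by omega) (zz_Ord m) _ _ this
    by_contra hcon
    apply h5
    apply h6
    rw [hcard]
    have : (1 : ℤ) ≤ l := by
      have : 1 ≤ l := Nat.one_le_iff_ne_zero.2 hcon
      exact_mod_cast this
    nlinarith
  -- the restricted polynomial has degree at most one
  have hp1 : ∀ e : ℂ, (P.eval (C c * X + C e)).natDegree ≤ 1 := by
    intro e
    set p := P.eval (C c * X + C e) with hp
    set w' : K := Cc c * zz m + Cc e with hw'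
    have h1 : ev (zz m) p = (P.map (phi m)).eval w' := by
      have h2 : w' = phi m (C c * X + C e) := by simp [hw']
      rw [h2, eval_map, eval₂_at_apply]; rfl
    have h2 := hsp.eval_eq_prod_roots w'
    obtain ⟨t, ht⟩ := Multiset.exists_cons_of_mem hw₁
    have hct : Multiset.card t + 1 ≤ 2 := by
      have := hcard
      rw [ht, Multiset.card_cons] at this
      omega
    have h3 : Ord (-(m : ℤ)) ((t.map (fun a => w' - a)).prod) := by
      have h4 := (prod_Ord (-(m : ℤ)) (t.map (fun a => w' - a)) (by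
        intro b hb
        obtain ⟨a, ha, rfl⟩ := Multiset.mem_map.1 hb
        apply Ord.sub
        · apply Ord.add
          · exact (zz_Ord m).C_mul c
          · exact (Ord.C e).mono (by omega)
        · apply hrootOrd
          rw [ht]; exact Multiset.mem_cons_of_mem ha)).1
      apply h4.mono
      rw [Multiset.card_map]
      have : (Multiset.card t : ℤ) ≤ 1 := by
        have : Multiset.card t ≤ 1 := by omega
        exact_mod_cast this
      nlinarith
    have h5 : Ord 0 (w' - w₁) := by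
      have : w' - w₁ = Cc e - (w₁ - Cc c * zz m) := by rw [hw']; ring
      rw [this]
      exact (Ord.C e).sub C₁.ordη
    have h6 : Ord (-(m : ℤ)) (ev (zz m) p) := by
      rw [h1, h2, ht, Multiset.map_cons, Multiset.prod_cons, hlcK]
      have h7 : Ord 0 (ev (zz m) P.leadingCoeff) := by
        rw [hl0] at hlcO; simpa using hlcO
      have := h7.mul (h5.mul h3)
      simpa using this
    rw [natDegree_le_iff_coeff_eq_zero]
    intro k hk
    rw [← coeff_ev_zz m hm p k]
    apply h6
    have : (2 : ℤ) ≤ k := by exact_mod_cast hk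
    nlinarith
  refine ⟨Complex.I * (starRingEnd ℂ) ρ0, ?_, ?_⟩
  · apply mul_ne_zero Complex.I_ne_zero
    rwa [Ne, map_eq_zero]
  · intro z
    set v := Complex.I * (starRingEnd ℂ) ρ0 with hv
    have hcv : (starRingEnd ℂ) v = c * v := by
      rw [hv, hc, C₁.hc, ← hρ0]
      simp only [map_mul, Complex.conj_I, Complex.conj_conj]
      linear_combination Complex.I * ρ0 * hρρ
    set e := (starRingEnd ℂ) z - c * z with he
    have h1 := Polynomial.eq_X_add_C_of_natDegree_le_one (hp1 e)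
    set p := P.eval (C c * X + C e) with hp
    refine ⟨p.coeff 1 * z + p.coeff 0, p.coeff 1 * v, ?_⟩
    intro t
    have h2 : (starRingEnd ℂ) (z + t * v) = c * (z + t * v) + e := by
      rw [map_add, map_mul, Complex.conj_ofReal, hcv, he]; ring
    rw [h2, evalEval_line, ← hp, h1]
    simp only [eval_add, eval_mul, eval_C, eval_X, coeff_add, coeff_C_mul, coeff_X_one,
      coeff_X_zero, coeff_C_zero, mul_one, mul_zero, zero_add]
    have : (C (p.coeff 0) : ℂ[X]).coeff 1 = 0 := coeff_C_succ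
    rw [this]
    ring

end Pool.Agent.Helper474
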