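import Mathlib
import Pool.Agent.Helper474.AlgE

set_option autoImplicit false

namespace Pool.Agent.Helper474

open Polynomial Polynomial.Bivariate

theorem exists_coprime (A B : ℂ[X]) (hB : B ≠ 0) :
    ∃ g A' B' : ℂ[X], g ≠ 0 ∧ A = g * A' ∧ B = g * B' ∧ IsCoprime A' B' := by
  classical
  refine ⟨EuclideanDomain.gcd A B, A / EuclideanDomain.gcd A B, B / EuclideanDomain.gcd A B,
    ?_, ?_, ?_, ?_⟩
  · intro h
    exact hB (EuclideanDomain.gcd_eq_zero_iff.1 h).2
  · exact (EuclideanDomain.mul_div_cancel' (fun h => hB (EuclideanDomain.gcd_eq_zero_iff.1 h).2)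
      (EuclideanDomain.gcd_dvd_left A B)).symm
  · exact (EuclideanDomain.mul_div_cancel' (fun h => hB (EuclideanDomain.gcd_eq_zero_iff.1 h).2)
      (EuclideanDomain.gcd_dvd_right A B)).symm
  · have h0 : EuclideanDomain.gcd A B ≠ 0 := fun h => hB (EuclideanDomain.gcd_eq_zero_iff.1 h).2
    have h1 := EuclideanDomain.mul_div_cancel' h0 (EuclideanDomain.gcd_dvd_left A B)
    have h2 := EuclideanDomain.mul_div_cancel' h0 (EuclideanDomain.gcd_dvd_right A B)
    have h3 := EuclideanDomain.gcd_eq_gcd_ab A B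
    refine ⟨EuclideanDomain.gcdA A B, EuclideanDomain.gcdB A B, ?_⟩
    apply mul_left_cancel₀ h0
    linear_combination EuclideanDomain.gcdA A B * h1 + EuclideanDomain.gcdB A B * h2 - h3

theorem finite_circ (z0 l g : ℂ) (hl : l ≠ 0) :
    {z : ℂ | (z - z0) * ((starRingEnd ℂ) (z - z0) + l) = g}.Finite := by
  classical
  set q : ℂ[X] := (X - C g) * (X - C ((starRingEnd ℂ) g)) - C (l * (starRingEnd ℂ) l) * X with hq
  have hq0 : q ≠ 0 := by
    intro h
    have h1 : q.coeff 2 = 1 := by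
      have : q = X ^ 2 + C (-(g + (starRingEnd ℂ) g) - l * (starRingEnd ℂ) l) * X ^ 1
          + C (g * (starRingEnd ℂ) g) := by
        rw [hq]; simp only [C_mul, C_add, C_neg, C_sub]; ring
      rw [this, coeff_add, coeff_add, coeff_X_pow, coeff_C_mul_X_pow, coeff_C]
      norm_num
    rw [h] at h1; simp at h1
  have hfin : ((fun r : ℂ => z0 + (g - r) / l) '' (↑(q.roots.toFinset) : Set ℂ)).Finite :=
    (Finset.finite_toSet _).image _
  apply hfin.subset
  intro z hz
  simp only [Set.mem_ofPred_eq] at hz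
  set ζ := z - z0 with hζ
  set r := ζ * (starRingEnd ℂ) ζ with hr
  have h1 : l * ζ = g - r := by rw [hr]; linear_combination hz
  have h2 : (starRingEnd ℂ) r = r := by rw [hr, map_mul, Complex.conj_conj, mul_comm]
  have h3 : (starRingEnd ℂ) l * (starRingEnd ℂ) ζ = (starRingEnd ℂ) g - r := by
    rw [← map_mul, h1, map_sub, h2]
  refine ⟨r, ?_, ?_⟩
  · rw [Finset.mem_coe, Multiset.mem_toFinset, mem_roots hq0, IsRoot.def, hq]
    simp only [eval_sub, eval_mul, eval_X, eval_C]
    linear_combination (- (starRingEnd ℂ) l * (starRingEnd ℂ) ζ) * h1 - (g - r) * h3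
      + (starRingEnd ℂ l) * l * hr
  · simp only
    rw [← h1, mul_div_cancel_left₀ _ hl, hζ]; ring

/-- the linear factor attached to the constant κ. -/
noncomputable def QQ (A B : ℂ[X]) (κ : ℂ) : ℂ[X][X] := C B * X - C (A + C κ * B)

theorem evalEval_QQ (A B : ℂ[X]) (κ z w : ℂ) :
    evalEval z w (QQ A B κ) = B.eval z * w - (A.eval z + κ * B.eval z) := by
  simp [QQ, evalEval_C]

theorem QQ_coeff_one (A B : ℂ[X]) (κ : ℂ) : (QQ A B κ).coeff 1 = B := by
  rw [QQ, coeff_sub, coeff_C_mul, coeff_X_one, mul_one, coeff_C_succ, sub_zero]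

theorem QQ_coeff_zero (A B : ℂ[X]) (κ : ℂ) : (QQ A B κ).coeff 0 = -(A + C κ * B) := by
  rw [QQ, coeff_sub, coeff_C_mul, coeff_X_zero, mul_zero, coeff_C_zero, zero_sub]

theorem QQ_natDegree (A B : ℂ[X]) (hB : B ≠ 0) (κ : ℂ) : (QQ A B κ).natDegree = 1 := by
  apply le_antisymm
  · rw [QQ]
    apply (natDegree_sub_le _ _).trans
    apply max_le
    · exact (natDegree_C_mul_le _ _).trans natDegree_X_le
    · rw [natDegree_C]; exact Nat.zero_le _
  · apply le_natDegree_of_ne_zero
    rw [QQ_coeff_one]; exact hB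

theorem QQ_prim {A B : ℂ[X]} (h : IsCoprime A B) (κ : ℂ) (r : ℂ[X]) (hr : C r ∣ QQ A B κ) :
    IsUnit r := by
  rw [C_dvd_iff_dvd_coeff] at hr
  have h0 := hr 0
  have h1 := hr 1
  rw [QQ_coeff_one] at h1
  rw [QQ_coeff_zero, dvd_neg] at h0
  have h2 : IsCoprime (A + C κ * B) B := by
    exact IsCoprime.add_mul_right_left h (C κ)
  exact h2.isUnit_of_dvd' h0 h1

theorem QQ_map {m : ℕ} {A B : ℂ[X]} {w : K} (hw : phi m B * w = phi m A) (κ : ℂ) :
    (QQ A B κ).map (phi m) = C (phi m B) * (X - C (w + Cc κ)) := by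
  have h1 : phi m (A + C κ * B) = phi m B * (w + Cc κ) := by
    rw [map_add, map_mul, ← hw]
    have : phi m (C κ) = Cc κ := by simp
    rw [this]; ring
  rw [QQ, Polynomial.map_sub, Polynomial.map_mul, map_C, map_X, map_C, h1, C_mul]
  ring

theorem caseA {S : Set ℂ} {E : Set (ℂ[X] × ℝ)} (hE : Fam E)
    (hNI : NoIso S) (hS : S.Infinite)
    {P : ℂ[X][X]} (hP : MinP S P) {m : ℕ} (hm : 0 < m) (hsp : (P.map (phi m)).Splits)
    (hall : ∀ w ∈ (P.map (phi m)).roots, ∃ ρ, Branch m E w ρ ∧ Ord (-(m : ℤ) + 1) w) :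
    ∃ (z0 : ℂ) (R : ℝ), 0 < R ∧ ∀ z ∈ S, ‖z - z0‖ = R := by
  classical
  have hne : P.map (phi m) ≠ 0 := (Polynomial.map_ne_zero_iff (phi_inj m hm)).2 hP.ne
  have hdeg : (P.map (phi m)).natDegree = P.natDegree :=
    natDegree_map_eq_of_injective (phi_inj m hm) P
  have hcard : Multiset.card (P.map (phi m)).roots = P.natDegree := by
    rw [← hdeg]; exact splits_iff_card_roots.1 hsp
  have hPpos := hP.natDegree_pos hS
  have hm1 : (1 : ℤ) ≤ m := by exact_mod_cast hm
  set t := (P.map (phi m)).roots with ht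
  have hex : ∃ w, w ∈ t := by
    apply Multiset.card_pos_iff_exists_mem.1
    rw [hcard]; exact hPpos
  obtain ⟨w₁, hw₁⟩ := hex
  obtain ⟨ρ₁, B₁, O₁⟩ := hall w₁ hw₁
  have hρ₁ := B₁.rho_ne hE hm
  have hO₁ : Ord 0 w₁ := (caseI hE hm B₁ O₁).2.2
  -- differences are constant
  set kap : K → ℂ := fun a => (a - w₁).coeff 0 with hkap
  have hdiff : ∀ a ∈ t, a = w₁ + Cc (kap a) := by
    intro a ha
    obtain ⟨ρ, B, O⟩ := hall a ha
    have h1 : ρ = ρ₁ := uniqI hE hm B B₁ O O₁
    have h2 : D m (a - w₁) = 0 := by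
      rw [D_sub, B.hD, B₁.hD, h1]; ring
    have h3 := eq_C_of_D_eq_zero m hm _ h2
    rw [hkap, ← h3]; ring
  -- no root is constant
  have hconst : ∀ c : ℂ, w₁ ≠ Cc c := by
    intro c hc
    have h1 := B₁.hD
    rw [hc, D_C] at h1
    have h2 : zz m * ρ₁ ^ 2 ≠ 0 := mul_ne_zero (zz_ne_zero m) (pow_ne_zero _ hρ₁)
    apply h2
    rw [eq_comm, neg_eq_zero] at h1
    exact h1
  -- rationality
  obtain ⟨A0, B0, hB0, hAB0⟩ : ∃ A B : ℂ[X], B ≠ 0 ∧ phi m B * w₁ = phi m A := by
    have h1 := hsp.nextCoeff_eq_neg_sum_roots_mul_leadingCoeff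
    rw [← ht] at h1
    have h2 : t.sum = (Multiset.card t : K) * w₁ + Cc ((t.map kap).sum) := by
      have h3 : t = t.map (fun a => w₁ + Cc (kap a)) := by
        conv_lhs => rw [← Multiset.map_id' t]
        exact Multiset.map_congr rfl hdiff
      conv_lhs => rw [h3]
      rw [Multiset.sum_map_add, Multiset.map_const', Multiset.sum_replicate, nsmul_eq_mul,
        map_multiset_sum, Multiset.map_map]
      rfl
    have h4 : (P.map (phi m)).nextCoeff = phi m (P.coeff (P.natDegree - 1)) := by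
      rw [nextCoeff_of_natDegree_pos (by rw [hdeg]; exact hPpos), hdeg, coeff_map]
    have h5 : (P.map (phi m)).leadingCoeff = phi m P.leadingCoeff := by
      rw [leadingCoeff, hdeg, coeff_map]; rfl
    refine ⟨-P.coeff (P.natDegree - 1) - P.leadingCoeff * C ((t.map kap).sum),
      (P.natDegree : ℂ[X]) * P.leadingCoeff, ?_, ?_⟩
    · apply mul_ne_zero
      · exact_mod_cast hPpos.ne'
      · exact leadingCoeff_ne_zero.2 hP.ne
    · rw [h4, h5, h2, hcard] at h1
      have h6 : phi m (C ((t.map kap).sum)) = Cc ((t.map kap).sum) := by simp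
      rw [map_mul, map_natCast, map_sub, map_neg, map_mul, h6, h1]
      ring
  obtain ⟨g, A, B, hg, hA, hB, hcop⟩ := exists_coprime A0 B0 hB0
  have hBne : B ≠ 0 := by rintro rfl; exact hB0 (by rw [hB, mul_zero])
  have hphig : phi m g ≠ 0 := by
    intro h
    exact hg (phi_inj m hm (by rw [h, map_zero]))
  have hAB : phi m B * w₁ = phi m A := by
    apply mul_left_cancel₀ hphig
    rw [← mul_assoc, ← map_mul, ← hB, hAB0, hA, map_mul]
  -- the product
  set Q := (t.map (fun a => QQ A B (kap a))).prod with hQ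
  have hQprim : ∀ r : ℂ[X], C r ∣ Q → IsUnit r := by
    intro r hr
    by_contra hru
    by_cases hr0 : r = 0
    · rw [hr0, C_0, zero_dvd_iff, hQ, Multiset.prod_eq_zero_iff, Multiset.mem_map] at hr
      obtain ⟨a, _, ha⟩ := hr
      have := QQ_natDegree A B hBne (kap a)
      rw [ha] at this; simp at this
    obtain ⟨i, hi, hir⟩ := WfDvdMonoid.exists_irreducible_factor hru hr0
    have hpr : Prime (C i : ℂ[X][X]) := Polynomial.prime_C_iff.2 hi.prime
    have h1 : C i ∣ Q := (_root_.map_dvd C hir).trans hr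
    rw [hQ] at h1
    obtain ⟨a, _, ha⟩ := hpr.exists_mem_multiset_map_dvd h1
    exact hi.not_isUnit (QQ_prim hcop _ _ ha)
  have hkey : C P.leadingCoeff * Q = C (B ^ Multiset.card t) * P := by
    apply Polynomial.map_injective _ (phi_inj m hm)
    have h1 := hsp.eq_prod_roots
    rw [← ht] at h1
    have h5 : (P.map (phi m)).leadingCoeff = phi m P.leadingCoeff := by
      rw [leadingCoeff, hdeg, coeff_map]; rfl
    rw [Polynomial.map_mul, Polynomial.map_mul, map_C, map_C]
    conv_rhs => rw [h1, h5]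
    rw [hQ, Polynomial.map_multiset_prod, Multiset.map_map]
    have h2 : t.map ((Polynomial.map (phi m)) ∘ (fun a => QQ A B (kap a)))
        = t.map (fun a => C (phi m B) * (X - C a)) := by
      apply Multiset.map_congr rfl
      intro a ha
      simp only [Function.comp_apply]
      rw [QQ_map hAB, ← hdiff a ha]
    rw [h2, Multiset.prod_map_mul, Multiset.map_const', Multiset.prod_replicate, map_pow, C_pow]
    ring
  have hdvd : Q ∣ P := by
    apply dvd_of_dvd_C_mul hQprim (B ^ Multiset.card t) (pow_ne_zero _ hBne)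
    rw [← hkey]
    exact Dvd.intro_left _ rfl
  obtain ⟨V, hV⟩ := hdvd
  have hQne : Q ≠ 0 := by
    intro h; rw [h, zero_mul] at hV; exact hP.ne hV
  have hVne : V ≠ 0 := by
    intro h; rw [h, mul_zero] at hV; exact hP.ne hV
  have hlcP : P.leadingCoeff ≠ 0 := leadingCoeff_ne_zero.2 hP.ne
  have hQdeg : Q.natDegree = P.natDegree := by
    rw [← natDegree_C_mul (p := Q) hlcP, hkey, natDegree_C_mul (pow_ne_zero _ hBne)]
  have hV0 : V.natDegree = 0 := by
    have h1 : P.natDegree = Q.natDegree + V.natDegree := by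
      rw [← natDegree_mul hQne hVne, ← hV]
    omega
  have hVC := eq_C_of_natDegree_eq_zero hV0
  have hVunit : IsUnit (V.coeff 0) := by
    apply hP.prim
    rw [← hVC]
    exact ⟨Q, by rw [hV, mul_comm]⟩
  obtain ⟨c, hc, hcV⟩ := Polynomial.isUnit_iff.1 hVunit
  have hPQ : P = Q * C (C c) := by
    rw [hV, hVC, ← hcV]
  -- degrees in the other variable
  have hswap : (t.map (fun a => (swap (QQ A B (kap a))).natDegree)).sum = Multiset.card t := by
    have h1 := hP.natDegree_swap hS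
    have h2 : swap P = swap Q * C (C c) := by
      conv_lhs => rw [hPQ]
      rw [map_mul]
      congr 1
      rw [swap_C]; simp
    have hc0 : c ≠ 0 := hc.ne_zero
    rw [h2, natDegree_mul_C (C_ne_zero.2 hc0), hQ, map_multiset_prod, Multiset.map_map,
      natDegree_multiset_prod] at h1
    · rw [Multiset.map_map] at h1
      rw [hcard]; exact h1
    · rw [Multiset.mem_map]
      rintro ⟨a, _, ha⟩
      simp only [Function.comp_apply] at ha
      have := QQ_natDegree A B hBne (kap a)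
      have h3 : QQ A B (kap a) = 0 := by
        rw [← swap_swap_apply (QQ A B (kap a)), ha, map_zero]
      rw [h3] at this; simp at this
  have hge : ∀ a ∈ t, 1 ≤ (swap (QQ A B (kap a))).natDegree := by
    intro a ha
    by_contra hcon
    push Not at hcon
    have h0 : (swap (QQ A B (kap a))).natDegree = 0 := by omega
    have h1 := natDegree_coeff_le_swap (QQ A B (kap a)) 1
    have h2 := natDegree_coeff_le_swap (QQ A B (kap a)) 0
    rw [h0, QQ_coeff_one] at h1
    rw [h0, QQ_coeff_zero, natDegree_neg] at h2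
    have h3 := eq_C_of_natDegree_le_zero h1
    have h4 := eq_C_of_natDegree_le_zero h2
    set b := B.coeff 0 with hb
    set a' := (A + C (kap a) * B).coeff 0 with ha'
    have hb0 : b ≠ 0 := by
      intro h; apply hBne; rw [h3, h, C_0]
    have h5 : A = C (a' - kap a * b) := by
      have : A = (A + C (kap a) * B) - C (kap a) * B := by ring
      rw [this, h4, h3, C_sub, C_mul]
    apply hconst ((a' - kap a * b) / b)
    rw [h3, h5] at hAB
    simp only [phi, coe_eval₂RingHom, eval₂_C] at hAB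
    rw [map_div₀, eq_div_iff]
    · rw [mul_comm]; exact hAB
    · rw [Ne, map_eq_zero]; exact hb0
  have heq1 : (swap (QQ A B (kap w₁))).natDegree = 1 := by
    obtain ⟨s, hs⟩ := Multiset.exists_cons_of_mem hw₁
    have h1 := hswap
    rw [hs, Multiset.map_cons, Multiset.sum_cons, Multiset.card_cons] at h1
    have h2 : Multiset.card s ≤ (s.map (fun a => (swap (QQ A B (kap a))).natDegree)).sum := by
      have h3 : ∀ x ∈ s.map (fun a => (swap (QQ A B (kap a))).natDegree), 1 ≤ x := by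
        intro x hx
        obtain ⟨a, ha, rfl⟩ := Multiset.mem_map.1 hx
        apply hge; rw [hs]; exact Multiset.mem_cons_of_mem ha
      have h4 := Multiset.card_nsmul_le_sum h3
      rw [Multiset.card_map] at h4
      simpa using h4
    have h3 := hge w₁ hw₁
    omega
  have hkap1 : kap w₁ = 0 := by simp [hkap]
  have hBdeg : B.natDegree ≤ 1 := by
    have := natDegree_coeff_le_swap (QQ A B (kap w₁)) 1
    rwa [heq1, QQ_coeff_one] at this
  have hAdeg : A.natDegree ≤ 1 := by
    have := natDegree_coeff_le_swap (QQ A B (kap w₁)) 0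
    rw [heq1, QQ_coeff_zero, natDegree_neg, hkap1] at this
    simpa using this
  -- B is not constant
  have hB1 : B.coeff 1 ≠ 0 := by
    intro h
    have h1 : B = C (B.coeff 0) := by
      rw [eq_X_add_C_of_natDegree_le_one hBdeg, h]; simp
    set b := B.coeff 0 with hb
    have hb0 : b ≠ 0 := by
      intro h; apply hBne; rw [h1, h, C_0]
    have h2 : Ord 0 (phi m A) := by
      rw [← hAB, h1]
      have : phi m (C b) = Cc b := by simp
      rw [this]; exact hO₁.C_mul b
    have h3 : A.coeff 1 = 0 := by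
      rw [← coeff_ev_zz m hm A 1]
      apply h2
      simp; exact hm
    have h4 : A = C (A.coeff 0) := by
      rw [eq_X_add_C_of_natDegree_le_one hAdeg, h3]; simp
    apply hconst (A.coeff 0 / b)
    rw [h1, h4] at hAB
    simp only [phi, coe_eval₂RingHom, eval₂_C] at hAB
    rw [map_div₀, eq_div_iff]
    · rw [mul_comm]
      simpa using hAB
    · rw [Ne, map_eq_zero]; exact hb0
  set β := B.coeff 1 with hβ
  set z0 := -(B.coeff 0) / β with hz0
  set α := A.coeff 1 with hα
  set γ := α * z0 + A.coeff 0 with hγ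
  have hBform : ∀ z : ℂ, B.eval z = β * (z - z0) := by
    intro z
    conv_lhs => rw [eq_X_add_C_of_natDegree_le_one hBdeg]
    simp only [eval_add, eval_mul, eval_C, eval_X]
    rw [← hβ, hz0]; field_simp; ring
  have hAform : ∀ z : ℂ, A.eval z = α * (z - z0) + γ := by
    intro z
    conv_lhs => rw [eq_X_add_C_of_natDegree_le_one hAdeg]
    simp only [eval_add, eval_mul, eval_C, eval_X]
    rw [← hα, hγ]; ring
  have hγ0 : γ ≠ 0 := by
    intro h
    obtain ⟨u, v, huv⟩ := hcop
    have h1 := congrArg (Polynomial.eval z0) huv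
    rw [eval_add, eval_mul, eval_mul, hBform, hAform, h] at h1
    simp at h1
  set gg := γ / β with hgg
  have hgg0 : gg ≠ 0 := div_ne_zero hγ0 hB1
  set lam : K → ℂ := fun a => (starRingEnd ℂ) z0 - α / β - kap a with hlam
  have hSeq : ∀ z ∈ S, ∃ a ∈ t, (z - z0) * ((starRingEnd ℂ) (z - z0) + lam a) = gg := by
    intro z hz
    have h1 := hP.van z hz
    rw [hPQ, evalEval_mul, mul_eq_zero] at h1
    have h2 : evalEval z ((starRingEnd ℂ) z) (C (C c)) ≠ 0 := by
      simp; exact hc.ne_zero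
    have h3 := h1.resolve_right h2
    have h4 : evalEval z ((starRingEnd ℂ) z) Q
        = (t.map (fun a => evalEval z ((starRingEnd ℂ) z) (QQ A B (kap a)))).prod := by
      rw [hQ, ← coe_evalEvalRingHom, map_multiset_prod, Multiset.map_map]
      rfl
    rw [h4, Multiset.prod_eq_zero_iff, Multiset.mem_map] at h3
    obtain ⟨a, ha, ha0⟩ := h3
    refine ⟨a, ha, ?_⟩
    rw [evalEval_QQ, hBform, hAform] at ha0
    rw [hgg, hlam, eq_div_iff hB1, map_sub]
    field_simp
    linear_combination ha0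
  set F : Set ℂ := ⋃ a ∈ t.toFinset.filter (fun a => lam a ≠ 0),
    {z : ℂ | (z - z0) * ((starRingEnd ℂ) (z - z0) + lam a) = gg} with hF
  have hFfin : F.Finite := by
    rw [hF]
    apply Set.Finite.biUnion (Finset.finite_toSet _)
    intro a ha
    simp only [Finset.coe_filter, Set.mem_ofPred_eq] at ha
    exact finite_circ z0 (lam a) gg ha.2
  have hSF : ∀ z ∈ S \ F, (z - z0) * ((starRingEnd ℂ) (z - z0)) = gg := by
    intro z hz
    obtain ⟨a, ha, h1⟩ := hSeq z hz.1
    by_cases hl : lam a = 0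
    · rw [hl, add_zero] at h1; exact h1
    · exfalso
      apply hz.2
      rw [hF]
      simp only [Set.mem_iUnion]
      exact ⟨a, by simp [ha, hl], h1⟩
  have hnorm : ∀ z ∈ S \ F, ‖z - z0‖ = Real.sqrt ‖gg‖ := by
    intro z hz
    have h1 := hSF z hz
    rw [← h1, norm_mul, RCLike.norm_conj, Real.sqrt_mul_self (norm_nonneg _)]
  refine ⟨z0, Real.sqrt ‖gg‖, Real.sqrt_pos.2 (norm_pos_iff.2 hgg0), ?_⟩
  intro z hz
  have hcl : IsClosed {z : ℂ | ‖z - z0‖ = Real.sqrt ‖gg‖} :=
    isClosed_eq (continuous_norm.comp (continuous_id.sub continuous_const)) continuous_const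
  exact (closure_minimal (fun z hz => hnorm z hz) hcl) (hNI F hFfin hz)

theorem alg_main {S : Set ℂ} {E : Set (ℂ[X] × ℝ)} (hE : Fam E)
    (hσ2 : ∃ p ∈ E, ∃ q ∈ E, p.2 ≠ q.2) (hNI : NoIso S) (hne : S.Nonempty)
    (hR : Rel S E) (hv : ∃ p : ℂ[X][X], p ≠ 0 ∧ Van S p) :
    (∃ (z0 : ℂ) (R : ℝ), 0 < R ∧ ∀ z ∈ S, ‖z - z0‖ = R) ∨
    (∃ P : ℂ[X][X], P ≠ 0 ∧ Van S P ∧ ∃ v : ℂ, v ≠ 0 ∧ ∀ z : ℂ, ∃ α β : ℂ, ∀ t : ℝ,
      evalEval (z + t * v) ((starRingEnd ℂ) (z + t * v)) P = α + β * t) := by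
  have hS := hNI.infinite hne
  obtain ⟨P, hP⟩ := exists_MinP hNI hv
  obtain ⟨m, hm, hsp⟩ := exists_splits P
  have hne' : P.map (phi m) ≠ 0 := (Polynomial.map_ne_zero_iff (phi_inj m hm)).2 hP.ne
  have hbr : ∀ w ∈ (P.map (phi m)).roots, ∃ ρ, Branch m E w ρ := by
    intro w hw
    apply branch_of_root hE hP hNI hS hR hm
    rw [evK_eq_eval]
    exact (mem_roots hne').1 hw
  by_cases hex : ∃ w ∈ (P.map (phi m)).roots, ∃ ρ, Branch m E w ρ ∧ Ord (-(m : ℤ) + 1) w
  · left
    obtain ⟨w₁, hw₁, ρ₁, B₁, O₁⟩ := hex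
    apply caseA hE hNI hS hP hm hsp
    intro w hw
    obtain ⟨ρ, B⟩ := hbr w hw
    refine ⟨ρ, B, ?_⟩
    rcases trichotomy hE hm B with h | h
    · exact h
    · exact (mixed hE hm B₁ O₁ h).elim
  · right
    refine ⟨P, hP.ne, hP.van, ?_⟩
    apply caseB hE hσ2 hS hP hm hsp
    intro w hw
    obtain ⟨ρ, B⟩ := hbr w hw
    refine ⟨ρ, B, ?_⟩
    rcases trichotomy hE hm B with h | h
    · exact (hex ⟨w, hw, ρ, B, h⟩).elim
    · exact h

end Pool.Agent.Helper474
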