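import Mathlib
import Pool.Agent.Helper474.AlgF

set_option autoImplicit false

namespace Pool.Agent.Helper474

open Polynomial

/-- real derivative of z ↦ p(z, conj z). -/
noncomputable def DPl (p : ℂ[X][X]) (z : ℂ) : ℂ →L[ℝ] ℂ :=
  (evalEval z ((starRingEnd ℂ) z) (dz p)) • (ContinuousLinearMap.id ℝ ℂ)
    + (evalEval z ((starRingEnd ℂ) z) (derivative p)) • (Complex.conjCLE : ℂ →L[ℝ] ℂ)

theorem DPl_apply (p : ℂ[X][X]) (z u : ℂ) :
    DPl p z u = evalEval z ((starRingEnd ℂ) z) (dz p) * u
      + evalEval z ((starRingEnd ℂ) z) (derivative p) * (starRingEnd ℂ) u := by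
  simp [DPl]

theorem hasStrictFDerivAt_evalEval (p : ℂ[X][X]) (z : ℂ) :
    HasStrictFDerivAt (fun z : ℂ => evalEval z ((starRingEnd ℂ) z) p) (DPl p z) z := by
  induction p using Polynomial.induction_on' with
  | add p q hp hq =>
    have h1 : DPl (p + q) z = DPl p z + DPl q z := by
      apply ContinuousLinearMap.ext; intro u
      simp only [_root_.add_apply, DPl_apply, dz_add, derivative_add, evalEval_add]
      ring
    rw [h1]
    simp only [evalEval_add]
    exact hp.add hq
  | monomial n a =>
    simp only [evalEval_monomial']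
    have h1 : HasStrictFDerivAt (fun x : ℂ => a.eval x)
        ((eval z (derivative a)) • (ContinuousLinearMap.id ℝ ℂ)) z := by
      have h := (a.hasStrictDerivAt z).hasStrictFDerivAt.restrictScalars ℝ
      refine h.congr_fderiv ?_
      apply ContinuousLinearMap.ext; intro u
      simp [mul_comm]
    have h2 : HasStrictFDerivAt (fun x : ℂ => (starRingEnd ℂ) x)
        (Complex.conjCLE : ℂ →L[ℝ] ℂ) z := Complex.conjCLE.hasStrictFDerivAt
    have h3 := h2.pow n
    have h4 := h1.mul h3
    refine h4.congr_fderiv ?_
    apply ContinuousLinearMap.ext; intro u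
    rw [DPl_apply, dz_monomial, derivative_monomial, evalEval_monomial', evalEval_monomial']
    simp only [_root_.add_apply, _root_.smul_apply, smul_eq_mul,
      ContinuousLinearMap.id_apply, ContinuousLinearEquiv.coe_coe, Complex.conjCLE_apply,
      eval_mul, eval_natCast, nsmul_eq_mul]
    ring

/-- a polynomial vanishing on a nonempty open set is zero. -/
theorem van_open {U : Set ℂ} (hU : IsOpen U) (hne : U.Nonempty) :
    ∀ n : ℕ, ∀ p : ℂ[X][X], p.natDegree ≤ n → Van U p → p = 0 := by
  intro n
  induction n with
  | zero =>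
    intro p hp hv
    have h1 := eq_C_of_natDegree_le_zero hp
    obtain ⟨z0, hz0⟩ := hne
    have hinf : U.Infinite := infinite_of_mem_nhds z0 (hU.mem_nhds hz0)
    have h2 : p.coeff 0 = 0 := by
      apply eq_zero_of_eval_infinite hinf
      intro z hz
      have := hv z hz
      rw [h1, evalEval_C] at this
      exact this
    rw [h1, h2, C_0]
  | succ n ih =>
    intro p hp hv
    have hder : Van U (derivative p) := by
      intro z hz
      have h1 := (hasStrictFDerivAt_evalEval p z).hasFDerivAt
      have h2 : (fun z : ℂ => evalEval z ((starRingEnd ℂ) z) p) =ᶠ[nhds z] fun _ => 0 := by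
        filter_upwards [hU.mem_nhds hz] with y hy
        exact hv y hy
      have h3 : HasFDerivAt (fun z : ℂ => evalEval z ((starRingEnd ℂ) z) p)
          (0 : ℂ →L[ℝ] ℂ) z := (hasFDerivAt_const 0 z).congr_of_eventuallyEq h2
      have h4 := h1.unique h3
      have h5 := DFunLike.congr_fun h4 1
      have h6 := DFunLike.congr_fun h4 Complex.I
      rw [DPl_apply] at h5 h6
      simp only [map_one, mul_one, _root_.zero_apply, Complex.conj_I] at h5 h6
      have h7 : (2 : ℂ) * evalEval z ((starRingEnd ℂ) z) (derivative p) = 0 := by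
        linear_combination h5 + Complex.I * h6 - (evalEval z ((starRingEnd ℂ) z) (dz p)) * Complex.I_sq + (evalEval z ((starRingEnd ℂ) z) (derivative p)) * Complex.I_sq
      exact (mul_eq_zero.1 h7).resolve_left two_ne_zero
    have h1 : (derivative p).natDegree ≤ n := by
      have := natDegree_derivative_le p
      omega
    have h2 := ih _ h1 hder
    have h3 := derivative_eq_zero.1 h2
    have h4 : p.natDegree ≤ n := by omega
    exact ih p h4 hv

end Pool.Agent.Helper474
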