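import Mathlib
import Pool.Agent.Helper474.AnaA

set_option autoImplicit false

namespace Pool.Agent.Helper474

open Polynomial

/-- order and leading coefficient data. -/
def Lt (n : ℤ) (x : K) (c : ℂ) : Prop := Ord n x ∧ x.coeff n = c

theorem Lt.mul {a b : ℤ} {x y : K} {c c' : ℂ} (hx : Lt a x c) (hy : Lt b y c') :
    Lt (a + b) (x * y) (c * c') :=
  ⟨hx.1.mul hy.1, by rw [coeff_mul_of_Ord hx.1 hy.1, hx.2, hy.2]⟩

theorem Lt.add {a : ℤ} {x y : K} {c c' : ℂ} (hx : Lt a x c) (hy : Lt a y c') :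
    Lt a (x + y) (c + c') :=
  ⟨hx.1.add hy.1, by rw [HahnSeries.coeff_add, hx.2, hy.2]⟩

theorem Lt.sub {a : ℤ} {x y : K} {c c' : ℂ} (hx : Lt a x c) (hy : Lt a y c') :
    Lt a (x - y) (c - c') :=
  ⟨hx.1.sub hy.1, by rw [HahnSeries.coeff_sub, hx.2, hy.2]⟩

theorem Lt.Cm {a : ℤ} {x : K} {c : ℂ} (hx : Lt a x c) (r : ℂ) : Lt a (Cc r * x) (r * c) :=
  ⟨hx.1.C_mul r, by rw [coeff_Cc_mul, hx.2]⟩

theorem Lt.ne {a : ℤ} {x : K} {c : ℂ} (hx : Lt a x c) (hc : c ≠ 0) : x ≠ 0 := by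
  rintro rfl
  apply hc
  rw [← hx.2]; simp

theorem Lt.z (f : ℂ[X]) (d : ℕ) (hd : f.natDegree ≤ d) :
    Lt (-(d : ℤ)) (ev (zz 1) f) (f.coeff d) := by
  have h1 := ev_Ord (by norm_num) (zz_Ord 1) f d hd
  have h2 := coeff_ev_zz 1 one_pos f d
  have e : -((1 : ℕ) : ℤ) * d = -(d : ℤ) := by push_cast; ring
  rw [e] at h1 h2
  exact ⟨h1, h2⟩

theorem Lt.w (l : ℂ) (f : ℂ[X]) (d : ℕ) (hd : f.natDegree ≤ d) :
    Lt (-(d : ℤ)) (ev (Cc l * zz 1) f) (f.coeff d * l ^ d) := by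
  have hw : Ord (-((1 : ℕ) : ℤ)) (Cc l * zz 1) := (zz_Ord 1).C_mul l
  have h1 := ev_Ord (by norm_num) hw f d hd
  have h2 := ev_coeff (by norm_num) hw f d hd
  have e : -((1 : ℕ) : ℤ) * d = -(d : ℤ) := by push_cast; ring
  rw [e] at h1 h2
  rw [coeff_Cc_mul, zz_coeff, mul_one] at h2
  exact ⟨h1, h2⟩

/-- the Jacobian of two eigenfunctions. -/
noncomputable def JJ (f g : ℂ[X]) : ℂ[X][X] :=
  C (derivative f) * (derivative (cj g)).map C - C (derivative g) * (derivative (cj f)).map C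

noncomputable def NN (f : ℂ[X]) (σ : ℝ) (g : ℂ[X]) (τ : ℝ) : ℂ[X][X] :=
  C (C (σ : ℂ)) * YY f * (derivative (cj g)).map C
    - C (C (τ : ℂ)) * YY g * (derivative (cj f)).map C

noncomputable def NN' (f : ℂ[X]) (σ : ℝ) (g : ℂ[X]) (τ : ℝ) : ℂ[X][X] :=
  C (derivative f) * (C (C (τ : ℂ)) * YY g) - C (derivative g) * (C (C (σ : ℂ)) * YY f)

theorem evK_YY (m : ℕ) (w : K) (f : ℂ[X]) :
    evK (zz m) w (YY f) = ev (zz m) f + ev w (cj f) := by
  simp only [YY, map_add, evK_C, evK_mapC]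

theorem exists_eval_ne {p : ℂ[X]} (hp : p ≠ 0) : ∃ l : ℂ, p.eval l ≠ 0 := by
  by_contra h
  push Not at h
  exact hp (Polynomial.funext (fun r => by rw [h r, eval_zero]))

theorem JQ_ne {f g : ℂ[X]} {σ τ : ℝ} (hf : 0 < f.natDegree) (hg : 0 < g.natDegree)
    (hfg : f.natDegree ≠ g.natDegree) (hσ : σ ≠ 0) (hτ : τ ≠ 0) :
    JJ f g * (NN f σ g τ * NN' f σ g τ - JJ f g ^ 2) ≠ 0 := by
  set d := f.natDegree with hd
  set e := g.natDegree with he
  set α := f.coeff d with hα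
  set β := g.coeff e with hβ
  have hf0 : f ≠ 0 := by rintro rfl; simp at hd; omega
  have hg0 : g ≠ 0 := by rintro rfl; simp at he; omega
  have hα0 : α ≠ 0 := by rw [hα, hd]; exact leadingCoeff_ne_zero.2 hf0
  have hβ0 : β ≠ 0 := by rw [hβ, he]; exact leadingCoeff_ne_zero.2 hg0
  have hα0' : (starRingEnd ℂ) α ≠ 0 := by rwa [Ne, map_eq_zero]
  have hβ0' : (starRingEnd ℂ) β ≠ 0 := by rwa [Ne, map_eq_zero]
  have hdC : (d : ℂ) ≠ 0 := by exact_mod_cast hf.ne'
  have heC : (e : ℂ) ≠ 0 := by exact_mod_cast hg.ne'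
  have hσC : (σ : ℂ) ≠ 0 := by exact_mod_cast hσ
  have hτC : (τ : ℂ) ≠ 0 := by exact_mod_cast hτ
  -- leading terms
  have f1 : Lt (-(d : ℤ)) (ev (zz 1) f) α := Lt.z f d le_rfl
  have g1 : Lt (-(e : ℤ)) (ev (zz 1) g) β := Lt.z g e le_rfl
  have cf : ∀ l, Lt (-(d : ℤ)) (ev (Cc l * zz 1) (cj f)) ((starRingEnd ℂ) α * l ^ d) := by
    intro l
    have := Lt.w l (cj f) d (by rw [natDegree_cj])
    rwa [coeff_cj] at this
  have cg : ∀ l, Lt (-(e : ℤ)) (ev (Cc l * zz 1) (cj g)) ((starRingEnd ℂ) β * l ^ e) := by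
    intro l
    have := Lt.w l (cj g) e (by rw [natDegree_cj])
    rwa [coeff_cj] at this
  have ctop : ∀ (h : ℂ[X]) (n : ℕ), 0 < n → (derivative h).coeff (n - 1) = n * h.coeff n := by
    intro h n hn
    rw [coeff_derivative, Nat.sub_add_cancel hn]
    have : ((n - 1 : ℕ) : ℂ) + 1 = (n : ℂ) := by
      rw [Nat.cast_sub hn]; push_cast; ring
    rw [this]; ring
  have f1' : Lt (-((d - 1 : ℕ) : ℤ)) (ev (zz 1) (derivative f)) (d * α) := by
    have := Lt.z (derivative f) (d - 1) (natDegree_derivative_le f)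
    rwa [ctop f d hf] at this
  have g1' : Lt (-((e - 1 : ℕ) : ℤ)) (ev (zz 1) (derivative g)) (e * β) := by
    have := Lt.z (derivative g) (e - 1) (natDegree_derivative_le g)
    rwa [ctop g e hg] at this
  have cf' : ∀ l, Lt (-((d - 1 : ℕ) : ℤ)) (ev (Cc l * zz 1) (derivative (cj f)))
      (d * (starRingEnd ℂ) α * l ^ (d - 1)) := by
    intro l
    have := Lt.w l (derivative (cj f)) (d - 1) (by
      have := natDegree_derivative_le (cj f)
      rwa [natDegree_cj] at this)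
    rwa [ctop _ d hf, coeff_cj] at this
  have cg' : ∀ l, Lt (-((e - 1 : ℕ) : ℤ)) (ev (Cc l * zz 1) (derivative (cj g)))
      (e * (starRingEnd ℂ) β * l ^ (e - 1)) := by
    intro l
    have := Lt.w l (derivative (cj g)) (e - 1) (by
      have := natDegree_derivative_le (cj g)
      rwa [natDegree_cj] at this)
    rwa [ctop _ e hg, coeff_cj] at this
  have hd1 : ((d - 1 : ℕ) : ℤ) = (d : ℤ) - 1 := by
    rw [Nat.cast_sub hf]; norm_num
  have he1 : ((e - 1 : ℕ) : ℤ) = (e : ℤ) - 1 := by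
    rw [Nat.cast_sub hg]; norm_num
  rw [hd1] at f1' cf'
  rw [he1] at g1' cg'
  -- the Jacobian
  have hJ : ∀ l, Lt (-((d : ℤ) - 1) + -((e : ℤ) - 1)) (evK (zz 1) (Cc l * zz 1) (JJ f g))
      (d * α * (e * (starRingEnd ℂ) β * l ^ (e - 1))
        - e * β * (d * (starRingEnd ℂ) α * l ^ (d - 1))) := by
    intro l
    have h1 := f1'.mul (cg' l)
    have h2 := g1'.mul (cf' l)
    rw [add_comm (-((e : ℤ) - 1))] at h2
    have h3 := h1.sub h2
    have : evK (zz 1) (Cc l * zz 1) (JJ f g)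
        = ev (zz 1) (derivative f) * ev (Cc l * zz 1) (derivative (cj g))
          - ev (zz 1) (derivative g) * ev (Cc l * zz 1) (derivative (cj f)) := by
      simp only [JJ, map_sub, map_mul, evK_C, evK_mapC]
    rw [this]; exact h3
  have hJne : JJ f g ≠ 0 := by
    set p : ℂ[X] := C (d * α * (e * (starRingEnd ℂ) β)) * X ^ (e - 1)
      - C (e * β * (d * (starRingEnd ℂ) α)) * X ^ (d - 1) with hp
    have hp0 : p ≠ 0 := by
      intro h
      have h1 : p.coeff (e - 1) = d * α * (e * (starRingEnd ℂ) β) := by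
        rw [hp, coeff_sub, coeff_C_mul_X_pow, coeff_C_mul_X_pow, if_pos rfl,
          if_neg (by omega), sub_zero]
      rw [h, coeff_zero] at h1
      exact mul_ne_zero (mul_ne_zero hdC hα0) (mul_ne_zero heC hβ0') h1.symm
    obtain ⟨l, hl⟩ := exists_eval_ne hp0
    intro h0
    have h1 := (hJ l).ne (by
      intro h; apply hl
      rw [hp]; simp only [eval_sub, eval_mul, eval_C, eval_pow, eval_X]
      linear_combination h)
    rw [h0, map_zero] at h1
    exact h1 rfl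
  have hY1 : ∀ l, (0 : ℤ) ≤ 0 := fun _ : ℂ => le_rfl
  have hYf : ∀ l, Lt (-(d : ℤ)) (evK (zz 1) (Cc l * zz 1) (YY f))
      (α + (starRingEnd ℂ) α * l ^ d) := by
    intro l; rw [evK_YY]; exact f1.add (cf l)
  have hYg : ∀ l, Lt (-(e : ℤ)) (evK (zz 1) (Cc l * zz 1) (YY g))
      (β + (starRingEnd ℂ) β * l ^ e) := by
    intro l; rw [evK_YY]; exact g1.add (cg l)
  have hN : ∀ l, Lt (-((d : ℤ) + e - 1)) (evK (zz 1) (Cc l * zz 1) (NN f σ g τ))
      (σ * (α + (starRingEnd ℂ) α * l ^ d) * (e * (starRingEnd ℂ) β * l ^ (e - 1))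
        - τ * (β + (starRingEnd ℂ) β * l ^ e) * (d * (starRingEnd ℂ) α * l ^ (d - 1))) := by
    intro l
    have h1 := ((hYf l).Cm (σ : ℂ)).mul (cg' l)
    have h2 := ((hYg l).Cm (τ : ℂ)).mul (cf' l)
    have e1 : -(d : ℤ) + -((e : ℤ) - 1) = -((d : ℤ) + e - 1) := by ring
    have e2 : -(e : ℤ) + -((d : ℤ) - 1) = -((d : ℤ) + e - 1) := by ring
    rw [e1] at h1
    rw [e2] at h2
    have h3 := h1.sub h2
    have : evK (zz 1) (Cc l * zz 1) (NN f σ g τ)
        = Cc (σ : ℂ) * evK (zz 1) (Cc l * zz 1) (YY f) * ev (Cc l * zz 1) (derivative (cj g))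
          - Cc (τ : ℂ) * evK (zz 1) (Cc l * zz 1) (YY g)
            * ev (Cc l * zz 1) (derivative (cj f)) := by
      simp only [NN, map_sub, map_mul, evK_CC, evK_mapC]
    rw [this]; exact h3
  have hN' : ∀ l, Lt (-((d : ℤ) + e - 1)) (evK (zz 1) (Cc l * zz 1) (NN' f σ g τ))
      (d * α * (τ * (β + (starRingEnd ℂ) β * l ^ e))
        - e * β * (σ * (α + (starRingEnd ℂ) α * l ^ d))) := by
    intro l
    have h1 := f1'.mul ((hYg l).Cm (τ : ℂ))
    have h2 := g1'.mul ((hYf l).Cm (σ : ℂ))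
    have e1 : -((d : ℤ) - 1) + -(e : ℤ) = -((d : ℤ) + e - 1) := by ring
    have e2 : -((e : ℤ) - 1) + -(d : ℤ) = -((d : ℤ) + e - 1) := by ring
    rw [e1] at h1
    rw [e2] at h2
    have h3 := h1.sub h2
    have : evK (zz 1) (Cc l * zz 1) (NN' f σ g τ)
        = ev (zz 1) (derivative f) * (Cc (τ : ℂ) * evK (zz 1) (Cc l * zz 1) (YY g))
          - ev (zz 1) (derivative g) * (Cc (σ : ℂ) * evK (zz 1) (Cc l * zz 1) (YY f)) := by
      simp only [NN', map_sub, map_mul, evK_C]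
      rw [show ev (zz 1) (C (τ : ℂ)) = Cc (τ : ℂ) from eval₂_C _ _,
        show ev (zz 1) (C (σ : ℂ)) = Cc (σ : ℂ) from eval₂_C _ _]
    rw [this]; exact h3
  have hQne : NN f σ g τ * NN' f σ g τ - JJ f g ^ 2 ≠ 0 := by
    set u : ℂ[X] := C (σ * α * (e * (starRingEnd ℂ) β)) * X ^ (e - 1)
      + C (σ * (starRingEnd ℂ) α * (e * (starRingEnd ℂ) β)) * X ^ (d + (e - 1))
      - C (τ * β * (d * (starRingEnd ℂ) α)) * X ^ (d - 1)
      - C (τ * (starRingEnd ℂ) β * (d * (starRingEnd ℂ) α)) * X ^ (e + (d - 1)) with hu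
    set v : ℂ[X] := C (d * α * (τ * β) - e * β * (σ * α)) * X ^ 0
      + C (d * α * (τ * (starRingEnd ℂ) β)) * X ^ e
      - C (e * β * (σ * (starRingEnd ℂ) α)) * X ^ d with hv
    have hu0 : u ≠ 0 := by
      intro h
      have h1 : u.coeff (e - 1) = σ * α * (e * (starRingEnd ℂ) β) := by
        rw [hu]
        simp only [coeff_sub, coeff_add, coeff_C_mul_X_pow]
        rw [if_pos trivial, if_neg (by omega), if_neg (by omega), if_neg (by omega)]
        ring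
      rw [h, coeff_zero] at h1
      exact mul_ne_zero (mul_ne_zero hσC hα0) (mul_ne_zero heC hβ0') h1.symm
    have hv0 : v ≠ 0 := by
      intro h
      have h1 : v.coeff e = d * α * (τ * (starRingEnd ℂ) β) := by
        rw [hv]
        simp only [coeff_sub, coeff_add, coeff_C_mul_X_pow]
        rw [if_neg (show ¬ (e = 0) by omega), if_pos trivial, if_neg (show ¬ (e = d) by omega)]
        ring
      rw [h, coeff_zero] at h1
      exact mul_ne_zero (mul_ne_zero hdC hα0) (mul_ne_zero hτC hβ0') h1.symm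
    obtain ⟨l, hl⟩ := exists_eval_ne (mul_ne_zero hu0 hv0)
    have h1 := (hN l).mul (hN' l)
    have h2 := (hJ l).mul (hJ l)
    have h3 : (evK (zz 1) (Cc l * zz 1) (NN f σ g τ * NN' f σ g τ - JJ f g ^ 2)).coeff
        (-((d : ℤ) + e - 1) + -((d : ℤ) + e - 1)) ≠ 0 := by
      rw [map_sub, map_mul, map_pow, pow_two, HahnSeries.coeff_sub, h1.2, h2.1 _ (by omega),
        sub_zero]
      intro h; apply hl
      rw [eval_mul]
      rw [← h]
      congr 1
      · rw [hu]; simp only [eval_sub, eval_add, eval_mul, eval_C, eval_pow, eval_X]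
        rw [pow_add, pow_add]; ring
      · rw [hv]; simp only [eval_sub, eval_add, eval_mul, eval_C, eval_pow, eval_X]; ring
    intro h
    rw [h, map_zero] at h3
    simp at h3
  exact mul_ne_zero hJne hQne

end Pool.Agent.Helper474
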