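import Mathlib
import Pool.Agent.Helper474.AnaB

set_option autoImplicit false

namespace Pool.Agent.Helper474

open Polynomial

/-- the pointwise boundary relations at z with vector ν. -/
structure Pt (S : Set ℂ) (E : Set (ℂ[X] × ℝ)) (z ν : ℂ) : Prop where
  a : ∀ e ∈ E, (derivative e.1).eval z * ν + (starRingEnd ℂ) ((derivative e.1).eval z * ν)
    = (e.2 : ℂ) * (e.1.eval z + (starRingEnd ℂ) (e.1.eval z))
  b : ∀ p : ℂ[X][X], Van S p → evalEval z ((starRingEnd ℂ) z) (dz p) * ν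
    = evalEval z ((starRingEnd ℂ) z) (derivative p) * (starRingEnd ℂ) ν

def PtProp (S : Set ℂ) (E : Set (ℂ[X] × ℝ)) (z : ℂ) : Prop :=
  ∃ ν : ℂ, ν ≠ 0 ∧ Pt S E z ν ∧ ((∀ ν', Pt S E z ν' → ν' = ν) → ‖ν‖ = 1)

theorem evalEval_mapC (z w : ℂ) (g : ℂ[X]) : evalEval z w (g.map C) = g.eval w := by
  induction g using Polynomial.induction_on' with
  | add p q hp hq => rw [Polynomial.map_add, evalEval_add, hp, hq, eval_add]
  | monomial n a => rw [map_monomial, evalEval_monomial', eval_C, eval_monomial]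

theorem eval_cj (g : ℂ[X]) (z : ℂ) :
    (cj g).eval ((starRingEnd ℂ) z) = (starRingEnd ℂ) (g.eval z) := by
  rw [eval_map, eval₂_at_apply]

theorem evalEval_cj (z : ℂ) (g : ℂ[X]) :
    evalEval z ((starRingEnd ℂ) z) ((cj g).map C) = (starRingEnd ℂ) (g.eval z) := by
  rw [evalEval_mapC, eval_cj]

theorem evalEval_YY (z : ℂ) (f : ℂ[X]) :
    evalEval z ((starRingEnd ℂ) z) (YY f) = f.eval z + (starRingEnd ℂ) (f.eval z) := by
  rw [YY, evalEval_add, evalEval_C, evalEval_cj]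

theorem evalEval_MM (z : ℂ) (p : ℂ[X][X]) (f : ℂ[X]) :
    evalEval z ((starRingEnd ℂ) z) (MM p f)
      = evalEval z ((starRingEnd ℂ) z) (derivative p) * (derivative f).eval z
        + evalEval z ((starRingEnd ℂ) z) (dz p) * (starRingEnd ℂ) ((derivative f).eval z) := by
  rw [MM, evalEval_add, evalEval_mul, evalEval_mul, evalEval_C, derivative_cj, evalEval_cj]

theorem evalEval_CC (z w c : ℂ) : evalEval z w (C (C c)) = c := by
  rw [evalEval_C, eval_C]

theorem rel_of_pt {S : Set ℂ} {E : Set (ℂ[X] × ℝ)} (h : ∀ z ∈ S, PtProp S E z) : Rel S E := by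
  constructor
  · intro p hp e he z hz
    obtain ⟨ν, hν0, hν, huniq⟩ := h z hz
    set pz := evalEval z ((starRingEnd ℂ) z) (dz p) with hpz
    set pw := evalEval z ((starRingEnd ℂ) z) (derivative p) with hpw
    set A := (derivative e.1).eval z with hA
    set Y := e.1.eval z + (starRingEnd ℂ) (e.1.eval z) with hY
    have ha : A * ν + (starRingEnd ℂ) A * (starRingEnd ℂ) ν = (e.2 : ℂ) * Y := by
      rw [← map_mul]; exact hν.a e he
    have hb : pz * ν = pw * (starRingEnd ℂ) ν := hν.b p hp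
    set M := pw * A + pz * (starRingEnd ℂ) A with hM
    have h1 : M * ν = (e.2 : ℂ) * pw * Y := by
      rw [hM]; linear_combination pw * ha + (starRingEnd ℂ) A * hb
    have h2 : M * (starRingEnd ℂ) ν = (e.2 : ℂ) * pz * Y := by
      rw [hM]; linear_combination pz * ha - A * hb
    have hgoal : evalEval z ((starRingEnd ℂ) z) (R1 p e.1 e.2)
        = M ^ 2 - (e.2 : ℂ) ^ 2 * (pw * pz * Y ^ 2) := by
      rw [R1, evalEval_sub, evalEval_mul, evalEval_CC, evalEval_mul, evalEval_mul,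
        evalEval_pow, evalEval_pow, evalEval_MM, evalEval_YY]
    rw [hgoal]
    by_cases hM0 : M = 0
    · have h3 : (e.2 : ℂ) * pw * Y = 0 := by rw [← h1, hM0, zero_mul]
      rw [hM0]
      linear_combination (-(e.2 : ℂ) * pz * Y) * h3
    · have hn : ‖ν‖ = 1 := by
        apply huniq
        intro ν' hν'
        have ha' : A * ν' + (starRingEnd ℂ) A * (starRingEnd ℂ) ν' = (e.2 : ℂ) * Y := by
          rw [← map_mul]; exact hν'.a e he
        have hb' : pz * ν' = pw * (starRingEnd ℂ) ν' := hν'.b p hp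
        have h1' : M * ν' = (e.2 : ℂ) * pw * Y := by
          rw [hM]; linear_combination pw * ha' + (starRingEnd ℂ) A * hb'
        exact mul_left_cancel₀ hM0 (h1'.trans h1.symm)
      have hnn : ν * (starRingEnd ℂ) ν = 1 := by
        rw [Complex.mul_conj, Complex.normSq_eq_norm_sq, hn]; simp
      linear_combination (-M ^ 2) * hnn + (M * (starRingEnd ℂ) ν) * h1 + ((e.2 : ℂ) * pw * Y) * h2
  · intro p hp e he e' he' z hz
    obtain ⟨ν, hν0, hν, huniq⟩ := h z hz
    set pz := evalEval z ((starRingEnd ℂ) z) (dz p) with hpz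
    set pw := evalEval z ((starRingEnd ℂ) z) (derivative p) with hpw
    set A := (derivative e.1).eval z with hA
    set Y := e.1.eval z + (starRingEnd ℂ) (e.1.eval z) with hY
    set A' := (derivative e'.1).eval z with hA'
    set Y' := e'.1.eval z + (starRingEnd ℂ) (e'.1.eval z) with hY'
    have ha : A * ν + (starRingEnd ℂ) A * (starRingEnd ℂ) ν = (e.2 : ℂ) * Y := by
      rw [← map_mul]; exact hν.a e he
    have ha' : A' * ν + (starRingEnd ℂ) A' * (starRingEnd ℂ) ν = (e'.2 : ℂ) * Y' := by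
      rw [← map_mul]; exact hν.a e' he'
    have hb : pz * ν = pw * (starRingEnd ℂ) ν := hν.b p hp
    have hgoal : evalEval z ((starRingEnd ℂ) z) (R2 p e.1 e.2 e'.1 e'.2)
        = (e'.2 : ℂ) * ((pw * A + pz * (starRingEnd ℂ) A) * Y')
          - (e.2 : ℂ) * ((pw * A' + pz * (starRingEnd ℂ) A') * Y) := by
      rw [R2, evalEval_sub, evalEval_mul, evalEval_CC, evalEval_mul, evalEval_mul, evalEval_CC,
        evalEval_mul, evalEval_MM, evalEval_MM, evalEval_YY, evalEval_YY]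
    rw [hgoal]
    have h1 : (pw * A + pz * (starRingEnd ℂ) A) * ν = (e.2 : ℂ) * pw * Y := by
      linear_combination pw * ha + (starRingEnd ℂ) A * hb
    have h1' : (pw * A' + pz * (starRingEnd ℂ) A') * ν = (e'.2 : ℂ) * pw * Y' := by
      linear_combination pw * ha' + (starRingEnd ℂ) A' * hb
    apply mul_left_cancel₀ hν0
    linear_combination ((e'.2 : ℂ) * Y') * h1 - ((e.2 : ℂ) * Y) * h1'

theorem van_JQ_of_pt {S : Set ℂ} {E : Set (ℂ[X] × ℝ)} (h : ∀ z ∈ S, PtProp S E z)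
    {f g : ℂ[X]} {σ τ : ℝ} (hf : (f, σ) ∈ E) (hg : (g, τ) ∈ E) :
    Van S (JJ f g * (NN f σ g τ * NN' f σ g τ - JJ f g ^ 2)) := by
  intro z hz
  obtain ⟨ν, hν0, hν, huniq⟩ := h z hz
  set A := (derivative f).eval z with hA
  set Y := f.eval z + (starRingEnd ℂ) (f.eval z) with hY
  set A' := (derivative g).eval z with hA'
  set Y' := g.eval z + (starRingEnd ℂ) (g.eval z) with hY'
  have ha : A * ν + (starRingEnd ℂ) A * (starRingEnd ℂ) ν = (σ : ℂ) * Y := by
    rw [← map_mul]; exact hν.a (f, σ) hf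
  have ha' : A' * ν + (starRingEnd ℂ) A' * (starRingEnd ℂ) ν = (τ : ℂ) * Y' := by
    rw [← map_mul]; exact hν.a (g, τ) hg
  set J := A * (starRingEnd ℂ) A' - A' * (starRingEnd ℂ) A with hJ
  have eJ : evalEval z ((starRingEnd ℂ) z) (JJ f g) = J := by
    rw [JJ, evalEval_sub, evalEval_mul, evalEval_mul, evalEval_C, evalEval_C, derivative_cj,
      derivative_cj, evalEval_cj, evalEval_cj]
  have eN : evalEval z ((starRingEnd ℂ) z) (NN f σ g τ)
      = (σ : ℂ) * Y * (starRingEnd ℂ) A' - (τ : ℂ) * Y' * (starRingEnd ℂ) A := by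
    rw [NN, evalEval_sub, evalEval_mul, evalEval_mul, evalEval_mul, evalEval_mul, evalEval_CC,
      evalEval_CC, evalEval_YY, evalEval_YY, derivative_cj, derivative_cj, evalEval_cj,
      evalEval_cj]
  have eN' : evalEval z ((starRingEnd ℂ) z) (NN' f σ g τ)
      = A * ((τ : ℂ) * Y') - A' * ((σ : ℂ) * Y) := by
    rw [NN', evalEval_sub, evalEval_mul, evalEval_mul, evalEval_mul, evalEval_mul, evalEval_CC,
      evalEval_CC, evalEval_YY, evalEval_YY, evalEval_C, evalEval_C]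
  rw [evalEval_mul, evalEval_sub, evalEval_mul, evalEval_pow, eJ, eN, eN']
  by_cases hJ0 : J = 0
  · rw [hJ0, zero_mul]
  · have h1 : J * ν = (σ : ℂ) * Y * (starRingEnd ℂ) A' - (τ : ℂ) * Y' * (starRingEnd ℂ) A := by
      rw [hJ]; linear_combination (starRingEnd ℂ) A' * ha - (starRingEnd ℂ) A * ha'
    have h2 : J * (starRingEnd ℂ) ν = A * ((τ : ℂ) * Y') - A' * ((σ : ℂ) * Y) := by
      rw [hJ]; linear_combination A * ha' - A' * ha
    have hn : ‖ν‖ = 1 := by
      apply huniq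
      intro ν' hν'
      have hb : A * ν' + (starRingEnd ℂ) A * (starRingEnd ℂ) ν' = (σ : ℂ) * Y := by
        rw [← map_mul]; exact hν'.a (f, σ) hf
      have hb' : A' * ν' + (starRingEnd ℂ) A' * (starRingEnd ℂ) ν' = (τ : ℂ) * Y' := by
        rw [← map_mul]; exact hν'.a (g, τ) hg
      have h1' : J * ν' = (σ : ℂ) * Y * (starRingEnd ℂ) A'
          - (τ : ℂ) * Y' * (starRingEnd ℂ) A := by
        rw [hJ]; linear_combination (starRingEnd ℂ) A' * hb - (starRingEnd ℂ) A * hb'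
      exact mul_left_cancel₀ hJ0 (h1'.trans h1.symm)
    have hnn : ν * (starRingEnd ℂ) ν = 1 := by
      rw [Complex.mul_conj, Complex.normSq_eq_norm_sq, hn]; simp
    rw [← h1, ← h2]
    linear_combination J ^ 3 * hnn

theorem alg_final {S : Set ℂ} {E : Set (ℂ[X] × ℝ)} (hE : Fam E)
    (hσ2 : ∃ p ∈ E, ∃ q ∈ E, p.2 ≠ q.2) (hNI : NoIso S) (hne : S.Nonempty)
    (hpt : ∀ z ∈ S, PtProp S E z) :
    (∃ (z0 : ℂ) (R : ℝ), 0 < R ∧ ∀ z ∈ S, ‖z - z0‖ = R) ∨
    (∃ P : ℂ[X][X], P ≠ 0 ∧ Van S P ∧ ∃ v : ℂ, v ≠ 0 ∧ ∀ z : ℂ, ∃ α β : ℂ, ∀ t : ℝ,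
      evalEval (z + t * v) ((starRingEnd ℂ) (z + t * v)) P = α + β * t) := by
  apply alg_main hE hσ2 hNI hne (rel_of_pt hpt)
  obtain ⟨p, hp, hp0⟩ := hE.hunb 0
  obtain ⟨q, hq, hq0⟩ := hE.hunb p.1.natDegree
  exact ⟨_, JQ_ne (σ := p.2) (τ := q.2) hp0 (by omega) (by omega) (hE.hσ p hp) (hE.hσ q hq),
    van_JQ_of_pt hpt (show (p.1, p.2) ∈ E from hp) (show (q.1, q.2) ∈ E from hq)⟩

end Pool.Agent.Helper474
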