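import Mathlib
import Pool.Agent.Helper474.AnaC

set_option autoImplicit false

namespace Pool.Agent.Helper474

open Polynomial Filter Topology

theorem quot_tendsto {γ : ℝ → ℂ} {M : ℝ → ℝ → ℝ} {s₀ : ℝ} (hγ : Continuous γ)
    (hM0 : ∀ c d, c < d → 0 < M c d) (hM1 : ∀ c d, c < d → ‖γ d - γ c‖ ≤ M c d)
    {h : ℂ → ℂ} {h' : ℂ →L[ℝ] ℂ} (hh : HasStrictFDerivAt h h' (γ s₀))
    (u : Filter (ℝ × ℝ)) (hu : u ≤ 𝓝[{p : ℝ × ℝ | p.1 < p.2}] (s₀, s₀)) {X₀ : ℂ}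
    (hX : Tendsto (fun p : ℝ × ℝ => (γ p.2 - γ p.1) / (M p.1 p.2 : ℂ)) u (𝓝 X₀)) :
    Tendsto (fun p : ℝ × ℝ => (h (γ p.2) - h (γ p.1)) / (M p.1 p.2 : ℂ)) u (𝓝 (h' X₀)) := by
  have hlt : ∀ᶠ p in u, p.1 < p.2 := hu self_mem_nhdsWithin
  have hu' : u ≤ 𝓝 (s₀, s₀) := hu.trans nhdsWithin_le_nhds
  have hpair : Tendsto (fun p : ℝ × ℝ => (γ p.2, γ p.1)) u (𝓝 (γ s₀, γ s₀)) := by
    have : Continuous (fun p : ℝ × ℝ => (γ p.2, γ p.1)) := by fun_prop
    exact (this.tendsto (s₀, s₀)).comp hu'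
  have h1 : (fun p : ℂ × ℂ => h p.1 - h p.2 - h' (p.1 - p.2)) =o[𝓝 (γ s₀, γ s₀)]
      fun p : ℂ × ℂ => p.1 - p.2 := hh.isLittleO
  have h2 := h1.comp_tendsto hpair
  have h3 : Tendsto (fun p : ℝ × ℝ => (h (γ p.2) - h (γ p.1) - h' (γ p.2 - γ p.1))
      / (M p.1 p.2 : ℂ)) u (𝓝 0) := by
    have h4 : (fun p : ℝ × ℝ => h (γ p.2) - h (γ p.1) - h' (γ p.2 - γ p.1)) =o[u]
        fun p : ℝ × ℝ => (M p.1 p.2 : ℂ) := by
      refine h2.trans_isBigO ?_
      apply Asymptotics.IsBigO.of_bound 1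
      filter_upwards [hlt] with p hp
      simp only [Function.comp_apply, one_mul, Complex.norm_real, Real.norm_eq_abs]
      rw [abs_of_pos (hM0 _ _ hp)]
      exact hM1 _ _ hp
    exact h4.tendsto_div_nhds_zero
  have h5 : Tendsto (fun p : ℝ × ℝ => h' ((γ p.2 - γ p.1) / (M p.1 p.2 : ℂ))) u (𝓝 (h' X₀)) :=
    (h'.continuous.tendsto X₀).comp hX
  have h6 := h3.add h5
  rw [zero_add] at h6
  refine h6.congr' ?_
  filter_upwards [hlt] with p hp
  have hMp : (M p.1 p.2 : ℂ) ≠ 0 := by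
    have := (hM0 _ _ hp).ne'
    exact_mod_cast this
  have h7 : (γ p.2 - γ p.1) / (M p.1 p.2 : ℂ) = (M p.1 p.2)⁻¹ • (γ p.2 - γ p.1) := by
    rw [Complex.real_smul]; push_cast; field_simp
  rw [h7, map_smul, Complex.real_smul]
  push_cast
  field_simp
  ring

theorem pt_of_limit {S : Set ℂ} {E : Set (ℂ[X] × ℝ)} {γ : ℝ → ℂ} {M : ℝ → ℝ → ℝ} {ε : ℝ}
    (hε : ε ^ 2 = 1) {s₀ : ℝ} (hγ : Continuous γ)
    (hM0 : ∀ c d, c < d → 0 < M c d) (hM1 : ∀ c d, c < d → ‖γ d - γ c‖ ≤ M c d)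
    (hS : ∀ᶠ s in 𝓝 s₀, γ s ∈ S)
    (hI : ∀ e ∈ E, Tendsto (fun p : ℝ × ℝ =>
      ε * ((e.1.eval (γ p.2)).im - (e.1.eval (γ p.1)).im) / M p.1 p.2)
      (𝓝[{p : ℝ × ℝ | p.1 < p.2}] (s₀, s₀)) (𝓝 (e.2 * (e.1.eval (γ s₀)).re)))
    (u : Filter (ℝ × ℝ)) [u.NeBot] (hu : u ≤ 𝓝[{p : ℝ × ℝ | p.1 < p.2}] (s₀, s₀)) {X₀ : ℂ}
    (hX : Tendsto (fun p : ℝ × ℝ => (γ p.2 - γ p.1) / (M p.1 p.2 : ℂ)) u (𝓝 X₀)) :
    Pt S E (γ s₀) (-Complex.I * ε * X₀) := by
  have hεC : (ε : ℂ) ^ 2 = 1 := by exact_mod_cast hε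
  constructor
  · intro e he
    set F := e.1 with hF
    have h1 : HasStrictFDerivAt (fun z : ℂ => F.eval z)
        (((derivative F).eval (γ s₀)) • (ContinuousLinearMap.id ℝ ℂ)) (γ s₀) := by
      have h := (F.hasStrictDerivAt (γ s₀)).hasStrictFDerivAt.restrictScalars ℝ
      refine h.congr_fderiv ?_
      apply ContinuousLinearMap.ext; intro v
      simp [mul_comm]
    have h2 := quot_tendsto hγ hM0 hM1 h1 u hu hX
    have h3 : Tendsto (fun p : ℝ × ℝ =>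
        ε * ((F.eval (γ p.2) - F.eval (γ p.1)) / (M p.1 p.2 : ℂ)).im) u
        (𝓝 (ε * ((derivative F).eval (γ s₀) * X₀).im)) := by
      have h4 := (Complex.continuous_im.tendsto _).comp h2
      have h5 := h4.const_mul ε
      simpa using h5
    have h4 : Tendsto (fun p : ℝ × ℝ =>
        ε * ((F.eval (γ p.2)).im - (F.eval (γ p.1)).im) / M p.1 p.2) u
        (𝓝 (e.2 * (F.eval (γ s₀)).re)) := (hI e he).mono_left hu
    have h5 : (fun p : ℝ × ℝ =>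
        ε * ((F.eval (γ p.2) - F.eval (γ p.1)) / (M p.1 p.2 : ℂ)).im)
        = fun p : ℝ × ℝ => ε * ((F.eval (γ p.2)).im - (F.eval (γ p.1)).im) / M p.1 p.2 := by
      funext p
      rw [Complex.div_ofReal_im, Complex.sub_im]; ring
    rw [h5] at h3
    have h6 := tendsto_nhds_unique h3 h4
    set A := (derivative F).eval (γ s₀) with hA
    have h7 : A * (-Complex.I * ε * X₀) + (starRingEnd ℂ) (A * (-Complex.I * ε * X₀))
        = ((2 * (ε * (A * X₀).im) : ℝ) : ℂ) := by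
      rw [Complex.add_conj]
      congr 1
      have : A * (-Complex.I * ε * X₀) = -Complex.I * ((ε : ℂ) * (A * X₀)) := by ring
      rw [this, neg_mul, Complex.neg_re, Complex.I_mul_re, Complex.im_ofReal_mul]
      ring
    rw [h7, h6, Complex.add_conj]
    push_cast; ring
  · intro p hp
    have h1 := quot_tendsto hγ hM0 hM1 (hasStrictFDerivAt_evalEval p (γ s₀)) u hu hX
    have h2 : Tendsto (fun q : ℝ × ℝ =>
        (evalEval (γ q.2) ((starRingEnd ℂ) (γ q.2)) p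
          - evalEval (γ q.1) ((starRingEnd ℂ) (γ q.1)) p) / (M q.1 q.2 : ℂ)) u (𝓝 0) := by
      have h3 : Tendsto (fun _ : ℝ × ℝ => (0 : ℂ)) u (𝓝 0) := tendsto_const_nhds
      refine h3.congr' ?_
      have hu' : u ≤ 𝓝 (s₀, s₀) := hu.trans nhdsWithin_le_nhds
      have h4 : ∀ᶠ q : ℝ × ℝ in 𝓝 (s₀, s₀), γ q.1 ∈ S :=
        (continuous_fst.tendsto (s₀, s₀)).eventually hS
      have h5 : ∀ᶠ q : ℝ × ℝ in 𝓝 (s₀, s₀), γ q.2 ∈ S :=
        (continuous_snd.tendsto (s₀, s₀)).eventually hS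
      filter_upwards [hu' h4, hu' h5] with q hq1 hq2
      rw [hp _ hq1, hp _ hq2]; simp
    have h3 := tendsto_nhds_unique h1 h2
    rw [DPl_apply] at h3
    simp only [map_mul, map_neg, Complex.conj_I, Complex.conj_ofReal]
    linear_combination (-Complex.I * ε) * h3

theorem key_pt {S : Set ℂ} {E : Set (ℂ[X] × ℝ)} {γ : ℝ → ℂ} {M : ℝ → ℝ → ℝ} {a : ℂ}
    {ε L₀ : ℝ} (hε : ε ^ 2 = 1) {s₀ : ℝ} (hγ : Continuous γ) (ha : ‖a‖ = 1)
    (hre : ∀ c d, ((starRingEnd ℂ) a * (γ d - γ c)).re = d - c)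
    (hL₀ : 0 < L₀) (hLip : ∀ c d, c < d → M c d ≤ L₀ * (d - c))
    (hM1 : ∀ c d, c < d → ‖γ d - γ c‖ ≤ M c d)
    (hM2 : ∀ c d L, c < d → (∀ s t, c ≤ s → s < t → t ≤ d → ‖γ t - γ s‖ ≤ L * (t - s)) →
      M c d ≤ L * (d - c))
    (hS : ∀ᶠ s in 𝓝 s₀, γ s ∈ S)
    (hI : ∀ e ∈ E, Tendsto (fun p : ℝ × ℝ =>
      ε * ((e.1.eval (γ p.2)).im - (e.1.eval (γ p.1)).im) / M p.1 p.2)
      (𝓝[{p : ℝ × ℝ | p.1 < p.2}] (s₀, s₀)) (𝓝 (e.2 * (e.1.eval (γ s₀)).re))) :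
    PtProp S E (γ s₀) := by
  set l : Filter (ℝ × ℝ) := 𝓝[{p : ℝ × ℝ | p.1 < p.2}] (s₀, s₀) with hl
  have hεC : (ε : ℂ) ^ 2 = 1 := by exact_mod_cast hε
  have hε0 : (ε : ℂ) ≠ 0 := by
    intro h; rw [h] at hεC; norm_num at hεC
  have hge : ∀ c d, d - c ≤ ‖γ d - γ c‖ := by
    intro c d
    rw [← hre c d]
    refine (Complex.re_le_norm _).trans ?_
    rw [norm_mul, RCLike.norm_conj, ha, one_mul]
  have hM0 : ∀ c d, c < d → 0 < M c d := by
    intro c d hcd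
    have := hge c d
    have := hM1 c d hcd
    linarith
  have hlne : l.NeBot := by
    rw [hl]
    apply mem_closure_iff_nhdsWithin_neBot.1
    have h1 : Tendsto (fun n : ℕ => ((s₀, s₀ + 1 / ((n : ℝ) + 1)) : ℝ × ℝ)) atTop
        (𝓝 (s₀, s₀)) := by
      apply Tendsto.prodMk_nhds tendsto_const_nhds
      have := (tendsto_one_div_add_atTop_nhds_zero_nat (𝕜 := ℝ)).const_add s₀
      simpa using this
    apply mem_closure_of_tendsto h1
    apply Filter.Eventually.of_forall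
    intro n
    have : (0 : ℝ) < 1 / ((n : ℝ) + 1) := by positivity
    simp only [Set.mem_ofPred_eq]
    linarith
  set X : ℝ × ℝ → ℂ := fun p => (γ p.2 - γ p.1) / (M p.1 p.2 : ℂ) with hX
  have hlt : ∀ᶠ p in l, p.1 < p.2 := self_mem_nhdsWithin
  -- bounds for X
  have hXnorm : ∀ p : ℝ × ℝ, p.1 < p.2 → ‖X p‖ ≤ 1 := by
    intro p hp
    have h0 := hM0 _ _ hp
    rw [hX]
    simp only [norm_div, Complex.norm_real, Real.norm_eq_abs]
    rw [abs_of_pos h0, div_le_one h0]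
    exact hM1 _ _ hp
  have hXre : ∀ p : ℝ × ℝ, ((starRingEnd ℂ) a * X p).re = (p.2 - p.1) / M p.1 p.2 := by
    intro p
    rw [hX]
    simp only
    rw [← mul_div_assoc, Complex.div_ofReal_re, hre]
  have hXre' : ∀ p : ℝ × ℝ, p.1 < p.2 → 1 / L₀ ≤ ((starRingEnd ℂ) a * X p).re := by
    intro p hp
    have h0 := hM0 _ _ hp
    rw [hXre, div_le_div_iff₀ hL₀ h0]
    have := hLip _ _ hp
    linarith
  -- limits along ultrafilters
  have hlim : ∀ u : Ultrafilter (ℝ × ℝ), (u : Filter (ℝ × ℝ)) ≤ l →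
      ∃ X₀ : ℂ, Tendsto X u (𝓝 X₀) ∧ ‖X₀‖ ≤ 1 ∧ 1 / L₀ ≤ ((starRingEnd ℂ) a * X₀).re ∧
        Pt S E (γ s₀) (-Complex.I * ε * X₀) := by
    intro u hu
    have hc : IsCompact (Metric.closedBall (0 : ℂ) 1) := isCompact_closedBall 0 1
    have h1 : ((u.map X : Ultrafilter ℂ) : Filter ℂ) ≤ 𝓟 (Metric.closedBall (0 : ℂ) 1) := by
      rw [le_principal_iff]
      have : ∀ᶠ p in (u : Filter (ℝ × ℝ)), X p ∈ Metric.closedBall (0 : ℂ) 1 := by
        filter_upwards [hu hlt] with p hp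
        rw [mem_closedBall_zero_iff]
        exact hXnorm p hp
      exact this
    obtain ⟨X₀, hX₀, hlim⟩ := isCompact_iff_ultrafilter_le_nhds.1 hc _ h1
    have hT : Tendsto X u (𝓝 X₀) := hlim
    refine ⟨X₀, hT, by rwa [mem_closedBall_zero_iff] at hX₀, ?_, ?_⟩
    · have h2 : Tendsto (fun p => ((starRingEnd ℂ) a * X p).re) u
          (𝓝 ((starRingEnd ℂ) a * X₀).re) := by
        exact (Complex.continuous_re.tendsto _).comp (hT.const_mul _)
      apply ge_of_tendsto h2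
      filter_upwards [hu hlt] with p hp
      exact hXre' p hp
    · exact pt_of_limit hε hγ hM0 hM1 hS hI _ hu hT
  obtain ⟨u₀, hu₀⟩ := Ultrafilter.exists_le l
  obtain ⟨X₀, hT₀, hX₀1, hX₀re, hPt⟩ := hlim u₀ hu₀
  have hX₀re0 : 0 < ((starRingEnd ℂ) a * X₀).re := lt_of_lt_of_le (by positivity) hX₀re
  have hX₀0 : X₀ ≠ 0 := by
    rintro rfl
    simp at hX₀re0
  refine ⟨-Complex.I * ε * X₀, ?_, hPt, ?_⟩
  · exact mul_ne_zero (mul_ne_zero (neg_ne_zero.2 Complex.I_ne_zero) hε0) hX₀0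
  · intro huniq
    have hT : Tendsto X l (𝓝 X₀) := by
      rw [tendsto_iff_ultrafilter]
      intro u hu
      obtain ⟨X₁, hT₁, _, _, hPt₁⟩ := hlim u hu
      have h1 := huniq _ hPt₁
      have h2 : X₁ = X₀ := by
        apply mul_left_cancel₀ (mul_ne_zero (neg_ne_zero.2 Complex.I_ne_zero) hε0)
        exact h1
      rwa [h2] at hT₁
    set x₁ := ((starRingEnd ℂ) a * X₀).re with hx₁
    set G := ‖X₀‖ / x₁ with hG
    have hG0 : 0 < G := div_pos (norm_pos_iff.2 hX₀0) hX₀re0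
    have hTre : Tendsto (fun p => ((starRingEnd ℂ) a * X p).re) l (𝓝 x₁) :=
      (Complex.continuous_re.tendsto _).comp (hT.const_mul _)
    have hTG : Tendsto (fun p => ‖X p‖ / ((starRingEnd ℂ) a * X p).re) l (𝓝 G) :=
      (hT.norm).div hTre hX₀re0.ne'
    have hkey : ∀ η : ℝ, 0 < η → 1 / (G + η) ≤ x₁ := by
      intro η hη
      have h1 : ∀ᶠ p in l, ‖X p‖ / ((starRingEnd ℂ) a * X p).re < G + η :=
        hTG.eventually_lt_const (by linarith)
      rw [hl, eventually_nhdsWithin_iff, Metric.eventually_nhds_iff] at h1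
      obtain ⟨δ, hδ, h2⟩ := h1
      apply ge_of_tendsto hTre
      have h3 : ∀ᶠ p : ℝ × ℝ in 𝓝 (s₀, s₀), dist p (s₀, s₀) < δ := Metric.ball_mem_nhds _ hδ
      have h4 : ∀ᶠ p : ℝ × ℝ in l, dist p (s₀, s₀) < δ := nhdsWithin_le_nhds h3
      filter_upwards [h4, hlt] with p hp hplt
      rw [Prod.dist_eq, max_lt_iff] at hp
      simp only [Real.dist_eq, abs_lt] at hp
      have h5 : M p.1 p.2 ≤ (G + η) * (p.2 - p.1) := by
        apply hM2 _ _ _ hplt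
        intro s t hs hst ht
        have h6 : ‖X (s, t)‖ / ((starRingEnd ℂ) a * X (s, t)).re < G + η := by
          apply h2
          · rw [Prod.dist_eq, max_lt_iff]
            simp only [Real.dist_eq, abs_lt]
            refine ⟨⟨by linarith, by linarith⟩, ⟨by linarith, by linarith⟩⟩
          · exact hst
        have hMst := hM0 s t hst
        rw [hXre] at h6
        simp only [hX, norm_div, Complex.norm_real, Real.norm_eq_abs] at h6
        rw [abs_of_pos hMst, div_div_div_cancel_right₀ hMst.ne', div_lt_iff₀ (by linarith)] at h6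
        exact h6.le
      rw [hXre, div_le_div_iff₀ (by linarith) (hM0 _ _ hplt)]
      linarith
    have h1 : 1 / G ≤ x₁ := by
      have h2 : Tendsto (fun η : ℝ => 1 / (G + η)) (𝓝[>] 0) (𝓝 (1 / (G + 0))) := by
        apply Tendsto.mono_left _ nhdsWithin_le_nhds
        apply ContinuousAt.tendsto
        apply ContinuousAt.div continuousAt_const (by fun_prop)
        rw [add_zero]; exact hG0.ne'
      rw [add_zero] at h2
      apply le_of_tendsto h2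
      filter_upwards [self_mem_nhdsWithin] with η hη
      exact hkey η hη
    have h2 : 1 ≤ ‖X₀‖ := by
      rw [div_le_iff₀ hG0, hG, mul_div_cancel₀ _ hX₀re0.ne'] at h1
      exact h1
    have h3 : ‖X₀‖ = 1 := le_antisymm hX₀1 h2
    rw [norm_mul, norm_mul, norm_neg, Complex.norm_I, h3, Complex.norm_real, Real.norm_eq_abs]
    have : |ε| = 1 := by
      rw [← sq_eq_sq₀ (abs_nonneg _) zero_le_one, sq_abs, hε]; norm_num
    rw [this]; norm_num

end Pool.Agent.Helper474
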