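import Mathlib
import Pool.Agent.Helper474.AnaD

set_option autoImplicit false

namespace Pool.Agent.Helper474

open Filter Topology MeasureTheory MeasureTheory.Measure

abbrev V := EuclideanSpace ℝ (Fin 2)

noncomputable abbrev toC : V ≃ₗᵢ[ℝ] ℂ := Complex.orthonormalBasisOneI.repr.symm

theorem toC_apply (y : V) : toC y = y 0 + y 1 * Complex.I :=
  Complex.orthonormalBasisOneI_repr_symm_apply y

noncomputable def pt (R : V ≃ₗᵢ[ℝ] V) (s t : ℝ) : V := R.symm (!₂[s, t])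

theorem R_pt_zero (R : V ≃ₗᵢ[ℝ] V) (s t : ℝ) : R (pt R s t) 0 = s := by simp [pt]

theorem R_pt_one (R : V ≃ₗᵢ[ℝ] V) (s t : ℝ) : R (pt R s t) 1 = t := by simp [pt]

theorem pt_R (R : V ≃ₗᵢ[ℝ] V) (y : V) : pt R (R y 0) (R y 1) = y := by
  have : (!₂[R y 0, R y 1] : V) = R y := by
    ext i; fin_cases i <;> simp
  rw [pt, this, LinearIsometryEquiv.symm_apply_apply]

noncomputable def ea (R : V ≃ₗᵢ[ℝ] V) : V := R.symm (!₂[1, 0])
noncomputable def eb (R : V ≃ₗᵢ[ℝ] V) : V := R.symm (!₂[0, 1])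

theorem pt_eq (R : V ≃ₗᵢ[ℝ] V) (s t : ℝ) : pt R s t = s • ea R + t • eb R := by
  have : (!₂[s, t] : V) = s • !₂[1, 0] + t • !₂[0, 1] := by
    ext i; fin_cases i <;> simp
  rw [pt, ea, eb, this, map_add, map_smul, map_smul]

theorem norm_ea (R : V ≃ₗᵢ[ℝ] V) : ‖ea R‖ = 1 := by
  rw [ea, LinearIsometryEquiv.norm_map, EuclideanSpace.norm_eq]; simp

theorem norm_eb (R : V ≃ₗᵢ[ℝ] V) : ‖eb R‖ = 1 := by
  rw [eb, LinearIsometryEquiv.norm_map, EuclideanSpace.norm_eq]; simp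

theorem inner_ea_eb (R : V ≃ₗᵢ[ℝ] V) : @inner ℝ _ _ (ea R) (eb R) = 0 := by
  rw [ea, eb, LinearIsometryEquiv.inner_map_map]
  simp [PiLp.inner_apply]

/-- the complex frame of a chart. -/
noncomputable def fa (R : V ≃ₗᵢ[ℝ] V) : ℂ := toC (ea R)

theorem norm_fa (R : V ≃ₗᵢ[ℝ] V) : ‖fa R‖ = 1 := by
  rw [fa, LinearIsometryEquiv.norm_map, norm_ea]

theorem exists_eps (R : V ≃ₗᵢ[ℝ] V) :
    ∃ ε : ℝ, ε ^ 2 = 1 ∧ toC (eb R) = ε * Complex.I * fa R := by
  have h1 : ((starRingEnd ℂ) (fa R) * toC (eb R)).re = 0 := by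
    have h := inner_ea_eb R
    rw [← LinearIsometryEquiv.inner_map_map toC, Complex.inner] at h
    rw [fa, ← h]
    congr 1; ring
  set c := (starRingEnd ℂ) (fa R) * toC (eb R) with hc
  have h2 : c = c.im * Complex.I := by
    apply Complex.ext <;> simp [h1]
  have haa : fa R * (starRingEnd ℂ) (fa R) = 1 := by
    rw [Complex.mul_conj, Complex.normSq_eq_norm_sq, norm_fa]; simp
  have h3 : toC (eb R) = c.im * Complex.I * fa R := by
    rw [← h2, hc]; linear_combination (-toC (eb R)) * haa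
  refine ⟨c.im, ?_, h3⟩
  have h4 : ‖c‖ = 1 := by
    rw [hc, norm_mul, RCLike.norm_conj, norm_fa, LinearIsometryEquiv.norm_map, norm_eb, one_mul]
  have h5 : ‖c‖ ^ 2 = c.im ^ 2 := by
    rw [← Complex.normSq_eq_norm_sq, Complex.normSq_apply, h1]; ring
  rw [← h5, h4]; norm_num

/-- the orientation sign of a chart. -/
noncomputable def eps (R : V ≃ₗᵢ[ℝ] V) : ℝ := (exists_eps R).choose

theorem eps_sq (R : V ≃ₗᵢ[ℝ] V) : eps R ^ 2 = 1 := (exists_eps R).choose_spec.1

theorem toC_eb (R : V ≃ₗᵢ[ℝ] V) : toC (eb R) = eps R * Complex.I * fa R :=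
  (exists_eps R).choose_spec.2

theorem toC_pt (R : V ≃ₗᵢ[ℝ] V) (s t : ℝ) :
    toC (pt R s t) = s * fa R + t * (eps R * Complex.I * fa R) := by
  rw [pt_eq, map_add, map_smul, map_smul, toC_eb, ← fa]
  simp only [Complex.real_smul]

noncomputable def gam (R : V ≃ₗᵢ[ℝ] V) (f : ℝ → ℝ) (s : ℝ) : V := pt R s (f s)

theorem gam_injective (R : V ≃ₗᵢ[ℝ] V) (f : ℝ → ℝ) : Function.Injective (gam R f) := by
  intro s t h
  have := congrArg (fun y : V => R y 0) h
  simp only [gam, R_pt_zero] at this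
  exact this

theorem dist_pt (R : V ≃ₗᵢ[ℝ] V) (s t s' t' : ℝ) :
    dist (pt R s t) (pt R s' t') ≤ |s - s'| + |t - t'| := by
  rw [dist_eq_norm]
  have : pt R s t - pt R s' t' = (s - s') • ea R + (t - t') • eb R := by
    rw [pt_eq, pt_eq]; module
  rw [this]
  refine (norm_add_le _ _).trans ?_
  rw [norm_smul, norm_smul, norm_ea, norm_eb, mul_one, mul_one, Real.norm_eq_abs,
    Real.norm_eq_abs]

theorem gam_lipschitz (R : V ≃ₗᵢ[ℝ] V) {f : ℝ → ℝ} {K : NNReal} (hf : LipschitzWith K f) :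
    LipschitzWith (K + 1) (gam R f) := by
  apply LipschitzWith.of_dist_le_mul
  intro s t
  refine (dist_pt R _ _ _ _).trans ?_
  have := hf.dist_le_mul s t
  rw [Real.dist_eq] at this ⊢
  rw [Real.dist_eq] at this
  push_cast
  linarith

theorem gam_measurableEmbedding (R : V ≃ₗᵢ[ℝ] V) {f : ℝ → ℝ} {K : NNReal}
    (hf : LipschitzWith K f) : MeasurableEmbedding (gam R f) :=
  (gam_lipschitz R hf).continuous.measurableEmbedding (gam_injective R f)

noncomputable def mm (R : V ≃ₗᵢ[ℝ] V) (f : ℝ → ℝ) : Measure ℝ :=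
  Measure.comap (gam R f) (μH[1] : Measure V)

theorem mm_apply (R : V ≃ₗᵢ[ℝ] V) {f : ℝ → ℝ} {K : NNReal}
    (hf : LipschitzWith K f) (A : Set ℝ) :
    mm R f A = (μH[1] : Measure V) (gam R f '' A) :=
  (gam_measurableEmbedding R hf).comap_apply _ _

theorem lip_R0 (R : V ≃ₗᵢ[ℝ] V) : LipschitzWith 1 (fun y : V => R y 0) := by
  apply LipschitzWith.of_dist_le_mul
  intro x y
  rw [NNReal.coe_one, one_mul, ← R.dist_map x y, Real.dist_eq, dist_eq_norm]
  have := PiLp.norm_apply_le (R x - R y) 0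
  simpa using this

theorem volume_le_mm (R : V ≃ₗᵢ[ℝ] V) {f : ℝ → ℝ} {K : NNReal}
    (hf : LipschitzWith K f) : (volume : Measure ℝ) ≤ mm R f := by
  rw [Measure.le_iff]
  intro A _
  rw [mm_apply R hf, ← hausdorffMeasure_real]
  have h1 := (lip_R0 R).hausdorffMeasure_image_le (zero_le_one' ℝ) (gam R f '' A)
  have h2 : (fun y : V => R y 0) '' (gam R f '' A) = A := by
    rw [← Set.image_comp]
    have : (fun y : V => R y 0) ∘ gam R f = id := by
      funext s; simp [gam, R_pt_zero]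
    rw [this, Set.image_id]
  rw [h2] at h1
  simpa using h1

theorem mm_le (R : V ≃ₗᵢ[ℝ] V) {f : ℝ → ℝ} {K : NNReal}
    (hf : LipschitzWith K f) : mm R f ≤ (K + 1) • (volume : Measure ℝ) := by
  rw [Measure.le_iff]
  intro A _
  rw [mm_apply R hf, ← hausdorffMeasure_real]
  have h1 := (gam_lipschitz R hf).hausdorffMeasure_image_le (zero_le_one' ℝ) A
  rw [ENNReal.rpow_one] at h1
  exact h1

theorem mm_Ioo_le (R : V ≃ₗᵢ[ℝ] V) {f : ℝ → ℝ} {K : NNReal}
    (hf : LipschitzWith K f) (c d L : ℝ) (hL : 0 ≤ L)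
    (h : ∀ s t, c ≤ s → s < t → t ≤ d →
      ‖toC (gam R f t) - toC (gam R f s)‖ ≤ L * (t - s)) :
    mm R f (Set.Ioo c d) ≤ ENNReal.ofReal (L * (d - c)) := by
  rw [mm_apply R hf]
  have h1 : LipschitzOnWith (Real.toNNReal L) (gam R f) (Set.Ioo c d) := by
    apply LipschitzOnWith.of_dist_le_mul
    intro s hs t ht
    rw [← toC.dist_map, Real.coe_toNNReal L hL]
    rcases lt_trichotomy s t with hst | hst | hst
    · rw [dist_comm, dist_eq_norm, dist_comm s t, Real.dist_eq, abs_of_pos (by linarith)]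
      exact h s t hs.1.le hst ht.2.le
    · rw [hst]; simp
    · rw [dist_eq_norm, Real.dist_eq, abs_of_pos (by linarith)]
      exact h t s ht.1.le hst hs.2.le
  have h2 := h1.hausdorffMeasure_image_le (zero_le_one' ℝ)
  rw [ENNReal.rpow_one, hausdorffMeasure_real, Real.volume_Ioo] at h2
  rw [ENNReal.ofReal_mul hL]
  exact h2

theorem mm_Ioo_ge (R : V ≃ₗᵢ[ℝ] V) {f : ℝ → ℝ} {K : NNReal}
    (hf : LipschitzWith K f) (c d : ℝ) (hcd : c < d) :
    ENNReal.ofReal ‖toC (gam R f d) - toC (gam R f c)‖ ≤ mm R f (Set.Ioo c d) := by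
  rw [mm_apply R hf]
  set w := gam R f d - gam R f c with hw
  have hwn : ‖toC (gam R f d) - toC (gam R f c)‖ = ‖w‖ := by
    rw [← map_sub, LinearIsometryEquiv.norm_map]
  rw [hwn]
  have hw0 : w ≠ 0 := by
    intro h
    have := gam_injective R f (sub_eq_zero.1 h)
    linarith
  have hwp : 0 < ‖w‖ := norm_pos_iff.2 hw0
  set pr : V → ℝ := fun y => @inner ℝ _ _ (‖w‖⁻¹ • w) (y - gam R f c) with hpr
  have hun : ‖‖w‖⁻¹ • w‖ = 1 := by
    rw [norm_smul, norm_inv, norm_norm, inv_mul_cancel₀ hwp.ne']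
  have hlip : LipschitzWith 1 pr := by
    apply LipschitzWith.of_dist_le_mul
    intro x y
    rw [NNReal.coe_one, one_mul, Real.dist_eq, hpr]
    simp only
    rw [← inner_sub_right]
    have : x - gam R f c - (y - gam R f c) = x - y := by abel
    rw [this]
    refine (abs_real_inner_le_norm _ _).trans ?_
    rw [hun, one_mul, dist_eq_norm]
  have h1 := hlip.hausdorffMeasure_image_le (zero_le_one' ℝ) (gam R f '' Set.Ioo c d)
  have hcont : ContinuousOn (fun s => pr (gam R f s)) (Set.Icc c d) :=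
    (hlip.continuous.comp (gam_lipschitz R hf).continuous).continuousOn
  have h2 : Set.Ioo (pr (gam R f c)) (pr (gam R f d)) ⊆ pr '' (gam R f '' Set.Ioo c d) := by
    have := intermediate_value_Ioo hcd.le hcont
    rwa [Set.image_image]
  have h3 : pr (gam R f c) = 0 := by simp [hpr]
  have h4 : pr (gam R f d) = ‖w‖ := by
    rw [hpr]
    simp only
    rw [← hw, real_inner_smul_left, real_inner_self_eq_norm_sq]
    field_simp
  rw [h3, h4] at h2
  have h5 := measure_mono (μ := (μH[1] : Measure ℝ)) h2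
  rw [hausdorffMeasure_real, Real.volume_Ioo, sub_zero] at h5
  refine h5.trans ?_
  rw [← hausdorffMeasure_real]
  simpa using h1

end Pool.Agent.Helper474
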