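import Mathlib
import Pool.Agent.Helper474.AnaE

set_option autoImplicit false

namespace Pool.Agent.Helper474

open Filter Topology MeasureTheory MeasureTheory.Measure

theorem green_graph {G Gs Gt : ℝ → ℝ → ℝ}
    (hGs : ∀ s t, HasDerivAt (fun s => G s t) (Gs s t) s)
    (hGt : ∀ s t, HasDerivAt (fun t => G s t) (Gt s t) t)
    (cG : Continuous (fun p : ℝ × ℝ => G p.1 p.2))
    (cGs : Continuous (fun p : ℝ × ℝ => Gs p.1 p.2))
    (cGt : Continuous (fun p : ℝ × ℝ => Gt p.1 p.2))
    {φ χ : ℝ → ℝ} (hφ : ContDiff ℝ 1 φ) (hφc : HasCompactSupport φ)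
    (hχ : ContDiff ℝ 1 χ) (hχc : HasCompactSupport χ) {f : ℝ → ℝ} (hf : Continuous f) (T : ℝ)
    (h1 : ∀ s ∈ tsupport φ, χ (f s) = 1)
    (h2 : ∀ s ∈ tsupport φ, ∀ t ∈ Set.uIcc (f s) T, deriv χ t = 0) :
    ∫ p in {p : ℝ × ℝ | f p.1 < p.2}, (Gt p.1 p.2 * (deriv φ p.1 * χ p.2)
      - Gs p.1 p.2 * (φ p.1 * deriv χ p.2)) = -∫ s, G s (f s) * deriv φ s := by
  have cφ' : Continuous (deriv φ) := hφ.continuous_deriv le_rfl
  have cχ' : Continuous (deriv χ) := hχ.continuous_deriv le_rfl
  have dφ : ∀ s, HasDerivAt φ (deriv φ s) s := fun s =>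
    (hφ.differentiable one_ne_zero s).hasDerivAt
  have dχ : ∀ s, HasDerivAt χ (deriv χ s) s := fun s =>
    (hχ.differentiable one_ne_zero s).hasDerivAt
  have sφ : ∀ s, s ∉ tsupport φ → φ s = 0 := fun s hs => image_eq_zero_of_notMem_tsupport hs
  have sφ' : ∀ s, s ∉ tsupport φ → deriv φ s = 0 := fun s hs => by
    by_contra h
    exact hs (support_deriv_subset h)
  have sχ : ∀ s, s ∉ tsupport χ → χ s = 0 := fun s hs => image_eq_zero_of_notMem_tsupport hs
  have sχ' : ∀ s, s ∉ tsupport χ → deriv χ s = 0 := fun s hs => by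
    by_contra h
    exact hs (support_deriv_subset h)
  have hcomp : IsCompact (tsupport φ ×ˢ tsupport χ) := hφc.isCompact.prod hχc.isCompact
  set h₁ : ℝ × ℝ → ℝ := fun p => deriv φ p.1 * (Gt p.1 p.2 * χ p.2 + G p.1 p.2 * deriv χ p.2)
    with hh₁
  set h₂ : ℝ × ℝ → ℝ := fun p => deriv χ p.2 * (deriv φ p.1 * G p.1 p.2 + φ p.1 * Gs p.1 p.2)
    with hh₂
  have i₁ : Integrable h₁ := by
    apply Continuous.integrable_of_hasCompactSupport (by fun_prop)
    apply HasCompactSupport.intro hcomp
    intro p hp
    rw [Set.mem_prod, not_and_or] at hp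
    rw [hh₁]
    rcases hp with hp | hp
    · simp [sφ' _ hp]
    · simp [sχ _ hp, sχ' _ hp]
  have i₂ : Integrable h₂ := by
    apply Continuous.integrable_of_hasCompactSupport (by fun_prop)
    apply HasCompactSupport.intro hcomp
    intro p hp
    rw [Set.mem_prod, not_and_or] at hp
    rw [hh₂]
    rcases hp with hp | hp
    · simp [sφ _ hp, sφ' _ hp]
    · simp [sχ' _ hp]
  have mA : MeasurableSet {p : ℝ × ℝ | f p.1 < p.2} :=
    (isOpen_lt (hf.comp continuous_fst) continuous_snd).measurableSet
  have mB : MeasurableSet {p : ℝ × ℝ | T < p.2} :=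
    (isOpen_lt continuous_const continuous_snd).measurableSet
  have j₁ := i₁.indicator mA
  have j₂ := i₂.indicator mB
  have hpt : ∀ p : ℝ × ℝ, Set.indicator {p : ℝ × ℝ | f p.1 < p.2}
      (fun p => Gt p.1 p.2 * (deriv φ p.1 * χ p.2) - Gs p.1 p.2 * (φ p.1 * deriv χ p.2)) p
      = Set.indicator {p : ℝ × ℝ | f p.1 < p.2} h₁ p
        - Set.indicator {p : ℝ × ℝ | T < p.2} h₂ p := by
    intro p
    by_cases hp : p.1 ∈ tsupport φ
    · by_cases hd : deriv χ p.2 = 0
      · by_cases hA : f p.1 < p.2 <;> by_cases hB : T < p.2 <;>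
          simp [Set.indicator, hA, hB, hh₁, hh₂, hd] <;> ring
      · have hAB : f p.1 < p.2 ↔ T < p.2 := by
          constructor
          · intro h
            by_contra hcon
            push Not at hcon
            exact hd (h2 _ hp _ (Set.mem_uIcc.2 (Or.inl ⟨h.le, hcon⟩)))
          · intro h
            by_contra hcon
            push Not at hcon
            exact hd (h2 _ hp _ (Set.mem_uIcc.2 (Or.inr ⟨h.le, hcon⟩)))
        by_cases hB : T < p.2
        · have hA := hAB.2 hB
          simp only [Set.indicator, Set.mem_ofPred_eq, hA, hB, if_true, hh₁, hh₂]; ring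
        · have hA : ¬ f p.1 < p.2 := fun h => hB (hAB.1 h)
          simp only [Set.indicator, Set.mem_ofPred_eq, hA, hB, if_false]; ring
    · have e1 := sφ _ hp
      have e2 := sφ' _ hp
      by_cases hA : f p.1 < p.2 <;> by_cases hB : T < p.2 <;>
          simp [Set.indicator, hA, hB, hh₁, hh₂, e1, e2]
  rw [← integral_indicator mA, integral_congr_ae (Filter.Eventually.of_forall hpt),
    integral_sub j₁ j₂]
  -- second integral vanishes
  have hsecond : ∫ p, Set.indicator {p : ℝ × ℝ | T < p.2} h₂ p = 0 := by
    rw [Measure.volume_eq_prod, integral_prod_symm _ (by rw [← Measure.volume_eq_prod]; exact j₂)]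
    have : ∀ t : ℝ, ∫ s : ℝ, Set.indicator {p : ℝ × ℝ | T < p.2} h₂ (s, t) = 0 := by
      intro t
      by_cases ht : T < t
      · have : (fun s : ℝ => Set.indicator {p : ℝ × ℝ | T < p.2} h₂ (s, t))
            = fun s => deriv χ t * (deriv φ s * G s t + φ s * Gs s t) := by
          funext s; simp [Set.indicator, ht, hh₂]
        rw [this, integral_const_mul]
        have c1 : Continuous (fun s => G s t) :=
          cG.comp (continuous_id.prodMk continuous_const)
        have c2 : Continuous (fun s => Gs s t) :=
          cGs.comp (continuous_id.prodMk continuous_const)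
        have := integral_eq_zero_of_hasDerivAt_of_integrable
          (f := fun s => φ s * G s t) (f' := fun s => deriv φ s * G s t + φ s * Gs s t)
          (fun s => (dφ s).mul (hGs s t)) ?_ ?_
        · rw [this, mul_zero]
        · apply Continuous.integrable_of_hasCompactSupport (by have := hφ.continuous; fun_prop)
          apply HasCompactSupport.intro hφc.isCompact
          intro s hs; simp [sφ _ hs, sφ' _ hs]
        · apply Continuous.integrable_of_hasCompactSupport (by have := hφ.continuous; fun_prop)
          apply HasCompactSupport.intro hφc.isCompact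
          intro s hs; simp [sφ _ hs]
      · have : (fun s : ℝ => Set.indicator {p : ℝ × ℝ | T < p.2} h₂ (s, t))
            = fun s => 0 := by
          funext s; simp [Set.indicator, ht]
        rw [this, integral_zero]
    simp only [this, integral_zero]
  have hfirst : ∫ p, Set.indicator {p : ℝ × ℝ | f p.1 < p.2} h₁ p
      = -∫ s, G s (f s) * deriv φ s := by
    rw [Measure.volume_eq_prod, integral_prod _ (by rw [← Measure.volume_eq_prod]; exact j₁),
      ← integral_neg]
    apply integral_congr_ae
    apply Filter.Eventually.of_forall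
    intro s
    have e : (fun t : ℝ => Set.indicator {p : ℝ × ℝ | f p.1 < p.2} h₁ (s, t))
        = Set.indicator (Set.Ioi (f s)) (fun t => deriv φ s * (Gt s t * χ t + G s t * deriv χ t)) := by
      funext t; simp [Set.indicator, hh₁]
    simp only
    rw [e, integral_indicator measurableSet_Ioi, integral_const_mul]
    by_cases hs : s ∈ tsupport φ
    · have c1 : Continuous (fun t => G s t) := cG.comp (continuous_const.prodMk continuous_id)
      have c2 : Continuous (fun t => Gt s t) := cGt.comp (continuous_const.prodMk continuous_id)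
      have e2 : (fun t => Gt s t * χ t + G s t * deriv χ t) = deriv (fun t => G s t * χ t) := by
        funext t
        exact (((hGt s t).mul (dχ t)).deriv).symm
      have hcd : ContDiff ℝ 1 (fun t => G s t * χ t) := by
        rw [contDiff_one_iff_deriv]
        refine ⟨fun t => ((hGt s t).mul (dχ t)).differentiableAt, ?_⟩
        rw [← e2]
        have := hχ.continuous
        fun_prop
      have hcs : HasCompactSupport (fun t => G s t * χ t) := by
        apply HasCompactSupport.intro hχc.isCompact
        intro t ht; simp [sχ _ ht]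
      rw [e2, hcs.integral_Ioi_deriv_eq hcd, h1 s hs]
      ring
    · rw [sφ' s hs]; simp
  rw [hfirst, hsecond, sub_zero]

end Pool.Agent.Helper474
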