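import Mathlib
import Pool.Agent.Helper474.AnaF

set_option autoImplicit false

namespace Pool.Agent.Helper474

open Filter Topology MeasureTheory MeasureTheory.Measure

/-- the harmonic polynomial attached to a complex polynomial. -/
noncomputable def uF (F : Polynomial ℂ) (y : V) : ℝ := (F.eval (toC y)).re

theorem uF_hasFDerivAt (F : Polynomial ℂ) (y : V) :
    HasFDerivAt (uF F) (Complex.reCLM.comp
      (((F.derivative.eval (toC y)) • (ContinuousLinearMap.id ℝ ℂ)).comp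
        (toC.toContinuousLinearEquiv : V →L[ℝ] ℂ))) y := by
  have h1 : HasFDerivAt (fun z : ℂ => F.eval z)
      ((F.derivative.eval (toC y)) • (ContinuousLinearMap.id ℝ ℂ)) (toC y) := by
    have h := (F.hasStrictDerivAt (toC y)).hasStrictFDerivAt.hasFDerivAt.restrictScalars ℝ
    refine h.congr_fderiv ?_
    apply ContinuousLinearMap.ext; intro v
    simp [mul_comm]
  have h2 : HasFDerivAt (fun y : V => toC y) (toC.toContinuousLinearEquiv : V →L[ℝ] ℂ) y :=
    toC.toContinuousLinearEquiv.hasFDerivAt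
  exact Complex.reCLM.hasFDerivAt.comp y (h1.comp y h2)

theorem uF_fderiv (F : Polynomial ℂ) (y w : V) :
    fderiv ℝ (uF F) y w = (F.derivative.eval (toC y) * toC w).re := by
  rw [(uF_hasFDerivAt F y).fderiv]
  simp

theorem uF_contDiff (F : Polynomial ℂ) : ContDiff ℝ 1 (uF F) := by
  rw [contDiff_one_iff_fderiv]
  refine ⟨fun y => (uF_hasFDerivAt F y).differentiableAt, ?_⟩
  have : fderiv ℝ (uF F) = fun y => Complex.reCLM.comp
      (((F.derivative.eval (toC y)) • (ContinuousLinearMap.id ℝ ℂ)).comp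
        (toC.toContinuousLinearEquiv : V →L[ℝ] ℂ)) := by
    funext y; exact (uF_hasFDerivAt F y).fderiv
  rw [this]
  have hc : Continuous (fun y : V => F.derivative.eval (toC y)) :=
    F.derivative.continuous.comp toC.continuous
  fun_prop

theorem uF_continuous (F : Polynomial ℂ) : Continuous (uF F) := (uF_contDiff F).continuous

/-- the orthonormal basis of a chart. -/
noncomputable def chB (R : V ≃ₗᵢ[ℝ] V) : OrthonormalBasis (Fin 2) ℝ V :=
  (EuclideanSpace.basisFun (Fin 2) ℝ).map R.symm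

theorem chB_zero (R : V ≃ₗᵢ[ℝ] V) : chB R 0 = ea R := by
  rw [chB, OrthonormalBasis.map_apply, ea]
  congr 1
  ext i; fin_cases i <;> simp

theorem chB_one (R : V ≃ₗᵢ[ℝ] V) : chB R 1 = eb R := by
  rw [chB, OrthonormalBasis.map_apply, eb]
  congr 1
  ext i; fin_cases i <;> simp

theorem inner_grad (R : V ≃ₗᵢ[ℝ] V) (u v : V → ℝ) (y : V) :
    @inner ℝ _ _ (gradient u y) (gradient v y)
      = fderiv ℝ u y (ea R) * fderiv ℝ v y (ea R) + fderiv ℝ u y (eb R) * fderiv ℝ v y (eb R) := by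
  rw [← (chB R).sum_inner_mul_inner, Fin.sum_univ_two, chB_zero, chB_one]
  rw [inner_gradient_left, inner_gradient_left, inner_gradient_right, inner_gradient_right]
  simp

/-- the test function of a chart. -/
noncomputable def tf (R : V ≃ₗᵢ[ℝ] V) (φ χ : ℝ → ℝ) (y : V) : ℝ := φ (R y 0) * χ (R y 1)

theorem coord_hasFDerivAt (R : V ≃ₗᵢ[ℝ] V) (i : Fin 2) (y : V) :
    HasFDerivAt (fun y : V => R y i)
      ((EuclideanSpace.proj i : V →L[ℝ] ℝ).comp (R.toContinuousLinearEquiv : V →L[ℝ] V)) y :=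
  ((EuclideanSpace.proj i : V →L[ℝ] ℝ).comp
    (R.toContinuousLinearEquiv : V →L[ℝ] V)).hasFDerivAt

theorem tf_contDiff (R : V ≃ₗᵢ[ℝ] V) {φ χ : ℝ → ℝ} (hφ : ContDiff ℝ 1 φ) (hχ : ContDiff ℝ 1 χ) :
    ContDiff ℝ 1 (tf R φ χ) := by
  have h0 : ContDiff ℝ 1 (fun y : V => R y 0) :=
    ((EuclideanSpace.proj 0 : V →L[ℝ] ℝ).comp
      (R.toContinuousLinearEquiv : V →L[ℝ] V)).contDiff
  have h1 : ContDiff ℝ 1 (fun y : V => R y 1) :=
    ((EuclideanSpace.proj 1 : V →L[ℝ] ℝ).comp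
      (R.toContinuousLinearEquiv : V →L[ℝ] V)).contDiff
  exact (hφ.comp h0).mul (hχ.comp h1)

theorem continuous_pt (R : V ≃ₗᵢ[ℝ] V) : Continuous (fun p : ℝ × ℝ => pt R p.1 p.2) := by
  have : (fun p : ℝ × ℝ => pt R p.1 p.2) = fun p => p.1 • ea R + p.2 • eb R := by
    funext p; exact pt_eq R _ _
  rw [this]; fun_prop

theorem pt_injective (R : V ≃ₗᵢ[ℝ] V) : Function.Injective (fun p : ℝ × ℝ => pt R p.1 p.2) := by
  intro p q h
  have h0 := congrArg (fun y : V => R y 0) h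
  have h1 := congrArg (fun y : V => R y 1) h
  simp only [R_pt_zero, R_pt_one] at h0 h1
  exact Prod.ext h0 h1

theorem tf_compact (R : V ≃ₗᵢ[ℝ] V) {φ χ : ℝ → ℝ} (hφ : HasCompactSupport φ)
    (hχ : HasCompactSupport χ) : HasCompactSupport (tf R φ χ) := by
  have hc : IsCompact ((fun p : ℝ × ℝ => pt R p.1 p.2) '' (tsupport φ ×ˢ tsupport χ)) :=
    (hφ.isCompact.prod hχ.isCompact).image (continuous_pt R)
  apply HasCompactSupport.intro hc
  intro y hy
  by_contra hne
  apply hy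
  rw [tf] at hne
  refine ⟨(R y 0, R y 1), ⟨?_, ?_⟩, pt_R R y⟩
  · by_contra h
    exact hne (by rw [image_eq_zero_of_notMem_tsupport h, zero_mul])
  · by_contra h
    exact hne (by rw [image_eq_zero_of_notMem_tsupport h, mul_zero])

theorem tf_hasFDerivAt (R : V ≃ₗᵢ[ℝ] V) {φ χ : ℝ → ℝ} (hφ : ContDiff ℝ 1 φ)
    (hχ : ContDiff ℝ 1 χ) (y : V) (w : V) :
    fderiv ℝ (tf R φ χ) y w = deriv φ (R y 0) * R w 0 * χ (R y 1)
      + φ (R y 0) * (deriv χ (R y 1) * R w 1) := by
  have d0 := ((hφ.differentiable one_ne_zero (R y 0)).hasDerivAt).hasFDerivAt.comp y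
    (coord_hasFDerivAt R 0 y)
  have d1 := ((hχ.differentiable one_ne_zero (R y 1)).hasDerivAt).hasFDerivAt.comp y
    (coord_hasFDerivAt R 1 y)
  have := (d0.mul d1).fderiv
  have e : fderiv ℝ (tf R φ χ) y = fderiv ℝ ((φ ∘ fun y : V => R y 0) * (χ ∘ fun y : V => R y 1)) y :=
    rfl
  rw [e, this]
  simp
  ring

theorem measurePreserving_pt (R : V ≃ₗᵢ[ℝ] V) :
    MeasurePreserving (fun p : ℝ × ℝ => pt R p.1 p.2) volume volume := by
  have h1 := (volume_preserving_finTwoArrow ℝ).symm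
  have h2 := PiLp.volume_preserving_toLp (Fin 2)
  have h3 := R.symm.measurePreserving
  have := h3.comp (h2.comp h1)
  have e : (fun p : ℝ × ℝ => pt R p.1 p.2)
      = ⇑R.symm ∘ WithLp.toLp 2 ∘ ⇑MeasurableEquiv.finTwoArrow.symm := by
    funext p
    simp only [pt, Function.comp_apply]
    congr 1
  rw [e]
  exact this

theorem pt_measurableEmbedding (R : V ≃ₗᵢ[ℝ] V) :
    MeasurableEmbedding (fun p : ℝ × ℝ => pt R p.1 p.2) :=
  (continuous_pt R).measurableEmbedding (pt_injective R)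

end Pool.Agent.Helper474
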