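import Mathlib
import Pool.Agent.Helper474.AnaG

set_option autoImplicit false

namespace Pool.Agent.Helper474

open Filter Topology MeasureTheory MeasureTheory.Measure

/-- the chart condition. -/
def IsCh (Ω : Set V) (x : V) (r : ℝ) (R : V ≃ₗᵢ[ℝ] V) (f : ℝ → ℝ) : Prop :=
  Ω ∩ Metric.ball x r = Metric.ball x r ∩ {y | f (R y 0) < R y 1}

theorem IsCh.mem_iff {Ω : Set V} {x : V} {r : ℝ} {R : V ≃ₗᵢ[ℝ] V} {f : ℝ → ℝ}
    (h : IsCh Ω x r R f) {y : V} (hy : y ∈ Metric.ball x r) : y ∈ Ω ↔ f (R y 0) < R y 1 := by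
  constructor
  · intro h1
    have : y ∈ Ω ∩ Metric.ball x r := ⟨h1, hy⟩
    rw [h] at this
    exact this.2
  · intro h1
    have : y ∈ Metric.ball x r ∩ {y | f (R y 0) < R y 1} := ⟨hy, h1⟩
    rw [← h] at this
    exact this.1

theorem continuous_coord (R : V ≃ₗᵢ[ℝ] V) (i : Fin 2) : Continuous (fun y : V => R y i) :=
  ((EuclideanSpace.proj i : V →L[ℝ] ℝ).comp
    (R.toContinuousLinearEquiv : V →L[ℝ] V)).continuous

theorem IsCh.frontier_iff {Ω : Set V} (hΩ : IsOpen Ω) {x : V} {r : ℝ} {R : V ≃ₗᵢ[ℝ] V}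
    {f : ℝ → ℝ} (h : IsCh Ω x r R f) (hf : Continuous f) {y : V} (hy : y ∈ Metric.ball x r) :
    y ∈ frontier Ω ↔ f (R y 0) = R y 1 := by
  rw [hΩ.frontier_eq, Set.mem_sdiff, h.mem_iff hy, not_lt]
  constructor
  · rintro ⟨hcl, hle⟩
    by_contra hne
    have hlt : R y 1 < f (R y 0) := lt_of_le_of_ne hle (Ne.symm hne)
    have hU : IsOpen (Metric.ball x r ∩ {y : V | R y 1 < f (R y 0)}) :=
      Metric.isOpen_ball.inter
        (isOpen_lt (continuous_coord R 1) (hf.comp (continuous_coord R 0)))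
    obtain ⟨z, hz, hzΩ⟩ := mem_closure_iff.1 hcl _ hU ⟨hy, hlt⟩
    have := (h.mem_iff hz.1).1 hzΩ
    have h2 : R z 1 < f (R z 0) := hz.2
    linarith
  · intro heq
    refine ⟨?_, heq.ge⟩
    have hcont : Tendsto (fun t : ℝ => y + t • eb R) (𝓝[>] 0) (𝓝 (y + (0 : ℝ) • eb R)) := by
      apply Tendsto.mono_left _ nhdsWithin_le_nhds
      exact (Continuous.tendsto (by fun_prop) 0)
    rw [zero_smul, add_zero] at hcont
    apply mem_closure_of_tendsto hcont
    have hb : ∀ᶠ t : ℝ in 𝓝[>] 0, y + t • eb R ∈ Metric.ball x r :=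
      hcont.eventually (Metric.isOpen_ball.mem_nhds hy)
    filter_upwards [hb, self_mem_nhdsWithin] with t ht ht0
    rw [h.mem_iff ht]
    have e0 : R (y + t • eb R) 0 = R y 0 := by
      rw [map_add, map_smul]; simp [eb]
    have e1 : R (y + t • eb R) 1 = R y 1 + t := by
      rw [map_add, map_smul]; simp [eb]
    rw [e0, e1, heq]
    have : (0 : ℝ) < t := ht0
    linarith

/-- admissible pairs of cutoffs in a chart. -/
structure Adm (x : V) (r : ℝ) (R : V ≃ₗᵢ[ℝ] V) (f : ℝ → ℝ) (T : ℝ) (φ χ : ℝ → ℝ) : Prop where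
  cφ : ContDiff ℝ 1 φ
  sφ : HasCompactSupport φ
  cχ : ContDiff ℝ 1 χ
  sχ : HasCompactSupport χ
  h1 : ∀ s ∈ tsupport φ, χ (f s) = 1
  h2 : ∀ s ∈ tsupport φ, ∀ t ∈ Set.uIcc (f s) T, deriv χ t = 0
  box : ∀ s ∈ tsupport φ, ∀ t ∈ tsupport χ, pt R s t ∈ Metric.ball x r

theorem Adm.mem_ball {x : V} {r : ℝ} {R : V ≃ₗᵢ[ℝ] V} {f : ℝ → ℝ} {T : ℝ} {φ χ : ℝ → ℝ}
    (A : Adm x r R f T φ χ) {s : ℝ} (hs : s ∈ tsupport φ) : gam R f s ∈ Metric.ball x r := by
  apply A.box s hs
  by_contra h
  have := A.h1 s hs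
  rw [image_eq_zero_of_notMem_tsupport h] at this
  exact zero_ne_one this

theorem local_vol {Ω : Set V} (hΩ : IsOpen Ω) {x : V} {r : ℝ} {R : V ≃ₗᵢ[ℝ] V}
    {f : ℝ → ℝ} (h : IsCh Ω x r R f) (hf : Continuous f) {T : ℝ} {φ χ : ℝ → ℝ}
    (A : Adm x r R f T φ χ) (F : Polynomial ℂ) :
    ∫ y in Ω, @inner ℝ _ _ (gradient (uF F) y) (gradient (tf R φ χ) y)
      = -∫ s, (eps R * (F.eval (toC (gam R f s))).im) * deriv φ s := by
  classical
  rw [← integral_indicator hΩ.measurableSet,
    ← (measurePreserving_pt R).integral_comp (pt_measurableEmbedding R)]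
  set G : ℝ → ℝ → ℝ := fun s t => eps R * (F.eval (toC (pt R s t))).im with hG
  set Gs : ℝ → ℝ → ℝ := fun s t =>
    eps R * (F.derivative.eval (toC (pt R s t)) * fa R).im with hGs
  set Gt : ℝ → ℝ → ℝ := fun s t => (F.derivative.eval (toC (pt R s t)) * fa R).re with hGt
  have cpt : Continuous (fun p : ℝ × ℝ => toC (pt R p.1 p.2)) :=
    toC.continuous.comp (continuous_pt R)
  have cG : Continuous (fun p : ℝ × ℝ => G p.1 p.2) := by
    have : Continuous (fun p : ℝ × ℝ => F.eval (toC (pt R p.1 p.2))) := F.continuous.comp cpt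
    rw [hG]; simp only; fun_prop
  have cF' : Continuous (fun p : ℝ × ℝ => F.derivative.eval (toC (pt R p.1 p.2))) :=
    F.derivative.continuous.comp cpt
  have cGs : Continuous (fun p : ℝ × ℝ => Gs p.1 p.2) := by
    rw [hGs]; simp only; fun_prop
  have cGt : Continuous (fun p : ℝ × ℝ => Gt p.1 p.2) := by
    rw [hGt]; simp only; fun_prop
  have hε := eps_sq R
  have dGs : ∀ s t, HasDerivAt (fun s => G s t) (Gs s t) s := by
    intro s t
    have h0 : HasDerivAt (fun s : ℝ => toC (pt R s t)) (fa R) s := by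
      have : (fun s : ℝ => toC (pt R s t))
          = fun s : ℝ => (s : ℂ) * fa R + t * (eps R * Complex.I * fa R) := by
        funext s; exact toC_pt R s t
      rw [this]
      have h1 : HasDerivAt (fun s : ℝ => (s : ℂ)) 1 s := Complex.ofRealCLM.hasDerivAt
      have := (h1.mul_const (fa R)).add_const ((t : ℂ) * (eps R * Complex.I * fa R))
      simpa using this
    have h1 := (F.hasDerivAt (toC (pt R s t))).comp s h0
    have h2 := (Complex.imCLM.hasFDerivAt (x := F.eval (toC (pt R s t)))).comp_hasDerivAt s h1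
    exact h2.const_mul (eps R)
  have dGt : ∀ s t, HasDerivAt (fun t => G s t) (Gt s t) t := by
    intro s t
    have h0 : HasDerivAt (fun t : ℝ => toC (pt R s t)) (eps R * Complex.I * fa R) t := by
      have : (fun t : ℝ => toC (pt R s t))
          = fun t : ℝ => (s : ℂ) * fa R + t * (eps R * Complex.I * fa R) := by
        funext t; exact toC_pt R s t
      rw [this]
      have h1 : HasDerivAt (fun s : ℝ => (s : ℂ)) 1 t := Complex.ofRealCLM.hasDerivAt
      have := (h1.mul_const (eps R * Complex.I * fa R)).const_add ((s : ℂ) * fa R)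
      simpa using this
    have h1 := (F.hasDerivAt (toC (pt R s t))).comp t h0
    have h2 := (Complex.imCLM.hasFDerivAt (x := F.eval (toC (pt R s t)))).comp_hasDerivAt t h1
    have h3 := h2.const_mul (eps R)
    have e : eps R * Complex.imCLM (F.derivative.eval (toC (pt R s t))
        * (eps R * Complex.I * fa R)) = Gt s t := by
      have e1 : F.derivative.eval (toC (pt R s t)) * (eps R * Complex.I * fa R)
          = (eps R : ℂ) * (Complex.I * (F.derivative.eval (toC (pt R s t)) * fa R)) := by ring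
      rw [hGt, Complex.imCLM_apply, e1, Complex.im_ofReal_mul, Complex.I_mul_im]
      linear_combination (F.derivative.eval (toC (pt R s t)) * fa R).re * hε
    rw [e] at h3
    exact h3
  have key := green_graph dGs dGt cG cGs cGt A.cφ A.sφ A.cχ A.sχ hf T A.h1 A.h2
  have mA : MeasurableSet {p : ℝ × ℝ | f p.1 < p.2} :=
    (isOpen_lt (hf.comp continuous_fst) continuous_snd).measurableSet
  rw [← integral_indicator mA] at key
  rw [show (fun s => eps R * (Polynomial.eval (toC (gam R f s)) F).im * deriv φ s)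
      = fun s => G s (f s) * deriv φ s from rfl, ← key]
  apply integral_congr_ae
  apply Filter.Eventually.of_forall
  rintro ⟨s, t⟩
  simp only
  have hinner : @inner ℝ _ _ (gradient (uF F) (pt R s t)) (gradient (tf R φ χ) (pt R s t))
      = Gt s t * (deriv φ s * χ t) - Gs s t * (φ s * deriv χ t) := by
    rw [inner_grad R, uF_fderiv, uF_fderiv, tf_hasFDerivAt R A.cφ A.cχ,
      tf_hasFDerivAt R A.cφ A.cχ, toC_eb, ← fa, R_pt_zero, R_pt_one]
    have e1 : F.derivative.eval (toC (pt R s t)) * (eps R * Complex.I * fa R)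
          = (eps R : ℂ) * (Complex.I * (F.derivative.eval (toC (pt R s t)) * fa R)) := by ring
    rw [e1, Complex.re_ofReal_mul, Complex.I_mul_re]
    simp only [ea, eb, LinearIsometryEquiv.apply_symm_apply, hGs, hGt]
    simp
    ring
  by_cases hs : s ∈ tsupport φ
  · by_cases ht : t ∈ tsupport χ
    · have hb := A.box s hs t ht
      have hiff := h.mem_iff hb
      rw [R_pt_zero, R_pt_one] at hiff
      by_cases hm : f s < t
      · rw [Set.indicator_of_mem (hiff.2 hm),
          Set.indicator_of_mem (show (s, t) ∈ {p : ℝ × ℝ | f p.1 < p.2} from hm), hinner]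
      · rw [Set.indicator_of_notMem (fun h' => hm (hiff.1 h')),
          Set.indicator_of_notMem (show (s, t) ∉ {p : ℝ × ℝ | f p.1 < p.2} from hm)]
    · have e1 : χ t = 0 := image_eq_zero_of_notMem_tsupport ht
      have e2 : deriv χ t = 0 := by
        by_contra h'
        exact ht (support_deriv_subset h')
      have e3 : Gt s t * (deriv φ s * χ t) - Gs s t * (φ s * deriv χ t) = 0 := by
        rw [e1, e2]; ring
      rw [e3] at hinner
      rw [Set.indicator_apply, Set.indicator_apply, hinner]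
      simp only [e3, ite_self]
  · have e1 : φ s = 0 := image_eq_zero_of_notMem_tsupport hs
    have e2 : deriv φ s = 0 := by
      by_contra h'
      exact hs (support_deriv_subset h')
    have e3 : Gt s t * (deriv φ s * χ t) - Gs s t * (φ s * deriv χ t) = 0 := by
      rw [e1, e2]; ring
    rw [e3] at hinner
    rw [Set.indicator_apply, Set.indicator_apply, hinner]
    simp only [e3, ite_self]

theorem Adm.tf_gam {x : V} {r : ℝ} {R : V ≃ₗᵢ[ℝ] V} {f : ℝ → ℝ} {T : ℝ} {φ χ : ℝ → ℝ}
    (A : Adm x r R f T φ χ) (s : ℝ) : tf R φ χ (gam R f s) = φ s := by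
  rw [tf, gam, R_pt_zero, R_pt_one]
  by_cases hs : s ∈ tsupport φ
  · rw [A.h1 s hs, mul_one]
  · rw [image_eq_zero_of_notMem_tsupport hs, zero_mul]

theorem local_bdry {Ω : Set V} (hΩ : IsOpen Ω) {x : V} {r : ℝ} {R : V ≃ₗᵢ[ℝ] V}
    {f : ℝ → ℝ} (h : IsCh Ω x r R f) {K : NNReal} (hf : LipschitzWith K f) {T : ℝ}
    {φ χ : ℝ → ℝ} (A : Adm x r R f T φ χ) (g : V → ℝ) :
    ∫ y in frontier Ω, g y * tf R φ χ y ∂(μH[1] : Measure V)
      = ∫ s, g (gam R f s) * φ s ∂(mm R f) := by
  classical
  have hemb := gam_measurableEmbedding R hf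
  have h1 : ∫ s, g (gam R f s) * φ s ∂(mm R f)
      = ∫ y in Set.range (gam R f), g y * tf R φ χ y ∂(μH[1] : Measure V) := by
    rw [← hemb.map_comap, ← mm, hemb.integral_map]
    apply integral_congr_ae
    apply Filter.Eventually.of_forall
    intro s
    simp only
    rw [A.tf_gam s]
  rw [h1, ← integral_indicator isClosed_frontier.measurableSet,
    ← integral_indicator hemb.measurableSet_range]
  apply integral_congr_ae
  apply Filter.Eventually.of_forall
  intro y
  simp only [Set.indicator_apply]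
  by_cases h0 : tf R φ χ y = 0
  · rw [h0, mul_zero]; simp
  · have hs : R y 0 ∈ tsupport φ := by
      by_contra hc
      apply h0
      rw [tf, image_eq_zero_of_notMem_tsupport hc, zero_mul]
    have ht : R y 1 ∈ tsupport χ := by
      by_contra hc
      apply h0
      rw [tf, image_eq_zero_of_notMem_tsupport hc, mul_zero]
    have hb := A.box _ hs _ ht
    rw [pt_R] at hb
    have hiff : y ∈ frontier Ω ↔ y ∈ Set.range (gam R f) := by
      rw [h.frontier_iff hΩ hf.continuous hb]
      constructor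
      · intro he
        refine ⟨R y 0, ?_⟩
        rw [gam, he, pt_R]
      · rintro ⟨s, rfl⟩
        rw [gam, R_pt_zero, R_pt_one]
    by_cases hm : y ∈ frontier Ω
    · rw [if_pos hm, if_pos (hiff.1 hm)]
    · rw [if_neg hm, if_neg (fun h' => hm (hiff.2 h'))]

end Pool.Agent.Helper474
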