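import Mathlib
import Pool.Agent.Helper474.AnaH

set_option autoImplicit false

namespace Pool.Agent.Helper474

open Filter Topology MeasureTheory MeasureTheory.Measure

noncomputable abbrev ST : ℝ → ℝ := Real.smoothTransition

theorem ST_contDiff : ContDiff ℝ 1 ST := Real.smoothTransition.contDiff (n := 1)

theorem ST_zero {x : ℝ} (h : x ≤ 0) : ST x = 0 := Real.smoothTransition.zero_of_nonpos h

theorem ST_one {x : ℝ} (h : 1 ≤ x) : ST x = 1 := Real.smoothTransition.one_of_one_le h

theorem deriv_ST_zero {u : ℝ} (hu : u ∉ Set.Icc (0 : ℝ) 1) : deriv ST u = 0 := by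
  rw [Set.mem_Icc, not_and_or, not_le, not_le] at hu
  rcases hu with hu | hu
  · have : ST =ᶠ[𝓝 u] fun _ => 0 := by
      filter_upwards [isOpen_Iio.mem_nhds hu] with x hx
      exact Real.smoothTransition.zero_of_nonpos (le_of_lt hx)
    rw [this.deriv_eq]; simp
  · have : ST =ᶠ[𝓝 u] fun _ => 1 := by
      filter_upwards [isOpen_Ioi.mem_nhds hu] with x hx
      exact Real.smoothTransition.one_of_one_le (le_of_lt hx)
    rw [this.deriv_eq]; simp

theorem deriv_STs (c η : ℝ) (s : ℝ) :
    deriv (fun s => ST ((s - c) / η)) s = deriv ST ((s - c) / η) / η := by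
  have h1 : HasDerivAt ST (deriv ST ((s - c) / η)) ((s - c) / η) :=
    (ST_contDiff.differentiable one_ne_zero _).hasDerivAt
  have h2 : HasDerivAt (fun s : ℝ => (s - c) / η) (1 / η) s := by
    have := ((hasDerivAt_id s).sub_const c).div_const η
    simpa using this
  have h3 := h1.comp s h2
  have h4 : ST ∘ (fun s : ℝ => (s - c) / η) = fun s => ST ((s - c) / η) := rfl
  rw [h4] at h3
  rw [h3.deriv]; ring

theorem lim_int {g : ℝ → ℝ} (hg : Continuous g) (c : ℝ) :
    Tendsto (fun η : ℝ => ∫ s, g s * deriv (fun s => ST ((s - c) / η)) s) (𝓝[>] 0)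
      (𝓝 (g c)) := by
  have cS : Continuous (deriv ST) := ST_contDiff.continuous_deriv le_rfl
  set k : ℝ → ℝ → ℝ := fun η u => g (c + η * u) * deriv ST u with hk
  have hkc : Continuous (Function.uncurry k) := by
    rw [hk]
    simp only [Function.uncurry_def]
    fun_prop
  have h1 : Continuous (fun η : ℝ => ∫ u in (0:ℝ)..1, k η u) :=
    intervalIntegral.continuous_parametric_intervalIntegral_of_continuous' hkc 0 1
  have h2 : ∫ u in (0:ℝ)..1, k 0 u = g c := by
    rw [hk]
    simp only [zero_mul, add_zero]
    rw [intervalIntegral.integral_const_mul, intervalIntegral.integral_deriv_eq_sub' ST rfl]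
    · rw [ST_one le_rfl, ST_zero le_rfl]; ring
    · intro x _; exact ST_contDiff.differentiable one_ne_zero x
    · exact cS.continuousOn
  have h3 : Tendsto (fun η : ℝ => ∫ u in (0:ℝ)..1, k η u) (𝓝[>] 0) (𝓝 (g c)) := by
    rw [← h2]
    exact (h1.tendsto 0).mono_left nhdsWithin_le_nhds
  refine h3.congr' ?_
  filter_upwards [self_mem_nhdsWithin] with η hη
  have hη0 : (0 : ℝ) < η := hη
  set f : ℝ → ℝ := fun s => g s * (deriv ST ((s - c) / η) / η) with hf
  have h4 : ∫ s, g s * deriv (fun s => ST ((s - c) / η)) s = ∫ s, f s := by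
    apply integral_congr_ae
    apply Filter.Eventually.of_forall
    intro s
    simp only [hf]
    rw [deriv_STs]
  rw [h4]
  have h5 : ∫ s, f s = ∫ s in Set.Icc c (c + η), f s := by
    symm
    apply setIntegral_eq_integral_of_forall_compl_eq_zero
    intro s hs
    rw [hf]
    simp only
    rw [deriv_ST_zero, zero_div, mul_zero]
    intro hmem
    apply hs
    rw [Set.mem_Icc, le_div_iff₀ hη0, div_le_iff₀ hη0] at hmem
    constructor <;> linarith [hmem.1, hmem.2]
  rw [h5, integral_Icc_eq_integral_Ioc, ← intervalIntegral.integral_of_le (by linarith)]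
  have h6 := intervalIntegral.smul_integral_comp_add_mul (a := 0) (b := 1) f η c
  rw [mul_zero, add_zero, mul_one] at h6
  rw [← h6, smul_eq_mul, ← intervalIntegral.integral_const_mul]
  apply intervalIntegral.integral_congr
  intro u _
  simp only [hk, hf]
  have : (c + η * u - c) / η = u := by field_simp; ring
  rw [this]
  field_simp

theorem ftc_weak {g h : ℝ → ℝ} (hg : Continuous g) (hh : Continuous h) {m : Measure ℝ}
    {C : NNReal} (hm : m ≤ C • (volume : Measure ℝ)) {A B : ℝ}
    (H : ∀ φ : ℝ → ℝ, ContDiff ℝ 1 φ → HasCompactSupport φ → tsupport φ ⊆ Set.Icc A B →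
      -∫ s, g s * deriv φ s = ∫ s, h s * φ s ∂m) {c d : ℝ} (hAc : A < c) (hcd : c < d)
    (hdB : d < B) : g d - g c = ∫ s in Set.Ioo c d, h s ∂m := by
  have hac : m ≪ (volume : Measure ℝ) :=
    (Measure.absolutelyContinuous_of_le hm).trans (Measure.smul_absolutelyContinuous)
  set φ : ℝ → ℝ → ℝ := fun η s => ST ((s - c) / η) - ST ((s - d) / η) with hφ
  have hzero : ∀ η : ℝ, 0 < η → ∀ s, s ∉ Set.Icc c (d + η) → φ η s = 0 := by
    intro η hη s hs
    rw [Set.mem_Icc, not_and_or, not_le, not_le] at hs
    rw [hφ]
    simp only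
    rcases hs with hs | hs
    · rw [ST_zero, ST_zero, sub_zero]
      · apply div_nonpos_of_nonpos_of_nonneg <;> linarith
      · apply div_nonpos_of_nonpos_of_nonneg <;> linarith
    · rw [ST_one, ST_one, sub_self]
      · rw [le_div_iff₀ hη]; linarith
      · rw [le_div_iff₀ hη]; linarith
  have hC1 : ∀ η, ∀ c, ContDiff ℝ 1 (fun s : ℝ => ST ((s - c) / η)) := by
    intro η c
    apply ST_contDiff.comp
    exact (contDiff_id.sub contDiff_const).div_const η
  have hφC : ∀ η, ContDiff ℝ 1 (φ η) := fun η => (hC1 η c).sub (hC1 η d)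
  have hts : ∀ η : ℝ, 0 < η → tsupport (φ η) ⊆ Set.Icc c (d + η) := by
    intro η hη
    apply closure_minimal _ isClosed_Icc
    intro s hs
    by_contra h
    exact hs (hzero η hη s h)
  have hcs : ∀ η : ℝ, 0 < η → HasCompactSupport (φ η) := fun η hη =>
    isCompact_Icc.of_isClosed_subset (isClosed_tsupport _) (hts η hη)
  have hid : ∀ η : ℝ, 0 < η → -∫ s, g s * deriv (φ η) s
      = (∫ s, g s * deriv (fun s => ST ((s - d) / η)) s)
        - ∫ s, g s * deriv (fun s => ST ((s - c) / η)) s := by
    intro η hη
    have hder : ∀ s, deriv (φ η) s = deriv (fun s => ST ((s - c) / η)) s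
        - deriv (fun s => ST ((s - d) / η)) s := by
      intro s
      rw [hφ]
      exact deriv_sub ((hC1 η c).differentiable one_ne_zero s)
        ((hC1 η d).differentiable one_ne_zero s)
    have hint : ∀ e : ℝ, Integrable (fun s => g s * deriv (fun s => ST ((s - e) / η)) s) := by
      intro e
      apply Continuous.integrable_of_hasCompactSupport
      · exact hg.mul ((hC1 η e).continuous_deriv le_rfl)
      · apply HasCompactSupport.intro (K := Set.Icc e (e + η)) isCompact_Icc
        intro s hs
        rw [deriv_STs, deriv_ST_zero, zero_div, mul_zero]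
        intro hmem
        apply hs
        rw [Set.mem_Icc, le_div_iff₀ hη, div_le_iff₀ hη] at hmem
        constructor <;> linarith [hmem.1, hmem.2]
    rw [← integral_sub (hint d) (hint c), ← integral_neg]
    apply integral_congr_ae
    apply Filter.Eventually.of_forall
    intro s
    simp only
    rw [hder]; ring
  have hL : Tendsto (fun η : ℝ => -∫ s, g s * deriv (φ η) s) (𝓝[>] 0) (𝓝 (g d - g c)) := by
    have := (lim_int hg d).sub (lim_int hg c)
    refine this.congr' ?_
    filter_upwards [self_mem_nhdsWithin] with η hη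
    exact (hid η hη).symm
  have hfin : m (Set.Icc c B) < ⊤ := by
    refine lt_of_le_of_lt (hm _) ?_
    rw [Measure.smul_apply, Real.volume_Icc]
    exact ENNReal.mul_lt_top ENNReal.coe_lt_top ENNReal.ofReal_lt_top
  have hR : Tendsto (fun η : ℝ => ∫ s, h s * φ η s ∂m) (𝓝[>] 0)
      (𝓝 (∫ s, Set.indicator (Set.Ioc c d) h s ∂m)) := by
    have hsmall : ∀ᶠ η : ℝ in 𝓝[>] 0, η < B - d :=
      nhdsWithin_le_nhds (Iio_mem_nhds (by linarith))
    apply tendsto_integral_filter_of_dominated_convergence
      (bound := Set.indicator (Set.Icc c B) (fun s => |h s|))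
    · apply Filter.Eventually.of_forall
      intro η
      exact (hh.mul (hφC η).continuous).aestronglyMeasurable
    · filter_upwards [self_mem_nhdsWithin, hsmall] with η hη hηs
      apply Filter.Eventually.of_forall
      intro s
      have hη0 : (0 : ℝ) < η := hη
      by_cases hs : s ∈ Set.Icc c B
      · rw [Set.indicator_of_mem hs, norm_mul, Real.norm_eq_abs]
        have : ‖φ η s‖ ≤ 1 := by
          rw [hφ]
          simp only
          rw [Real.norm_eq_abs, abs_le]
          have a1 := Real.smoothTransition.nonneg ((s - c) / η)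
          have a2 := Real.smoothTransition.le_one ((s - c) / η)
          have a3 := Real.smoothTransition.nonneg ((s - d) / η)
          have a4 := Real.smoothTransition.le_one ((s - d) / η)
          constructor <;> linarith
        exact mul_le_of_le_one_right (abs_nonneg _) this
      · rw [Set.indicator_of_notMem hs, hzero η hη0 s, mul_zero, norm_zero]
        intro h'
        exact hs ⟨h'.1, by linarith [h'.2]⟩
    · rw [integrable_indicator_iff measurableSet_Icc]
      have : IsFiniteMeasure (m.restrict (Set.Icc c B)) := ⟨by simpa using hfin⟩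
      obtain ⟨M, hM⟩ := (isCompact_Icc (a := c) (b := B)).exists_bound_of_continuousOn
        hh.abs.continuousOn
      apply Measure.integrableOn_of_bounded (M := M) hfin.ne
      · exact hh.abs.aestronglyMeasurable
      · exact (ae_restrict_mem measurableSet_Icc).mono (fun s hs => hM s hs)
    · apply Filter.Eventually.of_forall
      intro s
      apply tendsto_const_nhds.congr'
      by_cases h1 : s ≤ c
      · filter_upwards [self_mem_nhdsWithin] with η hη
        have hη0 : (0 : ℝ) < η := hη
        rw [Set.indicator_of_notMem (fun h' => by linarith [h'.1])]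
        rw [hφ]
        simp only
        rw [ST_zero, ST_zero]
        · ring
        · apply div_nonpos_of_nonpos_of_nonneg <;> linarith
        · apply div_nonpos_of_nonpos_of_nonneg <;> linarith
      · push Not at h1
        by_cases h2 : s ≤ d
        · have hs : ∀ᶠ η : ℝ in 𝓝[>] 0, η < s - c :=
            nhdsWithin_le_nhds (Iio_mem_nhds (by linarith))
          filter_upwards [self_mem_nhdsWithin, hs] with η hη hηs
          have hη0 : (0 : ℝ) < η := hη
          rw [Set.indicator_of_mem (show s ∈ Set.Ioc c d from ⟨h1, h2⟩)]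
          rw [hφ]
          simp only
          rw [ST_one, ST_zero]
          · ring
          · apply div_nonpos_of_nonpos_of_nonneg <;> linarith
          · rw [le_div_iff₀ hη0]; linarith
        · push Not at h2
          have hs : ∀ᶠ η : ℝ in 𝓝[>] 0, η < s - d :=
            nhdsWithin_le_nhds (Iio_mem_nhds (by linarith))
          filter_upwards [self_mem_nhdsWithin, hs] with η hη hηs
          have hη0 : (0 : ℝ) < η := hη
          rw [Set.indicator_of_notMem (fun h' => by linarith [h'.2])]
          rw [hφ]
          simp only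
          rw [ST_one, ST_one]
          · ring
          · rw [le_div_iff₀ hη0]; linarith
          · rw [le_div_iff₀ hη0]; linarith
  have hR' : Tendsto (fun η : ℝ => -∫ s, g s * deriv (φ η) s) (𝓝[>] 0)
      (𝓝 (∫ s, Set.indicator (Set.Ioc c d) h s ∂m)) := by
    refine hR.congr' ?_
    have hsmall : ∀ᶠ η : ℝ in 𝓝[>] 0, η < B - d :=
      nhdsWithin_le_nhds (Iio_mem_nhds (by linarith))
    filter_upwards [self_mem_nhdsWithin, hsmall] with η hη hηs
    have hη0 : (0 : ℝ) < η := hη
    rw [H (φ η) (hφC η) (hcs η hη0)]
    exact (hts η hη0).trans (Set.Icc_subset_Icc hAc.le (by linarith))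
  have hfinal := tendsto_nhds_unique hL hR'
  rw [hfinal, integral_indicator measurableSet_Ioc]
  apply setIntegral_congr_set
  exact hac.ae_eq (Ioo_ae_eq_Ioc (a := c) (b := d)).symm

end Pool.Agent.Helper474
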