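import Mathlib
import Pool.Agent.Helper474.AnaI

set_option autoImplicit false

namespace Pool.Agent.Helper474

open Filter Topology MeasureTheory MeasureTheory.Measure

/-- a smooth bump equal to one on [-K-1,K+1], supported in [-K-2,K+2]. -/
noncomputable def chi0 (K : NNReal) : ContDiffBump (0 : ℝ) where
  rIn := K + 1
  rOut := K + 2
  rIn_pos := by positivity
  rIn_lt_rOut := by linarith

noncomputable def chiL (K : NNReal) (t₀ ℓ : ℝ) (t : ℝ) : ℝ := chi0 K ((t - t₀) / ℓ)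

theorem chiL_contDiff (K : NNReal) (t₀ ℓ : ℝ) : ContDiff ℝ 1 (chiL K t₀ ℓ) := by
  have h1 : ContDiff ℝ 1 (chi0 K) := (chi0 K).contDiff
  exact h1.comp ((contDiff_id.sub contDiff_const).div_const ℓ)

theorem chiL_one (K : NNReal) (t₀ : ℝ) {ℓ : ℝ} (hℓ : 0 < ℓ) {t : ℝ} (ht : |t - t₀| ≤ (K + 1) * ℓ) :
    chiL K t₀ ℓ t = 1 := by
  apply (chi0 K).one_of_mem_closedBall
  rw [mem_closedBall_zero_iff, Real.norm_eq_abs, abs_div, abs_of_pos hℓ, div_le_iff₀ hℓ]
  exact ht

theorem chiL_zero (K : NNReal) (t₀ : ℝ) {ℓ : ℝ} (hℓ : 0 < ℓ) {t : ℝ} (ht : (K + 2) * ℓ ≤ |t - t₀|) :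
    chiL K t₀ ℓ t = 0 := by
  apply (chi0 K).zero_of_le_dist
  rw [Real.dist_eq, sub_zero, abs_div, abs_of_pos hℓ, le_div_iff₀ hℓ]
  exact ht

theorem chiL_tsupport (K : NNReal) (t₀ : ℝ) {ℓ : ℝ} (hℓ : 0 < ℓ) :
    tsupport (chiL K t₀ ℓ) ⊆ Metric.closedBall t₀ ((K + 2) * ℓ) := by
  apply closure_minimal _ Metric.isClosed_closedBall
  intro t ht
  rw [Metric.mem_closedBall, Real.dist_eq]
  by_contra h
  push Not at h
  exact ht (chiL_zero K t₀ hℓ h.le)

theorem adm_of {R : V ≃ₗᵢ[ℝ] V} {f : ℝ → ℝ} {K : NNReal} (hf : LipschitzWith K f) {s₀ r ℓ : ℝ}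
    (hℓ : 0 < ℓ) (hr : (K + 3) * ℓ < r) {φ : ℝ → ℝ} (hφ : ContDiff ℝ 1 φ)
    (hs : tsupport φ ⊆ Set.Icc (s₀ - ℓ) (s₀ + ℓ)) :
    Adm (gam R f s₀) r R f (f s₀) φ (chiL K (f s₀) ℓ) := by
  have hfs : ∀ s ∈ tsupport φ, |f s - f s₀| ≤ K * ℓ := by
    intro s h
    have h1 := hf.dist_le_mul s s₀
    rw [Real.dist_eq, Real.dist_eq] at h1
    refine h1.trans ?_
    apply mul_le_mul_of_nonneg_left _ K.2
    have := hs h
    rw [abs_le]
    constructor <;> linarith [this.1, this.2]
  refine ⟨hφ, ?_, chiL_contDiff K _ _, ?_, ?_, ?_, ?_⟩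
  · exact isCompact_Icc.of_isClosed_subset (isClosed_tsupport _) hs
  · exact (isCompact_closedBall _ _).of_isClosed_subset (isClosed_tsupport _)
      (chiL_tsupport K (f s₀) hℓ)
  · intro s h
    apply chiL_one K _ hℓ
    have := hfs s h
    nlinarith
  · intro s h t ht
    have h1 := hfs s h
    have h2 : |t - f s₀| < (K + 1) * ℓ := by
      have h3 : |t - f s₀| ≤ |f s - f s₀| := by
        rcases Set.mem_uIcc.1 ht with h' | h'
        · rw [abs_of_nonpos (by linarith [h'.2]), abs_of_nonpos (by linarith [h'.1, h'.2])]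
          linarith [h'.1]
        · rw [abs_of_nonneg (by linarith [h'.1]), abs_of_nonneg (by linarith [h'.1, h'.2])]
          linarith [h'.2]
      nlinarith
    have h3 : chiL K (f s₀) ℓ =ᶠ[𝓝 t] fun _ => 1 := by
      have ho : IsOpen {t : ℝ | |t - f s₀| < (K + 1) * ℓ} :=
        isOpen_lt (by fun_prop) continuous_const
      filter_upwards [ho.mem_nhds h2] with t' ht'
      exact chiL_one K _ hℓ (le_of_lt ht')
    rw [h3.deriv_eq]; simp
  · intro s h t ht
    rw [Metric.mem_ball]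
    refine lt_of_le_of_lt (dist_pt R _ _ _ _) ?_
    have h1 := hs h
    have h2 := chiL_tsupport K (f s₀) hℓ ht
    rw [Metric.mem_closedBall, Real.dist_eq] at h2
    have h3 : |s - s₀| ≤ ℓ := by
      rw [abs_le]
      constructor <;> linarith [h1.1, h1.2]
    linarith

/-- the weak Steklov relation. -/
def Weak (Ω : Set V) (F : Polynomial ℂ) (σ : ℝ) : Prop :=
  ∀ v : V → ℝ, ContDiff ℝ 1 v → HasCompactSupport v →
    ∫ y in Ω, @inner ℝ _ _ (gradient (uF F) y) (gradient v y)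
      = σ * ∫ y in frontier Ω, uF F y * v y ∂(μH[1] : Measure V)

theorem gam_continuous (R : V ≃ₗᵢ[ℝ] V) {f : ℝ → ℝ} {K : NNReal} (hf : LipschitzWith K f) :
    Continuous (gam R f) := (gam_lipschitz R hf).continuous

theorem arc_identity {Ω : Set V} (hΩ : IsOpen Ω) {r s₀ ℓ : ℝ} {R : V ≃ₗᵢ[ℝ] V}
    {f : ℝ → ℝ} {K : NNReal} (hf : LipschitzWith K f) (h : IsCh Ω (gam R f s₀) r R f)
    (hℓ : 0 < ℓ) (hr : (K + 3) * ℓ < r) {F : Polynomial ℂ} {σ : ℝ} (hW : Weak Ω F σ) {c d : ℝ}
    (hc : s₀ - ℓ < c) (hcd : c < d) (hd : d < s₀ + ℓ) :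
    eps R * (F.eval (toC (gam R f d))).im - eps R * (F.eval (toC (gam R f c))).im
      = ∫ s in Set.Ioo c d, σ * uF F (gam R f s) ∂(mm R f) := by
  have cg : Continuous (fun s => F.eval (toC (gam R f s))) :=
    F.continuous.comp (toC.continuous.comp (gam_continuous R hf))
  apply ftc_weak (g := fun s => eps R * (F.eval (toC (gam R f s))).im)
    (h := fun s => σ * uF F (gam R f s)) (by fun_prop)
    (((uF_continuous F).comp (gam_continuous R hf)).const_mul σ)
    (mm_le R hf) (A := s₀ - ℓ) (B := s₀ + ℓ) _ hc hcd hd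
  intro φ hφ _ hs
  have A := adm_of (R := R) hf hℓ hr hφ hs
  rw [← local_vol hΩ h hf.continuous A F, hW _ (tf_contDiff R A.cφ A.cχ) (tf_compact R A.sφ A.sχ),
    local_bdry hΩ h hf A, ← integral_const_mul]
  apply integral_congr_ae
  apply Filter.Eventually.of_forall
  intro s
  simp only
  ring

theorem mm_Ioo_lt_top (R : V ≃ₗᵢ[ℝ] V) {f : ℝ → ℝ} {K : NNReal} (hf : LipschitzWith K f)
    (c d : ℝ) : mm R f (Set.Ioo c d) < ⊤ := by
  refine lt_of_le_of_lt (mm_le R hf _) ?_
  rw [Measure.smul_apply, Real.volume_Ioo]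
  exact ENNReal.mul_lt_top ENNReal.coe_lt_top ENNReal.ofReal_lt_top

theorem pt_prop_chart {Ω : Set V} (hΩ : IsOpen Ω) {r s₀ : ℝ} (hr : 0 < r) {R : V ≃ₗᵢ[ℝ] V}
    {f : ℝ → ℝ} {K : NNReal} (hf : LipschitzWith K f) (h : IsCh Ω (gam R f s₀) r R f)
    {E : Set (Polynomial ℂ × ℝ)} (hE : ∀ e ∈ E, Weak Ω e.1 e.2) :
    PtProp (toC '' frontier Ω) E (toC (gam R f s₀)) := by
  obtain ⟨ℓ, hℓ, hℓr⟩ : ∃ ℓ : ℝ, 0 < ℓ ∧ (K + 3) * ℓ < r := by
    refine ⟨r / (2 * (K + 3)), by positivity, ?_⟩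
    have : (0 : ℝ) < K + 3 := by positivity
    field_simp
    linarith
  set M : ℝ → ℝ → ℝ := fun c d => (mm R f (Set.Ioo c d)).toReal with hM
  have hMfin := mm_Ioo_lt_top R hf
  have cγ : Continuous (fun s => toC (gam R f s)) :=
    toC.continuous.comp (gam_continuous R hf)
  have hball : ∀ᶠ s in 𝓝 s₀, gam R f s ∈ Metric.ball (gam R f s₀) r :=
    (gam_continuous R hf).tendsto s₀ (Metric.ball_mem_nhds _ hr)
  have hfro : ∀ s, gam R f s ∈ Metric.ball (gam R f s₀) r → gam R f s ∈ frontier Ω := by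
    intro s hs
    rw [h.frontier_iff hΩ hf.continuous hs, gam, R_pt_zero, R_pt_one]
  apply key_pt (γ := fun s => toC (gam R f s)) (M := M) (a := fa R) (ε := eps R)
    (L₀ := K + 1) (eps_sq R) cγ (norm_fa R)
  · intro c d
    rw [gam, gam, toC_pt, toC_pt]
    have haa : (starRingEnd ℂ) (fa R) * fa R = 1 := by
      rw [← Complex.normSq_eq_conj_mul_self, Complex.normSq_eq_norm_sq, norm_fa]; simp
    have : (starRingEnd ℂ) (fa R) * (d * fa R + f d * (eps R * Complex.I * fa R)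
        - (c * fa R + f c * (eps R * Complex.I * fa R)))
        = ((d - c : ℝ) : ℂ) + (((f d - f c) * eps R : ℝ) : ℂ) * Complex.I := by
      push_cast
      linear_combination ((d : ℂ) - c + (f d - f c) * eps R * Complex.I) * haa
    rw [this]; simp
  · positivity
  · intro c d hcd
    rw [hM]
    simp only
    have h1 := mm_le R hf (Set.Ioo c d)
    rw [Measure.smul_apply, Real.volume_Ioo] at h1
    have h2 := ENNReal.toReal_mono (ENNReal.mul_lt_top ENNReal.coe_lt_top
      ENNReal.ofReal_lt_top).ne h1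
    refine h2.trans (le_of_eq ?_)
    rw [ENNReal.toReal_mul, ENNReal.toReal_ofReal (by linarith), ENNReal.coe_toReal]
    push_cast; ring
  · intro c d hcd
    rw [hM]
    simp only
    have h1 := mm_Ioo_ge R hf c d hcd
    have h2 := ENNReal.toReal_mono (hMfin c d).ne h1
    rwa [ENNReal.toReal_ofReal (norm_nonneg _)] at h2
  · intro c d L hcd hL
    rw [hM]
    simp only
    have hL0 : 0 ≤ L := by
      have h1 := hL c d le_rfl hcd le_rfl
      have h2 := norm_nonneg (toC (gam R f d) - toC (gam R f c))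
      by_contra hneg
      push Not at hneg
      nlinarith
    have h1 := mm_Ioo_le R hf c d L hL0 hL
    have h2 := ENNReal.toReal_mono ENNReal.ofReal_lt_top.ne h1
    rwa [ENNReal.toReal_ofReal (by nlinarith)] at h2
  · filter_upwards [hball] with s hs
    exact ⟨_, hfro s hs, rfl⟩
  · intro e he
    set F := e.1 with hF
    set σ := e.2 with hσ
    set hh : ℝ → ℝ := fun s => σ * uF F (gam R f s) with hhh
    have chh : Continuous hh := ((uF_continuous F).comp (gam_continuous R hf)).const_mul σ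
    have hval : σ * (F.eval (toC (gam R f s₀))).re = hh s₀ := rfl
    rw [hval, Metric.tendsto_nhdsWithin_nhds]
    intro ε hε
    obtain ⟨δ, hδ, h1⟩ := Metric.continuousAt_iff.1 (chh.continuousAt (x := s₀)) (ε / 2)
      (by linarith)
    refine ⟨min δ ℓ, lt_min hδ hℓ, ?_⟩
    rintro ⟨c, d⟩ hcd hdist
    have hcd' : c < d := hcd
    rw [Prod.dist_eq, max_lt_iff] at hdist
    simp only [Real.dist_eq, lt_min_iff, abs_lt] at hdist
    obtain ⟨⟨⟨a1, a2⟩, a3, a4⟩, ⟨a5, a6⟩, a7, a8⟩ := hdist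
    have h2 := arc_identity hΩ hf h hℓ hℓr (hE e he) (c := c) (d := d) (by linarith) hcd'
      (by linarith)
    have hM0 : 0 < M c d := by
      have h3 := mm_Ioo_ge R hf c d hcd'
      have h4 := ENNReal.toReal_mono (hMfin c d).ne h3
      rw [ENNReal.toReal_ofReal (norm_nonneg _)] at h4
      refine lt_of_lt_of_le ?_ h4
      rw [norm_pos_iff, sub_ne_zero]
      intro h5
      have := gam_injective R f (toC.injective h5)
      linarith
    have h3 : eps R * ((F.eval (toC (gam R f d))).im - (F.eval (toC (gam R f c))).im)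
        = ∫ s in Set.Ioo c d, hh s ∂(mm R f) := by
      rw [mul_sub]; exact h2
    simp only
    rw [h3, Real.dist_eq]
    have hint : IntegrableOn hh (Set.Ioo c d) (mm R f) := by
      obtain ⟨B, hB⟩ := (isCompact_Icc (a := c) (b := d)).exists_bound_of_continuousOn
        chh.continuousOn
      apply Measure.integrableOn_of_bounded (M := B) (hMfin c d).ne
      · exact chh.aestronglyMeasurable
      · exact (ae_restrict_mem measurableSet_Ioo).mono
          (fun s hs => hB s (Set.Ioo_subset_Icc_self hs))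
    have h4 : (∫ s in Set.Ioo c d, hh s ∂(mm R f)) - M c d * hh s₀
        = ∫ s in Set.Ioo c d, (hh s - hh s₀) ∂(mm R f) := by
      rw [integral_sub hint (integrableOn_const (hMfin c d).ne), setIntegral_const, smul_eq_mul]
      rfl
    have h5 : ‖∫ s in Set.Ioo c d, (hh s - hh s₀) ∂(mm R f)‖ ≤ ε / 2 * M c d := by
      apply norm_setIntegral_le_of_norm_le_const (hMfin c d)
      intro s hs
      rw [← dist_eq_norm]
      apply le_of_lt
      apply h1
      rw [Real.dist_eq, abs_lt]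
      constructor <;> linarith [hs.1, hs.2]
    rw [← h4, Real.norm_eq_abs] at h5
    have h6 : (∫ s in Set.Ioo c d, hh s ∂(mm R f)) / M c d - hh s₀
        = ((∫ s in Set.Ioo c d, hh s ∂(mm R f)) - M c d * hh s₀) / M c d := by
      field_simp
    rw [h6, abs_div, abs_of_pos hM0, div_lt_iff₀ hM0]
    nlinarith

end Pool.Agent.Helper474
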