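import Mathlib
import Pool.Agent.Helper474.AnaJ

set_option autoImplicit false

namespace Pool.Agent.Helper474

open Filter Topology MeasureTheory MeasureTheory.Measure Polynomial

/-- complex valued function of a bivariate polynomial. -/
noncomputable def qE (Ψ : ℂ[X][X]) (y : V) : ℂ := evalEval (toC y) ((starRingEnd ℂ) (toC y)) Ψ

theorem qE_hasFDerivAt (Ψ : ℂ[X][X]) (y : V) :
    HasFDerivAt (qE Ψ) ((DPl Ψ (toC y)).comp (toC.toContinuousLinearEquiv : V →L[ℝ] ℂ)) y := by
  have h2 : HasFDerivAt (fun y : V => toC y) (toC.toContinuousLinearEquiv : V →L[ℝ] ℂ) y :=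
    toC.toContinuousLinearEquiv.hasFDerivAt
  exact ((hasStrictFDerivAt_evalEval Ψ (toC y)).hasFDerivAt).comp y h2

theorem qE_fderiv (Ψ : ℂ[X][X]) (y w : V) :
    fderiv ℝ (qE Ψ) y w = qE (dz Ψ) y * toC w + qE (derivative Ψ) y * (starRingEnd ℂ) (toC w) := by
  rw [(qE_hasFDerivAt Ψ y).fderiv]
  simp only [ContinuousLinearMap.comp_apply, DPl_apply, qE]
  rfl

theorem qE_add (Ψ Ψ' : ℂ[X][X]) (y : V) : qE (Ψ + Ψ') y = qE Ψ y + qE Ψ' y := by
  simp [qE, evalEval_add]

theorem qE_CC_mul (c : ℂ) (Ψ : ℂ[X][X]) (y : V) : qE (C (C c) * Ψ) y = c * qE Ψ y := by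
  rw [qE, qE, evalEval_mul, evalEval_CC]

theorem qE_continuous (Ψ : ℂ[X][X]) : Continuous (qE Ψ) :=
  (continuous_evalEval_conj Ψ).comp toC.continuous

noncomputable abbrev R₀ : V ≃ₗᵢ[ℝ] V := LinearIsometryEquiv.refl ℝ V

theorem toC_ea0 : toC (ea R₀) = 1 := by
  have h : ea R₀ = !₂[(1 : ℝ), 0] := rfl
  rw [toC_apply, h]; simp

theorem toC_eb0 : toC (eb R₀) = Complex.I := by
  have h : eb R₀ = !₂[(0 : ℝ), 1] := rfl
  rw [toC_apply, h]; simp

noncomputable def D0 (Ψ : ℂ[X][X]) : ℂ[X][X] := dz Ψ + derivative Ψ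
noncomputable def D1 (Ψ : ℂ[X][X]) : ℂ[X][X] :=
  C (C Complex.I) * dz Ψ + C (C (-Complex.I)) * derivative Ψ

theorem qE_D0 (Ψ : ℂ[X][X]) (y : V) : fderiv ℝ (qE Ψ) y (ea R₀) = qE (D0 Ψ) y := by
  rw [qE_fderiv, toC_ea0, D0, qE_add]; simp

theorem qE_D1 (Ψ : ℂ[X][X]) (y : V) : fderiv ℝ (qE Ψ) y (eb R₀) = qE (D1 Ψ) y := by
  rw [qE_fderiv, toC_eb0, D1, qE_add, qE_CC_mul, qE_CC_mul, Complex.conj_I]; ring

theorem dz_CC_mul (c : ℂ) (Ψ : ℂ[X][X]) : dz (C (C c) * Ψ) = C (C c) * dz Ψ := by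
  apply Polynomial.ext; intro i
  rw [coeff_dz, coeff_C_mul, coeff_C_mul, coeff_dz, derivative_C_mul]

theorem der_CC_mul (c : ℂ) (Ψ : ℂ[X][X]) :
    derivative (C (C c) * Ψ) = C (C c) * derivative Ψ := derivative_C_mul _ _

theorem dz_der (Ψ : ℂ[X][X]) : dz (derivative Ψ) = derivative (dz Ψ) := by
  apply Polynomial.ext; intro i
  rw [coeff_dz, coeff_derivative, coeff_derivative, coeff_dz, derivative_mul]
  have : derivative ((i : ℂ[X]) + 1) = 0 := by
    rw [derivative_add, derivative_natCast, derivative_one, add_zero]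
  rw [this, mul_zero, add_zero]

theorem lap_eq (Ψ : ℂ[X][X]) : D0 (D0 Ψ) + D1 (D1 Ψ) = C (C 4) * dz (derivative Ψ) := by
  simp only [D0, D1, dz_add, derivative_add, dz_CC_mul, der_CC_mul, dz_der]
  have hI : (C (C Complex.I) : ℂ[X][X]) * C (C Complex.I) = -1 := by
    rw [← C_mul, ← C_mul, Complex.I_mul_I]; simp
  have hI2 : (C (C (-Complex.I)) : ℂ[X][X]) = - C (C Complex.I) := by simp
  have h4 : (C (C 4) : ℂ[X][X]) = 4 := by
    rw [map_ofNat C 4, map_ofNat C 4]
  rw [hI2, h4]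
  linear_combination (dz (dz Ψ) - 2 * derivative (dz Ψ) + derivative (derivative Ψ)) * hI

theorem harm {Ω : Set V} (hΩ : IsOpen Ω) {Φ : ℂ[X][X]} {p : V → ℝ}
    (hp : ∀ y, (p y : ℂ) = qE Φ y)
    (hW : ∀ v : V → ℝ, ContDiff ℝ 1 v → HasCompactSupport v → tsupport v ⊆ Ω →
      ∫ y in Ω, @inner ℝ _ _ (gradient p y) (gradient v y) = 0) :
    Van (toC '' Ω) (dz (derivative Φ)) := by
  have hpre : p = fun y => (qE Φ y).re := by
    funext y; rw [← hp y]; simp
  have hpd : ∀ y, DifferentiableAt ℝ p y := by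
    intro y
    rw [hpre]
    exact (Complex.reCLM.hasFDerivAt.comp y (qE_hasFDerivAt Φ y)).differentiableAt
  have hpf : ∀ y w, ((fderiv ℝ p y w : ℝ) : ℂ) = fderiv ℝ (qE Φ) y w := by
    intro y w
    have h1 : HasFDerivAt (fun y => (p y : ℂ)) (Complex.ofRealCLM.comp (fderiv ℝ p y)) y :=
      Complex.ofRealCLM.hasFDerivAt.comp y (hpd y).hasFDerivAt
    have h2 : (fun y => (p y : ℂ)) = qE Φ := by funext y; exact hp y
    rw [h2] at h1
    rw [h1.fderiv]; simp
  have hae : ∀ᵐ x : V, x ∈ Ω → qE (D0 (D0 Φ) + D1 (D1 Φ)) x = 0 := by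
    apply hΩ.ae_eq_zero_of_integral_contDiff_smul_eq_zero
    · exact (qE_continuous _).locallyIntegrable.locallyIntegrableOn _
    · intro v hv hvc hvs
      have hv1 : ContDiff ℝ 1 v := hv.of_le (by exact_mod_cast le_top)
      have cv : Continuous v := hv1.continuous
      have cfv : ∀ w, Continuous (fun y => fderiv ℝ v y w) := fun w =>
        (hv1.continuous_fderiv one_ne_zero).clm_apply continuous_const
      have sfv : ∀ w, HasCompactSupport (fun y => fderiv ℝ v y w) := fun w =>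
        hvc.fderiv_apply (𝕜 := ℝ) w
      have i1 : ∀ Ψ : ℂ[X][X], Integrable (fun y => v y • qE Ψ y) := by
        intro Ψ
        apply Continuous.integrable_of_hasCompactSupport (cv.smul (qE_continuous Ψ))
        exact hvc.smul_right
      have i2 : ∀ (w : V) (Ψ : ℂ[X][X]), Integrable (fun y => fderiv ℝ v y w • qE Ψ y) := by
        intro w Ψ
        apply Continuous.integrable_of_hasCompactSupport ((cfv w).smul (qE_continuous Ψ))
        exact (sfv w).smul_right
      have e0 : ∫ y, v y • qE (D0 (D0 Φ)) y = -∫ y, fderiv ℝ v y (ea R₀) • qE (D0 Φ) y := by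
        have := integral_smul_fderiv_eq_neg_fderiv_smul_of_integrable
          (μ := (volume : Measure V)) (f := v) (g := qE (D0 Φ)) (v := ea R₀)
          (i2 _ _) (by simp only [qE_D0]; exact i1 _) (i1 _)
          (fun x _ => hv1.differentiable one_ne_zero x)
          (fun x _ => (qE_hasFDerivAt _ x).differentiableAt)
        simp only [qE_D0] at this
        exact this
      have e1 : ∫ y, v y • qE (D1 (D1 Φ)) y = -∫ y, fderiv ℝ v y (eb R₀) • qE (D1 Φ) y := by
        have := integral_smul_fderiv_eq_neg_fderiv_smul_of_integrable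
          (μ := (volume : Measure V)) (f := v) (g := qE (D1 Φ)) (v := eb R₀)
          (i2 _ _) (by simp only [qE_D1]; exact i1 _) (i1 _)
          (fun x _ => hv1.differentiable one_ne_zero x)
          (fun x _ => (qE_hasFDerivAt _ x).differentiableAt)
        simp only [qE_D1] at this
        exact this
      have e2 : ∫ y, v y • qE (D0 (D0 Φ) + D1 (D1 Φ)) y
          = (∫ y, v y • qE (D0 (D0 Φ)) y) + ∫ y, v y • qE (D1 (D1 Φ)) y := by
        rw [← integral_add (i1 _) (i1 _)]
        simp only [qE_add, smul_add]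
      rw [e2, e0, e1, ← neg_add, ← integral_add (i2 _ _) (i2 _ _)]
      have e3 : ∀ y, fderiv ℝ v y (ea R₀) • qE (D0 Φ) y + fderiv ℝ v y (eb R₀) • qE (D1 Φ) y
          = ((@inner ℝ _ _ (gradient p y) (gradient v y) : ℝ) : ℂ) := by
        intro y
        rw [inner_grad R₀, ← qE_D0, ← qE_D1, ← hpf, ← hpf]
        push_cast
        simp only [Complex.real_smul]
        ring
      simp only [e3]
      rw [integral_complex_ofReal]
      have e4 : ∫ y, @inner ℝ _ _ (gradient p y) (gradient v y)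
          = ∫ y in Ω, @inner ℝ _ _ (gradient p y) (gradient v y) := by
        symm
        apply setIntegral_eq_integral_of_forall_compl_eq_zero
        intro y hy
        have hy' : y ∉ tsupport v := fun h => hy (hvs h)
        have h5 : fderiv ℝ v y = 0 := by
          by_contra h6
          exact hy' (support_fderiv_subset ℝ h6)
        rw [inner_gradient_right, h5]; simp
      rw [e4, hW v hv1 hvc hvs]
      simp
  have heq : Set.EqOn (qE (D0 (D0 Φ) + D1 (D1 Φ))) (fun _ => 0) Ω := by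
    apply Measure.eqOn_open_of_ae_eq (μ := (volume : Measure V)) _ hΩ
      (qE_continuous _).continuousOn continuousOn_const
    rw [Filter.EventuallyEq, ae_restrict_iff' hΩ.measurableSet]
    exact hae
  rintro _ ⟨y, hy, rfl⟩
  have h1 := heq hy
  rw [lap_eq, qE_CC_mul] at h1
  exact (mul_eq_zero.1 h1).resolve_left (by norm_num)

end Pool.Agent.Helper474
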