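import Mathlib
import Pool.Agent.Helper474.AnaK

set_option autoImplicit false

namespace Pool.Agent.Helper474

open Filter Topology MeasureTheory MeasureTheory.Measure Polynomial

theorem exists_Phi (P : MvPolynomial (Fin 2) ℝ) :
    ∃ Φ : ℂ[X][X], ∀ y : V, ((MvPolynomial.eval (fun i => y i) P : ℝ) : ℂ) = qE Φ y := by
  induction P using MvPolynomial.induction_on with
  | C a =>
    refine ⟨C (C (a : ℂ)), fun y => ?_⟩
    rw [MvPolynomial.eval_C, qE, evalEval_CC]
  | add p q hp hq =>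
    obtain ⟨Φ, hΦ⟩ := hp
    obtain ⟨Ψ, hΨ⟩ := hq
    refine ⟨Φ + Ψ, fun y => ?_⟩
    rw [map_add, qE_add, ← hΦ, ← hΨ]; push_cast; ring
  | mul_X p i hp =>
    obtain ⟨Φ, hΦ⟩ := hp
    have hX : ∃ Ψ : ℂ[X][X], ∀ y : V, ((y i : ℝ) : ℂ) = qE Ψ y := by
      fin_cases i
      · refine ⟨C (C (1 / 2)) * (C X + X), fun y => ?_⟩
        rw [qE_CC_mul, qE, evalEval_add, evalEval_C, evalEval_X, eval_X, toC_apply]
        simp
        ring
      · refine ⟨C (C (-Complex.I / 2)) * (C X + C (C (-1)) * X), fun y => ?_⟩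
        rw [qE_CC_mul, qE, evalEval_add, evalEval_C, evalEval_mul, evalEval_CC, evalEval_X,
          eval_X, toC_apply]
        simp
        linear_combination (y 1 : ℂ) * Complex.I_mul_I
    obtain ⟨Ψ, hΨ⟩ := hX
    refine ⟨Φ * Ψ, fun y => ?_⟩
    rw [map_mul, MvPolynomial.eval_X]
    have : qE (Φ * Ψ) y = qE Φ y * qE Ψ y := by
      rw [qE, evalEval_mul]; rfl
    rw [this, ← hΦ, ← hΨ]; push_cast; rfl

theorem exists_F {Φ : ℂ[X][X]} (h : dz (derivative Φ) = 0) {p : V → ℝ}
    (hp : ∀ y, (p y : ℂ) = qE Φ y) : ∃ F : ℂ[X], ∀ y, p y = uF F y := by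
  have h1 : ∀ i : ℕ, derivative (Φ.coeff (i + 1)) = 0 := by
    intro i
    have h2 := congrArg (fun q => q.coeff i) h
    simp only [coeff_dz, coeff_derivative, coeff_zero] at h2
    rw [derivative_mul] at h2
    have h3 : derivative ((i : ℂ[X]) + 1) = 0 := by
      rw [derivative_add, derivative_natCast, derivative_one, add_zero]
    rw [h3, mul_zero, add_zero] at h2
    rcases mul_eq_zero.1 h2 with h4 | h4
    · exact h4
    · exfalso
      have : ((i + 1 : ℕ) : ℂ[X]) = 0 := by push_cast; exact h4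
      rw [Nat.cast_eq_zero] at this
      omega
  set b : ℂ[X] := Φ.map (evalRingHom 0) with hb
  set a : ℂ[X] := Φ.coeff 0 - C ((Φ.coeff 0).eval 0) with ha
  have hΦ : Φ = C a + b.map C := by
    apply Polynomial.ext; intro i
    rw [coeff_add, coeff_map, hb, coeff_map]
    rcases i with _ | i
    · rw [coeff_C_zero, ha]; simp
    · rw [coeff_C_succ, zero_add]
      have h2 := derivative_eq_zero.1 (h1 i)
      have h3 := eq_C_of_natDegree_eq_zero h2
      rw [h3]; simp
  refine ⟨a + cj b, fun y => ?_⟩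
  have h2 := hp y
  have h3 : qE Φ y = a.eval (toC y) + b.eval ((starRingEnd ℂ) (toC y)) := by
    conv_lhs => rw [hΦ]
    rw [qE_add, qE, qE, evalEval_C, evalEval_mapC]
  rw [h3] at h2
  have h4 : (cj b).eval (toC y) = (starRingEnd ℂ) (b.eval ((starRingEnd ℂ) (toC y))) := by
    rw [← eval_cj, Complex.conj_conj]
  rw [uF, eval_add, h4, Complex.add_re, Complex.conj_re]
  have h5 := congrArg Complex.re h2
  rw [Complex.ofReal_re, Complex.add_re] at h5
  exact h5

/-- the polynomial weak relation. -/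
def WeakP (Ω : Set V) (P : MvPolynomial (Fin 2) ℝ) (σ : ℝ) : Prop :=
  ∀ v : V → ℝ, ContDiff ℝ 1 v → HasCompactSupport v →
    ∫ y in Ω, @inner ℝ _ _
        (gradient (fun z : V => MvPolynomial.eval (fun i => z i) P) y) (gradient v y)
      = σ * ∫ y in frontier Ω, MvPolynomial.eval (fun i => y i) P * v y ∂(μH[1] : Measure V)

theorem weakP_weak {Ω : Set V} (hΩ : IsOpen Ω) (hne : Ω.Nonempty) {P : MvPolynomial (Fin 2) ℝ}
    {σ : ℝ} (h : WeakP Ω P σ) :
    ∃ F : ℂ[X], (∀ y : V, MvPolynomial.eval (fun i => y i) P = uF F y) ∧ Weak Ω F σ := by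
  obtain ⟨Φ, hΦ⟩ := exists_Phi P
  have h1 : Van (toC '' Ω) (dz (derivative Φ)) := by
    apply harm hΩ hΦ
    intro v hv hvc hvs
    rw [h v hv hvc]
    have : ∫ y in frontier Ω, MvPolynomial.eval (fun i => y i) P * v y ∂(μH[1] : Measure V)
        = 0 := by
      apply setIntegral_eq_zero_of_forall_eq_zero
      intro y hy
      have hy' : y ∉ Ω := by
        rw [hΩ.frontier_eq] at hy; exact hy.2
      rw [image_eq_zero_of_notMem_tsupport (fun h' => hy' (hvs h')), mul_zero]
    rw [this, mul_zero]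
  have hopen : IsOpen (toC '' Ω) := toC.toHomeomorph.isOpenMap Ω hΩ
  have h2 := van_open hopen (hne.image _) _ _ le_rfl h1
  obtain ⟨F, hF⟩ := exists_F h2 hΦ
  refine ⟨F, hF, ?_⟩
  have hfun : (fun z : V => MvPolynomial.eval (fun i => z i) P) = uF F := by
    funext z; exact hF z
  intro v hv hvc
  have h3 := h v hv hvc
  rw [hfun] at h3
  rw [h3]
  simp only [hF]

end Pool.Agent.Helper474
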