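import Mathlib
import Pool.Agent.Helper474.AnaL

set_option autoImplicit false

namespace Pool.Agent.Helper474

open Filter Topology MeasureTheory MeasureTheory.Measure Polynomial

theorem presub {Ω T : Set V} (hΩ : IsOpen Ω) (hT : IsPreconnected T)
    (hd : Disjoint T (frontier Ω)) (hne : (T ∩ Ω).Nonempty) : T ⊆ Ω := by
  apply IsPreconnected.subset_left_of_subset_union hΩ isClosed_closure.isOpen_compl
    (v := (closure Ω)ᶜ) _ _ hne hT
  · exact Set.disjoint_left.2 (fun x hx hx' => hx' (subset_closure hx))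
  · intro x hx
    by_cases h : x ∈ Ω
    · exact Or.inl h
    · right
      intro hcl
      apply Set.disjoint_left.1 hd hx
      rw [hΩ.frontier_eq]
      exact ⟨hcl, h⟩

theorem ray_exit {Ω : Set V} (hΩ : IsOpen Ω) (hb : Bornology.IsBounded Ω) {x w : V}
    (hx : x ∈ Ω) (hw : w ≠ 0) : ∃ t : ℝ, 0 < t ∧ x + t • w ∈ frontier Ω := by
  by_contra hcon
  push Not at hcon
  set T : Set V := (fun t : ℝ => x + t • w) '' Set.Ici 0 with hT
  have hpre : IsPreconnected T := isPreconnected_Ici.image _ (by fun_prop)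
  have hd : Disjoint T (frontier Ω) := by
    rw [Set.disjoint_left]
    rintro _ ⟨t, ht, rfl⟩ hfr
    rcases (Set.mem_Ici.1 ht).eq_or_lt with h | h
    · subst h
      simp only [zero_smul, add_zero] at hfr
      rw [hΩ.frontier_eq] at hfr
      exact hfr.2 hx
    · exact hcon t h hfr
  have hsub := presub hΩ hpre hd ⟨x, ⟨0, Set.mem_Ici.2 le_rfl, by simp⟩, hx⟩
  obtain ⟨M, hM⟩ := hb.exists_norm_le
  have hwp : 0 < ‖w‖ := norm_pos_iff.2 hw
  have hM0 : 0 ≤ M := (norm_nonneg x).trans (hM x hx)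
  set t : ℝ := (M + ‖x‖ + 1) / ‖w‖ with ht
  have ht0 : 0 ≤ t := by positivity
  have h1 := hM _ (hsub ⟨t, Set.mem_Ici.2 ht0, rfl⟩)
  have h2 : ‖t • w‖ = M + ‖x‖ + 1 := by
    rw [norm_smul, Real.norm_eq_abs, abs_of_nonneg ht0, ht]
    field_simp
  have h3 : ‖t • w‖ ≤ ‖x + t • w‖ + ‖x‖ := by
    calc ‖t • w‖ = ‖(x + t • w) - x‖ := by congr 1; abel
      _ ≤ _ := norm_sub_le _ _
  linarith

theorem circle_ball {Ω : Set V} (hΩ : IsOpen Ω) (hb : Bornology.IsBounded Ω) (hne : Ω.Nonempty)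
    {c : V} {R : ℝ} (hR : 0 < R) (hfr : ∀ x ∈ frontier Ω, dist x c = R) :
    Ω = Metric.ball c R := by
  have h1 : ∀ y ∈ Ω, dist y c ≤ R := by
    intro y hy
    by_contra hcon
    push Not at hcon
    have hw : y - c ≠ 0 := by
      intro h
      rw [sub_eq_zero.1 h, dist_self] at hcon
      linarith
    obtain ⟨t, ht, hf⟩ := ray_exit hΩ hb hy hw
    have h2 := hfr _ hf
    rw [dist_eq_norm] at h2 hcon
    have h3 : y + t • (y - c) - c = (1 + t) • (y - c) := by module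
    rw [h3, norm_smul, Real.norm_eq_abs, abs_of_pos (by linarith)] at h2
    nlinarith
  have h2 : Ω ⊆ Metric.ball c R := by
    intro y hy
    rw [Metric.mem_ball]
    refine lt_of_le_of_ne (h1 y hy) ?_
    intro heq
    have hcont : Tendsto (fun s : ℝ => y + s • (y - c)) (𝓝[>] 0) (𝓝 (y + (0 : ℝ) • (y - c))) :=
      Tendsto.mono_left (Continuous.tendsto (by fun_prop) 0) nhdsWithin_le_nhds
    rw [zero_smul, add_zero] at hcont
    have h3 := hcont.eventually (hΩ.mem_nhds hy)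
    obtain ⟨s, hs, hs0⟩ := (h3.and self_mem_nhdsWithin).exists
    have h4 := h1 _ hs
    rw [dist_eq_norm] at h4 heq
    have h5 : y + s • (y - c) - c = (1 + s) • (y - c) := by module
    have hs0' : (0 : ℝ) < s := hs0
    rw [h5, norm_smul, Real.norm_eq_abs, abs_of_pos (by linarith), heq] at h4
    nlinarith
  apply Set.Subset.antisymm h2
  apply presub hΩ (convex_ball c R).isPreconnected
  · rw [Set.disjoint_left]
    intro x hx hxf
    have := hfr x hxf
    rw [Metric.mem_ball] at hx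
    linarith
  · obtain ⟨y, hy⟩ := hne
    exact ⟨y, h2 hy, hy⟩

theorem affine_false {Ω : Set V} (hΩ : IsOpen Ω) (hb : Bornology.IsBounded Ω) (hne : Ω.Nonempty)
    {P : ℂ[X][X]} (hP : P ≠ 0) (hV : Van (toC '' frontier Ω) P) {v : ℂ} (hv : v ≠ 0)
    (h : ∀ z : ℂ, ∃ α β : ℂ, ∀ t : ℝ,
      evalEval (z + t * v) ((starRingEnd ℂ) (z + t * v)) P = α + β * t) : False := by
  apply hP
  have hopen : IsOpen (toC '' Ω) := toC.toHomeomorph.isOpenMap Ω hΩ
  apply van_open hopen (hne.image _) _ _ le_rfl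
  rintro _ ⟨x, hx, rfl⟩
  set w : V := toC.symm v with hw
  have hw0 : w ≠ 0 := by
    intro h0
    apply hv
    have := congrArg toC h0
    simpa [hw] using this
  obtain ⟨t₁, ht₁, hf₁⟩ := ray_exit hΩ hb hx hw0
  obtain ⟨t₂, ht₂, hf₂⟩ := ray_exit hΩ hb hx (neg_ne_zero.2 hw0)
  obtain ⟨α, β, hαβ⟩ := h (toC x)
  have e : ∀ t : ℝ, toC (x + t • w) = toC x + t * v := by
    intro t
    rw [map_add, map_smul, hw, LinearIsometryEquiv.apply_symm_apply, Complex.real_smul]
  have e1 := hV _ ⟨_, hf₁, rfl⟩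
  have hf₂' : x + (-t₂) • w ∈ frontier Ω := by
    have : x + (-t₂) • w = x + t₂ • (-w) := by module
    rw [this]; exact hf₂
  have e2 := hV _ ⟨_, hf₂', rfl⟩
  rw [e, hαβ] at e1 e2
  have h3 : β * ((t₁ : ℂ) + t₂) = 0 := by
    push_cast at e2
    linear_combination e1 - e2
  have h4 : (t₁ : ℂ) + t₂ ≠ 0 := by
    have : t₁ + t₂ ≠ 0 := by linarith
    exact_mod_cast this
  have hβ : β = 0 := (mul_eq_zero.1 h3).resolve_right h4
  have hα : α = 0 := by rw [hβ] at e1; simpa using e1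
  have h5 := hαβ 0
  rw [hα, hβ] at h5
  simpa using h5

/-- the geometric hypothesis on the boundary. -/
def Charts (Ω : Set V) : Prop :=
  ∀ x ∈ frontier Ω, ∃ R : V ≃ₗᵢ[ℝ] V, ∃ r : ℝ, 0 < r ∧ ∃ f : ℝ → ℝ,
    (∃ K, LipschitzWith K f) ∧ IsCh Ω x r R f

theorem Charts.exists {Ω : Set V} (hΩ : IsOpen Ω) (h : Charts Ω) {x : V} (hx : x ∈ frontier Ω) :
    ∃ (R : V ≃ₗᵢ[ℝ] V) (r : ℝ) (f : ℝ → ℝ) (K : NNReal), 0 < r ∧ LipschitzWith K f ∧
      IsCh Ω x r R f ∧ x = gam R f (R x 0) := by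
  obtain ⟨R, r, hr, f, ⟨K, hf⟩, hch⟩ := h x hx
  refine ⟨R, r, f, K, hr, hf, hch, ?_⟩
  have h1 := (hch.frontier_iff hΩ hf.continuous (Metric.mem_ball_self hr)).1 hx
  rw [gam, h1, pt_R]

theorem frontier_nonempty {Ω : Set V} (hb : Bornology.IsBounded Ω) (hne : Ω.Nonempty) :
    (frontier Ω).Nonempty := by
  rw [nonempty_frontier_iff]
  refine ⟨hne, ?_⟩
  rintro rfl
  obtain ⟨M, hM⟩ := hb.exists_norm_le
  have h1 := hM ((|M| + 1) • ea R₀) (Set.mem_univ _)
  rw [norm_smul, norm_ea, mul_one, Real.norm_eq_abs, abs_of_pos (by positivity)] at h1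
  have := le_abs_self M
  linarith

theorem frontier_compact {Ω : Set V} (hb : Bornology.IsBounded Ω) : IsCompact (frontier Ω) := by
  apply Metric.isCompact_of_isClosed_isBounded isClosed_frontier
  exact hb.closure.subset frontier_subset_closure

theorem frontier_finite {Ω : Set V} (hΩ : IsOpen Ω) (hb : Bornology.IsBounded Ω)
    (h : Charts Ω) : (μH[1] : Measure V) (frontier Ω) < ⊤ := by
  apply (frontier_compact hb).measure_lt_top_of_nhdsWithin
  intro x hx
  obtain ⟨R, r, f, K, hr, hf, hch, hxg⟩ := h.exists hΩ hx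
  refine ⟨frontier Ω ∩ Metric.ball x r,
    inter_mem_nhdsWithin _ (Metric.ball_mem_nhds x hr), ?_⟩
  have h1 : frontier Ω ∩ Metric.ball x r ⊆ gam R f '' Set.Ioo (R x 0 - r) (R x 0 + r) := by
    rintro y ⟨hy, hyb⟩
    have h2 := (hch.frontier_iff hΩ hf.continuous hyb).1 hy
    refine ⟨R y 0, ?_, by rw [gam, h2, pt_R]⟩
    have h3 := (lip_R0 R).dist_le_mul y x
    rw [NNReal.coe_one, one_mul, Real.dist_eq] at h3
    have h4 : |R y 0 - R x 0| < r := lt_of_le_of_lt h3 hyb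
    rw [abs_lt] at h4
    constructor <;> linarith [h4.1, h4.2]
  refine lt_of_le_of_lt (measure_mono h1) ?_
  rw [← mm_apply R hf]
  exact mm_Ioo_lt_top R hf _ _

theorem noIso_frontier {Ω : Set V} (hΩ : IsOpen Ω) (h : Charts Ω) :
    NoIso (toC '' frontier Ω) := by
  rintro F hF _ ⟨x, hx, rfl⟩
  obtain ⟨R, r, f, K, hr, hf, hch, hxg⟩ := h.exists hΩ hx
  have hcont : Continuous (fun s => toC (gam R f s)) :=
    toC.continuous.comp (gam_continuous R hf)
  have h1 : Tendsto (fun s => toC (gam R f s)) (𝓝[≠] (R x 0)) (𝓝 (toC x)) := by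
    have := (hcont.tendsto (R x 0)).mono_left (nhdsWithin_le_nhds (s := {R x 0}ᶜ))
    rwa [← hxg] at this
  apply mem_closure_of_tendsto h1
  have hinj : Function.Injective (fun s => toC (gam R f s)) :=
    toC.injective.comp (gam_injective R f)
  have hfin : ((fun s => toC (gam R f s)) ⁻¹' F).Finite := hF.preimage hinj.injOn
  have h2 : ∀ᶠ s in 𝓝[≠] (R x 0), toC (gam R f s) ∉ F := by
    have h3 : (((fun s => toC (gam R f s)) ⁻¹' F) \ {R x 0})ᶜ ∈ 𝓝 (R x 0) := by
      apply (hfin.sdiff).isClosed.isOpen_compl.mem_nhds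
      simp
    filter_upwards [nhdsWithin_le_nhds h3, self_mem_nhdsWithin] with s hs hs'
    intro hsF
    exact hs ⟨hsF, hs'⟩
  have h4 : ∀ᶠ s in 𝓝[≠] (R x 0), gam R f s ∈ frontier Ω := by
    have h5 : ∀ᶠ s in 𝓝 (R x 0), gam R f s ∈ Metric.ball x r := by
      have := (gam_continuous R hf).tendsto (R x 0)
      rw [← hxg] at this
      exact this (Metric.ball_mem_nhds x hr)
    filter_upwards [nhdsWithin_le_nhds h5] with s hs
    rw [hch.frontier_iff hΩ hf.continuous hs, gam, R_pt_zero, R_pt_one]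
  filter_upwards [h2, h4] with s hs1 hs2
  exact ⟨⟨_, hs2, rfl⟩, hs1⟩

end Pool.Agent.Helper474
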