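import Mathlib
import Pool.Agent.Helper474.AnaM

set_option autoImplicit false

namespace Pool.Agent.Helper474

open Filter Topology MeasureTheory MeasureTheory.Measure Polynomial

theorem uF_add (F G : ℂ[X]) (y : V) : uF (F + G) y = uF F y + uF G y := by
  simp [uF]

theorem uF_smul (r : ℝ) (F : ℂ[X]) (y : V) : uF (C (r : ℂ) * F) y = r * uF F y := by
  simp [uF]

theorem uF_C (a : ℂ) (y : V) : uF (C a) y = a.re := by simp [uF]

theorem uF_diff (F : ℂ[X]) (y : V) : DifferentiableAt ℝ (uF F) y :=
  (uF_hasFDerivAt F y).differentiableAt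

theorem gradient_uF_inner (F G : ℂ[X]) (y : V) :
    @inner ℝ _ _ (gradient (uF F) y) (gradient (uF G) y)
      = (F.derivative.eval (toC y) * (starRingEnd ℂ) (G.derivative.eval (toC y))).re := by
  rw [inner_grad R₀, uF_fderiv, uF_fderiv, uF_fderiv, uF_fderiv, toC_ea0, toC_eb0]
  simp [Complex.mul_re]

theorem gradient_continuous {v : V → ℝ} (hv : ContDiff ℝ 1 v) : Continuous (gradient v) := by
  have h := hv.continuous_fderiv one_ne_zero
  exact (InnerProductSpace.toDual ℝ V).symm.continuous.comp h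

theorem cutoff_exists {Ω : Set V} (hb : Bornology.IsBounded Ω) :
    ∃ η : V → ℝ, ContDiff ℝ 1 η ∧ HasCompactSupport η ∧ ∃ U : Set V, IsOpen U ∧ closure Ω ⊆ U ∧
      ∀ y ∈ U, η y = 1 := by
  obtain ⟨M, hM⟩ := hb.closure.subset_closedBall 0
  set b : ContDiffBump (0 : V) := ⟨|M| + 1, |M| + 2, by positivity, by linarith⟩ with hbdef
  refine ⟨b, b.contDiff, b.hasCompactSupport, Metric.ball 0 (|M| + 1), Metric.isOpen_ball, ?_, ?_⟩
  · intro y hy
    have := hM hy
    rw [mem_closedBall_zero_iff] at this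
    rw [mem_ball_zero_iff]
    have := le_abs_self M
    linarith
  · intro y hy
    apply b.one_of_mem_closedBall
    exact Metric.ball_subset_closedBall hy

theorem weak_ext {Ω : Set V} (hΩ : IsOpen Ω) (hb : Bornology.IsBounded Ω) {F : ℂ[X]} {σ : ℝ}
    (h : Weak Ω F σ) {v : V → ℝ} (hv : ContDiff ℝ 1 v) :
    ∫ y in Ω, @inner ℝ _ _ (gradient (uF F) y) (gradient v y)
      = σ * ∫ y in frontier Ω, uF F y * v y ∂(μH[1] : Measure V) := by
  obtain ⟨η, hη, hηc, U, hU, hΩU, hη1⟩ := cutoff_exists hb
  have h1 := h (fun y => η y * v y) (hη.mul hv) hηc.mul_right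
  have h2 : ∫ y in Ω, @inner ℝ _ _ (gradient (uF F) y) (gradient (fun y => η y * v y) y)
      = ∫ y in Ω, @inner ℝ _ _ (gradient (uF F) y) (gradient v y) := by
    apply setIntegral_congr_fun hΩ.measurableSet
    intro y hy
    have h3 : (fun y => η y * v y) =ᶠ[𝓝 y] v := by
      filter_upwards [hU.mem_nhds (hΩU (subset_closure hy))] with z hz
      rw [hη1 z hz, one_mul]
    simp only
    rw [gradient, gradient, gradient, h3.fderiv_eq]
  have h3 : ∫ y in frontier Ω, uF F y * (η y * v y) ∂(μH[1] : Measure V)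
      = ∫ y in frontier Ω, uF F y * v y ∂(μH[1] : Measure V) := by
    apply setIntegral_congr_fun isClosed_frontier.measurableSet
    intro y hy
    simp only
    rw [hη1 y (hΩU (frontier_subset_closure hy)), one_mul]
  rw [h2, h3] at h1
  exact h1

theorem integrable_frontier {Ω : Set V} (hΩ : IsOpen Ω) (hb : Bornology.IsBounded Ω)
    (hc : Charts Ω) {g : V → ℝ} (hg : Continuous g) :
    IntegrableOn g (frontier Ω) (μH[1] : Measure V) := by
  have hfin := frontier_finite hΩ hb hc
  obtain ⟨B, hB⟩ := (frontier_compact hb).exists_bound_of_continuousOn hg.continuousOn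
  apply Measure.integrableOn_of_bounded (M := B) hfin.ne hg.aestronglyMeasurable
  exact (ae_restrict_mem isClosed_frontier.measurableSet).mono (fun s hs => hB s hs)

theorem integrable_omega {Ω : Set V} (hb : Bornology.IsBounded Ω)
    {g : V → ℝ} (hg : Continuous g) : IntegrableOn g Ω (volume : Measure V) :=
  (hg.continuousOn.integrableOn_compact hb.isCompact_closure).mono_set subset_closure

theorem inner_cont {u v : V → ℝ} (hu : ContDiff ℝ 1 u) (hv : ContDiff ℝ 1 v) :
    Continuous (fun y => @inner ℝ _ _ (gradient u y) (gradient v y)) :=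
  (gradient_continuous hu).inner (gradient_continuous hv)

theorem gradient_uF_add (F G : ℂ[X]) (y : V) :
    gradient (uF (F + G)) y = gradient (uF F) y + gradient (uF G) y := by
  have h : uF (F + G) = fun y => uF F y + uF G y := by funext z; exact uF_add F G z
  rw [gradient, gradient, gradient, h, fderiv_fun_add (uF_diff F y) (uF_diff G y), map_add]

theorem gradient_uF_smul (r : ℝ) (F : ℂ[X]) (y : V) :
    gradient (uF (C (r : ℂ) * F)) y = r • gradient (uF F) y := by
  have h : uF (C (r : ℂ) * F) = fun y => r * uF F y := by funext z; exact uF_smul r F z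
  rw [gradient, gradient, h, fderiv_const_mul (uF_diff F y)]
  simp

theorem Weak.add {Ω : Set V} (hΩ : IsOpen Ω) (hb : Bornology.IsBounded Ω)
    (hc : Charts Ω) {F G : ℂ[X]} {σ : ℝ} (hF : Weak Ω F σ) (hG : Weak Ω G σ) :
    Weak Ω (F + G) σ := by
  intro v hv hvc
  have h1 : ∀ y, @inner ℝ _ _ (gradient (uF (F + G)) y) (gradient v y)
      = @inner ℝ _ _ (gradient (uF F) y) (gradient v y)
        + @inner ℝ _ _ (gradient (uF G) y) (gradient v y) := by
    intro y; rw [gradient_uF_add, inner_add_left]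
  simp only [h1, uF_add, add_mul]
  have i1 : IntegrableOn (fun y => uF F y * v y) (frontier Ω) (μH[1] : Measure V) :=
    integrable_frontier hΩ hb hc ((uF_continuous F).mul hv.continuous)
  have i2 : IntegrableOn (fun y => uF G y * v y) (frontier Ω) (μH[1] : Measure V) :=
    integrable_frontier hΩ hb hc ((uF_continuous G).mul hv.continuous)
  rw [integral_add (integrable_omega hb (inner_cont (uF_contDiff F) hv))
    (integrable_omega hb (inner_cont (uF_contDiff G) hv)),
    integral_add i1 i2, hF v hv hvc, hG v hv hvc]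
  ring

theorem Weak.smul {Ω : Set V} {F : ℂ[X]} {σ : ℝ} (hF : Weak Ω F σ) (r : ℝ) :
    Weak Ω (C (r : ℂ) * F) σ := by
  intro v hv hvc
  have h1 : ∀ y, @inner ℝ _ _ (gradient (uF (C (r : ℂ) * F)) y) (gradient v y)
      = r * @inner ℝ _ _ (gradient (uF F) y) (gradient v y) := by
    intro y; rw [gradient_uF_smul, real_inner_smul_left]
  simp only [h1, uF_smul, mul_assoc]
  rw [integral_const_mul, integral_const_mul, hF v hv hvc]
  ring

theorem Weak.zero (Ω : Set V) (σ : ℝ) : Weak Ω 0 σ := by
  intro v _ _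
  have h1 : uF (0 : ℂ[X]) = fun _ => 0 := by funext y; simp [uF]
  rw [h1]
  have h2 : ∀ y : V, gradient (fun _ : V => (0 : ℝ)) y = 0 := by
    intro y; rw [gradient]; simp
  simp [h2]

theorem energy {Ω : Set V} (hΩ : IsOpen Ω) (hb : Bornology.IsBounded Ω) {F : ℂ[X]} {σ : ℝ}
    (h : Weak Ω F σ) :
    ∫ y in Ω, ‖F.derivative.eval (toC y)‖ ^ 2
      = σ * ∫ y in frontier Ω, uF F y ^ 2 ∂(μH[1] : Measure V) := by
  have h1 := weak_ext hΩ hb h (uF_contDiff F)
  have h2 : ∀ y, @inner ℝ _ _ (gradient (uF F) y) (gradient (uF F) y)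
      = ‖F.derivative.eval (toC y)‖ ^ 2 := by
    intro y
    rw [gradient_uF_inner, Complex.mul_conj, Complex.ofReal_re, Complex.normSq_eq_norm_sq]
  simp only [h2, ← pow_two] at h1
  exact h1

theorem sigma_ne {Ω : Set V} (hΩ : IsOpen Ω) (hb : Bornology.IsBounded Ω) (hne : Ω.Nonempty)
    {F : ℂ[X]} {σ : ℝ} (h : Weak Ω F σ) (hF : 0 < F.natDegree) : σ ≠ 0 := by
  rintro rfl
  have h1 := energy hΩ hb h
  rw [zero_mul] at h1
  have hc : Continuous (fun y : V => ‖F.derivative.eval (toC y)‖ ^ 2) :=
    ((F.derivative.continuous.comp toC.continuous).norm).pow 2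
  rw [integral_eq_zero_iff_of_nonneg (fun y => by positivity) (integrable_omega hb hc)] at h1
  have h2 := Measure.eqOn_open_of_ae_eq (μ := (volume : Measure V)) h1 hΩ hc.continuousOn
    continuousOn_const
  have h3 : F.derivative = 0 := by
    have hopen : IsOpen (toC '' Ω) := toC.toHomeomorph.isOpenMap Ω hΩ
    obtain ⟨z0, hz0⟩ := hne.image toC
    have hinf : (toC '' Ω).Infinite := infinite_of_mem_nhds z0 (hopen.mem_nhds hz0)
    apply eq_zero_of_eval_infinite hinf
    rintro _ ⟨y, hy, rfl⟩
    have h4 := h2 hy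
    simp only [Pi.zero_apply] at h4
    have h5 := pow_eq_zero_iff (two_ne_zero) |>.1 h4
    exact norm_eq_zero.1 h5
  have h4 := derivative_eq_zero.1 h3
  omega

end Pool.Agent.Helper474
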