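import Mathlib
import Pool.Agent.Helper474.AnaN

set_option autoImplicit false

namespace Pool.Agent.Helper474

open Filter Topology MeasureTheory MeasureTheory.Measure Polynomial

theorem gam_frontier {Ω : Set V} (hΩ : IsOpen Ω) {r s₀ ℓ : ℝ} {R : V ≃ₗᵢ[ℝ] V}
    {f : ℝ → ℝ} {K : NNReal} (hf : LipschitzWith K f) (h : IsCh Ω (gam R f s₀) r R f)
    (hr : (K + 3) * ℓ < r) {s : ℝ} (hs : s ∈ Set.Icc (s₀ - ℓ) (s₀ + ℓ)) :
    gam R f s ∈ frontier Ω := by
  have h1 := (gam_lipschitz R hf).dist_le_mul s s₀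
  have h2 : |s - s₀| ≤ ℓ := by rw [abs_le]; constructor <;> linarith [hs.1, hs.2]
  have hℓ : 0 ≤ ℓ := (abs_nonneg _).trans h2
  rw [Real.dist_eq] at h1
  push_cast at h1
  have hK : (0 : ℝ) ≤ K := K.2
  have h3 : gam R f s ∈ Metric.ball (gam R f s₀) r := by
    rw [Metric.mem_ball]
    nlinarith
  rw [h.frontier_iff hΩ hf.continuous h3, gam, R_pt_zero, R_pt_one]

theorem arc_le {Ω : Set V} {R : V ≃ₗᵢ[ℝ] V}
    {f : ℝ → ℝ} {K : NNReal} (hf : LipschitzWith K f) {I : Set ℝ}
    (hI : ∀ s ∈ I, gam R f s ∈ frontier Ω) :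
    Measure.map (gam R f) ((volume : Measure ℝ).restrict I)
      ≤ (μH[1] : Measure V).restrict (frontier Ω) := by
  rw [Measure.le_iff]
  intro A hA
  have hm := (gam_measurableEmbedding R hf).measurable
  rw [Measure.map_apply hm hA, Measure.restrict_apply (hm hA), Measure.restrict_apply hA]
  refine (volume_le_mm R hf _).trans ?_
  rw [mm_apply R hf]
  apply measure_mono
  rintro _ ⟨s, ⟨hs1, hs2⟩, rfl⟩
  exact ⟨hs1, hI s hs2⟩

theorem memLp_cont {Ω : Set V} (hΩ : IsOpen Ω) (hb : Bornology.IsBounded Ω)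
    (hc : Charts Ω) {g : V → ℝ} (hg : Continuous g) :
    MemLp g 2 ((μH[1] : Measure V).restrict (frontier Ω)) := by
  have : IsFiniteMeasure ((μH[1] : Measure V).restrict (frontier Ω)) :=
    ⟨by rw [Measure.restrict_apply_univ]; exact frontier_finite hΩ hb hc⟩
  obtain ⟨B, hB⟩ := (frontier_compact hb).exists_bound_of_continuousOn hg.continuousOn
  apply MemLp.of_bound hg.aestronglyMeasurable B
  exact (ae_restrict_mem isClosed_frontier.measurableSet).mono (fun s hs => hB s hs)

/-- polynomial from coefficients. -/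
noncomputable def poly (n : ℕ) : (Fin (n + 1) → ℂ) →ₗ[ℝ] ℂ[X] where
  toFun c := ∑ i : Fin (n + 1), monomial (i : ℕ) (c i)
  map_add' c d := by
    rw [← Finset.sum_add_distrib]
    apply Finset.sum_congr rfl
    intro i _
    rw [Pi.add_apply, map_add]
  map_smul' r c := by
    rw [RingHom.id_apply, Finset.smul_sum]
    apply Finset.sum_congr rfl
    intro i _
    rw [Pi.smul_apply, smul_monomial]

theorem poly_surj (n : ℕ) (F : ℂ[X]) (hF : F.natDegree ≤ n) :
    poly n (fun i => F.coeff i) = F := by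
  have h1 := F.as_sum_range' (n + 1) (by omega)
  conv_rhs => rw [h1]
  rw [Finset.sum_range]
  rfl

theorem uF_smul' (r : ℝ) (F : ℂ[X]) (y : V) : uF (r • F) y = r * uF F y := by
  rw [← uF_smul]
  congr 1
  rw [← smul_eq_C_mul]
  ext i
  simp

theorem not_bounded_degree {Ω : Set V} (hΩ : IsOpen Ω) (hb : Bornology.IsBounded Ω)
    (hne : Ω.Nonempty) (hc : Charts Ω) (n : ℕ) (𝓕 : Set ℂ[X]) (hn : ∀ F ∈ 𝓕, F.natDegree ≤ n)
    (hdens : ∀ g : V → ℝ, MemLp g 2 ((μH[1] : Measure V).restrict (frontier Ω)) →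
      ∀ ε : ℝ, 0 < ε → ∃ F ∈ 𝓕, eLpNorm (fun y => g y - uF F y) 2
        ((μH[1] : Measure V).restrict (frontier Ω)) < ENNReal.ofReal ε) : False := by
  classical
  set μ := (μH[1] : Measure V).restrict (frontier Ω) with hμ
  have hfin : IsFiniteMeasure μ :=
    ⟨by rw [hμ, Measure.restrict_apply_univ]; exact frontier_finite hΩ hb hc⟩
  have hmem : ∀ F : ℂ[X], MemLp (uF F) 2 μ := fun F => memLp_cont hΩ hb hc (uF_continuous F)
  let L : (Fin (n + 1) → ℂ) →ₗ[ℝ] Lp ℝ 2 μ :=
    { toFun := fun c => (hmem (poly n c)).toLp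
      map_add' := by
        intro c d
        rw [← MemLp.toLp_add]
        apply MemLp.toLp_congr
        apply Filter.Eventually.of_forall
        intro y
        rw [map_add, Pi.add_apply, uF_add]
      map_smul' := by
        intro r c
        rw [RingHom.id_apply, ← MemLp.toLp_const_smul]
        apply MemLp.toLp_congr
        apply Filter.Eventually.of_forall
        intro y
        rw [map_smul, Pi.smul_apply, uF_smul', smul_eq_mul] }
  obtain ⟨x, hx⟩ := frontier_nonempty hb hne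
  obtain ⟨R, r, f, K, hr, hf, hch, hxg⟩ := hc.exists hΩ hx
  set s₀ := R x 0 with hs₀
  obtain ⟨ℓ, hℓ, hℓr⟩ : ∃ ℓ : ℝ, 0 < ℓ ∧ (K + 3) * ℓ < r := by
    refine ⟨r / (2 * (K + 3)), by positivity, ?_⟩
    have : (0 : ℝ) < K + 3 := by positivity
    field_simp
    linarith
  rw [hxg] at hch
  set g : V → ℝ := Set.indicator {y : V | s₀ < R y 0} (fun _ => 1) with hg
  have hmg : MeasurableSet {y : V | s₀ < R y 0} :=
    (isOpen_lt continuous_const (continuous_coord R 0)).measurableSet
  have hgm : MemLp g 2 μ := (memLp_const (1 : ℝ)).indicator hmg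
  have hclosed : IsClosed (LinearMap.range L : Set (Lp ℝ 2 μ)) :=
    Submodule.closed_of_finiteDimensional _
  have hin : hgm.toLp ∈ (LinearMap.range L : Set (Lp ℝ 2 μ)) := by
    rw [← hclosed.closure_eq, Metric.mem_closure_iff]
    intro ε hε
    obtain ⟨F, hF, hlt⟩ := hdens g hgm ε hε
    refine ⟨L (fun i => F.coeff i), ⟨_, rfl⟩, ?_⟩
    have e1 : L (fun i => F.coeff i) = (hmem F).toLp := by
      have e2 := poly_surj n F (hn F hF)
      apply (MemLp.toLp_eq_toLp_iff (hmem (poly n (fun i => F.coeff i))) (hmem F)).2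
      rw [e2]
    rw [e1, dist_eq_norm, ← MemLp.toLp_sub, Lp.norm_toLp]
    rw [← ENNReal.toReal_ofReal hε.le]
    apply (ENNReal.toReal_lt_toReal _ ENNReal.ofReal_ne_top).2 hlt
    exact (ne_of_lt (hlt.trans ENNReal.ofReal_lt_top))
  obtain ⟨c, hcL⟩ := hin
  set F := poly n c with hF
  have hae : uF F =ᵐ[μ] g := by
    have h1 : (hmem F).toLp = hgm.toLp := hcL
    exact (MemLp.toLp_eq_toLp_iff _ _).1 h1
  have harc := arc_le (Ω := Ω) (R := R) hf (I := Set.Ioo (s₀ - ℓ) (s₀ + ℓ)) (fun s hs =>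
    gam_frontier hΩ hf hch hℓr (Set.Ioo_subset_Icc_self hs))
  have hae2 : ∀ᵐ s ∂((volume : Measure ℝ).restrict (Set.Ioo (s₀ - ℓ) (s₀ + ℓ))),
      uF F (gam R f s) = g (gam R f s) := by
    have h1 := ae_mono harc hae
    exact ae_of_ae_map (gam_measurableEmbedding R hf).measurable.aemeasurable h1
  have hcont : Continuous (fun s => uF F (gam R f s)) :=
    (uF_continuous F).comp (gam_continuous R hf)
  have hgval : ∀ s, g (gam R f s) = if s₀ < s then 1 else 0 := by
    intro s
    rw [hg, Set.indicator_apply]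
    simp only [Set.mem_ofPred_eq, gam, R_pt_zero]
  have h1 : uF F (gam R f s₀) = 1 := by
    have h2 : Set.EqOn (fun s => uF F (gam R f s)) (fun _ => 1) (Set.Ioo s₀ (s₀ + ℓ)) := by
      apply Measure.eqOn_open_of_ae_eq (μ := (volume : Measure ℝ)) _ isOpen_Ioo
        hcont.continuousOn continuousOn_const
      have h3 := ae_restrict_of_ae_restrict_of_subset
        (Set.Ioo_subset_Ioo_left (show s₀ - ℓ ≤ s₀ by linarith)) hae2
      filter_upwards [h3, ae_restrict_mem measurableSet_Ioo] with s hs hs'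
      rw [hs, hgval, if_pos hs'.1]
    have h3 : s₀ ∈ closure (Set.Ioo s₀ (s₀ + ℓ)) := by
      rw [closure_Ioo (by linarith)]
      exact ⟨le_rfl, by linarith⟩
    have h4 := closure_minimal (s := Set.Ioo s₀ (s₀ + ℓ))
      (t := {s | uF F (gam R f s) = 1}) (fun s hs => h2 hs)
      (isClosed_eq hcont continuous_const)
    exact h4 h3
  have h0 : uF F (gam R f s₀) = 0 := by
    have h2 : Set.EqOn (fun s => uF F (gam R f s)) (fun _ => 0) (Set.Ioo (s₀ - ℓ) s₀) := by
      apply Measure.eqOn_open_of_ae_eq (μ := (volume : Measure ℝ)) _ isOpen_Ioo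
        hcont.continuousOn continuousOn_const
      have h3 := ae_restrict_of_ae_restrict_of_subset
        (Set.Ioo_subset_Ioo_right (show s₀ ≤ s₀ + ℓ by linarith)) hae2
      filter_upwards [h3, ae_restrict_mem measurableSet_Ioo] with s hs hs'
      rw [hs, hgval, if_neg (not_lt.2 hs'.2.le)]
    have h3 : s₀ ∈ closure (Set.Ioo (s₀ - ℓ) s₀) := by
      rw [closure_Ioo (by linarith)]
      exact ⟨by linarith, le_rfl⟩
    have h4 := closure_minimal (s := Set.Ioo (s₀ - ℓ) s₀)
      (t := {s | uF F (gam R f s) = 0}) (fun s hs => h2 hs)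
      (isClosed_eq hcont continuous_const)
    exact h4 h3
  rw [h1] at h0
  exact one_ne_zero h0

end Pool.Agent.Helper474
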