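import Mathlib
import Pool.Agent.Helper474.AnaO

set_option autoImplicit false

namespace Pool.Agent.Helper474

open Filter Topology MeasureTheory MeasureTheory.Measure Polynomial

theorem l2_lt {μ : Measure V} {h : V → ℝ} (hm : MemLp h 2 μ) {ε : ℝ} (hε : 0 < ε)
    (hlt : eLpNorm h 2 μ < ENNReal.ofReal ε) : ∫ y, h y ^ 2 ∂μ < ε ^ 2 := by
  rw [hm.eLpNorm_eq_integral_rpow_norm two_ne_zero ENNReal.ofNat_ne_top,
    ENNReal.ofReal_lt_ofReal_iff hε] at hlt
  simp only [ENNReal.toReal_ofNat, Real.rpow_two, Real.norm_eq_abs, sq_abs] at hlt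
  have h0 : 0 ≤ ∫ y, h y ^ 2 ∂μ := integral_nonneg (fun y => sq_nonneg _)
  set x := ∫ y, h y ^ 2 ∂μ with hx
  have h1 : (x ^ ((2 : ℝ)⁻¹)) ^ 2 = x := by
    rw [← Real.rpow_natCast, ← Real.rpow_mul h0]; norm_num
  rw [← h1]
  exact pow_lt_pow_left₀ hlt (Real.rpow_nonneg h0 _) two_ne_zero

theorem norm_gradient_uF_sq (F : ℂ[X]) (y : V) :
    ‖gradient (uF F) y‖ ^ 2 = ‖F.derivative.eval (toC y)‖ ^ 2 := by
  rw [← real_inner_self_eq_norm_sq, gradient_uF_inner, Complex.mul_conj, Complex.ofReal_re,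
    Complex.normSq_eq_norm_sq]

theorem energy_le {Ω : Set V} (hΩ : IsOpen Ω) (hb : Bornology.IsBounded Ω) (hc : Charts Ω)
    {F : ℂ[X]} {σ : ℝ} (h : Weak Ω F σ) (c : ℝ) :
    ∫ y in Ω, ‖F.derivative.eval (toC y)‖ ^ 2
      ≤ |σ| * ∫ y in frontier Ω, (uF F y + c) ^ 2 ∂(μH[1] : Measure V) := by
  set A := ∫ y in Ω, ‖F.derivative.eval (toC y)‖ ^ 2 with hA
  have hA0 : 0 ≤ A := integral_nonneg (fun y => by positivity)
  have h1 := energy hΩ hb h
  rw [← hA] at h1
  have h2 := weak_ext hΩ hb h (v := fun _ => (1 : ℝ)) contDiff_const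
  have h3 : ∫ y in Ω, @inner ℝ _ _ (gradient (uF F) y) (gradient (fun _ : V => (1 : ℝ)) y) = 0 := by
    have : ∀ y : V, gradient (fun _ : V => (1 : ℝ)) y = 0 := by
      intro y; rw [gradient]; simp
    simp [this]
  rw [h3] at h2
  simp only [mul_one] at h2
  set U2 := ∫ y in frontier Ω, uF F y ^ 2 ∂(μH[1] : Measure V) with hU2
  set U1 := ∫ y in frontier Ω, uF F y ∂(μH[1] : Measure V) with hU1
  set U0 := ∫ y in frontier Ω, c ^ 2 ∂(μH[1] : Measure V) with hU0
  have i2 : IntegrableOn (fun y => uF F y ^ 2) (frontier Ω) (μH[1] : Measure V) :=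
    integrable_frontier hΩ hb hc ((uF_continuous F).pow 2)
  have i1 : IntegrableOn (fun y => 2 * c * uF F y) (frontier Ω) (μH[1] : Measure V) :=
    integrable_frontier hΩ hb hc ((uF_continuous F).const_mul (2 * c))
  have i0 : IntegrableOn (fun _ : V => c ^ 2) (frontier Ω) (μH[1] : Measure V) :=
    integrable_frontier hΩ hb hc continuous_const
  have hQ : ∫ y in frontier Ω, (uF F y + c) ^ 2 ∂(μH[1] : Measure V)
      = U2 + 2 * c * U1 + U0 := by
    have e1 : ∀ y, (uF F y + c) ^ 2 = uF F y ^ 2 + 2 * c * uF F y + c ^ 2 := fun y => by ring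
    simp only [e1]
    have i3 : IntegrableOn (fun y => uF F y ^ 2 + 2 * c * uF F y) (frontier Ω)
        (μH[1] : Measure V) :=
      integrable_frontier hΩ hb hc (((uF_continuous F).pow 2).add
        ((uF_continuous F).const_mul (2 * c)))
    rw [integral_add i3 i0, integral_add i2 i1, integral_const_mul]
  have hU0' : 0 ≤ U0 := integral_nonneg (fun y => by positivity)
  have hU2' : 0 ≤ U2 := integral_nonneg (fun y => by positivity)
  have hQ0 : 0 ≤ ∫ y in frontier Ω, (uF F y + c) ^ 2 ∂(μH[1] : Measure V) :=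
    integral_nonneg (fun y => by positivity)
  rcases le_or_gt 0 σ with hσ | hσ
  · rw [abs_of_nonneg hσ, hQ, h1]
    have h6 : 0 ≤ σ * U0 := mul_nonneg hσ hU0'
    have h7 : σ * (U2 + 2 * c * U1 + U0) = σ * U2 + 2 * c * (σ * U1) + σ * U0 := by ring
    rw [h7, ← h2]
    linarith
  · have : A ≤ 0 := by rw [h1]; exact mul_nonpos_of_nonpos_of_nonneg hσ.le hU2'
    have h5 : 0 ≤ |σ| * ∫ y in frontier Ω, (uF F y + c) ^ 2 ∂(μH[1] : Measure V) :=
      mul_nonneg (abs_nonneg _) hQ0
    linarith

theorem integral_arc_le {Ω : Set V} {R : V ≃ₗᵢ[ℝ] V}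
    {f : ℝ → ℝ} {K : NNReal} (hf : LipschitzWith K f) {I : Set ℝ}
    (hI : ∀ s ∈ I, gam R f s ∈ frontier Ω) {h : V → ℝ} (h0 : ∀ y, 0 ≤ h y)
    (hi : IntegrableOn h (frontier Ω) (μH[1] : Measure V)) :
    ∫ s in I, h (gam R f s) ≤ ∫ y in frontier Ω, h y ∂(μH[1] : Measure V) := by
  have h1 := arc_le (R := R) hf hI
  rw [← (gam_measurableEmbedding R hf).integral_map]
  exact integral_mono_measure h1 (Filter.Eventually.of_forall h0) hi

theorem est {Ω : Set V} (hΩ : IsOpen Ω) (hb : Bornology.IsBounded Ω) (hc : Charts Ω)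
    {r s₀ ℓ : ℝ} {R : V ≃ₗᵢ[ℝ] V} {f : ℝ → ℝ} {K : NNReal} (hf : LipschitzWith K f)
    (h : IsCh Ω (gam R f s₀) r R f) (hℓ : 0 < ℓ) (hr : (K + 3) * ℓ < r) {φ : ℝ → ℝ}
    (hφ : ContDiff ℝ 2 φ) (hs : tsupport φ ⊆ Set.Icc (s₀ - ℓ) (s₀ + ℓ)) {σ : ℝ}
    {𝓕 : Set (ℂ[X] × ℝ)} (hW : ∀ e ∈ 𝓕, Weak Ω e.1 σ)
    (hdens : ∀ g : V → ℝ, MemLp g 2 ((μH[1] : Measure V).restrict (frontier Ω)) →
      ∀ ε : ℝ, 0 < ε → ∃ e ∈ 𝓕, eLpNorm (fun y => g y - (uF e.1 y + e.2)) 2
        ((μH[1] : Measure V).restrict (frontier Ω)) < ENNReal.ofReal ε) :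
    ∫ s, (deriv φ s) ^ 2 ≤ 8 * (|σ| + 1) * (K + 1)
      * ∫ y in Ω, ‖gradient (tf R φ (chiL K (f s₀) ℓ)) y‖ ^ 2 := by
  have hφ1 : ContDiff ℝ 1 φ := hφ.of_le (by norm_num)
  have hφ' : ContDiff ℝ 1 (deriv φ) := by
    have : ContDiff ℝ (1 + 1) φ := by norm_num; exact hφ
    exact (contDiff_succ_iff_deriv.1 this).2.2
  have hts : tsupport (deriv φ) ⊆ tsupport φ :=
    closure_minimal support_deriv_subset (isClosed_tsupport _)
  have A := adm_of (R := R) hf hℓ hr hφ1 hs
  have A' := adm_of (R := R) hf hℓ hr hφ' (hts.trans hs)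
  set χ := chiL K (f s₀) ℓ with hχ
  set a := ∫ s, (deriv φ s) ^ 2 with ha
  have ha0 : 0 ≤ a := integral_nonneg (fun s => sq_nonneg _)
  set D := ∫ y in Ω, ‖gradient (tf R φ χ) y‖ ^ 2 with hD
  set g : V → ℝ := tf R (deriv φ) χ with hg
  have cg : Continuous g := (tf_contDiff R A'.cφ A'.cχ).continuous
  have cφ' : Continuous (deriv φ) := hφ'.continuous
  have sφ' : HasCompactSupport (deriv φ) := A'.sφ
  have hK : (0 : ℝ) ≤ K := K.2
  -- norm of g
  have hg2 : ∫ y in frontier Ω, g y ^ 2 ∂(μH[1] : Measure V) ≤ (K + 1) * a := by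
    have e1 : ∫ y in frontier Ω, g y ^ 2 ∂(μH[1] : Measure V)
        = ∫ s, (deriv φ s) ^ 2 ∂(mm R f) := by
      have e2 := local_bdry hΩ h hf A' g
      simp only [← hg, ← pow_two] at e2
      rw [e2]
      apply integral_congr_ae
      apply Filter.Eventually.of_forall
      intro s
      simp only [hg]
      rw [A'.tf_gam, pow_two]
    rw [e1]
    have hint : Integrable (fun s => (deriv φ s) ^ 2) ((K + 1 : NNReal) • (volume : Measure ℝ)) := by
      apply Continuous.integrable_of_hasCompactSupport (cφ'.pow 2)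
      apply HasCompactSupport.intro sφ'.isCompact
      intro s hs
      rw [Pi.pow_apply, image_eq_zero_of_notMem_tsupport hs]; simp
    have e3 := integral_mono_measure (mm_le R hf)
      (Filter.Eventually.of_forall (fun s => sq_nonneg (deriv φ s))) hint
    refine e3.trans (le_of_eq ?_)
    rw [integral_smul_nnreal_measure, NNReal.smul_def, smul_eq_mul]
    push_cast; rfl
  -- main inequality for each ε
  have key : ∀ ε : ℝ, 0 < ε → a / 4 ≤ ε ^ 2 + 2 * (|σ| + 1) * (K + 1) * D := by
    intro ε hε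
    obtain ⟨e, he, hlt⟩ := hdens g (memLp_cont hΩ hb hc cg) ε hε
    set F := e.1 with hF
    set c := e.2 with hc'
    set Q : V → ℝ := fun y => uF F y + c with hQ
    have cQ : Continuous Q := (uF_continuous F).add continuous_const
    have h1 : ∫ y in frontier Ω, (g y - Q y) ^ 2 ∂(μH[1] : Measure V) < ε ^ 2 :=
      l2_lt (memLp_cont hΩ hb hc (cg.sub cQ)) hε hlt
    have h2 : ∫ y in frontier Ω, Q y ^ 2 ∂(μH[1] : Measure V)
        ≤ 2 * ((K + 1) * a) + 2 * ε ^ 2 := by
      have i1 : IntegrableOn (fun y => 2 * g y ^ 2) (frontier Ω) (μH[1] : Measure V) :=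
        integrable_frontier hΩ hb hc ((cg.pow 2).const_mul 2)
      have i2 : IntegrableOn (fun y => 2 * (g y - Q y) ^ 2) (frontier Ω) (μH[1] : Measure V) :=
        integrable_frontier hΩ hb hc (((cg.sub cQ).pow 2).const_mul 2)
      have i3 : IntegrableOn (fun y => Q y ^ 2) (frontier Ω) (μH[1] : Measure V) :=
        integrable_frontier hΩ hb hc (cQ.pow 2)
      have e1 : ∫ y in frontier Ω, Q y ^ 2 ∂(μH[1] : Measure V)
          ≤ ∫ y in frontier Ω, (2 * g y ^ 2 + 2 * (g y - Q y) ^ 2) ∂(μH[1] : Measure V) := by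
        have i4 : IntegrableOn (fun y => 2 * g y ^ 2 + 2 * (g y - Q y) ^ 2) (frontier Ω)
            (μH[1] : Measure V) := i1.add i2
        apply integral_mono i3 i4
        intro y
        simp only
        nlinarith [sq_nonneg (2 * g y - Q y)]
      rw [integral_add i1 i2, integral_const_mul, integral_const_mul] at e1
      linarith
    have h3 := energy_le hΩ hb hc (hW e he) c
    have h3' : ∫ y in Ω, ‖F.derivative.eval (toC y)‖ ^ 2
        ≤ |σ| * (2 * ((K + 1) * a) + 2 * ε ^ 2) :=
      h3.trans (mul_le_mul_of_nonneg_left h2 (abs_nonneg _))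
    -- the pairing
    set X₁ := ∫ s, Q (gam R f s) * deriv φ s with hX₁
    have cgam : Continuous (gam R f) := gam_continuous R hf
    have icomp : ∀ k : ℝ → ℝ, Continuous k → Integrable (fun s => k s * deriv φ s) := by
      intro k hk
      apply Continuous.integrable_of_hasCompactSupport (hk.mul cφ')
      exact sφ'.mul_left
    have h4 : X₁ = ∫ s, uF F (gam R f s) * deriv φ s := by
      have e1 : ∫ s, deriv φ s = 0 := by
        apply integral_eq_zero_of_hasDerivAt_of_integrable (f := φ)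
        · intro s; exact (hφ1.differentiable one_ne_zero s).hasDerivAt
        · exact cφ'.integrable_of_hasCompactSupport sφ'
        · exact hφ1.continuous.integrable_of_hasCompactSupport A.sφ
      have e2 : ∀ s, Q (gam R f s) * deriv φ s
          = uF F (gam R f s) * deriv φ s + c * deriv φ s := by
        intro s; rw [hQ]; ring
      rw [hX₁]
      simp only [e2]
      rw [integral_add (icomp (fun s => uF F (gam R f s)) ((uF_continuous F).comp cgam))
        (icomp (fun _ => c) continuous_const), integral_const_mul, e1, mul_zero, add_zero]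
    set G : ℂ[X] := C Complex.I * F with hG
    have h5 : |X₁| = |∫ y in Ω, @inner ℝ _ _ (gradient (uF G) y) (gradient (tf R φ χ) y)| := by
      rw [local_vol hΩ h hf.continuous A G, abs_neg, h4]
      have e1 : ∀ s, (eps R * (G.eval (toC (gam R f s))).im) * deriv φ s
          = eps R * (uF F (gam R f s) * deriv φ s) := by
        intro s
        rw [hG, eval_mul, eval_C, Complex.I_mul_im, uF]; ring
      simp only [e1]
      rw [integral_const_mul, abs_mul]
      have : |eps R| = 1 := by
        rw [← sq_eq_sq₀ (abs_nonneg _) zero_le_one, sq_abs, eps_sq]; norm_num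
      rw [this, one_mul]
    set τ := |σ| + 1 with hτ
    have hτ1 : 1 ≤ τ := by rw [hτ]; linarith [abs_nonneg σ]
    set lam := 4 * τ * (K + 1) with hlam
    have hlam4 : 4 ≤ lam := by rw [hlam]; nlinarith
    have hlam0 : 0 < lam := by linarith
    have cG2 : Continuous (fun y => ‖gradient (uF G) y‖ ^ 2) :=
      (gradient_continuous (uF_contDiff G)).norm.pow 2
    have cT2 : Continuous (fun y => ‖gradient (tf R φ χ) y‖ ^ 2) :=
      (gradient_continuous (tf_contDiff R A.cφ A.cχ)).norm.pow 2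
    have h6 : |X₁| ≤ 1 / (2 * lam) * (|σ| * (2 * ((K + 1) * a) + 2 * ε ^ 2)) + lam / 2 * D := by
      rw [h5]
      have i1 : IntegrableOn (fun y => 1 / (2 * lam) * ‖gradient (uF G) y‖ ^ 2) Ω
          (volume : Measure V) := integrable_omega hb (cG2.const_mul _)
      have i2 : IntegrableOn (fun y => lam / 2 * ‖gradient (tf R φ χ) y‖ ^ 2) Ω
          (volume : Measure V) := integrable_omega hb (cT2.const_mul _)
      have e1 : |∫ y in Ω, @inner ℝ _ _ (gradient (uF G) y) (gradient (tf R φ χ) y)|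
          ≤ ∫ y in Ω, (1 / (2 * lam) * ‖gradient (uF G) y‖ ^ 2
            + lam / 2 * ‖gradient (tf R φ χ) y‖ ^ 2) := by
        rw [← Real.norm_eq_abs]
        have i12 : IntegrableOn (fun y => 1 / (2 * lam) * ‖gradient (uF G) y‖ ^ 2
            + lam / 2 * ‖gradient (tf R φ χ) y‖ ^ 2) Ω (volume : Measure V) := i1.add i2
        apply norm_integral_le_of_norm_le i12
        apply Filter.Eventually.of_forall
        intro y
        refine (norm_inner_le_norm _ _).trans ?_
        set p := ‖gradient (uF G) y‖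
        set q := ‖gradient (tf R φ χ) y‖
        have e2 : 1 / (2 * lam) * p ^ 2 + lam / 2 * q ^ 2 - p * q
            = 1 / (2 * lam) * (p - lam * q) ^ 2 := by
          field_simp; ring
        have e3 : 0 ≤ 1 / (2 * lam) * (p - lam * q) ^ 2 := by positivity
        linarith
      rw [integral_add i1 i2, integral_const_mul, integral_const_mul] at e1
      refine e1.trans ?_
      have e4 : ∫ y in Ω, ‖gradient (uF G) y‖ ^ 2
          = ∫ y in Ω, ‖F.derivative.eval (toC y)‖ ^ 2 := by
        apply integral_congr_ae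
        apply Filter.Eventually.of_forall
        intro y
        simp only
        rw [norm_gradient_uF_sq, hG, derivative_C_mul, eval_mul, eval_C, norm_mul,
          Complex.norm_I, one_mul]
      rw [e4]
      have : 0 ≤ 1 / (2 * lam) := by positivity
      have := mul_le_mul_of_nonneg_left h3' this
      linarith
    -- lower bound
    have h7 : a / 2 - ε ^ 2 / 2 ≤ X₁ := by
      have e1 : ∫ s, g (gam R f s) * deriv φ s = a := by
        rw [ha]
        apply integral_congr_ae
        apply Filter.Eventually.of_forall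
        intro s
        simp only [hg]
        rw [A'.tf_gam]; ring
      have e2 : a - X₁ = ∫ s, (g (gam R f s) - Q (gam R f s)) * deriv φ s := by
        rw [← e1, hX₁, ← integral_sub (icomp (fun s => g (gam R f s)) (cg.comp cgam))
          (icomp (fun s => Q (gam R f s)) (cQ.comp cgam))]
        apply integral_congr_ae
        apply Filter.Eventually.of_forall
        intro s
        simp only; ring
      set I := Set.Icc (s₀ - ℓ) (s₀ + ℓ) with hI
      have e3 : ∫ s, (g (gam R f s) - Q (gam R f s)) * deriv φ s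
          = ∫ s in I, (g (gam R f s) - Q (gam R f s)) * deriv φ s := by
        symm
        apply setIntegral_eq_integral_of_forall_compl_eq_zero
        intro s hs'
        rw [image_eq_zero_of_notMem_tsupport (fun h' => hs' (hs (hts h'))), mul_zero]
      have cc : Continuous (fun s => g (gam R f s) - Q (gam R f s)) :=
        (cg.comp cgam).sub (cQ.comp cgam)
      have j1 : IntegrableOn (fun s => (g (gam R f s) - Q (gam R f s)) * deriv φ s) I volume :=
        (cc.mul cφ').continuousOn.integrableOn_compact isCompact_Icc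
      have j2 : IntegrableOn (fun s => 1 / 2 * (g (gam R f s) - Q (gam R f s)) ^ 2) I volume :=
        ((cc.pow 2).const_mul _).continuousOn.integrableOn_compact isCompact_Icc
      have j3 : IntegrableOn (fun s => 1 / 2 * (deriv φ s) ^ 2) I volume :=
        ((cφ'.pow 2).const_mul _).continuousOn.integrableOn_compact isCompact_Icc
      have e4 : ∫ s in I, (g (gam R f s) - Q (gam R f s)) * deriv φ s
          ≤ ∫ s in I, (1 / 2 * (g (gam R f s) - Q (gam R f s)) ^ 2
            + 1 / 2 * (deriv φ s) ^ 2) := by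
        have j4 : IntegrableOn (fun s => 1 / 2 * (g (gam R f s) - Q (gam R f s)) ^ 2
            + 1 / 2 * (deriv φ s) ^ 2) I volume := j2.add j3
        apply integral_mono j1 j4
        intro s
        simp only
        nlinarith [sq_nonneg ((g (gam R f s) - Q (gam R f s)) - deriv φ s)]
      rw [integral_add j2 j3, integral_const_mul, integral_const_mul] at e4
      have e5 : ∫ s in I, (g (gam R f s) - Q (gam R f s)) ^ 2
          ≤ ∫ y in frontier Ω, (g y - Q y) ^ 2 ∂(μH[1] : Measure V) :=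
        integral_arc_le (R := R) hf (fun s hs' => gam_frontier hΩ hf h hr hs')
          (h := fun y => (g y - Q y) ^ 2) (fun y => sq_nonneg _)
          (integrable_frontier hΩ hb hc ((cg.sub cQ).pow 2))
      have e6 : ∫ s in I, (deriv φ s) ^ 2 ≤ a := by
        apply setIntegral_le_integral
        · apply Continuous.integrable_of_hasCompactSupport (cφ'.pow 2)
          apply HasCompactSupport.intro sφ'.isCompact
          intro s hs
          rw [Pi.pow_apply, image_eq_zero_of_notMem_tsupport hs]; simp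
        · exact Filter.Eventually.of_forall (fun s => sq_nonneg _)
      linarith
    have h8 := h7.trans ((le_abs_self _).trans h6)
    -- algebra
    have h9 : 1 / (2 * lam) * (|σ| * (2 * ((K + 1) * a) + 2 * ε ^ 2)) ≤ a / 4 + ε ^ 2 / 4 := by
      have e1 : |σ| ≤ τ := by rw [hτ]; linarith
      have e2 : 0 ≤ 2 * ((K + 1) * a) + 2 * ε ^ 2 := by positivity
      have e3 : |σ| * (2 * ((K + 1) * a) + 2 * ε ^ 2)
          ≤ τ * (2 * ((K + 1) * a) + 2 * ε ^ 2) := mul_le_mul_of_nonneg_right e1 e2
      have e4 : 1 / (2 * lam) * (τ * (2 * ((K + 1) * a) + 2 * ε ^ 2))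
          = a / 4 + ε ^ 2 / 4 / (K + 1) := by
        rw [hlam]
        have : (K : ℝ) + 1 ≠ 0 := by positivity
        have : τ ≠ 0 := by positivity
        field_simp
      have e5 : ε ^ 2 / 4 / (K + 1) ≤ ε ^ 2 / 4 := by
        apply div_le_self (by positivity)
        linarith
      have e6 : 0 ≤ 1 / (2 * lam) := by positivity
      have := mul_le_mul_of_nonneg_left e3 e6
      linarith
    have h10 : lam / 2 * D = 2 * (|σ| + 1) * (K + 1) * D := by
      rw [hlam, hτ]; ring
    rw [h10] at h8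
    nlinarith [sq_nonneg ε]
  have hlim : a / 4 ≤ 2 * (|σ| + 1) * (K + 1) * D := by
    have h1 : Tendsto (fun ε : ℝ => ε ^ 2 + 2 * (|σ| + 1) * (K + 1) * D) (𝓝[>] 0)
        (𝓝 (0 ^ 2 + 2 * (|σ| + 1) * (K + 1) * D)) :=
      Tendsto.mono_left (Continuous.tendsto (by fun_prop) 0) nhdsWithin_le_nhds
    have h2 : (0 : ℝ) ^ 2 + 2 * (|σ| + 1) * (K + 1) * D = 2 * (|σ| + 1) * (K + 1) * D := by
      ring
    rw [h2] at h1
    apply ge_of_tendsto h1
    filter_upwards [self_mem_nhdsWithin] with ε hε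
    exact key ε hε
  linarith

end Pool.Agent.Helper474
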