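import Mathlib
import Pool.Agent.Helper474.AnaP

set_option autoImplicit false

namespace Pool.Agent.Helper474

open Filter Topology MeasureTheory MeasureTheory.Measure Polynomial

theorem scale_int (h : ℝ → ℝ) (s₀ : ℝ) {ℓ : ℝ} (hℓ : 0 < ℓ) :
    ∫ s, h ((s - s₀) / ℓ) = ℓ * ∫ s, h s := by
  have h1 := integral_sub_right_eq_self (μ := (volume : Measure ℝ)) (fun s => h (s / ℓ)) s₀
  rw [h1, Measure.integral_comp_div, abs_of_pos hℓ, smul_eq_mul]

theorem deriv_scale {h : ℝ → ℝ} (hh : ContDiff ℝ 1 h) (s₀ ℓ s : ℝ) :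
    deriv (fun s => h ((s - s₀) / ℓ)) s = deriv h ((s - s₀) / ℓ) / ℓ := by
  have h1 : HasDerivAt h (deriv h ((s - s₀) / ℓ)) ((s - s₀) / ℓ) :=
    (hh.differentiable one_ne_zero _).hasDerivAt
  have h2 : HasDerivAt (fun s : ℝ => (s - s₀) / ℓ) (1 / ℓ) s := by
    have := ((hasDerivAt_id s).sub_const s₀).div_const ℓ
    simpa using this
  have h3 := h1.comp s h2
  have h4 : h ∘ (fun s : ℝ => (s - s₀) / ℓ) = fun s => h ((s - s₀) / ℓ) := rfl
  rw [h4] at h3
  rw [h3.deriv]; ring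

noncomputable def phi0 : ContDiffBump (0 : ℝ) where
  rIn := 1 / 2
  rOut := 1
  rIn_pos := by norm_num
  rIn_lt_rOut := by norm_num

theorem norm_grad_tf (R : V ≃ₗᵢ[ℝ] V) {φ χ : ℝ → ℝ} (hφ : ContDiff ℝ 1 φ)
    (hχ : ContDiff ℝ 1 χ) (y : V) :
    ‖gradient (tf R φ χ) y‖ ^ 2 = (deriv φ (R y 0)) ^ 2 * (χ (R y 1)) ^ 2
      + (φ (R y 0)) ^ 2 * (deriv χ (R y 1)) ^ 2 := by
  rw [← real_inner_self_eq_norm_sq, inner_grad R, tf_hasFDerivAt R hφ hχ,
    tf_hasFDerivAt R hφ hχ]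
  simp only [ea, eb, LinearIsometryEquiv.apply_symm_apply]
  simp
  ring

theorem grad_tf_int {Ω : Set V} (hΩ : IsOpen Ω) (R : V ≃ₗᵢ[ℝ] V) {φ χ : ℝ → ℝ}
    (hφ : ContDiff ℝ 1 φ) (hφc : HasCompactSupport φ)
    (hχ : ContDiff ℝ 1 χ) (hχc : HasCompactSupport χ) :
    ∫ y in Ω, ‖gradient (tf R φ χ) y‖ ^ 2
      ≤ (∫ s, (deriv φ s) ^ 2) * (∫ t, (χ t) ^ 2) + (∫ s, (φ s) ^ 2) * (∫ t, (deriv χ t) ^ 2) := by
  have cφ' : Continuous (deriv φ) := hφ.continuous_deriv le_rfl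
  have cχ' : Continuous (deriv χ) := hχ.continuous_deriv le_rfl
  have ii : ∀ h : ℝ → ℝ, Continuous h → HasCompactSupport h → Integrable (fun s => (h s) ^ 2) := by
    intro h hc hs
    apply Continuous.integrable_of_hasCompactSupport (hc.pow 2)
    apply HasCompactSupport.intro hs.isCompact
    intro s hs
    rw [Pi.pow_apply, image_eq_zero_of_notMem_tsupport hs]; simp
  have i1 := ii _ cφ' hφc.deriv
  have i2 := ii _ hχ.continuous hχc
  have i3 := ii _ hφ.continuous hφc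
  have i4 := ii _ cχ' hχc.deriv
  have j1 : Integrable (fun p : ℝ × ℝ => (deriv φ p.1) ^ 2 * (χ p.2) ^ 2)
      ((volume : Measure ℝ).prod volume) := i1.mul_prod i2
  have j2 : Integrable (fun p : ℝ × ℝ => (φ p.1) ^ 2 * (deriv χ p.2) ^ 2)
      ((volume : Measure ℝ).prod volume) := i3.mul_prod i4
  have e1 : (∫ s, (deriv φ s) ^ 2) * (∫ t, (χ t) ^ 2)
      + (∫ s, (φ s) ^ 2) * (∫ t, (deriv χ t) ^ 2)
      = ∫ p : ℝ × ℝ, ((deriv φ p.1) ^ 2 * (χ p.2) ^ 2 + (φ p.1) ^ 2 * (deriv χ p.2) ^ 2) := by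
    rw [Measure.volume_eq_prod, integral_add j1 j2,
      integral_prod_mul (fun s => (deriv φ s) ^ 2) (fun t => (χ t) ^ 2),
      integral_prod_mul (fun s => (φ s) ^ 2) (fun t => (deriv χ t) ^ 2)]
  have e2 : ∫ y : V, ‖gradient (tf R φ χ) y‖ ^ 2
      = ∫ p : ℝ × ℝ, ((deriv φ p.1) ^ 2 * (χ p.2) ^ 2 + (φ p.1) ^ 2 * (deriv χ p.2) ^ 2) := by
    rw [← (measurePreserving_pt R).integral_comp (pt_measurableEmbedding R)]
    apply integral_congr_ae
    apply Filter.Eventually.of_forall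
    intro p
    simp only
    rw [norm_grad_tf R hφ hχ, R_pt_zero, R_pt_one]
  rw [e1, ← e2]
  apply setIntegral_le_integral
  · apply Continuous.integrable_of_hasCompactSupport
    · exact (gradient_continuous (tf_contDiff R hφ hχ)).norm.pow 2
    · have hc := tf_compact R hφc hχc
      apply HasCompactSupport.intro hc.isCompact
      intro y hy
      have h5 : fderiv ℝ (tf R φ χ) y = 0 := by
        by_contra h6
        exact hy (support_fderiv_subset ℝ h6)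
      rw [gradient, h5]; simp
  · exact Filter.Eventually.of_forall (fun y => by positivity)

theorem not_single_sigma {Ω : Set V} (hΩ : IsOpen Ω) (hb : Bornology.IsBounded Ω)
    (hne : Ω.Nonempty) (hc : Charts Ω) {σ : ℝ}
    {𝓕 : Set (ℂ[X] × ℝ)} (hW : ∀ e ∈ 𝓕, Weak Ω e.1 σ)
    (hdens : ∀ g : V → ℝ, MemLp g 2 ((μH[1] : Measure V).restrict (frontier Ω)) →
      ∀ ε : ℝ, 0 < ε → ∃ e ∈ 𝓕, eLpNorm (fun y => g y - (uF e.1 y + e.2)) 2
        ((μH[1] : Measure V).restrict (frontier Ω)) < ENNReal.ofReal ε) : False := by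
  obtain ⟨x, hx⟩ := frontier_nonempty hb hne
  obtain ⟨R, r, f, K, hr, hf, hch, hxg⟩ := hc.exists hΩ hx
  set s₀ := R x 0 with hs₀
  obtain ⟨ℓ₀, hℓ₀, hℓr⟩ : ∃ ℓ : ℝ, 0 < ℓ ∧ (K + 3) * ℓ < r := by
    refine ⟨r / (2 * (K + 3)), by positivity, ?_⟩
    have : (0 : ℝ) < K + 3 := by positivity
    field_simp
    linarith
  rw [hxg] at hch
  have hφ0 : ContDiff ℝ 1 phi0 := phi0.contDiff
  have hχ0 : ContDiff ℝ 1 (chi0 K) := (chi0 K).contDiff
  set A₁ := ∫ s, (deriv phi0 s) ^ 2 with hA₁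
  set A₂ := ∫ s, (chi0 K s) ^ 2 with hA₂
  set B₁ := ∫ s, (phi0 s) ^ 2 with hB₁
  set B₂ := ∫ s, (deriv (chi0 K) s) ^ 2 with hB₂
  have hA₁pos : 0 < A₁ := by
    have h0 : 0 ≤ A₁ := integral_nonneg (fun s => sq_nonneg _)
    refine lt_of_le_of_ne h0 (fun h1 => ?_)
    have cd : Continuous (deriv phi0) := hφ0.continuous_deriv le_rfl
    have hi : Integrable (fun s => (deriv phi0 s) ^ 2) := by
      apply Continuous.integrable_of_hasCompactSupport (cd.pow 2)
      apply HasCompactSupport.intro phi0.hasCompactSupport.deriv.isCompact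
      intro s hs
      rw [Pi.pow_apply, image_eq_zero_of_notMem_tsupport hs]; simp
    rw [eq_comm, hA₁, integral_eq_zero_iff_of_nonneg (fun s => sq_nonneg _) hi] at h1
    have h2 := Continuous.ae_eq_iff_eq (volume : Measure ℝ) (cd.pow 2) continuous_const |>.1 h1
    have h3 : ∀ s, deriv phi0 s = 0 := by
      intro s
      have := congrFun h2 s
      simp only [Pi.pow_apply] at this
      exact pow_eq_zero_iff two_ne_zero |>.1 this
    have h4 := is_const_of_deriv_eq_zero (hφ0.differentiable one_ne_zero) h3 0 2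
    have h5 : phi0 0 = 1 := by
      apply phi0.one_of_mem_closedBall
      simp [phi0]
    have h6 : phi0 2 = 0 := by
      apply phi0.zero_of_le_dist
      simp [phi0]
    rw [h5, h6] at h4
    exact one_ne_zero h4
  set D₀ := A₁ * A₂ + B₁ * B₂ with hD₀
  set Cst := 8 * (|σ| + 1) * (K + 1) * D₀ with hCst
  have key : ∀ ℓ : ℝ, 0 < ℓ → ℓ ≤ ℓ₀ → A₁ ≤ ℓ * Cst := by
    intro ℓ hℓ hℓℓ
    have hr' : (K + 3) * ℓ < r := by
      refine lt_of_le_of_lt ?_ hℓr
      apply mul_le_mul_of_nonneg_left hℓℓ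
      have : (0 : ℝ) ≤ K := K.2
      linarith
    set φ : ℝ → ℝ := fun s => phi0 ((s - s₀) / ℓ) with hφ
    have c2 : ContDiff ℝ 2 φ := by
      have : ContDiff ℝ 2 phi0 := phi0.contDiff
      exact this.comp ((contDiff_id.sub contDiff_const).div_const ℓ)
    have c1 : ContDiff ℝ 1 φ := c2.of_le (by norm_num)
    have hts : tsupport φ ⊆ Set.Icc (s₀ - ℓ) (s₀ + ℓ) := by
      apply closure_minimal _ isClosed_Icc
      intro s hs
      by_contra hns
      apply hs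
      apply phi0.zero_of_le_dist
      rw [Real.dist_eq, sub_zero, abs_div, abs_of_pos hℓ, le_div_iff₀ hℓ]
      have e1 : phi0.rOut = 1 := rfl
      rw [e1, one_mul]
      rw [Set.mem_Icc, not_and_or, not_le, not_le] at hns
      rcases hns with h | h
      · rw [abs_of_neg (by linarith)]; linarith
      · rw [abs_of_pos (by linarith)]; linarith
    have A := adm_of (R := R) hf hℓ hr' c1 hts
    have h1 := est hΩ hb hc hf hch hℓ hr' c2 hts hW hdens
    have h2 := grad_tf_int hΩ R A.cφ A.sφ A.cχ A.sχ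
    have e1 : ∫ s, (deriv φ s) ^ 2 = A₁ / ℓ := by
      have : ∀ s, (deriv φ s) ^ 2 = (fun u => (deriv phi0 u) ^ 2 / ℓ ^ 2) ((s - s₀) / ℓ) := by
        intro s
        rw [hφ, deriv_scale hφ0]
        simp only
        rw [div_pow]
      simp only [this]
      rw [scale_int (fun u => (deriv phi0 u) ^ 2 / ℓ ^ 2) s₀ hℓ, integral_div, hA₁]
      field_simp
    have e2 : ∫ t, (chiL K (f s₀) ℓ t) ^ 2 = ℓ * A₂ := by
      have := scale_int (fun u => (chi0 K u) ^ 2) (f s₀) hℓ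
      exact this
    have e3 : ∫ s, (φ s) ^ 2 = ℓ * B₁ := scale_int (fun u => (phi0 u) ^ 2) s₀ hℓ
    have e4 : ∫ t, (deriv (chiL K (f s₀) ℓ) t) ^ 2 = B₂ / ℓ := by
      have : ∀ s, (deriv (chiL K (f s₀) ℓ) s) ^ 2
          = (fun u => (deriv (chi0 K) u) ^ 2 / ℓ ^ 2) ((s - f s₀) / ℓ) := by
        intro s
        have e5 : chiL K (f s₀) ℓ = fun t => chi0 K ((t - f s₀) / ℓ) := rfl
        rw [e5, deriv_scale hχ0]
        simp only
        rw [div_pow]
      simp only [this]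
      rw [scale_int (fun u => (deriv (chi0 K) u) ^ 2 / ℓ ^ 2) (f s₀) hℓ, integral_div, hB₂]
      field_simp
    rw [e1, e2, e3, e4] at h2
    rw [e1] at h1
    have h3 : A₁ / ℓ * (ℓ * A₂) + ℓ * B₁ * (B₂ / ℓ) = D₀ := by
      rw [hD₀]; field_simp
    rw [h3] at h2
    have h4 : A₁ / ℓ ≤ Cst := by
      refine h1.trans ?_
      rw [hCst]
      apply mul_le_mul_of_nonneg_left h2
      positivity
    rw [div_le_iff₀ hℓ] at h4
    linarith
  have hlim : A₁ ≤ 0 := by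
    have h1 : Tendsto (fun ℓ : ℝ => ℓ * Cst) (𝓝[>] 0) (𝓝 (0 * Cst)) :=
      Tendsto.mono_left (Continuous.tendsto (by fun_prop) 0) nhdsWithin_le_nhds
    rw [zero_mul] at h1
    apply ge_of_tendsto h1
    have hsmall : ∀ᶠ ℓ : ℝ in 𝓝[>] 0, ℓ < ℓ₀ := nhdsWithin_le_nhds (Iio_mem_nhds hℓ₀)
    filter_upwards [self_mem_nhdsWithin, hsmall] with ℓ hℓ hℓ'
    exact key ℓ hℓ hℓ'.le
  linarith

end Pool.Agent.Helper474
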