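import Mathlib
import Pool.Agent.Helper474.AnaQ

set_option autoImplicit false

namespace Pool.Agent.Helper474

open Filter Topology MeasureTheory MeasureTheory.Measure Polynomial

/-- the eigenpairs with nonconstant polynomial. -/
def EE (Ω : Set V) : Set (ℂ[X] × ℝ) := {e | 0 < e.1.natDegree ∧ Weak Ω e.1 e.2}

theorem span_degree {Ω : Set V} (hΩ : IsOpen Ω) (hne : Ω.Nonempty) {n : ℕ}
    (hn : ∀ e ∈ EE Ω, e.1.natDegree ≤ n) (Q : MvPolynomial (Fin 2) ℝ)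
    (hQ : Q ∈ Submodule.span ℝ {P : MvPolynomial (Fin 2) ℝ | ∃ σ : ℝ, WeakP Ω P σ}) :
    ∃ F : ℂ[X], F.natDegree ≤ n ∧ ∀ y : V, MvPolynomial.eval (fun i => y i) Q = uF F y := by
  induction hQ using Submodule.span_induction with
  | mem P hP =>
    obtain ⟨σ, hσ⟩ := hP
    obtain ⟨F, hF, hW⟩ := weakP_weak hΩ hne hσ
    refine ⟨F, ?_, hF⟩
    rcases Nat.eq_zero_or_pos F.natDegree with h | h
    · omega
    · exact hn (F, σ) ⟨h, hW⟩
  | zero => exact ⟨0, by simp, fun y => by simp [uF]⟩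
  | add P Q _ _ hP hQ =>
    obtain ⟨F, hF, hF'⟩ := hP
    obtain ⟨G, hG, hG'⟩ := hQ
    refine ⟨F + G, (natDegree_add_le _ _).trans (max_le hF hG), fun y => ?_⟩
    rw [map_add, hF', hG', uF_add]
  | smul r P _ hP =>
    obtain ⟨F, hF, hF'⟩ := hP
    refine ⟨C (r : ℂ) * F, (natDegree_C_mul_le _ _).trans hF, fun y => ?_⟩
    rw [MvPolynomial.smul_eval, hF', uF_smul]

theorem span_sigma {Ω : Set V} (hΩ : IsOpen Ω) (hb : Bornology.IsBounded Ω)
    (hne : Ω.Nonempty) (hc : Charts Ω) {σ : ℝ}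
    (hn : ∀ e ∈ EE Ω, e.2 = σ) (Q : MvPolynomial (Fin 2) ℝ)
    (hQ : Q ∈ Submodule.span ℝ {P : MvPolynomial (Fin 2) ℝ | ∃ σ : ℝ, WeakP Ω P σ}) :
    ∃ (F : ℂ[X]) (c : ℝ), Weak Ω F σ ∧
      ∀ y : V, MvPolynomial.eval (fun i => y i) Q = uF F y + c := by
  induction hQ using Submodule.span_induction with
  | mem P hP =>
    obtain ⟨τ, hτ⟩ := hP
    obtain ⟨F, hF, hW⟩ := weakP_weak hΩ hne hτ
    rcases Nat.eq_zero_or_pos F.natDegree with h | h
    · refine ⟨0, (F.coeff 0).re, Weak.zero Ω σ, fun y => ?_⟩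
      rw [hF, eq_C_of_natDegree_eq_zero h, uF_C]
      simp [uF]
    · have : τ = σ := hn (F, τ) ⟨h, hW⟩
      exact ⟨F, 0, by rw [← this]; exact hW, fun y => by rw [hF, add_zero]⟩
  | zero => exact ⟨0, 0, Weak.zero Ω σ, fun y => by simp [uF]⟩
  | add P Q _ _ hP hQ =>
    obtain ⟨F, c, hF, hF'⟩ := hP
    obtain ⟨G, d, hG, hG'⟩ := hQ
    refine ⟨F + G, c + d, hF.add hΩ hb hc hG, fun y => ?_⟩
    rw [map_add, hF', hG', uF_add]; ring
  | smul r P _ hP =>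
    obtain ⟨F, c, hF, hF'⟩ := hP
    refine ⟨C (r : ℂ) * F, r * c, hF.smul r, fun y => ?_⟩
    rw [MvPolynomial.smul_eval, hF', uF_smul]; ring

theorem steklov_main (Ω : Set V) (hΩ : IsOpen Ω) (hconn : IsConnected Ω)
    (hb : Bornology.IsBounded Ω) (hc : Charts Ω)
    (hdens : ∀ g : V → ℝ, MemLp g 2 ((μH[1] : Measure V).restrict (frontier Ω)) →
      ∀ ε : ℝ, 0 < ε → ∃ Q ∈ Submodule.span ℝ
          {P : MvPolynomial (Fin 2) ℝ | ∃ σ : ℝ, WeakP Ω P σ},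
        eLpNorm (fun y : V => g y - MvPolynomial.eval (fun i => y i) Q) 2
          ((μH[1] : Measure V).restrict (frontier Ω)) < ENNReal.ofReal ε) :
    ∃ c : V, ∃ r : ℝ, Ω = Metric.ball c r := by
  have hne : Ω.Nonempty := hconn.nonempty
  have hunb : ∀ n : ℕ, ∃ p ∈ EE Ω, n < p.1.natDegree := by
    intro n
    by_contra hcon
    push Not at hcon
    apply not_bounded_degree hΩ hb hne hc n {F : ℂ[X] | F.natDegree ≤ n} (fun F hF => hF)
    intro g hg ε hε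
    obtain ⟨Q, hQ, hlt⟩ := hdens g hg ε hε
    obtain ⟨F, hF, hF'⟩ := span_degree hΩ hne hcon Q hQ
    refine ⟨F, hF, ?_⟩
    simp only [hF'] at hlt
    exact hlt
  have hE : Fam (EE Ω) := by
    refine ⟨fun p hp => hp.1, fun p hp => sigma_ne hΩ hb hne hp.2 hp.1, hunb⟩
  have hσ2 : ∃ p ∈ EE Ω, ∃ q ∈ EE Ω, p.2 ≠ q.2 := by
    by_contra hcon
    push Not at hcon
    obtain ⟨e₀, he₀, _⟩ := hunb 0
    apply not_single_sigma hΩ hb hne hc (σ := e₀.2)
      (𝓕 := {e : ℂ[X] × ℝ | Weak Ω e.1 e₀.2}) (fun e he => he)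
    intro g hg ε hε
    obtain ⟨Q, hQ, hlt⟩ := hdens g hg ε hε
    obtain ⟨F, c, hF, hF'⟩ := span_sigma hΩ hb hne hc
      (fun e he => hcon e he e₀ he₀) Q hQ
    refine ⟨(F, c), hF, ?_⟩
    simp only [hF'] at hlt
    exact hlt
  have hNI := noIso_frontier hΩ hc
  have hSne : (toC '' frontier Ω).Nonempty := (frontier_nonempty hb hne).image _
  have hpt : ∀ z ∈ toC '' frontier Ω, PtProp (toC '' frontier Ω) (EE Ω) z := by
    rintro _ ⟨x, hx, rfl⟩
    obtain ⟨R, r, f, K, hr, hf, hch, hxg⟩ := hc.exists hΩ hx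
    have h1 := hch
    rw [hxg] at h1
    have h2 := pt_prop_chart hΩ hr hf (s₀ := R x 0) h1 (E := EE Ω) (fun e he => he.2)
    rw [← hxg] at h2
    exact h2
  rcases alg_final hE hσ2 hNI hSne hpt with ⟨z0, R, hR, hcirc⟩ | ⟨P, hP, hV, v, hv, hlin⟩
  · refine ⟨toC.symm z0, R, circle_ball hΩ hb hne hR ?_⟩
    intro x hx
    have h1 := hcirc _ ⟨x, hx, rfl⟩
    rw [← toC.dist_map, LinearIsometryEquiv.apply_symm_apply, dist_eq_norm]
    exact h1
  · exact (affine_false hΩ hb hne hP hV hv hlin).elim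

end Pool.Agent.Helper474
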