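import Mathlib

/-!
Turan's pure power sum problem: exponential sequences `ee a` defined by
`(n+1) ee_{n+1} = sum_{k=1}^{n+1} a_k ee_{n+1-k}`, multiplicativity, scaling, norms.
-/

set_option autoImplicit false

namespace Pool.Agent.Helper474.Tur

open Finset

/-- The coefficients of `exp (sum_{k >= 1} a_k x^k / k)`. -/
noncomputable def ee {F : Type*} [Field F] (a : ℕ → F) : ℕ → F
  | 0 => 1
  | n + 1 => (∑ i : Fin (n + 1), a (i + 1) * ee a (n - i)) / (n + 1)
decreasing_by omega

section generic

variable {F : Type*} [Field F]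

@[simp] lemma ee_zero (a : ℕ → F) : ee a 0 = 1 := by
  rw [ee]

lemma ee_succ' (a : ℕ → F) (n : ℕ) :
    ee a (n + 1) = (∑ i ∈ range (n + 1), a (i + 1) * ee a (n - i)) / (n + 1) := by
  rw [ee, Finset.sum_range (fun i => a (i + 1) * ee a (n - i))]

variable [CharZero F]

lemma ee_succ (a : ℕ → F) (n : ℕ) :
    ((n : F) + 1) * ee a (n + 1) = ∑ i ∈ range (n + 1), a (i + 1) * ee a (n - i) := by
  have h : (n : F) + 1 ≠ 0 := by exact_mod_cast Nat.succ_ne_zero n
  rw [ee_succ']
  field_simp

/-- power series of `ee a` -/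
noncomputable def Eps (a : ℕ → F) : PowerSeries F := PowerSeries.mk (ee a)

/-- power series of the log derivative -/
noncomputable def Aps (a : ℕ → F) : PowerSeries F := PowerSeries.mk (fun i => a (i + 1))

lemma coeff_Aps_mul (a : ℕ → F) (G : PowerSeries F) (n : ℕ) :
    PowerSeries.coeff n (Aps a * G) = ∑ i ∈ range (n + 1), a (i + 1) * PowerSeries.coeff (n - i) G := by
  rw [PowerSeries.coeff_mul]
  have := Finset.Nat.sum_antidiagonal_eq_sum_range_succ
    (fun i j => PowerSeries.coeff i (Aps a) * PowerSeries.coeff j G) n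
  rw [this]
  refine Finset.sum_congr rfl fun i _ => ?_
  rw [Aps, PowerSeries.coeff_mk]

lemma Eps_deriv (a : ℕ → F) : PowerSeries.derivative F (Eps a) = Aps a * Eps a := by
  ext n
  rw [PowerSeries.coeff_derivative, coeff_Aps_mul, Eps, PowerSeries.coeff_mk, mul_comm, ee_succ]
  refine Finset.sum_congr rfl fun i _ => ?_
  rw [PowerSeries.coeff_mk]

/-- uniqueness, in terms of coefficients -/
lemma ee_unique (a : ℕ → F) (g : ℕ → F) (h0 : g 0 = 1)
    (h : ∀ n : ℕ, ((n : F) + 1) * g (n + 1) = ∑ i ∈ range (n + 1), a (i + 1) * g (n - i)) :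
    ∀ n, g n = ee a n := by
  intro n
  induction n using Nat.strong_induction_on with
  | _ n ih =>
    cases n with
    | zero => rw [h0, ee_zero]
    | succ n =>
      have hne : (n : F) + 1 ≠ 0 := by exact_mod_cast Nat.succ_ne_zero n
      apply mul_left_cancel₀ hne
      rw [h, ee_succ]
      refine Finset.sum_congr rfl fun i hi => ?_
      rw [ih (n - i) (by omega)]

lemma ps_unique (a : ℕ → F) (G : PowerSeries F) (h0 : PowerSeries.coeff 0 G = 1)
    (h : PowerSeries.derivative F G = Aps a * G) : G = Eps a := by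
  ext n
  rw [Eps, PowerSeries.coeff_mk]
  apply ee_unique a (fun n => PowerSeries.coeff n G) h0
  intro n
  have h1 := congrArg (PowerSeries.coeff n) h
  rw [PowerSeries.coeff_derivative, coeff_Aps_mul] at h1
  rw [mul_comm]
  exact h1

lemma Eps_add (a b : ℕ → F) : Eps (fun k => a k + b k) = Eps a * Eps b := by
  symm
  apply ps_unique
  · rw [PowerSeries.coeff_mul]
    simp [Eps]
  · rw [Derivation.leibniz, Eps_deriv, Eps_deriv]
    have : Aps (fun k => a k + b k) = Aps a + Aps b := by
      ext n
      simp [Aps]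
    rw [this]
    simp only [smul_eq_mul]
    ring

/-- multiplicativity -/
lemma ee_add (a b : ℕ → F) (n : ℕ) :
    ee (fun k => a k + b k) n = ∑ i ∈ range (n + 1), ee a i * ee b (n - i) := by
  have h := congrArg (PowerSeries.coeff n) (Eps_add a b)
  rw [PowerSeries.coeff_mul] at h
  have h2 := Finset.Nat.sum_antidiagonal_eq_sum_range_succ
    (fun i j => PowerSeries.coeff i (Eps a) * PowerSeries.coeff j (Eps b)) n
  rw [h2] at h
  simpa [Eps] using h

lemma ee_one (n : ℕ) : ee (fun _ => (1 : F)) n = 1 := by
  symm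
  apply ee_unique (fun _ => (1 : F)) (fun _ => (1 : F)) rfl
  intro n
  simp

lemma ee_const_zero (n : ℕ) : ee (fun _ => (0 : F)) n = if n = 0 then 1 else 0 := by
  symm
  apply ee_unique (fun _ => (0 : F)) (fun n => if n = 0 then 1 else 0) (by simp)
  intro n
  simp

/-- partial sums -/
lemma ee_one_add (a : ℕ → F) (n : ℕ) :
    ee (fun k => 1 + a k) n = ∑ i ∈ range (n + 1), ee a i := by
  have h := ee_add a (fun _ => (1 : F)) n
  have h2 : (fun k => a k + (fun _ => (1 : F)) k) = fun k => 1 + a k := by
    funext k; simp [add_comm]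
  rw [h2] at h
  rw [h]
  refine Finset.sum_congr rfl fun i _ => ?_
  rw [ee_one, mul_one]

lemma ee_congr {a b : ℕ → F} {n : ℕ} (h : ∀ k, 1 ≤ k → k ≤ n → a k = b k) :
    ee a n = ee b n := by
  induction n using Nat.strong_induction_on with
  | _ n ih =>
    cases n with
    | zero => rw [ee_zero, ee_zero]
    | succ n =>
      rw [ee_succ', ee_succ']
      congr 1
      refine Finset.sum_congr rfl fun i hi => ?_
      rw [Finset.mem_range] at hi
      rw [h (i + 1) (by omega) (by omega), ih (n - i) (by omega)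
        (fun k h1 h2 => h k h1 (by omega))]

/-- scaling -/
lemma ee_scale (a : ℕ → F) (r : F) (n : ℕ) :
    ee (fun k => a k * r ^ k) n = r ^ n * ee a n := by
  symm
  apply ee_unique (fun k => a k * r ^ k) (fun n => r ^ n * ee a n) (by simp)
  intro n
  have h := ee_succ a n
  calc ((n : F) + 1) * (r ^ (n + 1) * ee a (n + 1))
      = r ^ (n + 1) * (((n : F) + 1) * ee a (n + 1)) := by ring
    _ = r ^ (n + 1) * ∑ i ∈ range (n + 1), a (i + 1) * ee a (n - i) := by rw [h]
    _ = ∑ i ∈ range (n + 1), a (i + 1) * r ^ (i + 1) * (r ^ (n - i) * ee a (n - i)) := by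
        rw [Finset.mul_sum]
        refine Finset.sum_congr rfl fun i hi => ?_
        rw [Finset.mem_range] at hi
        have : r ^ (n + 1) = r ^ (i + 1) * r ^ (n - i) := by
          rw [← pow_add]; congr 1; omega
        rw [this]; ring

/-- dilation by an integer factor -/
lemma ee_dil (a : ℕ → F) {r : ℕ} (hr : 1 ≤ r) (n : ℕ) :
    ee (fun k => if r ∣ k then (r : F) * a (k / r) else 0) n
      = if r ∣ n then ee a (n / r) else 0 := by
  symm
  apply ee_unique (fun k => if r ∣ k then (r : F) * a (k / r) else 0)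
    (fun n => if r ∣ n then ee a (n / r) else 0) (by simp)
  intro n
  have hrF : (r : F) ≠ 0 := by exact_mod_cast (by omega : r ≠ 0)
  by_cases hdvd : r ∣ n + 1
  · obtain ⟨q, hq⟩ := hdvd
    obtain ⟨p, rfl⟩ : ∃ p, q = p + 1 := ⟨q - 1, by
      rcases q with _ | q
      · simp at hq
      · rfl⟩
    have h1 : (if r ∣ n + 1 then ee a ((n + 1) / r) else 0) = ee a (p + 1) := by
      rw [if_pos ⟨p + 1, hq⟩, hq, Nat.mul_div_cancel_left _ (by omega)]
    have h0 : ((n : F) + 1) = (r : F) * ((p : F) + 1) := by
      have : ((n + 1 : ℕ) : F) = ((r * (p + 1) : ℕ) : F) := by rw [hq]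
      push_cast at this
      exact this
    rw [h1, h0, mul_assoc, ee_succ, Finset.mul_sum]
    -- sum over i in range (n+1), nonzero only when i+1 = r*(l+1)
    symm
    have h2 : ∑ i ∈ range (n + 1), (if r ∣ i + 1 then (r : F) * a ((i + 1) / r) else 0) *
        (if r ∣ n - i then ee a ((n - i) / r) else 0)
        = ∑ i ∈ (range (p + 1)).image (fun l => r * (l + 1) - 1),
          (if r ∣ i + 1 then (r : F) * a ((i + 1) / r) else 0) *
          (if r ∣ n - i then ee a ((n - i) / r) else 0) := by
      symm
      apply Finset.sum_subset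
      · intro i hi
        rw [Finset.mem_image] at hi
        obtain ⟨l, hl, rfl⟩ := hi
        rw [Finset.mem_range] at hl ⊢
        have : r * (l + 1) ≤ r * (p + 1) := Nat.mul_le_mul_left r (by omega)
        have : 1 ≤ r * (l + 1) := Nat.mul_pos (by omega) (by omega)
        omega
      · intro i hi hni
        rw [Finset.mem_range] at hi
        have : ¬ r ∣ i + 1 := by
          rintro ⟨l, hl⟩
          apply hni
          rw [Finset.mem_image]
          rcases l with _ | l
          · simp at hl
          refine ⟨l, ?_, ?_⟩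
          · rw [Finset.mem_range]
            by_contra hcon
            have : r * (p + 1) < r * (l + 1) := Nat.mul_lt_mul_of_pos_left (by omega) (by omega)
            omega
          · omega
        rw [if_neg this, zero_mul]
    rw [h2, Finset.sum_image]
    · refine Finset.sum_congr rfl fun l hl => ?_
      rw [Finset.mem_range] at hl
      have h3 : 1 ≤ r * (l + 1) := Nat.mul_pos (by omega) (by omega)
      have h4 : r * (l + 1) - 1 + 1 = r * (l + 1) := by omega
      have h5 : n - (r * (l + 1) - 1) = r * (p - l) := by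
        have : r * (p + 1) = r * (l + 1) + r * (p - l) := by
          rw [← mul_add]; congr 1; omega
        omega
      rw [h4, h5, if_pos ⟨_, rfl⟩, if_pos ⟨_, rfl⟩, Nat.mul_div_cancel_left _ (by omega),
        Nat.mul_div_cancel_left _ (by omega)]
      ring
    · intro x _ y _ hxy
      simp only at hxy
      have h3 : 1 ≤ r * (x + 1) := Nat.mul_pos (by omega) (by omega)
      have h4 : 1 ≤ r * (y + 1) := Nat.mul_pos (by omega) (by omega)
      have h5 : r * (x + 1) = r * (y + 1) := by omega
      have := Nat.eq_of_mul_eq_mul_left (by omega) h5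
      omega
  · skip
    rw [if_neg hdvd, mul_zero]
    symm
    apply Finset.sum_eq_zero
    intro i hi
    rw [Finset.mem_range] at hi
    by_cases h1 : r ∣ i + 1
    · by_cases h2 : r ∣ n - i
      · exfalso
        apply hdvd
        have : n + 1 = (i + 1) + (n - i) := by omega
        rw [this]
        exact dvd_add h1 h2
      · rw [if_neg h2, mul_zero]
    · rw [if_neg h1, zero_mul]

end generic

lemma ee_ofReal (a : ℕ → ℝ) (n : ℕ) : ((ee a n : ℝ) : ℂ) = ee (fun k => (a k : ℂ)) n := by
  apply ee_unique (fun k => (a k : ℂ)) (fun n => ((ee a n : ℝ) : ℂ)) (by simp)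
  intro n
  have h := ee_succ a n
  have h2 := congrArg (fun x : ℝ => (x : ℂ)) h
  push_cast at h2
  exact h2

lemma ee_nonneg {a : ℕ → ℝ} (ha : ∀ k, 0 ≤ a k) (n : ℕ) : 0 ≤ ee a n := by
  induction n using Nat.strong_induction_on with
  | _ n ih =>
    cases n with
    | zero => rw [ee_zero]; norm_num
    | succ n =>
      rw [ee_succ']
      apply div_nonneg _ (by positivity)
      apply Finset.sum_nonneg
      intro i hi
      exact mul_nonneg (ha _) (ih _ (by omega))

lemma norm_ee_le {a : ℕ → ℂ} {b : ℕ → ℝ} (h : ∀ k, 1 ≤ k → ‖a k‖ ≤ b k) (hb : ∀ k, 0 ≤ b k)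
    (n : ℕ) : ‖ee a n‖ ≤ ee b n := by
  induction n using Nat.strong_induction_on with
  | _ n ih =>
    cases n with
    | zero => rw [ee_zero, ee_zero]; simp
    | succ n =>
      rw [ee_succ', ee_succ', norm_div]
      have h1 : ‖((n : ℂ) + 1)‖ = (n : ℝ) + 1 := by
        have : ((n : ℂ) + 1) = (((n : ℝ) + 1 : ℝ) : ℂ) := by push_cast; rfl
        rw [this, Complex.norm_real, Real.norm_eq_abs, abs_of_nonneg (by positivity)]
      rw [h1]
      gcongr
      refine (norm_sum_le _ _).trans (Finset.sum_le_sum fun i hi => ?_)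
      rw [norm_mul]
      exact mul_le_mul (h _ (by omega)) (ih _ (by omega)) (norm_nonneg _) (hb _)

/-- single support -/
lemma ee_single (k : ℕ) (hk : 1 ≤ k) (c : ℂ) (n : ℕ) :
    ee (fun j => if j = k then c else 0) n
      = if k ∣ n then (c / k) ^ (n / k) / (Nat.factorial (n / k) : ℂ) else 0 := by
  symm
  apply ee_unique (fun j => if j = k then c else 0)
    (fun n => if k ∣ n then (c / k) ^ (n / k) / (Nat.factorial (n / k) : ℂ) else 0) (by simp)
  intro n
  have hkC : (k : ℂ) ≠ 0 := by exact_mod_cast (by omega : k ≠ 0)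
  by_cases hn : k ≤ n + 1
  · have h1 : ∑ i ∈ range (n + 1), (if i + 1 = k then c else 0) *
        (if k ∣ n - i then (c / k) ^ ((n - i) / k) / (Nat.factorial ((n - i) / k) : ℂ) else 0)
        = c * (if k ∣ n - (k - 1) then
          (c / k) ^ ((n - (k - 1)) / k) / (Nat.factorial ((n - (k - 1)) / k) : ℂ) else 0) := by
      rw [Finset.sum_eq_single (k - 1)]
      · rw [if_pos (by omega)]
      · intro i _ hi
        rw [if_neg (by omega), zero_mul]
      · intro h
        rw [Finset.mem_range] at h
        omega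
    rw [h1]
    have h2 : n - (k - 1) = n + 1 - k := by omega
    rw [h2]
    by_cases hd : k ∣ n + 1
    · obtain ⟨q, hq⟩ := hd
      obtain ⟨p, rfl⟩ : ∃ p, q = p + 1 := ⟨q - 1, by
        rcases q with _ | q
        · simp at hq
        · rfl⟩
      have h3 : n + 1 - k = k * p := by
        rw [hq, mul_add, mul_one]; omega
      have h0 : ((n : ℂ) + 1) = (k : ℂ) * ((p : ℂ) + 1) := by
        have : ((n + 1 : ℕ) : ℂ) = ((k * (p + 1) : ℕ) : ℂ) := by rw [hq]
        push_cast at this
        exact this
      rw [if_pos ⟨p + 1, hq⟩, h3, if_pos ⟨p, rfl⟩, hq, Nat.mul_div_cancel_left _ (by omega),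
        Nat.mul_div_cancel_left _ (by omega), h0, Nat.factorial_succ, pow_succ]
      have hp : (p : ℂ) + 1 ≠ 0 := by exact_mod_cast Nat.succ_ne_zero p
      have hf : (Nat.factorial p : ℂ) ≠ 0 := by exact_mod_cast Nat.factorial_ne_zero p
      push_cast
      field_simp
    · have h4 : ¬ k ∣ n + 1 - k := by
        intro h
        apply hd
        have : n + 1 = (n + 1 - k) + k := by omega
        rw [this]
        exact dvd_add h (dvd_refl k)
      rw [if_neg hd, if_neg h4]
      ring
  · have h1 : ¬ k ∣ n + 1 := fun h => hn (Nat.le_of_dvd (by omega) h)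
    rw [if_neg h1, mul_zero]
    symm
    apply Finset.sum_eq_zero
    intro i hi
    rw [Finset.mem_range] at hi
    rw [if_neg (by omega), zero_mul]

/-- goodness predicate: absolutely summable with the right value -/
def Good (a : ℕ → ℂ) (v : ℂ) : Prop := Summable (fun i => ‖ee a i‖) ∧ ∑' i, ee a i = v

lemma Good.add {a b : ℕ → ℂ} {v w : ℂ} (ha : Good a v) (hb : Good b w) :
    Good (fun k => a k + b k) (v * w) := by
  have h1 : (fun n => ee (fun k => a k + b k) n)
      = fun n => ∑ i ∈ range (n + 1), ee a i * ee b (n - i) := by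
    funext n; exact ee_add a b n
  constructor
  · have := summable_norm_sum_mul_range_of_summable_norm ha.1 hb.1
    have h2 : (fun n => ‖ee (fun k => a k + b k) n‖)
      = fun n => ‖∑ i ∈ range (n + 1), ee a i * ee b (n - i)‖ := by
      funext n; rw [ee_add a b n]
    rw [h2]; exact this
  · rw [h1]
    rw [← tsum_mul_tsum_eq_tsum_sum_range_of_summable_norm ha.1 hb.1, ha.2, hb.2]

lemma Good.single (k : ℕ) (hk : 1 ≤ k) (c : ℂ) :
    Good (fun j => if j = k then c else 0) (Complex.exp (c / k)) := by
  have hinj : Function.Injective (fun j : ℕ => k * j) := fun x y h =>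
    Nat.eq_of_mul_eq_mul_left (by omega) h
  have hsupp : ∀ n, n ∉ Set.range (fun j : ℕ => k * j) →
      ee (fun j => if j = k then c else 0) n = 0 := by
    intro n hn
    rw [ee_single k hk, if_neg]
    rintro ⟨q, hq⟩
    exact hn ⟨q, hq.symm⟩
  have hval : ∀ j, ee (fun j => if j = k then c else 0) (k * j)
      = (c / k) ^ j / (Nat.factorial j : ℂ) := by
    intro j
    rw [ee_single k hk, if_pos ⟨j, rfl⟩, Nat.mul_div_cancel_left _ (by omega)]
  have hs : HasSum (fun j : ℕ => (c / k) ^ j / (Nat.factorial j : ℂ)) (Complex.exp (c / k)) := by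
    have := NormedSpace.expSeries_div_hasSum_exp (𝔸 := ℂ) (c / k)
    rw [← Complex.exp_eq_exp_ℂ] at this
    exact this
  have hs2 : HasSum (fun n => ee (fun j => if j = k then c else 0) n) (Complex.exp (c / k)) := by
    rw [← hinj.hasSum_iff hsupp]
    convert hs using 1
    funext j
    exact hval j
  refine ⟨?_, hs2.tsum_eq⟩
  exact hs2.summable.norm

lemma Good.congr {a b : ℕ → ℂ} {v : ℂ} (h : Good a v) (hab : ∀ k, 1 ≤ k → a k = b k) :
    Good b v := by
  have : ∀ n, ee a n = ee b n := fun n => ee_congr fun k hk _ => hab k hk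
  have h2 : ee a = ee b := funext this
  unfold Good at *
  rw [← h2]
  exact h

/-- The exponential formula for finitely supported sequences. -/
lemma good_of_support (a : ℕ → ℂ) : ∀ K : ℕ,
    Good (fun k => if k ≤ K then a k else 0)
      (Complex.exp (∑ k ∈ range K, a (k + 1) / ((k : ℂ) + 1)))
  | 0 => by
      have h : Good (fun _ => (0 : ℂ)) 1 := by
        constructor
        · apply summable_of_ne_finset_zero (s := {0})
          intro n hn
          rw [Finset.mem_singleton] at hn
          rw [ee_const_zero, if_neg hn, norm_zero]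
        · rw [tsum_eq_single 0]
          · simp
          · intro n hn
            rw [ee_const_zero, if_neg hn]
      simp only [Finset.range_zero, Finset.sum_empty, Complex.exp_zero]
      apply h.congr
      intro k hk
      rw [if_neg (by omega)]
  | K + 1 => by
      have ih := good_of_support a K
      have hs := Good.single (K + 1) (by omega) (a (K + 1))
      have h := ih.add hs
      rw [Finset.sum_range_succ, Complex.exp_add]
      push_cast at h
      apply h.congr
      intro k hk
      by_cases h1 : k ≤ K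
      · rw [if_pos h1, if_neg (by omega), if_pos (by omega), add_zero]
      · by_cases h2 : k = K + 1
        · rw [if_neg h1, if_pos h2, if_pos (by omega), h2, zero_add]
        · rw [if_neg h1, if_neg h2, if_neg (by omega), add_zero]

/-- l1 bound -/
lemma sum_norm_ee_le (a : ℕ → ℂ) (n : ℕ) :
    ∑ i ∈ range (n + 1), ‖ee a i‖
      ≤ Real.exp (∑ k ∈ range n, ‖a (k + 1)‖ / ((k : ℝ) + 1)) := by
  set b : ℕ → ℝ := fun k => ‖a k‖ with hb
  have h1 : ∀ i, ‖ee a i‖ ≤ ee b i := fun i =>
    norm_ee_le (fun k _ => le_refl _) (fun k => norm_nonneg _) i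
  set b' : ℕ → ℝ := fun k => if k ≤ n then b k else 0 with hb'
  have hb'0 : ∀ k, 0 ≤ b' k := by
    intro k
    rw [hb']
    simp only
    split_ifs
    · exact norm_nonneg _
    · exact le_refl _
  have h2 : ∀ i ≤ n, ee b i = ee b' i := by
    intro i hi
    apply ee_congr
    intro k _ hk
    rw [hb']
    simp only
    rw [if_pos (by omega)]
  have hg := good_of_support (fun k => (b k : ℂ)) n
  have h3 : (fun i => ee (fun k => if k ≤ n then (b k : ℂ) else 0) i)
      = fun i => ((ee b' i : ℝ) : ℂ) := by
    funext i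
    rw [ee_ofReal]
    congr 1
    funext k
    rw [hb']
    simp only
    split_ifs <;> simp
  have h4 : Summable (fun i => ee b' i) := by
    have := hg.1
    have h5 : (fun i => ‖ee (fun k => if k ≤ n then (b k : ℂ) else 0) i‖) = fun i => ee b' i := by
      funext i
      have := congrFun h3 i
      rw [this, Complex.norm_real, Real.norm_eq_abs, abs_of_nonneg (ee_nonneg hb'0 i)]
    rw [h5] at this
    exact this
  have h6 : ∑' i, ee b' i = Real.exp (∑ k ∈ range n, b (k + 1) / ((k : ℝ) + 1)) := by
    have h7 := hg.2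
    rw [h3] at h7
    rw [← Complex.ofReal_tsum] at h7
    have h8 : Complex.exp (∑ k ∈ range n, (b (k + 1) : ℂ) / ((k : ℂ) + 1))
        = ((Real.exp (∑ k ∈ range n, b (k + 1) / ((k : ℝ) + 1)) : ℝ) : ℂ) := by
      push_cast
      rfl
    rw [h8] at h7
    exact_mod_cast h7
  calc ∑ i ∈ range (n + 1), ‖ee a i‖ ≤ ∑ i ∈ range (n + 1), ee b' i := by
        refine Finset.sum_le_sum fun i hi => ?_
        rw [Finset.mem_range] at hi
        rw [← h2 i (by omega)]
        exact h1 i
    _ ≤ ∑' i, ee b' i := h4.sum_le_tsum _ fun i _ => ee_nonneg hb'0 i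
    _ = Real.exp (∑ k ∈ range n, ‖a (k + 1)‖ / ((k : ℝ) + 1)) := h6

end Pool.Agent.Helper474.Tur
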