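import Pool.Agent.Helper474.TurA

/-!
Basic estimates: the sequences `CC s`, `cc s`, the weights `en s`, growth, and the two
l1-lemmas.
-/

set_option autoImplicit false

namespace Pool.Agent.Helper474.Tur

open Finset

/-- partial sums of coefficients -/
noncomputable def CC (s : ℕ → ℂ) (n : ℕ) : ℂ := ee (fun k => 1 - s k) n

/-- coefficients of `exp(-sum s_k x^k/k)` -/
noncomputable def cc (s : ℕ → ℂ) (n : ℕ) : ℂ := ee (fun k => - s k) n

@[simp] lemma CC_zero (s : ℕ → ℂ) : CC s 0 = 1 := ee_zero _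

@[simp] lemma cc_zero (s : ℕ → ℂ) : cc s 0 = 1 := ee_zero _

lemma CC_eq_sum (s : ℕ → ℂ) (n : ℕ) : CC s n = ∑ i ∈ range (n + 1), cc s i := by
  have := ee_one_add (fun k => - s k) n
  unfold CC cc
  rw [← this]
  rfl

lemma CC_succ_sub (s : ℕ → ℂ) (n : ℕ) : CC s (n + 1) = CC s n + cc s (n + 1) := by
  rw [CC_eq_sum, CC_eq_sum, Finset.sum_range_succ _ (n + 1)]

lemma CC_add (x y : ℕ → ℂ) (n : ℕ) :
    CC (fun k => x k + y k) n = ∑ i ∈ range (n + 1), CC x i * cc y (n - i) := by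
  have := ee_add (fun k => 1 - x k) (fun k => - y k) n
  unfold CC cc
  rw [← this]
  congr 1
  funext k
  ring

lemma CC_congr {x y : ℕ → ℂ} {n : ℕ} (h : ∀ k, 1 ≤ k → k ≤ n → x k = y k) : CC x n = CC y n := by
  unfold CC
  exact ee_congr fun k h1 h2 => by rw [h k h1 h2]

lemma cc_congr {x y : ℕ → ℂ} {n : ℕ} (h : ∀ k, 1 ≤ k → k ≤ n → x k = y k) : cc x n = cc y n := by
  unfold cc
  exact ee_congr fun k h1 h2 => by rw [h k h1 h2]

/-- weights -/
noncomputable def en (s : ℕ → ℂ) (n : ℕ) : ℝ :=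
  Real.exp (- ∑ k ∈ range n, (s (k + 1)).re / ((k : ℝ) + 1))

lemma en_pos (s : ℕ → ℂ) (n : ℕ) : 0 < en s n := Real.exp_pos _

@[simp] lemma en_zero (s : ℕ → ℂ) : en s 0 = 1 := by simp [en]

lemma en_succ (s : ℕ → ℂ) (n : ℕ) :
    en s (n + 1) = en s n * Real.exp (- ((s (n + 1)).re / ((n : ℝ) + 1))) := by
  unfold en
  rw [← Real.exp_add, Finset.sum_range_succ]
  congr 1
  ring

/-- disc condition -/
def Disc (σ : ℝ) (s : ℕ → ℂ) : Prop := ∀ k, ‖s k‖ ≤ σ

lemma en_ratio {σ : ℝ} {s : ℕ → ℂ} (hs : Disc σ s) (n : ℕ) :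
    en s n * Real.exp (- (σ / ((n : ℝ) + 1))) ≤ en s (n + 1) ∧
    en s (n + 1) ≤ en s n * Real.exp (σ / ((n : ℝ) + 1)) := by
  have h1 := Complex.abs_re_le_norm (s (n + 1))
  have h2 := abs_le.1 (h1.trans (hs (n + 1)))
  have hn : (0 : ℝ) < (n : ℝ) + 1 := by positivity
  have h0 := en_pos s n
  rw [en_succ]
  constructor
  · have h3 : -(σ / ((n : ℝ) + 1)) ≤ - ((s (n + 1)).re / ((n : ℝ) + 1)) := by
      apply neg_le_neg
      gcongr
      exact h2.2
    have h4 := Real.exp_le_exp.2 h3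
    exact mul_le_mul_of_nonneg_left h4 h0.le
  · have h3 : - ((s (n + 1)).re / ((n : ℝ) + 1)) ≤ σ / ((n : ℝ) + 1) := by
      rw [← neg_div]
      gcongr
      linarith [h2.1]
    have h4 := Real.exp_le_exp.2 h3
    exact mul_le_mul_of_nonneg_left h4 h0.le

/-- sum of weights -/
lemma sum_en_le {σ : ℝ} (hσ : σ ≤ 3 / 4) {s : ℕ → ℂ} (hs : Disc σ s) (m : ℕ) :
    ∑ j ∈ range m, en s j ≤ 4 * m * en s m := by
  induction m with
  | zero => simp
  | succ m ih =>
    rw [Finset.sum_range_succ]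
    have h1 := (en_ratio hs m).1
    have h0 := en_pos s m
    have hm : (0 : ℝ) < (m : ℝ) + 1 := by positivity
    have h2 : 1 - σ / ((m : ℝ) + 1) ≤ Real.exp (- (σ / ((m : ℝ) + 1))) := by
      have := Real.add_one_le_exp (- (σ / ((m : ℝ) + 1)))
      linarith
    have h3 : en s m * (1 - σ / ((m : ℝ) + 1)) ≤ en s (m + 1) :=
      (mul_le_mul_of_nonneg_left h2 h0.le).trans h1
    have h4 : (4 * (m : ℝ) + 1) * en s m ≤ 4 * ((m : ℝ) + 1) * (en s m * (1 - σ / ((m : ℝ) + 1))) := by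
      have h5 : 4 * ((m : ℝ) + 1) * (en s m * (1 - σ / ((m : ℝ) + 1)))
          = en s m * (4 * ((m : ℝ) + 1) - 4 * σ) := by
        field_simp
      rw [h5]
      nlinarith
    have h6 : 4 * ((m : ℝ) + 1) * (en s m * (1 - σ / ((m : ℝ) + 1)))
        ≤ 4 * ((m : ℝ) + 1) * en s (m + 1) := by gcongr
    push_cast
    linarith

lemma exp_inv_le (i : ℕ) (hi : 1 ≤ i) : Real.exp (1 / ((i : ℝ) + 1)) ≤ ((i : ℝ) + 1) / i := by
  have hi0 : (0 : ℝ) < i := by exact_mod_cast hi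
  have h1 := Real.add_one_le_exp (- (1 / ((i : ℝ) + 1)))
  have h2 : -(1 / ((i : ℝ) + 1)) + 1 = (i : ℝ) / ((i : ℝ) + 1) := by field_simp; ring
  rw [h2, Real.exp_neg] at h1
  have h3 := Real.exp_pos (1 / ((i : ℝ) + 1))
  rw [le_div_iff₀ hi0]
  rw [div_le_iff₀ (by positivity)] at h1
  have h4 : Real.exp (1 / ((i : ℝ) + 1)) * i
      ≤ Real.exp (1 / ((i : ℝ) + 1)) * ((Real.exp (1 / ((i : ℝ) + 1)))⁻¹ * ((i : ℝ) + 1)) := by
    gcongr
  rw [← mul_assoc, mul_inv_cancel₀ h3.ne', one_mul] at h4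
  exact h4

/-- comparing weights at different indices -/
lemma en_compare {σ : ℝ} (hσ : σ ≤ 1) {s : ℕ → ℂ} (hs : Disc σ s) {m i : ℕ} (hm : 1 ≤ m)
    (hmi : m ≤ i) : en s i ≤ en s m * ((i : ℝ) / m) ∧ en s m ≤ en s i * ((i : ℝ) / m) := by
  have hm0 : (0 : ℝ) < m := by exact_mod_cast hm
  induction i, hmi using Nat.le_induction with
  | base => rw [div_self hm0.ne']; simp
  | succ i hi ih =>
    have hi0 : (0 : ℝ) < i := by
      have : 0 < i := by omega
      exact_mod_cast this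
    have h1 := en_ratio hs i
    have h2 := exp_inv_le i (by omega)
    have h3 : Real.exp (σ / ((i : ℝ) + 1)) ≤ ((i : ℝ) + 1) / i := by
      refine le_trans (Real.exp_le_exp.2 ?_) h2
      gcongr
    have h0 := en_pos s i
    have hm' := en_pos s m
    have h00 := en_pos s (i + 1)
    have h4 : en s (i + 1) ≤ en s i * (((i : ℝ) + 1) / i) :=
      h1.2.trans (mul_le_mul_of_nonneg_left h3 h0.le)
    have h5 : en s i ≤ en s (i + 1) * (((i : ℝ) + 1) / i) := by
      have h6 : en s i = (en s i * Real.exp (- (σ / ((i : ℝ) + 1)))) * Real.exp (σ / ((i : ℝ) + 1)) := by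
        rw [mul_assoc, ← Real.exp_add]; simp
      rw [h6]
      exact mul_le_mul h1.1 h3 (Real.exp_pos _).le h00.le
    push_cast
    constructor
    · calc en s (i + 1) ≤ en s i * (((i : ℝ) + 1) / i) := h4
        _ ≤ (en s m * ((i : ℝ) / m)) * (((i : ℝ) + 1) / i) := by
            apply mul_le_mul_of_nonneg_right ih.1; positivity
        _ = en s m * (((i : ℝ) + 1) / m) := by field_simp
    · calc en s m ≤ en s i * ((i : ℝ) / m) := ih.2
        _ ≤ (en s (i + 1) * (((i : ℝ) + 1) / i)) * ((i : ℝ) / m) := by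
            apply mul_le_mul_of_nonneg_right h5; positivity
        _ = en s (i + 1) * (((i : ℝ) + 1) / m) := by field_simp

/-- recursion bound -/
lemma norm_CC_le {σ : ℝ} (hσ : σ ≤ 1) {s : ℕ → ℂ} (hs : Disc σ s) (i : ℕ) :
    ‖CC s (i + 1)‖ ≤ 2 / ((i : ℝ) + 1) * ∑ j ∈ range (i + 1), ‖CC s j‖ := by
  unfold CC
  rw [ee_succ', norm_div]
  have h1 : ‖((i : ℂ) + 1)‖ = (i : ℝ) + 1 := by
    have : ((i : ℂ) + 1) = (((i : ℝ) + 1 : ℝ) : ℂ) := by push_cast; rfl
    rw [this, Complex.norm_real, Real.norm_eq_abs, abs_of_nonneg (by positivity)]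
  rw [h1, div_mul_eq_mul_div]
  gcongr
  rw [Finset.mul_sum, ← Finset.sum_range_reflect (fun j => 2 * ‖ee (fun k => 1 - s k) j‖)]
  refine (norm_sum_le _ _).trans (Finset.sum_le_sum fun j hj => ?_)
  rw [Finset.mem_range] at hj
  have h2 : i + 1 - 1 - j = i - j := by omega
  rw [norm_mul, h2]
  gcongr
  calc ‖1 - s (j + 1)‖ ≤ ‖(1 : ℂ)‖ + ‖s (j + 1)‖ := norm_sub_le _ _
    _ ≤ 1 + 1 := by
        rw [norm_one]
        linarith [hs (j + 1)]
    _ = 2 := by norm_num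

/-- growth of partial sums -/
lemma growth {σ : ℝ} (hσ : σ ≤ 1) {s : ℕ → ℂ} (hs : Disc σ s) {n i : ℕ} (hn : 1 ≤ n)
    (hni : n ≤ i) :
    ∑ j ∈ range i, ‖CC s j‖ ≤ (∑ j ∈ range n, ‖CC s j‖) * ((i : ℝ) / n) ^ 2 := by
  have hn0 : (0 : ℝ) < n := by exact_mod_cast hn
  induction i, hni using Nat.le_induction with
  | base => rw [div_self hn0.ne']; simp
  | succ i hi ih =>
    obtain ⟨l, rfl⟩ : ∃ l, i = l + 1 := ⟨i - 1, by omega⟩
    have h1 := norm_CC_le hσ hs l
    have hl : (0 : ℝ) < (l : ℝ) + 1 := by positivity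
    rw [Finset.sum_range_succ]
    set U := ∑ j ∈ range (l + 1), ‖CC s j‖ with hU
    have hU0 : 0 ≤ U := Finset.sum_nonneg fun j _ => norm_nonneg _
    have hUn : 0 ≤ ∑ j ∈ range n, ‖CC s j‖ := Finset.sum_nonneg fun j _ => norm_nonneg _
    have h2 : U + ‖CC s (l + 1)‖ ≤ U * (1 + 2 / ((l : ℝ) + 1)) := by linarith
    have h3 : 1 + 2 / ((l : ℝ) + 1) ≤ (((l : ℝ) + 2) / ((l : ℝ) + 1)) ^ 2 := by
      rw [div_pow, le_div_iff₀ (by positivity)]
      field_simp
      nlinarith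
    push_cast at ih ⊢
    calc U + ‖CC s (l + 1)‖ ≤ U * (1 + 2 / ((l : ℝ) + 1)) := h2
      _ ≤ ((∑ j ∈ range n, ‖CC s j‖) * (((l : ℝ) + 1) / n) ^ 2)
          * (((l : ℝ) + 2) / ((l : ℝ) + 1)) ^ 2 := by
          apply mul_le_mul ih h3 (by positivity) (by positivity)
      _ = (∑ j ∈ range n, ‖CC s j‖) * (((l : ℝ) + 1 + 1) / n) ^ 2 := by
          field_simp
          ring

/-- the l1 norm of `((1-x)/(1-rho x))^a` is at most 2 -/
lemma B_lemma {a r : ℝ} (ha0 : 0 ≤ a) (ha1 : a ≤ 1) (hr0 : 0 ≤ r) (hr1 : r ≤ 1) (n : ℕ) :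
    ∑ i ∈ range (n + 1), |ee (fun k => - (a * (1 - r ^ k))) i| ≤ 2 := by
  set b : ℕ → ℝ := fun k => - (a * (1 - r ^ k)) with hb
  have hP : ∀ n, 0 ≤ ∑ i ∈ range (n + 1), ee b i := by
    intro n
    rw [← ee_one_add]
    apply ee_nonneg
    intro k
    have h1 : r ^ k ≤ 1 := pow_le_one₀ hr0 hr1
    have h2 : 0 ≤ r ^ k := pow_nonneg hr0 k
    simp only [hb]
    nlinarith
  -- the auxiliary sums
  have hrec : ∀ n : ℕ, ((n : ℝ) + 1) * ee b (n + 1)
      = r * (n * ee b n) - a * (1 - r) * ∑ i ∈ range (n + 1), ee b i := by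
    intro n
    have hR : ∀ n : ℕ, (n : ℝ) * ee b n = ∑ i ∈ range n, b (i + 1) * ee b (n - 1 - i) := by
      intro n
      cases n with
      | zero => simp
      | succ n =>
        have := ee_succ b n
        push_cast
        rw [this]
    rw [ee_succ, Finset.sum_range_succ', hR n]
    have h3 : ∑ i ∈ range (n + 1), ee b i = ee b n + ∑ i ∈ range n, ee b (n - 1 - i) := by
      rw [Finset.sum_range_succ, Finset.sum_range_reflect, add_comm]
    rw [h3, Finset.mul_sum, mul_add, Finset.mul_sum]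
    have h4 : ∀ i ∈ range n, b (i + 1 + 1) * ee b (n - (i + 1))
        = r * (b (i + 1) * ee b (n - 1 - i)) - a * (1 - r) * ee b (n - 1 - i) := by
      intro i _
      have h5 : n - (i + 1) = n - 1 - i := by omega
      rw [h5]
      simp only [hb]
      ring
    rw [Finset.sum_congr rfl h4, Finset.sum_sub_distrib]
    simp only [hb]
    simp only [zero_add, pow_one, Nat.sub_zero]
    ring
  have hneg : ∀ n : ℕ, 1 ≤ n → ee b n ≤ 0 := by
    intro n hn
    induction n, hn using Nat.le_induction with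
    | base =>
      have h := hrec 0
      simp only [Nat.cast_zero, zero_add, one_mul, mul_zero, zero_sub, range_one,
        sum_singleton, ee_zero, mul_one] at h
      rw [h]
      have : 0 ≤ a * (1 - r) := mul_nonneg ha0 (by linarith)
      linarith
    | succ n hn ih =>
      have h := hrec n
      have h1 : r * (n * ee b n) ≤ 0 := by
        have : (n : ℝ) * ee b n ≤ 0 := mul_nonpos_of_nonneg_of_nonpos (by positivity) ih
        exact mul_nonpos_of_nonneg_of_nonpos hr0 this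
      have h2 : 0 ≤ a * (1 - r) * ∑ i ∈ range (n + 1), ee b i :=
        mul_nonneg (mul_nonneg ha0 (by linarith)) (hP n)
      have h3 : ((n : ℝ) + 1) * ee b (n + 1) ≤ 0 := by rw [h]; linarith
      by_contra hcon
      push Not at hcon
      have : 0 < ((n : ℝ) + 1) * ee b (n + 1) := mul_pos (by positivity) hcon
      linarith
  rw [Finset.sum_range_succ']
  have h1 : ∑ k ∈ range n, |ee b (k + 1)| = - ∑ k ∈ range n, ee b (k + 1) := by
    rw [← Finset.sum_neg_distrib]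
    refine Finset.sum_congr rfl fun k _ => ?_
    exact abs_of_nonpos (hneg (k + 1) (by omega))
  have h2 := hP n
  rw [Finset.sum_range_succ'] at h2
  rw [h1]
  rw [ee_zero] at h2 ⊢
  rw [abs_one]
  linarith

/-- l1 norm of a product -/
lemma sum_norm_mul (a b : ℕ → ℂ) (n : ℕ) :
    ∑ i ∈ range (n + 1), ‖ee (fun k => a k + b k) i‖
      ≤ (∑ i ∈ range (n + 1), ‖ee a i‖) * ∑ i ∈ range (n + 1), ‖ee b i‖ := by
  have h1 : ∀ i ∈ range (n + 1), ‖ee (fun k => a k + b k) i‖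
      ≤ ∑ j ∈ range (i + 1), ‖ee a j‖ * ‖ee b (i - j)‖ := by
    intro i _
    rw [ee_add]
    refine (norm_sum_le _ _).trans (Finset.sum_le_sum fun j _ => ?_)
    rw [norm_mul]
  refine (Finset.sum_le_sum h1).trans ?_
  -- swap
  have h2 : ∑ i ∈ range (n + 1), ∑ j ∈ range (i + 1), ‖ee a j‖ * ‖ee b (i - j)‖
      = ∑ j ∈ range (n + 1), ∑ i ∈ Finset.Ico j (n + 1), ‖ee a j‖ * ‖ee b (i - j)‖ := by
    have := Finset.sum_sigma' (range (n + 1)) (fun i => range (i + 1))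
      (fun i j => ‖ee a j‖ * ‖ee b (i - j)‖)
    rw [this, Finset.sum_sigma' (range (n + 1)) (fun j => Finset.Ico j (n + 1))
      (fun j i => ‖ee a j‖ * ‖ee b (i - j)‖)]
    refine Finset.sum_nbij' (fun x => ⟨x.2, x.1⟩) (fun x => ⟨x.2, x.1⟩) ?_ ?_ ?_ ?_ ?_
    · rintro ⟨i, j⟩ h
      simp only [Finset.mem_sigma, Finset.mem_range, Finset.mem_Ico] at h ⊢
      omega
    · rintro ⟨i, j⟩ h
      simp only [Finset.mem_sigma, Finset.mem_range, Finset.mem_Ico] at h ⊢
      omega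
    · rintro ⟨i, j⟩ _; rfl
    · rintro ⟨i, j⟩ _; rfl
    · rintro ⟨i, j⟩ _; rfl
  rw [h2, Finset.sum_mul]
  refine Finset.sum_le_sum fun j hj => ?_
  rw [Finset.mem_range] at hj
  rw [← Finset.mul_sum]
  apply mul_le_mul_of_nonneg_left _ (norm_nonneg _)
  rw [Finset.sum_Ico_eq_sum_range]
  have h3 : ∀ i ∈ range (n + 1 - j), ‖ee b (j + i - j)‖ = ‖ee b i‖ := by
    intro i _
    congr 2
    omega
  rw [Finset.sum_congr rfl h3]
  apply Finset.sum_le_sum_of_subset_of_nonneg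
  · intro i hi
    rw [Finset.mem_range] at hi ⊢
    omega
  · intro i _ _
    exact norm_nonneg _

/-- the key l1 bound -/
lemma kappa_lemma {σ ω r : ℝ} (hσ0 : 0 < σ) (hσ1 : σ ≤ 1) (hω : ω ^ 2 = 2 * σ ^ 2)
    (hω0 : 0 < ω) (hr0 : 0 ≤ r) (hr1 : r ≤ 1) {s : ℕ → ℂ} (hs : Disc σ s) (n : ℕ) :
    ∑ i ∈ range (n + 1), ‖cc (fun k => s k * (1 - (r : ℂ) ^ k)) i‖
      ≤ 2 * Real.exp (ω * ∑ k ∈ range n, (1 - r ^ (k + 1)) / ((k : ℝ) + 1))
        * en (fun k => s k * (1 - (r : ℂ) ^ k)) n := by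
  set t : ℕ → ℂ := fun k => s k * (1 - (r : ℂ) ^ k) with ht
  set Λ : ℝ := ∑ k ∈ range n, (1 - r ^ (k + 1)) / ((k : ℝ) + 1) with hΛ
  have hq : ∀ k : ℕ, 0 ≤ 1 - r ^ k := fun k => by
    have := pow_le_one₀ (n := k) hr0 hr1
    linarith
  have hq' : ∀ k : ℕ, (1 - (r : ℂ) ^ k) = ((1 - r ^ k : ℝ) : ℂ) := fun k => by push_cast; rfl
  have hΛ0 : 0 ≤ Λ := Finset.sum_nonneg fun k _ => div_nonneg (hq _) (by positivity)
  set A : ℝ := ∑ k ∈ range n, (t (k + 1)).re / ((k : ℝ) + 1) with hA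
  have hen : en t n = Real.exp (- A) := rfl
  have hσω : σ < ω := by
    nlinarith [sq_nonneg (σ - ω)]
  have htre : ∀ k, (t k).re = (s k).re * (1 - r ^ k) := by
    intro k
    simp only [ht]
    rw [hq' k, Complex.re_mul_ofReal]
  have htn : ∀ k, ‖t k‖ = ‖s k‖ * (1 - r ^ k) := by
    intro k
    simp only [ht]
    rw [hq' k, norm_mul, Complex.norm_real, Real.norm_eq_abs, abs_of_nonneg (hq k)]
  rw [hen, mul_assoc, ← Real.exp_add]
  by_cases hA0 : A ≤ 0
  · have h1 := sum_norm_ee_le (fun k => - t k) n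
    have h2 : ∑ k ∈ range n, ‖- t (k + 1)‖ / ((k : ℝ) + 1) ≤ ω * Λ := by
      rw [hΛ, Finset.mul_sum]
      refine Finset.sum_le_sum fun k _ => ?_
      rw [norm_neg, htn, mul_div_assoc]
      apply mul_le_mul_of_nonneg_right ((hs _).trans hσω.le)
      exact div_nonneg (hq _) (by positivity)
    have h3 : Real.exp (∑ k ∈ range n, ‖- t (k + 1)‖ / ((k : ℝ) + 1))
        ≤ Real.exp (ω * Λ + -A) := Real.exp_le_exp.2 (by linarith)
    have h4 := Real.exp_pos (ω * Λ + -A)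
    calc ∑ i ∈ range (n + 1), ‖cc t i‖ ≤ _ := h1
      _ ≤ Real.exp (ω * Λ + -A) := h3
      _ ≤ 2 * Real.exp (ω * Λ + -A) := by linarith
  · push Not at hA0
    have hAle : A ≤ σ * Λ := by
      rw [hA, hΛ, Finset.mul_sum]
      refine Finset.sum_le_sum fun k _ => ?_
      rw [htre, mul_div_assoc]
      apply mul_le_mul_of_nonneg_right _ (div_nonneg (hq _) (by positivity))
      exact (Complex.re_le_norm _).trans (hs _)
    have hΛpos : 0 < Λ := by
      by_contra hcon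
      have : Λ = 0 := le_antisymm (not_lt.1 hcon) hΛ0
      rw [this, mul_zero] at hAle
      linarith
    set a : ℝ := A / Λ with ha
    have haA : a * Λ = A := by rw [ha]; field_simp
    have ha0 : 0 ≤ a := by positivity
    have haσ : a ≤ σ := by rw [ha, div_le_iff₀ hΛpos]; exact hAle
    set lam : ℝ := ω - a with hlam
    have hlam0 : 0 < lam := by rw [hlam]; linarith
    have hsplit : (fun k => - t k) = fun k => (((- (a * (1 - r ^ k)) : ℝ) : ℂ))
        + (- ((s k - a) * (1 - (r : ℂ) ^ k))) := by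
      funext k
      simp only [ht]
      push_cast
      ring
    have h1 : ∑ i ∈ range (n + 1), ‖cc t i‖
        ≤ (∑ i ∈ range (n + 1), ‖ee (fun k => ((- (a * (1 - r ^ k)) : ℝ) : ℂ)) i‖)
          * ∑ i ∈ range (n + 1), ‖ee (fun k => (- ((s k - a) * (1 - (r : ℂ) ^ k)))) i‖ := by
      unfold cc
      rw [hsplit]
      exact sum_norm_mul _ _ n
    have h2 : ∑ i ∈ range (n + 1), ‖ee (fun k => ((- (a * (1 - r ^ k)) : ℝ) : ℂ)) i‖ ≤ 2 := by
      have h := B_lemma ha0 (haσ.trans hσ1) hr0 hr1 n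
      refine le_trans (le_of_eq ?_) h
      refine Finset.sum_congr rfl fun i _ => ?_
      rw [← ee_ofReal, Complex.norm_real, Real.norm_eq_abs]
    have h3 : ∑ i ∈ range (n + 1), ‖ee (fun k => (- ((s k - a) * (1 - (r : ℂ) ^ k)))) i‖
        ≤ Real.exp (ω * Λ + -A) := by
      refine (sum_norm_ee_le _ n).trans (Real.exp_le_exp.2 ?_)
      have h4 : ∀ k ∈ range n, ‖- ((s (k + 1) - (a : ℂ)) * (1 - (r : ℂ) ^ (k + 1)))‖ / ((k : ℝ) + 1)
          ≤ ((σ ^ 2 - 2 * a * (s (k + 1)).re + a ^ 2) / (2 * lam) + lam / 2)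
            * ((1 - r ^ (k + 1)) / ((k : ℝ) + 1)) := by
        intro k _
        rw [norm_neg, norm_mul, hq' (k + 1), Complex.norm_real, Real.norm_eq_abs,
          abs_of_nonneg (hq _), mul_div_assoc]
        apply mul_le_mul_of_nonneg_right _ (div_nonneg (hq _) (by positivity))
        have h5 : ‖s (k + 1) - (a : ℂ)‖ ^ 2 ≤ σ ^ 2 - 2 * a * (s (k + 1)).re + a ^ 2 := by
          have h6 : ‖s (k + 1) - (a : ℂ)‖ ^ 2
              = ‖s (k + 1)‖ ^ 2 - 2 * a * (s (k + 1)).re + a ^ 2 := by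
            rw [Complex.sq_norm, Complex.sq_norm, Complex.normSq_apply, Complex.normSq_apply]
            simp only [Complex.sub_re, Complex.sub_im, Complex.ofReal_re, Complex.ofReal_im]
            ring
          have h7 : ‖s (k + 1)‖ ^ 2 ≤ σ ^ 2 := by
            have := hs (k + 1)
            have h8 := norm_nonneg (s (k + 1))
            nlinarith
          rw [h6]; linarith
        have h8 : ‖s (k + 1) - (a : ℂ)‖ ≤ ‖s (k + 1) - (a : ℂ)‖ ^ 2 / (2 * lam) + lam / 2 := by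
          rw [div_add_div _ _ (by positivity) (by norm_num), le_div_iff₀ (by positivity)]
          nlinarith [sq_nonneg (‖s (k + 1) - (a : ℂ)‖ - lam)]
        have h9 : ‖s (k + 1) - (a : ℂ)‖ ^ 2 / (2 * lam)
            ≤ (σ ^ 2 - 2 * a * (s (k + 1)).re + a ^ 2) / (2 * lam) := by gcongr
        linarith
      refine (Finset.sum_le_sum h4).trans ?_
      have h5 : ∑ k ∈ range n, ((σ ^ 2 - 2 * a * (s (k + 1)).re + a ^ 2) / (2 * lam) + lam / 2)
            * ((1 - r ^ (k + 1)) / ((k : ℝ) + 1))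
          = ((σ ^ 2 + a ^ 2) / (2 * lam) + lam / 2) * Λ - (a / lam) * A := by
        rw [hΛ, hA, Finset.mul_sum, Finset.mul_sum, ← Finset.sum_sub_distrib]
        refine Finset.sum_congr rfl fun k _ => ?_
        rw [htre]
        field_simp
        ring
      rw [h5, ← haA]
      have h6 : ((σ ^ 2 + a ^ 2) / (2 * lam) + lam / 2) * Λ - (a / lam) * (a * Λ)
          = ((σ ^ 2 - a ^ 2) / (2 * lam) + lam / 2) * Λ := by
        field_simp
        ring
      rw [h6]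
      have h7 : (σ ^ 2 - a ^ 2) / (2 * lam) + lam / 2 ≤ lam := by
        have : (σ ^ 2 - a ^ 2) / (2 * lam) ≤ lam / 2 := by
          rw [div_le_div_iff₀ (by positivity) (by norm_num)]
          have : σ ^ 2 - a ^ 2 ≤ lam ^ 2 := by
            rw [hlam]
            -- (σ^2 - 2 ω a + 2 a^2 >= 0), as ω^2 = 2σ^2
            nlinarith [sq_nonneg (ω - 2 * a)]
          nlinarith
        linarith
      calc ((σ ^ 2 - a ^ 2) / (2 * lam) + lam / 2) * Λ ≤ lam * Λ :=
            mul_le_mul_of_nonneg_right h7 hΛ0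
        _ = ω * Λ + -(a * Λ) := by rw [hlam]; ring
    have h4 : 0 ≤ ∑ i ∈ range (n + 1), ‖ee (fun k => (- ((s k - a) * (1 - (r : ℂ) ^ k)))) i‖ :=
      Finset.sum_nonneg fun i _ => norm_nonneg _
    calc ∑ i ∈ range (n + 1), ‖cc t i‖ ≤ _ := h1
      _ ≤ 2 * Real.exp (ω * Λ + -A) := mul_le_mul h2 h3 h4 (by norm_num)

end Pool.Agent.Helper474.Tur
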