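import Pool.Agent.Helper474.TurB

/-!
The step lemma.
-/

set_option autoImplicit false

namespace Pool.Agent.Helper474.Tur

open Finset

/-- the square root of the damping factor -/
noncomputable def rr (m : ℕ) : ℝ := Real.exp (-(1 / (2 * (m : ℝ))))

lemma rr_pos (m : ℕ) : 0 < rr m := Real.exp_pos _

lemma rr_lt_one {m : ℕ} (hm : 1 ≤ m) : rr m < 1 := by
  unfold rr
  have hm0 : (0 : ℝ) < m := by exact_mod_cast hm
  rw [Real.exp_lt_one_iff]
  have : 0 < 1 / (2 * (m : ℝ)) := by positivity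
  linarith

lemma rr_geom {m : ℕ} (hm : 1 ≤ m) : 1 ≤ 3 * m * (1 - rr m) := by
  have hm0 : (1 : ℝ) ≤ m := by exact_mod_cast hm
  have h1 := Real.add_one_le_exp (1 / (2 * (m : ℝ)))
  have h2 : rr m * Real.exp (1 / (2 * (m : ℝ))) = 1 := by
    unfold rr
    rw [← Real.exp_add]
    simp
  have h3 := rr_pos m
  have h4 : rr m * (1 / (2 * (m : ℝ)) + 1) ≤ 1 := by
    calc rr m * (1 / (2 * (m : ℝ)) + 1) ≤ rr m * Real.exp (1 / (2 * (m : ℝ))) :=
          mul_le_mul_of_nonneg_left h1 h3.le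
      _ = 1 := h2
  have h5 : rr m * (1 + 2 * m) ≤ 2 * m := by
    have : rr m * (1 + 2 * m) = (rr m * (1 / (2 * (m : ℝ)) + 1)) * (2 * m) := by
      field_simp
    rw [this]
    nlinarith
  nlinarith

lemma rr_sq (m : ℕ) : rr m ^ 2 = Real.exp (-(1 / (m : ℝ))) := by
  unfold rr
  rw [← Real.exp_nat_mul]
  congr 1
  push_cast
  by_cases hm : (m : ℝ) = 0
  · rw [hm]; simp
  · field_simp

lemma one_sub_rho {m : ℕ} : 1 - rr m ^ 2 ≤ 1 / m := by
  rw [rr_sq]
  have := Real.add_one_le_exp (-(1 / (m : ℝ)))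
  linarith

lemma rho_pow (m k : ℕ) : (rr m ^ 2) ^ k = Real.exp (-((k : ℝ) / (m : ℝ))) := by
  rw [rr_sq, ← Real.exp_nat_mul]
  congr 1
  ring

lemma one_sub_rho_pow (m k : ℕ) : 1 - (rr m ^ 2) ^ k ≤ (k : ℝ) / m := by
  rw [rho_pow]
  have := Real.add_one_le_exp (-((k : ℝ) / (m : ℝ)))
  linarith

lemma rr_pow (m k : ℕ) : rr m ^ k = Real.exp (-((k : ℝ) / (2 * (m : ℝ)))) := by
  unfold rr
  rw [← Real.exp_nat_mul]
  congr 1
  ring

lemma rho_mul {m : ℕ} (hm : 1 ≤ m) (i : ℕ) : (rr m ^ 2) ^ i * ((i : ℝ) / m) ≤ rr m ^ i := by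
  have hm0 : (1 : ℝ) ≤ m := by exact_mod_cast hm
  rw [rho_pow, rr_pow]
  set y : ℝ := (i : ℝ) / (2 * (m : ℝ)) with hy
  have h1 : (i : ℝ) / m = 2 * y := by rw [hy]; field_simp
  rw [h1]
  have h2 : -(2 * y) = -y + -y := by ring
  rw [h2, Real.exp_add, mul_assoc]
  have h3 : 2 * y ≤ Real.exp y := by
    have h4 := Real.add_one_le_exp (y - 1)
    have h5 : Real.exp y = Real.exp 1 * Real.exp (y - 1) := by
      rw [← Real.exp_add]; congr 1; ring
    have h6 := Real.add_one_le_exp 1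
    have h7 := Real.exp_pos (y - 1)
    rw [h5]
    nlinarith
  have h8 : Real.exp (-y) * (2 * y) ≤ 1 := by
    calc Real.exp (-y) * (2 * y) ≤ Real.exp (-y) * Real.exp y :=
          mul_le_mul_of_nonneg_left h3 (Real.exp_pos _).le
      _ = 1 := by rw [← Real.exp_add]; simp
  have := mul_le_mul_of_nonneg_left h8 (Real.exp_pos (-y)).le
  linarith

lemma rr_pow_le {m M j : ℕ} (hm : 1 ≤ m) (hM : 1 ≤ M) (h : M * m ≤ 2 * j) :
    rr m ^ j ≤ 4 / M := by
  have hm0 : (0 : ℝ) < m := by exact_mod_cast hm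
  have hM0 : (0 : ℝ) < M := by exact_mod_cast hM
  rw [rr_pow, Real.exp_neg]
  have h1 : (M : ℝ) / 4 ≤ (j : ℝ) / (2 * m) := by
    rw [div_le_div_iff₀ (by norm_num) (by positivity)]
    have : ((M * m : ℕ) : ℝ) ≤ ((2 * j : ℕ) : ℝ) := by exact_mod_cast h
    push_cast at this
    linarith
  have h2 := Real.add_one_le_exp ((j : ℝ) / (2 * m))
  have h3 : (M : ℝ) / 4 ≤ Real.exp ((j : ℝ) / (2 * m)) := by linarith
  have h4 : (Real.exp ((j : ℝ) / (2 * m)))⁻¹ ≤ ((M : ℝ) / 4)⁻¹ :=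
    inv_anti₀ (by positivity) h3
  rw [inv_div] at h4
  exact h4

lemma rho_ratio {m : ℕ} (hm : 1 ≤ m) : rr m ^ 2 ≤ m * (1 - rr m ^ 2) := by
  have hm0 : (0 : ℝ) < m := by exact_mod_cast hm
  rw [rr_sq]
  have h1 := Real.add_one_le_exp (1 / (m : ℝ))
  have h2 : Real.exp (-(1 / (m : ℝ))) * Real.exp (1 / (m : ℝ)) = 1 := by
    rw [← Real.exp_add]; simp
  have h3 := Real.exp_pos (-(1 / (m : ℝ)))
  have h4 : Real.exp (-(1 / (m : ℝ))) * (1 / (m : ℝ) + 1) ≤ 1 := by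
    calc Real.exp (-(1 / (m : ℝ))) * (1 / (m : ℝ) + 1)
        ≤ Real.exp (-(1 / (m : ℝ))) * Real.exp (1 / (m : ℝ)) := mul_le_mul_of_nonneg_left h1 h3.le
      _ = 1 := h2
  have h5 : Real.exp (-(1 / (m : ℝ))) * (1 + m) ≤ m := by
    have : Real.exp (-(1 / (m : ℝ))) * (1 + m)
        = (Real.exp (-(1 / (m : ℝ))) * (1 / (m : ℝ) + 1)) * m := by field_simp
    rw [this]
    nlinarith
  linarith

/-- Abel summation -/
lemma CC_abel (s : ℕ → ℂ) (ρ : ℂ) (J : ℕ) :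
    CC (fun k => s k * ρ ^ k) J
      = ρ ^ J * CC s J + (1 - ρ) * ∑ i ∈ range J, ρ ^ i * CC s i := by
  induction J with
  | zero => simp
  | succ J ih =>
    have h1 : cc (fun k => s k * ρ ^ k) (J + 1) = ρ ^ (J + 1) * cc s (J + 1) := by
      unfold cc
      rw [← ee_scale]
      congr 1
      funext k
      ring
    have h2 := CC_succ_sub s J
    rw [CC_succ_sub, h1, ih, Finset.sum_range_succ, h2]
    ring

/-- truncation -/
def trunc (s : ℕ → ℂ) (n : ℕ) : ℕ → ℂ := fun k => if k ≤ n then s k else 0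

lemma trunc_disc {σ : ℝ} (hσ : 0 ≤ σ) {s : ℕ → ℂ} (hs : Disc σ s) (n : ℕ) :
    Disc σ (trunc s n) := by
  intro k
  unfold trunc
  split_ifs
  · exact hs k
  · rw [norm_zero]; exact hσ

lemma trunc_CC (s : ℕ → ℂ) {n j : ℕ} (h : j ≤ n) : CC (trunc s n) j = CC s j :=
  CC_congr fun k _ h2 => by unfold trunc; rw [if_pos (by omega)]

/-- growth bound for the truncated sequence -/
lemma trunc_growth {σ Q : ℝ} (hσ0 : 0 ≤ σ) (hσ : σ ≤ 3 / 4) {s : ℕ → ℂ} (hs : Disc σ s)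
    {n m : ℕ} (hm : 1 ≤ m) (hmn : m ≤ n) (hQ0 : 0 ≤ Q)
    (hQ : ∀ j < n, ‖CC s j‖ ≤ Q * en s j) {i : ℕ} (hi : m ≤ i) :
    ‖CC (trunc s n) i‖ ≤ 8 * Q * en s m * ((i : ℝ) / m) := by
  have hm0 : (0 : ℝ) < m := by exact_mod_cast hm
  have hσ1 : σ ≤ 1 := by linarith
  by_cases hin : i < n
  · rw [trunc_CC s hin.le]
    have h1 := (en_compare hσ1 hs hm hi).1
    have h2 := hQ i hin
    have h3 := en_pos s m
    have h4 : 0 ≤ en s m * ((i : ℝ) / m) := by positivity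
    have h5 : Q * en s i ≤ Q * (en s m * ((i : ℝ) / m)) := mul_le_mul_of_nonneg_left h1 hQ0
    nlinarith
  · push Not at hin
    have hn1 : 1 ≤ n := hm.trans hmn
    have hn0 : (0 : ℝ) < n := by exact_mod_cast hn1
    obtain ⟨l, rfl⟩ : ∃ l, i = l + 1 := ⟨i - 1, by omega⟩
    have hd := trunc_disc hσ0 hs n
    have h1 := norm_CC_le hσ1 hd l
    have h2 := growth hσ1 hd hn1 hin
    have h3 : ∑ j ∈ range n, ‖CC (trunc s n) j‖ ≤ Q * (4 * n * en s n) := by
      calc ∑ j ∈ range n, ‖CC (trunc s n) j‖ ≤ ∑ j ∈ range n, Q * en s j := by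
            refine Finset.sum_le_sum fun j hj => ?_
            rw [Finset.mem_range] at hj
            rw [trunc_CC s hj.le]
            exact hQ j hj
        _ = Q * ∑ j ∈ range n, en s j := by rw [Finset.mul_sum]
        _ ≤ Q * (4 * n * en s n) := mul_le_mul_of_nonneg_left (sum_en_le hσ hs n) hQ0
    have h4 := (en_compare hσ1 hs hm hmn).1
    have hl : (0 : ℝ) < (l : ℝ) + 1 := by positivity
    push_cast at h2 ⊢
    calc ‖CC (trunc s n) (l + 1)‖
        ≤ 2 / ((l : ℝ) + 1) * ∑ j ∈ range (l + 1), ‖CC (trunc s n) j‖ := h1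
      _ ≤ 2 / ((l : ℝ) + 1) * ((Q * (4 * n * (en s m * ((n : ℝ) / m)))) * (((l : ℝ) + 1) / n) ^ 2) := by
          apply mul_le_mul_of_nonneg_left _ (by positivity)
          refine h2.trans ?_
          apply mul_le_mul_of_nonneg_right _ (by positivity)
          refine h3.trans ?_
          apply mul_le_mul_of_nonneg_left _ hQ0
          apply mul_le_mul_of_nonneg_left h4 (by positivity)
      _ = 8 * Q * en s m * (((l : ℝ) + 1) / m) := by
          field_simp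
          ring

/-- the limit factor -/
noncomputable def FF (s : ℕ → ℂ) (m n : ℕ) : ℂ :=
  Complex.exp (∑ k ∈ range n, -(s (k + 1) * (((rr m ^ 2 : ℝ)) : ℂ) ^ (k + 1)) / ((k : ℂ) + 1))

/-- the damped partial sums converge -/
lemma tendsto_FF (s : ℕ → ℂ) (m n : ℕ) :
    Filter.Tendsto (fun J => CC (fun k => trunc s n k * (((rr m ^ 2 : ℝ)) : ℂ) ^ k) J)
      Filter.atTop (nhds (FF s m n)) := by
  have hg := good_of_support (fun k => -(s k * (((rr m ^ 2 : ℝ)) : ℂ) ^ k)) n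
  have h1 : HasSum (fun i => ee (fun k => if k ≤ n then -(s k * (((rr m ^ 2 : ℝ)) : ℂ) ^ k) else 0) i)
      (FF s m n) := by
    have h2 := hg.1.of_norm.hasSum
    rw [hg.2] at h2
    exact h2
  have h3 := (Filter.tendsto_add_atTop_iff_nat 1).2 h1.tendsto_sum_nat
  refine h3.congr fun J => ?_
  rw [CC_eq_sum]
  refine Finset.sum_congr rfl fun i _ => ?_
  unfold cc
  congr 1
  funext k
  by_cases hk : k ≤ n
  · simp only [trunc, if_pos hk]
  · simp only [trunc, if_neg hk, zero_mul, neg_zero]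

lemma step_data {σ Q : ℝ} (hσ0 : 0 ≤ σ) (hσ : σ ≤ 3 / 4) {s : ℕ → ℂ} (hs : Disc σ s)
    {n m : ℕ} (hm : 1 ≤ m) (hmn : m ≤ n) (hQ0 : 0 ≤ Q)
    (hQ : ∀ j < n, ‖CC s j‖ ≤ Q * en s j) :
    (∀ j, j ≤ n → m ≤ j → ‖CC (fun k => s k * (((rr m ^ 2 : ℝ)) : ℂ) ^ k) j - FF s m n‖
        ≤ 3 * (8 * Q * en s m) * rr m ^ j) ∧
    (∀ j, j ≤ n → ‖CC (fun k => s k * (((rr m ^ 2 : ℝ)) : ℂ) ^ k) j - FF s m n‖
        ≤ ‖CC s j‖ + 5 / 2 * (8 * Q * en s m)) ∧
    (∀ P, m ≤ P → P ≤ n → ‖FF s m n‖ ≤ (1 / m) * ∑ i ∈ range P, ‖CC s i‖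
        + 2 * (8 * Q * en s m) * rr m ^ P) := by
  have hm0 : (0 : ℝ) < m := by exact_mod_cast hm
  set r : ℝ := rr m with hr
  have hr0 : 0 < r := rr_pos m
  have hr1 : r < 1 := rr_lt_one hm
  set G : ℝ := 8 * Q * en s m with hG
  have hG0 : 0 ≤ G := by
    have := en_pos s m
    positivity
  set ρ : ℝ := r ^ 2 with hρ
  have hρ0 : 0 < ρ := by positivity
  have hρ1 : ρ < 1 := by rw [hρ]; nlinarith
  set s' : ℕ → ℂ := trunc s n with hs'
  set a : ℕ → ℂ := fun i => (ρ : ℂ) ^ i * CC s' i with ha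
  have hna : ∀ i, ‖a i‖ = ρ ^ i * ‖CC s' i‖ := by
    intro i
    simp only [ha]
    rw [norm_mul, norm_pow, Complex.norm_real, Real.norm_eq_abs, abs_of_pos hρ0]
  have hbd : ∀ i, m ≤ i → ‖a i‖ ≤ G * r ^ i := by
    intro i hi
    rw [hna]
    have h1 := trunc_growth hσ0 hσ hs hm hmn hQ0 hQ hi
    have h2 := rho_mul hm i
    calc ρ ^ i * ‖CC s' i‖ ≤ ρ ^ i * (G * ((i : ℝ) / m)) :=
          mul_le_mul_of_nonneg_left h1 (by positivity)
      _ = G * (ρ ^ i * ((i : ℝ) / m)) := by ring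
      _ ≤ G * r ^ i := mul_le_mul_of_nonneg_left h2 hG0
  have hgeo : ∀ j, HasSum (fun i => G * r ^ (i + j)) (G * r ^ j / (1 - r)) := by
    intro j
    have h1 := (hasSum_geometric_of_lt_one hr0.le hr1).mul_left (G * r ^ j)
    have h2 : (fun i => G * r ^ j * r ^ i) = fun i => G * r ^ (i + j) := by
      funext i
      rw [pow_add]; ring
    rw [h2] at h1
    rw [div_eq_mul_inv]
    exact h1
  have hsum : Summable (fun i => ‖a i‖) := by
    rw [← summable_nat_add_iff m]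
    refine Summable.of_nonneg_of_le (fun i => norm_nonneg _) (fun i => hbd (i + m) (by omega))
      (hgeo m).summable
  have hsumC : Summable a := hsum.of_norm
  have htail : ∀ j, m ≤ j → ∑' i, ‖a (i + j)‖ ≤ G * r ^ j / (1 - r) := by
    intro j hj
    rw [← (hgeo j).tsum_eq]
    exact ((summable_nat_add_iff j).2 hsum).tsum_le_tsum (fun i => hbd (i + j) (by omega))
      (hgeo j).summable
  have hFS : FF s m n = (1 - (ρ : ℂ)) * ∑' i, a i := by
    have h1 := tendsto_FF s m n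
    have h2 : Filter.Tendsto (fun J => (ρ : ℂ) ^ J * CC s' J + (1 - (ρ : ℂ)) * ∑ i ∈ range J, a i)
        Filter.atTop (nhds (0 + (1 - (ρ : ℂ)) * ∑' i, a i)) := by
      apply Filter.Tendsto.add
      · exact hsumC.tendsto_atTop_zero
      · exact (hsumC.hasSum.tendsto_sum_nat).const_mul _
    rw [zero_add] at h2
    refine tendsto_nhds_unique h1 (h2.congr fun J => ?_)
    exact (CC_abel s' (ρ : ℂ) J).symm
  have hsplit : ∀ j, ∑' i, a i = ∑ i ∈ range j, a i + ∑' i, a (i + j) :=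
    fun j => (hsumC.sum_add_tsum_nat_add j).symm
  have hnorm1 : ‖1 - (ρ : ℂ)‖ = 1 - ρ := by
    have : (1 - (ρ : ℂ)) = ((1 - ρ : ℝ) : ℂ) := by push_cast; rfl
    rw [this, Complex.norm_real, Real.norm_eq_abs, abs_of_pos (by linarith)]
  have htn : ∀ j, ‖∑' i, a (i + j)‖ ≤ ∑' i, ‖a (i + j)‖ := fun j =>
    norm_tsum_le_tsum_norm ((summable_nat_add_iff j).2 hsum)
  have hfac : ∀ x : ℝ, (1 - ρ) * (x / (1 - r)) = (1 + r) * x := by
    intro x
    have : 1 - r ≠ 0 := by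
      have : 0 < 1 - r := by linarith
      exact this.ne'
    rw [hρ]
    field_simp
    ring
  have htail2 : ∀ j, m ≤ j → (1 - ρ) * ∑' i, ‖a (i + j)‖ ≤ 2 * G * r ^ j := by
    intro j hj
    calc (1 - ρ) * ∑' i, ‖a (i + j)‖ ≤ (1 - ρ) * (G * r ^ j / (1 - r)) :=
          mul_le_mul_of_nonneg_left (htail j hj) (by linarith)
      _ = (1 + r) * (G * r ^ j) := hfac _
      _ ≤ 2 * (G * r ^ j) := mul_le_mul_of_nonneg_right (by linarith) (by positivity)
      _ = 2 * G * r ^ j := by ring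
  have hZ : ∀ j, j ≤ n → CC (fun k => s k * (ρ : ℂ) ^ k) j - FF s m n
      = a j - (1 - (ρ : ℂ)) * ∑' i, a (i + j) := by
    intro j hj
    have h1 : CC (fun k => s k * (ρ : ℂ) ^ k) j = CC (fun k => s' k * (ρ : ℂ) ^ k) j := by
      apply CC_congr
      intro k _ hk
      rw [hs']
      simp only [trunc, if_pos (hk.trans hj)]
    rw [h1, CC_abel, hFS, hsplit j]
    simp only [ha]
    ring
  have hZn : ∀ j, j ≤ n → ‖CC (fun k => s k * (ρ : ℂ) ^ k) j - FF s m n‖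
      ≤ ‖a j‖ + (1 - ρ) * ∑' i, ‖a (i + j)‖ := by
    intro j hj
    rw [hZ j hj]
    refine (norm_sub_le _ _).trans ?_
    rw [norm_mul (1 - (ρ : ℂ)), hnorm1]
    have := mul_le_mul_of_nonneg_left (htn j) (by linarith : 0 ≤ 1 - ρ)
    linarith
  have haC : ∀ j, j ≤ n → ‖a j‖ ≤ ‖CC s j‖ := by
    intro j hj
    rw [hna, hs', trunc_CC s hj]
    have : ρ ^ j ≤ 1 := pow_le_one₀ hρ0.le hρ1.le
    have h2 := norm_nonneg (CC s j)
    nlinarith
  refine ⟨?_, ?_, ?_⟩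
  · intro j hj hmj
    have h1 := hZn j hj
    have h2 := hbd j hmj
    have h3 := htail2 j hmj
    linarith
  · intro j hj
    have h1 := hZn j hj
    have h2 := haC j hj
    -- total mass
    have h3 : ∑' i, ‖a (i + j)‖ ≤ ∑' i, ‖a i‖ := by
      rw [← hsum.sum_add_tsum_nat_add j]
      have : 0 ≤ ∑ i ∈ range j, ‖a i‖ := Finset.sum_nonneg fun i _ => norm_nonneg _
      linarith
    have h4 : ∑' i, ‖a i‖ = ∑ i ∈ range m, ‖a i‖ + ∑' i, ‖a (i + m)‖ :=
      (hsum.sum_add_tsum_nat_add m).symm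
    have h5 : ∑ i ∈ range m, ‖a i‖ ≤ Q * (4 * m * en s m) := by
      calc ∑ i ∈ range m, ‖a i‖ ≤ ∑ i ∈ range m, Q * en s i := by
            refine Finset.sum_le_sum fun i hi => ?_
            rw [Finset.mem_range] at hi
            exact (haC i (by omega)).trans (hQ i (by omega))
        _ = Q * ∑ i ∈ range m, en s i := by rw [Finset.mul_sum]
        _ ≤ Q * (4 * m * en s m) := mul_le_mul_of_nonneg_left (sum_en_le hσ hs m) hQ0
    have h6 : (1 - ρ) * ∑ i ∈ range m, ‖a i‖ ≤ G / 2 := by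
      have h7 : 1 - ρ ≤ 1 / m := one_sub_rho
      calc (1 - ρ) * ∑ i ∈ range m, ‖a i‖ ≤ (1 / m) * (Q * (4 * m * en s m)) :=
            mul_le_mul h7 h5 (Finset.sum_nonneg fun i _ => norm_nonneg _) (by positivity)
        _ = G / 2 := by rw [hG]; field_simp; ring
    have h8 := htail2 m le_rfl
    have h9 : 2 * G * r ^ m ≤ 2 * G := by
      have : r ^ m ≤ 1 := pow_le_one₀ hr0.le hr1.le
      nlinarith
    have h10 : (1 - ρ) * ∑' i, ‖a (i + j)‖ ≤ (1 - ρ) * ∑' i, ‖a i‖ :=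
      mul_le_mul_of_nonneg_left h3 (by linarith)
    rw [h4, mul_add] at h10
    linarith
  · intro P hmP hPn
    rw [hFS, hsplit P, norm_mul, hnorm1]
    have h1 : ‖∑ i ∈ range P, a i + ∑' i, a (i + P)‖
        ≤ ∑ i ∈ range P, ‖CC s i‖ + ∑' i, ‖a (i + P)‖ := by
      refine (norm_add_le _ _).trans (add_le_add ?_ (htn P))
      refine (norm_sum_le _ _).trans (Finset.sum_le_sum fun i hi => ?_)
      rw [Finset.mem_range] at hi
      exact haC i (by omega)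
    have h2 : (1 - ρ) * ∑ i ∈ range P, ‖CC s i‖ ≤ (1 / m) * ∑ i ∈ range P, ‖CC s i‖ :=
      mul_le_mul_of_nonneg_right one_sub_rho (Finset.sum_nonneg fun i _ => norm_nonneg _)
    have h3 := htail2 P hmP
    have h4 := mul_le_mul_of_nonneg_left h1 (by linarith : 0 ≤ 1 - ρ)
    rw [mul_add] at h4
    linarith

/-- the high frequency part -/
noncomputable def tt (s : ℕ → ℂ) (m : ℕ) : ℕ → ℂ :=
  fun k => s k * (1 - (((rr m ^ 2 : ℝ)) : ℂ) ^ k)

/-- the logarithmic mass -/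
noncomputable def LL (m n : ℕ) : ℝ := ∑ k ∈ range n, (1 - (rr m ^ 2) ^ (k + 1)) / ((k : ℝ) + 1)

lemma rho_nonneg (m : ℕ) : 0 ≤ rr m ^ 2 := by positivity

lemma rho_le_one {m : ℕ} (hm : 1 ≤ m) : rr m ^ 2 ≤ 1 :=
  pow_le_one₀ (rr_pos m).le (rr_lt_one hm).le

lemma one_sub_nonneg {m : ℕ} (hm : 1 ≤ m) (k : ℕ) : 0 ≤ 1 - (rr m ^ 2) ^ k := by
  have := pow_le_one₀ (n := k) (rho_nonneg m) (rho_le_one hm)
  linarith

lemma tt_eq (s : ℕ → ℂ) (m k : ℕ) : tt s m k = s k * ((1 - (rr m ^ 2) ^ k : ℝ) : ℂ) := by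
  unfold tt
  push_cast
  rfl

lemma tt_re (s : ℕ → ℂ) (m k : ℕ) : (tt s m k).re = (s k).re * (1 - (rr m ^ 2) ^ k) := by
  rw [tt_eq, Complex.re_mul_ofReal]

lemma tt_norm {s : ℕ → ℂ} {m : ℕ} (hm : 1 ≤ m) (k : ℕ) :
    ‖tt s m k‖ = ‖s k‖ * (1 - (rr m ^ 2) ^ k) := by
  rw [tt_eq, norm_mul, Complex.norm_real, Real.norm_eq_abs, abs_of_nonneg (one_sub_nonneg hm k)]

lemma norm_FF (s : ℕ → ℂ) (m n : ℕ) :
    ‖FF s m n‖ = Real.exp (- ∑ k ∈ range n, (s (k + 1)).re * (rr m ^ 2) ^ (k + 1) / ((k : ℝ) + 1)) := by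
  unfold FF
  rw [Complex.norm_exp, Complex.re_sum, ← Finset.sum_neg_distrib]
  congr 1
  refine Finset.sum_congr rfl fun k _ => ?_
  have h1 : ((k : ℂ) + 1) = (((k : ℝ) + 1 : ℝ) : ℂ) := by push_cast; rfl
  rw [h1, Complex.div_ofReal_re, Complex.neg_re, ← Complex.ofReal_pow, Complex.re_mul_ofReal, neg_div]

lemma norm_FF_mul (s : ℕ → ℂ) (m n : ℕ) : ‖FF s m n‖ * en (tt s m) n = en s n := by
  rw [norm_FF]
  unfold en
  rw [← Real.exp_add, ← neg_add, ← Finset.sum_add_distrib]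
  congr 2
  refine Finset.sum_congr rfl fun k _ => ?_
  rw [tt_re]
  ring

lemma FF_ne (s : ℕ → ℂ) (m n : ℕ) : 0 < ‖FF s m n‖ := by
  rw [norm_FF]; exact Real.exp_pos _

/-- geometric tail in the exponent -/
lemma tail_le {m : ℕ} (hm : 1 ≤ m) (n : ℕ) (hmn : m ≤ n) :
    ∑ k ∈ Finset.Ico m n, (rr m ^ 2) ^ (k + 1) / ((k : ℝ) + 1) ≤ 1 := by
  have hm0 : (0 : ℝ) < m := by exact_mod_cast hm
  set ρ := rr m ^ 2 with hρ
  have hρ0 : 0 ≤ ρ := rho_nonneg m
  have hρ1 : ρ < 1 := by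
    have := rr_lt_one hm
    have h2 := rr_pos m
    rw [hρ]; nlinarith
  have h1 : ∀ k ∈ Finset.Ico m n, ρ ^ (k + 1) / ((k : ℝ) + 1) ≤ ρ ^ (k + 1) / m := by
    intro k hk
    rw [Finset.mem_Ico] at hk
    have : (m : ℝ) ≤ k := by exact_mod_cast hk.1
    gcongr
    linarith
  have h2 : ∑ k ∈ Finset.Ico m n, ρ ^ (k + 1) ≤ m := by
    have h3 : ∀ n, m ≤ n → (1 - ρ) * ∑ k ∈ Finset.Ico m n, ρ ^ (k + 1) = ρ ^ (m + 1) - ρ ^ (n + 1) := by
      intro n hn
      induction n, hn using Nat.le_induction with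
      | base => simp
      | succ n hn ih =>
        rw [Finset.sum_Ico_succ_top hn, mul_add, ih]
        ring
    have h4 := h3 n hmn
    have h5 : ρ ^ (m + 1) ≤ ρ := by
      have := pow_le_one₀ (n := m) hρ0 hρ1.le
      rw [pow_succ]
      nlinarith
    have h6 := rho_ratio hm
    have h7 : 0 ≤ ρ ^ (n + 1) := by positivity
    have h8 : (1 - ρ) * ∑ k ∈ Finset.Ico m n, ρ ^ (k + 1) ≤ (1 - ρ) * m := by
      rw [h4]; linarith
    exact le_of_mul_le_mul_left h8 (by linarith)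
  calc ∑ k ∈ Finset.Ico m n, ρ ^ (k + 1) / ((k : ℝ) + 1)
      ≤ ∑ k ∈ Finset.Ico m n, ρ ^ (k + 1) / m := Finset.sum_le_sum h1
    _ = (∑ k ∈ Finset.Ico m n, ρ ^ (k + 1)) / m := by rw [Finset.sum_div]
    _ ≤ 1 := by rw [div_le_one hm0]; exact h2

lemma head_le {m : ℕ} (hm : 1 ≤ m) : LL m m ≤ 1 := by
  have hm0 : (0 : ℝ) < m := by exact_mod_cast hm
  unfold LL
  calc ∑ k ∈ range m, (1 - (rr m ^ 2) ^ (k + 1)) / ((k : ℝ) + 1)
      ≤ ∑ k ∈ range m, 1 / (m : ℝ) := by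
        refine Finset.sum_le_sum fun k _ => ?_
        have := one_sub_rho_pow m (k + 1)
        push_cast at this
        rw [div_le_div_iff₀ (by positivity) hm0]
        rw [le_div_iff₀ hm0] at this
        linarith
    _ = 1 := by
        rw [Finset.sum_const, Finset.card_range, nsmul_eq_mul]
        field_simp

lemma em_le {σ : ℝ} (hσ0 : 0 ≤ σ) (hσ : σ ≤ 3 / 4) {s : ℕ → ℂ} (hs : Disc σ s)
    {n m : ℕ} (hm : 1 ≤ m) (hmn : m ≤ n) : en s m ≤ 8 * ‖FF s m n‖ := by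
  have h1 : en s m ≤ Real.exp (3 / 2) * ‖FF s m n‖ := by
    rw [norm_FF]
    unfold en
    rw [← Real.exp_add]
    apply Real.exp_le_exp.2
    have h2 : ∑ k ∈ range n, (s (k + 1)).re * (rr m ^ 2) ^ (k + 1) / ((k : ℝ) + 1)
        = ∑ k ∈ range m, (s (k + 1)).re * (rr m ^ 2) ^ (k + 1) / ((k : ℝ) + 1)
          + ∑ k ∈ Finset.Ico m n, (s (k + 1)).re * (rr m ^ 2) ^ (k + 1) / ((k : ℝ) + 1) := by
      rw [Finset.range_eq_Ico, Finset.range_eq_Ico, Finset.sum_Ico_consecutive _ (by omega) hmn]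
    have h3 : ∑ k ∈ Finset.Ico m n, (s (k + 1)).re * (rr m ^ 2) ^ (k + 1) / ((k : ℝ) + 1)
        ≤ σ * 1 := by
      refine le_trans ?_ (mul_le_mul_of_nonneg_left (tail_le hm n hmn) hσ0)
      rw [Finset.mul_sum]
      refine Finset.sum_le_sum fun k _ => ?_
      rw [mul_div_assoc]
      apply mul_le_mul_of_nonneg_right ((Complex.re_le_norm _).trans (hs _))
      have := rho_nonneg m
      positivity
    have h4 : ∑ k ∈ range m, (s (k + 1)).re * (rr m ^ 2) ^ (k + 1) / ((k : ℝ) + 1)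
        - ∑ k ∈ range m, (s (k + 1)).re / ((k : ℝ) + 1) ≤ σ * 1 := by
      refine le_trans ?_ (mul_le_mul_of_nonneg_left (head_le hm) hσ0)
      unfold LL
      rw [Finset.mul_sum, ← Finset.sum_sub_distrib]
      refine Finset.sum_le_sum fun k _ => ?_
      have h5 : (s (k + 1)).re * (rr m ^ 2) ^ (k + 1) / ((k : ℝ) + 1) - (s (k + 1)).re / ((k : ℝ) + 1)
          = (-(s (k + 1)).re) * ((1 - (rr m ^ 2) ^ (k + 1)) / ((k : ℝ) + 1)) := by
        field_simp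
        ring
      rw [h5]
      have h6 : -(s (k + 1)).re ≤ σ := by
        have := abs_le.1 ((Complex.abs_re_le_norm (s (k + 1))).trans (hs (k + 1)))
        linarith [this.1]
      apply mul_le_mul_of_nonneg_right h6
      exact div_nonneg (one_sub_nonneg hm _) (by positivity)
    linarith
  have h2 : Real.exp (3 / 2) ≤ 8 := by
    have h3 : Real.exp (3 / 2) ≤ Real.exp 2 := Real.exp_le_exp.2 (by norm_num)
    have h4 : Real.exp 2 = Real.exp 1 ^ 2 := by rw [← Real.exp_nat_mul]; norm_num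
    have h5 := Real.exp_one_lt_d9
    have h6 := Real.exp_pos 1
    nlinarith
  have h3 := FF_ne s m n
  nlinarith

lemma exp_LL_le {m n M : ℕ} (hm : 1 ≤ m) (hM : 1 ≤ M) (hmn : m ≤ n) (hn : n < M * (m + 1)) :
    Real.exp (LL m n) ≤ 6 * M := by
  have hm0 : (0 : ℝ) < m := by exact_mod_cast hm
  have h1 : ∀ n, m ≤ n → Real.exp (LL m n) ≤ Real.exp 1 * ((n : ℝ) / m) := by
    intro n hn
    induction n, hn using Nat.le_induction with
    | base =>
      rw [div_self hm0.ne', mul_one]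
      exact Real.exp_le_exp.2 (head_le hm)
    | succ n hn ih =>
      have hn1 : 1 ≤ n := by omega
      have hn0 : (0 : ℝ) < n := by exact_mod_cast hn1
      have h2 : LL m (n + 1) ≤ LL m n + 1 / ((n : ℝ) + 1) := by
        unfold LL
        rw [Finset.sum_range_succ]
        gcongr
        have := rho_nonneg m
        have h3 : 0 ≤ (rr m ^ 2) ^ (n + 1) := by positivity
        linarith
      have h3 := exp_inv_le n hn1
      push_cast
      calc Real.exp (LL m (n + 1)) ≤ Real.exp (LL m n + 1 / ((n : ℝ) + 1)) :=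
            Real.exp_le_exp.2 h2
        _ = Real.exp (LL m n) * Real.exp (1 / ((n : ℝ) + 1)) := Real.exp_add _ _
        _ ≤ (Real.exp 1 * ((n : ℝ) / m)) * (((n : ℝ) + 1) / n) :=
            mul_le_mul ih h3 (Real.exp_pos _).le (by positivity)
        _ = Real.exp 1 * (((n : ℝ) + 1) / m) := by field_simp
  refine (h1 n hmn).trans ?_
  have h2 : (n : ℝ) / m ≤ 2 * M := by
    rw [div_le_iff₀ hm0]
    have h3 : ((n : ℕ) : ℝ) ≤ ((M * (m + 1) : ℕ) : ℝ) := by exact_mod_cast hn.le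
    push_cast at h3
    have h4 : (1 : ℝ) ≤ m := by exact_mod_cast hm
    have h5 : (0 : ℝ) ≤ M := by positivity
    nlinarith
  have h3 := Real.exp_one_lt_d9
  have h4 := Real.exp_pos 1
  have h5 : (0 : ℝ) < M := by exact_mod_cast hM
  nlinarith

end Pool.Agent.Helper474.Tur
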