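import Pool.Agent.Helper474.TurC

/-!
The step lemma, regularity and damping.
-/

set_option autoImplicit false

namespace Pool.Agent.Helper474.Tur

open Finset

lemma norm_natCast_add_one (n : ℕ) : ‖((n : ℂ) + 1)‖ = (n : ℝ) + 1 := by
  have : ((n : ℂ) + 1) = (((n : ℝ) + 1 : ℝ) : ℂ) := by push_cast; rfl
  rw [this, Complex.norm_real, Real.norm_eq_abs, abs_of_nonneg (by positivity)]

lemma cc_le {t : ℕ → ℂ} (ht : ∀ k, ‖t k‖ ≤ 1) (n i : ℕ) (hi : i + 1 ≤ n) :
    ((i : ℝ) + 1) * ‖cc t (i + 1)‖ ≤ ∑ j ∈ range (n + 1), ‖cc t j‖ := by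
  have h1 : ((i : ℂ) + 1) * cc t (i + 1) = ∑ k ∈ range (i + 1), (- t (k + 1)) * cc t (i - k) := by
    unfold cc
    exact ee_succ _ i
  have h2 : ((i : ℝ) + 1) * ‖cc t (i + 1)‖ = ‖((i : ℂ) + 1) * cc t (i + 1)‖ := by
    rw [norm_mul, norm_natCast_add_one]
  rw [h2, h1]
  calc ‖∑ k ∈ range (i + 1), (- t (k + 1)) * cc t (i - k)‖
      ≤ ∑ k ∈ range (i + 1), ‖(- t (k + 1)) * cc t (i - k)‖ := norm_sum_le _ _
    _ ≤ ∑ k ∈ range (i + 1), ‖cc t (i + 1 - 1 - k)‖ := by
        refine Finset.sum_le_sum fun k _ => ?_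
        rw [norm_mul, norm_neg]
        have h3 : i + 1 - 1 - k = i - k := by omega
        rw [h3]
        have h4 := ht (k + 1)
        have h5 := norm_nonneg (cc t (i - k))
        nlinarith
    _ = ∑ k ∈ range (i + 1), ‖cc t k‖ := Finset.sum_range_reflect (fun k => ‖cc t k‖) (i + 1)
    _ ≤ ∑ j ∈ range (n + 1), ‖cc t j‖ := by
        apply Finset.sum_le_sum_of_subset_of_nonneg
        · intro x hx
          rw [Finset.mem_range] at hx ⊢
          omega
        · intro x _ _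
          exact norm_nonneg _

/-- the step lemma -/
lemma step {σ ω Q : ℝ} (hσ0 : 0 < σ) (hσ : σ ≤ 3 / 4) (hω : ω ^ 2 = 2 * σ ^ 2) (hω0 : 0 < ω)
    {s : ℕ → ℂ} (hs : Disc σ s) {n m M : ℕ} (hm : 1 ≤ m) (hM : 2 ≤ M) (hmn : M * m ≤ n)
    (hQ0 : 0 ≤ Q) (hQ : ∀ j < n, ‖CC s j‖ ≤ Q * en s j) :
    ‖CC s n - FF s m n * CC (tt s m) n‖
      ≤ 4608 * Q / M * Real.exp (ω * LL m n) * en s n ∧
    ‖CC (tt s m) n‖ ≤ 2 * Real.exp (ω * LL m n) * en (tt s m) n := by
  have hm0 : (0 : ℝ) < m := by exact_mod_cast hm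
  have hM0 : (0 : ℝ) < M := by
    have : 0 < M := by omega
    exact_mod_cast this
  have hmn1 : m < n := by nlinarith
  have hmn2 : m ≤ n := hmn1.le
  have hn0 : (0 : ℝ) < n := by
    have : 0 < n := by omega
    exact_mod_cast this
  set t : ℕ → ℂ := tt s m with ht
  set V : ℝ := ∑ i ∈ range (n + 1), ‖cc t i‖ with hV
  have hV0 : 0 ≤ V := Finset.sum_nonneg fun i _ => norm_nonneg _
  have hVle : V ≤ 2 * Real.exp (ω * LL m n) * en t n :=
    kappa_lemma hσ0 (by linarith) hω hω0 (rho_nonneg m) (rho_le_one hm) hs n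
  set F := FF s m n with hF
  set G : ℝ := 8 * Q * en s m with hG
  have hG0 : 0 ≤ G := by
    have := en_pos s m
    positivity
  obtain ⟨hZ1, hZ2, -⟩ := step_data hσ0.le hσ hs hm hmn2 hQ0 hQ
  set u : ℕ → ℂ := fun k => s k * (((rr m ^ 2 : ℝ)) : ℂ) ^ k with hu
  have ht1 : ∀ k, ‖t k‖ ≤ 1 := by
    intro k
    rw [ht, tt_norm hm]
    have h1 := hs k
    have h2 := one_sub_nonneg hm k
    have h3 : 1 - (rr m ^ 2) ^ k ≤ 1 := by
      have := rho_nonneg m
      have h4 : 0 ≤ (rr m ^ 2) ^ k := by positivity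
      linarith
    have h4 := norm_nonneg (s k)
    nlinarith
  have hCn : CC s n = ∑ j ∈ range (n + 1), CC u j * cc t (n - j) := by
    rw [← CC_add]
    congr 1
    funext k
    simp only [hu, ht, tt]
    ring
  have hCt : CC t n = ∑ j ∈ range (n + 1), cc t (n - j) := by
    rw [CC_eq_sum, ← Finset.sum_range_reflect (fun j => cc t j)]
    refine Finset.sum_congr rfl fun j _ => ?_
    congr 1
  have hdiff : CC s n - F * CC t n = ∑ j ∈ range (n + 1), (CC u j - F) * cc t (n - j) := by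
    rw [hCn, hCt, Finset.mul_sum, ← Finset.sum_sub_distrib]
    refine Finset.sum_congr rfl fun j _ => ?_
    ring
  have hVr : ∑ j ∈ range (n + 1), ‖cc t (n - j)‖ = V := by
    rw [hV, ← Finset.sum_range_reflect (fun j => ‖cc t j‖)]
    refine Finset.sum_congr rfl fun j _ => ?_
    congr 2
  -- far terms
  have hfar : ∀ j, j ≤ n → n < 2 * j → ‖CC u j - F‖ ≤ 12 * G / M := by
    intro j hj h2
    have hmj : m ≤ j := by nlinarith
    have h3 := hZ1 j hj hmj
    have h4 := rr_pow_le (j := j) hm (by omega : 1 ≤ M) (by omega)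
    calc ‖CC u j - F‖ ≤ 3 * G * rr m ^ j := h3
      _ ≤ 3 * G * (4 / M) := mul_le_mul_of_nonneg_left h4 (by positivity)
      _ = 12 * G / M := by ring
  have hnear : ∀ j, 2 * j ≤ n → ‖cc t (n - j)‖ ≤ 2 * V / n := by
    intro j hj
    obtain ⟨i, hi⟩ : ∃ i, n - j = i + 1 := ⟨n - j - 1, by omega⟩
    have h1 := cc_le ht1 n i (by omega)
    rw [hi, le_div_iff₀ hn0]
    have h2 : (n : ℝ) ≤ 2 * ((i : ℝ) + 1) := by
      have : n ≤ 2 * (i + 1) := by omega
      exact_mod_cast this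
    have h3 := norm_nonneg (cc t (i + 1))
    nlinarith
  have hterm : ∀ j, j < n → ‖(CC u j - F) * cc t (n - j)‖
      ≤ (2 * V / n) * ‖CC u j - F‖ + (12 * G / M) * ‖cc t (n - j)‖ := by
    intro j hj
    rw [norm_mul]
    have h5 := norm_nonneg (CC u j - F)
    have h6 := norm_nonneg (cc t (n - j))
    by_cases h : 2 * j ≤ n
    · have h1 := hnear j h
      have h2 : 0 ≤ (12 * G / M) * ‖cc t (n - j)‖ := by positivity
      nlinarith
    · have h1 := hfar j hj.le (by omega)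
      have h2 : 0 ≤ (2 * V / n) * ‖CC u j - F‖ := by positivity
      nlinarith
  have hsumZ : ∑ j ∈ range n, ‖CC u j - F‖ ≤ 12 * m * G := by
    have h1 : ∑ j ∈ range n, ‖CC u j - F‖
        = ∑ j ∈ range m, ‖CC u j - F‖ + ∑ j ∈ Finset.Ico m n, ‖CC u j - F‖ := by
      rw [Finset.range_eq_Ico, Finset.range_eq_Ico, Finset.sum_Ico_consecutive _ (by omega) hmn2]
    have h2 : ∑ j ∈ range m, ‖CC u j - F‖ ≤ m * G / 2 + m * (5 / 2 * G) := by
      calc ∑ j ∈ range m, ‖CC u j - F‖ ≤ ∑ j ∈ range m, (Q * en s j + 5 / 2 * G) := by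
            refine Finset.sum_le_sum fun j hj => ?_
            rw [Finset.mem_range] at hj
            have := hZ2 j (by omega)
            have h3 := hQ j (by omega)
            linarith
        _ = Q * ∑ j ∈ range m, en s j + m * (5 / 2 * G) := by
            rw [Finset.sum_add_distrib, Finset.mul_sum, Finset.sum_const, Finset.card_range,
              nsmul_eq_mul]
        _ ≤ Q * (4 * m * en s m) + m * (5 / 2 * G) := by
            have := mul_le_mul_of_nonneg_left (sum_en_le hσ hs m) hQ0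
            linarith
        _ = m * G / 2 + m * (5 / 2 * G) := by rw [hG]; ring
    have h3 : ∑ j ∈ Finset.Ico m n, ‖CC u j - F‖ ≤ 9 * m * G := by
      have hr0 := rr_pos m
      have hr1 := rr_lt_one hm
      have h4 : ∑ j ∈ Finset.Ico m n, rr m ^ j ≤ 3 * m := by
        have h5 : ∀ n, m ≤ n → (1 - rr m) * ∑ k ∈ Finset.Ico m n, rr m ^ k
            = rr m ^ m - rr m ^ n := by
          intro n hn
          induction n, hn using Nat.le_induction with
          | base => simp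
          | succ n hn ih =>
            rw [Finset.sum_Ico_succ_top hn, mul_add, ih]
            ring
        have h6 := h5 n hmn2
        have h7 : rr m ^ m ≤ 1 := pow_le_one₀ hr0.le hr1.le
        have h8 : 0 ≤ rr m ^ n := by positivity
        have h9 := rr_geom hm
        have h10 : (1 - rr m) * ∑ k ∈ Finset.Ico m n, rr m ^ k ≤ (1 - rr m) * (3 * m) := by
          rw [h6]; linarith
        exact le_of_mul_le_mul_left h10 (by linarith)
      calc ∑ j ∈ Finset.Ico m n, ‖CC u j - F‖ ≤ ∑ j ∈ Finset.Ico m n, 3 * G * rr m ^ j := by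
            refine Finset.sum_le_sum fun j hj => ?_
            rw [Finset.mem_Ico] at hj
            exact hZ1 j hj.2.le hj.1
        _ = 3 * G * ∑ j ∈ Finset.Ico m n, rr m ^ j := by rw [Finset.mul_sum]
        _ ≤ 3 * G * (3 * m) := mul_le_mul_of_nonneg_left h4 (by positivity)
        _ = 9 * m * G := by ring
    rw [h1]
    nlinarith
  have hmain : ‖CC s n - F * CC t n‖ ≤ 36 * G * V / M := by
    rw [hdiff]
    refine (norm_sum_le _ _).trans ?_
    rw [Finset.sum_range_succ]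
    have h1 : ∑ j ∈ range n, ‖(CC u j - F) * cc t (n - j)‖
        ≤ (2 * V / n) * (12 * m * G) + (12 * G / M) * ∑ j ∈ range n, ‖cc t (n - j)‖ := by
      calc ∑ j ∈ range n, ‖(CC u j - F) * cc t (n - j)‖
          ≤ ∑ j ∈ range n, ((2 * V / n) * ‖CC u j - F‖ + (12 * G / M) * ‖cc t (n - j)‖) :=
            Finset.sum_le_sum fun j hj => hterm j (Finset.mem_range.1 hj)
        _ = (2 * V / n) * ∑ j ∈ range n, ‖CC u j - F‖
            + (12 * G / M) * ∑ j ∈ range n, ‖cc t (n - j)‖ := by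
            rw [Finset.sum_add_distrib, ← Finset.mul_sum, ← Finset.mul_sum]
        _ ≤ _ := by
            have := mul_le_mul_of_nonneg_left hsumZ (by positivity : 0 ≤ 2 * V / n)
            linarith
    have h2 : ‖(CC u n - F) * cc t (n - n)‖ ≤ (12 * G / M) * ‖cc t (n - n)‖ := by
      rw [norm_mul]
      exact mul_le_mul_of_nonneg_right (hfar n le_rfl (by omega)) (norm_nonneg _)
    have h3 : (12 * G / M) * ∑ j ∈ range n, ‖cc t (n - j)‖ + (12 * G / M) * ‖cc t (n - n)‖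
        = (12 * G / M) * V := by
      rw [← hVr, Finset.sum_range_succ]; ring
    have h4 : (2 * V / n) * (12 * m * G) ≤ 24 * G * V / M := by
      rw [div_mul_eq_mul_div, div_le_div_iff₀ hn0 hM0]
      have h5 : ((M * m : ℕ) : ℝ) ≤ (n : ℝ) := by exact_mod_cast hmn
      push_cast at h5
      have h6 : 0 ≤ 24 * G * V := by positivity
      calc 2 * V * (12 * m * G) * M = 24 * G * V * (M * m) := by ring
        _ ≤ 24 * G * V * n := mul_le_mul_of_nonneg_left h5 h6
    have h5 : 24 * G * V / M + (12 * G / M) * V = 36 * G * V / M := by ring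
    linarith
  constructor
  · refine hmain.trans ?_
    have h1 := em_le hσ0.le hσ hs hm hmn2
    have h2 := norm_FF_mul s m n
    have h3 := FF_ne s m n
    have h4 := en_pos t n
    have h5 := Real.exp_pos (ω * LL m n)
    have h6 : G * V ≤ (8 * Q * (8 * ‖F‖)) * (2 * Real.exp (ω * LL m n) * en t n) := by
      apply mul_le_mul _ hVle hV0 (by positivity)
      rw [hG]
      exact mul_le_mul_of_nonneg_left h1 (by positivity)
    have h7 : (8 * Q * (8 * ‖F‖)) * (2 * Real.exp (ω * LL m n) * en t n)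
        = 128 * Q * Real.exp (ω * LL m n) * en s n := by
      rw [← h2]; ring
    rw [h7] at h6
    have h8 : 36 * G * V / M = 36 / M * (G * V) := by ring
    rw [h8]
    calc 36 / M * (G * V) ≤ 36 / M * (128 * Q * Real.exp (ω * LL m n) * en s n) :=
          mul_le_mul_of_nonneg_left h6 (by positivity)
      _ = 4608 * Q / M * Real.exp (ω * LL m n) * en s n := by ring
  · rw [CC_eq_sum]
    exact (norm_sum_le _ _).trans hVle

lemma exists_M (K : ℝ) {ω δ : ℝ} (hω1 : ω < 1) (hδ : 0 < δ) :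
    ∃ M : ℕ, 2 ≤ M ∧ K * (6 * (M : ℝ)) ^ ω / M ≤ δ := by
  have h1 : Filter.Tendsto (fun x : ℝ => K * 6 ^ ω * x ^ (-(1 - ω))) Filter.atTop
      (nhds (K * 6 ^ ω * 0)) := (tendsto_rpow_neg_atTop (by linarith : 0 < 1 - ω)).const_mul _
  rw [mul_zero] at h1
  have h2 := h1.comp tendsto_natCast_atTop_atTop
  have h3 := (h2.eventually (gt_mem_nhds hδ)).and (Filter.eventually_ge_atTop 2)
  obtain ⟨M, hM, hM2⟩ := h3.exists
  refine ⟨M, hM2, ?_⟩
  have hM0 : (0 : ℝ) < M := by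
    have : 0 < M := by omega
    exact_mod_cast this
  have h4 : K * (6 * (M : ℝ)) ^ ω / M = K * 6 ^ ω * (M : ℝ) ^ (-(1 - ω)) := by
    rw [Real.mul_rpow (by norm_num) hM0.le]
    have h5 : -(1 - ω) = ω - 1 := by ring
    rw [h5, Real.rpow_sub_one hM0.ne']
    ring
  rw [h4]
  exact hM.le

lemma exp_omega_LL {ω : ℝ} (hω0 : 0 < ω) {m n M : ℕ} (hm : 1 ≤ m) (hM : 1 ≤ M) (hmn : m ≤ n)
    (hn : n < M * (m + 1)) : Real.exp (ω * LL m n) ≤ (6 * (M : ℝ)) ^ ω := by
  rw [mul_comm, Real.exp_mul]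
  exact Real.rpow_le_rpow (Real.exp_pos _).le (exp_LL_le hm hM hmn hn) hω0.le

/-- regularity -/
lemma reg {σ ω : ℝ} (hσ0 : 0 < σ) (hσ : σ ≤ 3 / 4) (hω : ω ^ 2 = 2 * σ ^ 2) (hω0 : 0 < ω)
    (hω1 : ω < 1) : ∃ Q : ℝ, 1 ≤ Q ∧ ∀ s : ℕ → ℂ, Disc σ s → ∀ n, ‖CC s n‖ ≤ Q * en s n := by
  obtain ⟨M, hM2, hM⟩ := exists_M 4608 hω1 (by norm_num : (0 : ℝ) < 1 / 2)
  have hM0 : (0 : ℝ) < M := by
    have : 0 < M := by omega
    exact_mod_cast this
  have hM1 : (1 : ℝ) ≤ M := by
    have : 1 ≤ M := by omega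
    exact_mod_cast this
  set B : ℝ := (6 * (M : ℝ)) ^ ω with hB
  have hB0 : 0 ≤ B := by positivity
  set Q : ℝ := 4 * M ^ 3 + 4 * B with hQdef
  have hM3 : (1 : ℝ) ≤ (M : ℝ) ^ 3 := one_le_pow₀ hM1
  have hQ4 : 4 * (M : ℝ) ^ 3 ≤ Q := by linarith
  have hQ1 : 1 ≤ Q := by linarith
  refine ⟨Q, hQ1, fun s hs n => ?_⟩
  have hσ1 : σ ≤ 1 := by linarith
  induction n using Nat.strong_induction_on with
  | _ n ih =>
    by_cases hn : n < M
    · rcases Nat.eq_zero_or_pos n with rfl | hn1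
      · rw [CC_zero, en_zero, norm_one, mul_one]; exact hQ1
      · have h1 : ‖CC s n‖ ≤ ((n : ℝ) + 1) ^ 2 := by
          have h2 := growth hσ1 hs (le_refl 1) (by omega : 1 ≤ n + 1)
          have h3 : ‖CC s n‖ ≤ ∑ j ∈ range (n + 1), ‖CC s j‖ :=
            Finset.single_le_sum (f := fun j => ‖CC s j‖) (fun i _ => norm_nonneg _)
              (Finset.mem_range.2 (by omega))
          simp only [Finset.sum_range_one, CC_zero, norm_one, one_mul, Nat.cast_one, div_one] at h2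
          push_cast at h2
          linarith
        have h2 := (en_compare hσ1 hs (le_refl 1) hn1).2
        have h3 : 1 / 4 ≤ en s 1 := by
          have h4 := (en_ratio hs 0).1
          rw [en_zero] at h4
          have h5 := Real.add_one_le_exp (-(σ / (((0 : ℕ) : ℝ) + 1)))
          simp only [Nat.cast_zero, zero_add, div_one, one_mul] at h4 h5
          linarith
        have h4 : (n : ℝ) + 1 ≤ M := by exact_mod_cast hn
        have h5 : 1 / 4 ≤ en s n * M := by
          simp only [Nat.cast_one, div_one] at h2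
          have h6 := en_pos s n
          nlinarith
        have h6 : ((n : ℝ) + 1) ^ 2 ≤ (M : ℝ) ^ 2 := by gcongr
        have h7 := en_pos s n
        calc ‖CC s n‖ ≤ (M : ℝ) ^ 2 := h1.trans h6
          _ ≤ (M : ℝ) ^ 2 * (4 * (en s n * M)) := by nlinarith [sq_nonneg (M : ℝ)]
          _ = 4 * (M : ℝ) ^ 3 * en s n := by ring
          _ ≤ Q * en s n := mul_le_mul_of_nonneg_right hQ4 h7.le
    · push Not at hn
      set m := n / M with hm
      have hm1 : 1 ≤ m := (Nat.one_le_div_iff (by omega)).2 hn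
      have hmn : M * m ≤ n := Nat.mul_div_le n M
      have hnm : n < M * (m + 1) := Nat.lt_mul_div_succ n (by omega)
      have hmn2 : m ≤ n := Nat.div_le_self n M
      obtain ⟨h1, h2⟩ := step hσ0 hσ hω hω0 hs hm1 hM2 hmn (by linarith : 0 ≤ Q) ih
      have h3 := exp_omega_LL hω0 hm1 (by omega : 1 ≤ M) hmn2 hnm
      have h4 := norm_FF_mul s m n
      have h5 := FF_ne s m n
      have h6 := en_pos s n
      have h7 := en_pos (tt s m) n
      have h8 : ‖CC s n‖ ≤ ‖FF s m n * CC (tt s m) n‖ + ‖CC s n - FF s m n * CC (tt s m) n‖ := by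
        have := norm_add_le (FF s m n * CC (tt s m) n) (CC s n - FF s m n * CC (tt s m) n)
        simpa using this
      have h9 : ‖FF s m n * CC (tt s m) n‖ ≤ 2 * B * en s n := by
        rw [norm_mul]
        calc ‖FF s m n‖ * ‖CC (tt s m) n‖
            ≤ ‖FF s m n‖ * (2 * Real.exp (ω * LL m n) * en (tt s m) n) :=
              mul_le_mul_of_nonneg_left h2 h5.le
          _ = 2 * Real.exp (ω * LL m n) * (‖FF s m n‖ * en (tt s m) n) := by ring
          _ = 2 * Real.exp (ω * LL m n) * en s n := by rw [h4]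
          _ ≤ 2 * B * en s n := by gcongr
      have h10 : 4608 * Q / M * Real.exp (ω * LL m n) * en s n ≤ Q / 2 * en s n := by
        apply mul_le_mul_of_nonneg_right _ h6.le
        calc 4608 * Q / M * Real.exp (ω * LL m n) ≤ 4608 * Q / M * B := by gcongr
          _ = Q * (4608 * B / M) := by ring
          _ ≤ Q * (1 / 2) := mul_le_mul_of_nonneg_left hM (by linarith)
          _ = Q / 2 := by ring
      have h11 : 2 * B * en s n ≤ Q / 2 * en s n := by
        apply mul_le_mul_of_nonneg_right _ h6.le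
        linarith
      linarith

/-- damping: zero of `CC s` at `n` forces `CC (tt s m) n` to be relatively small -/
lemma damp {σ ω Q : ℝ} (hσ0 : 0 < σ) (hσ : σ ≤ 3 / 4) (hω : ω ^ 2 = 2 * σ ^ 2) (hω0 : 0 < ω)
    (hQ0 : 0 ≤ Q) {s : ℕ → ℂ} (hs : Disc σ s) (hQ : ∀ n, ‖CC s n‖ ≤ Q * en s n)
    {n m M : ℕ} (hm : 1 ≤ m) (hM : 2 ≤ M) (hmn : M * m ≤ n) (hnm : n < M * (m + 1))
    (h0 : CC s n = 0) :
    ‖CC (tt s m) n‖ ≤ 4608 * Q * (6 * (M : ℝ)) ^ ω / M * en (tt s m) n := by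
  have hM0 : (0 : ℝ) < M := by
    have : 0 < M := by omega
    exact_mod_cast this
  obtain ⟨h1, -⟩ := step hσ0 hσ hω hω0 hs hm hM hmn hQ0 (fun j _ => hQ j)
  have hmn2 : m ≤ n := by nlinarith
  have h3 := exp_omega_LL hω0 hm (by omega : 1 ≤ M) hmn2 hnm
  have h4 := norm_FF_mul s m n
  have h5 := FF_ne s m n
  have h7 := en_pos (tt s m) n
  rw [h0, zero_sub, norm_neg, norm_mul, ← h4] at h1
  have h6 : ‖FF s m n‖ * ‖CC (tt s m) n‖
      ≤ ‖FF s m n‖ * (4608 * Q * (6 * (M : ℝ)) ^ ω / M * en (tt s m) n) := by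
    calc ‖FF s m n‖ * ‖CC (tt s m) n‖
        ≤ 4608 * Q / M * Real.exp (ω * LL m n) * (‖FF s m n‖ * en (tt s m) n) := h1
      _ ≤ 4608 * Q / M * (6 * (M : ℝ)) ^ ω * (‖FF s m n‖ * en (tt s m) n) := by gcongr
      _ = ‖FF s m n‖ * (4608 * Q * (6 * (M : ℝ)) ^ ω / M * en (tt s m) n) := by ring
  exact le_of_mul_le_mul_left h6 h5

/-- lower bound for the l1 mass -/
lemma lower {σ Q : ℝ} (hσ0 : 0 ≤ σ) (hσ : σ ≤ 3 / 4) (hQ0 : 0 ≤ Q) {s : ℕ → ℂ} (hs : Disc σ s)
    (hQ : ∀ n, ‖CC s n‖ ≤ Q * en s n) {m P A : ℕ} (hm : 1 ≤ m) (hA : 1 ≤ A)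
    (hAQ : 1024 * Q ≤ A) (hP : A * m ≤ P) :
    m * en s m / 16 ≤ ∑ i ∈ range P, ‖CC s i‖ := by
  have hm0 : (0 : ℝ) < m := by exact_mod_cast hm
  have hA0 : (0 : ℝ) < A := by exact_mod_cast hA
  have hmP : m ≤ P := by nlinarith
  obtain ⟨-, -, h1⟩ := step_data hσ0 hσ hs hm hmP hQ0 (fun j _ => hQ j)
  have h2 := h1 P hmP le_rfl
  have h3 := em_le hσ0 hσ hs hm hmP
  have h4 := rr_pow_le (j := P) hm hA (by omega)
  have h5 := en_pos s m
  have h6 : 2 * (8 * Q * en s m) * rr m ^ P ≤ en s m / 16 := by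
    calc 2 * (8 * Q * en s m) * rr m ^ P ≤ 2 * (8 * Q * en s m) * (4 / A) := by gcongr
      _ = (1024 * Q / A) * (en s m / 16) := by ring
      _ ≤ 1 * (en s m / 16) := by
          apply mul_le_mul_of_nonneg_right _ (by positivity)
          rw [div_le_one hA0]; exact hAQ
      _ = en s m / 16 := by ring
  have h7 : en s m / 16 ≤ (1 / m) * ∑ i ∈ range P, ‖CC s i‖ := by linarith
  have h8 : m * (en s m / 16) ≤ m * ((1 / m) * ∑ i ∈ range P, ‖CC s i‖) :=
    mul_le_mul_of_nonneg_left h7 hm0.le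
  have h9 : (m : ℝ) * ((1 / m) * ∑ i ∈ range P, ‖CC s i‖) = ∑ i ∈ range P, ‖CC s i‖ := by
    field_simp
  rw [h9] at h8
  linarith

end Pool.Agent.Helper474.Tur
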