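import Pool.Agent.Helper474.TurD

/-!
Perturbation lemma, dilation, correction, and Theorem B.
-/

set_option autoImplicit false

namespace Pool.Agent.Helper474.Tur

open Finset

lemma deriv_zero (d : ℕ → ℂ) (n : ℕ) :
    HasDerivAt (fun h : ℝ => ee (fun k => (h : ℂ) * d k) n) (if n = 0 then 0 else d n / n) 0 := by
  induction n using Nat.strong_induction_on with
  | _ n ih =>
    cases n with
    | zero =>
      simp only [ee_zero, if_true]
      exact hasDerivAt_const _ _
    | succ n =>
      have h0 : (fun h : ℝ => ee (fun k => (h : ℂ) * d k) (n + 1))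
          = fun h : ℝ => (∑ i ∈ range (n + 1), ((h : ℂ) * d (i + 1))
            * ee (fun k => (h : ℂ) * d k) (n - i)) / ((n : ℂ) + 1) := by
        funext h
        rw [ee_succ']
      rw [h0]
      have h1 : ∀ i ∈ range (n + 1), HasDerivAt (fun h : ℝ => ((h : ℂ) * d (i + 1))
            * ee (fun k => (h : ℂ) * d k) (n - i)) (if i = n then d (n + 1) else 0) 0 := by
        intro i hi
        rw [Finset.mem_range] at hi
        have h2 : HasDerivAt (fun h : ℝ => (h : ℂ) * d (i + 1)) (1 * d (i + 1)) 0 :=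
          (Complex.ofRealCLM.hasDerivAt).mul_const _
        have h3 := h2.mul (ih (n - i) (by omega))
        refine h3.congr_deriv ?_
        have h4 : ee (fun k => (((0 : ℝ)) : ℂ) * d k) (n - i) = if n - i = 0 then 1 else 0 := by
          rw [← ee_const_zero]
          congr 1
          funext k
          simp
        rw [h4]
        by_cases hin : i = n
        · subst hin; simp
        · rw [if_neg hin, if_neg (by omega)]; simp
      have h5 := (HasDerivAt.fun_sum h1).div_const ((n : ℂ) + 1)
      refine h5.congr_deriv ?_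
      rw [Finset.sum_ite_eq' (range (n + 1)) n]
      simp

/-- perturbation lemma -/
lemma W_lemma {x y : ℕ → ℂ} {P : ℕ} {ε D : ℝ} (hε : 0 ≤ ε)
    (h1 : ∀ k ≤ P, ‖∑ i ∈ range k, (x (i + 1) - y (i + 1)) / ((i : ℂ) + 1)‖ ≤ ε)
    (hx : ∑ k ∈ range P, ‖x (k + 1)‖ / ((k : ℝ) + 1) ≤ D)
    (hy : ∑ k ∈ range P, ‖y (k + 1)‖ / ((k : ℝ) + 1) ≤ D) :
    ‖CC x P - CC y P‖ ≤ ε * Real.exp D := by
  set z : ℝ → ℕ → ℂ := fun θ k => y k + (θ : ℂ) * (x k - y k) with hz
  set g : ℕ → ℂ := fun n => if n = 0 then 0 else (-(x n - y n)) / n with hg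
  have hder : ∀ θ : ℝ, HasDerivAt (fun θ : ℝ => CC (z θ) P)
      (∑ i ∈ range (P + 1), CC (z θ) i * g (P - i)) θ := by
    intro θ
    have h2 : ∀ i ∈ range (P + 1), HasDerivAt (fun h : ℝ => CC (z θ) i
        * ee (fun k => ((h - θ : ℝ) : ℂ) * (-(x k - y k))) (P - i)) (CC (z θ) i * g (P - i)) θ := by
      intro i _
      apply HasDerivAt.const_mul
      have h3 := deriv_zero (fun k => -(x k - y k)) (P - i)
      have h5 : HasDerivAt (fun h : ℝ => ee (fun k => (h : ℂ) * (-(x k - y k))) (P - i))
          (g (P - i)) (θ - θ) := by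
        rw [sub_self]; exact h3
      exact HasDerivAt.comp_sub_const θ θ h5
    have h3 := HasDerivAt.fun_sum h2
    refine h3.congr_of_eventuallyEq (Filter.Eventually.of_forall fun θ' => ?_)
    simp only
    unfold CC
    rw [← ee_add]
    congr 1
    funext k
    simp only [hz]
    push_cast
    ring
  have hbound : ∀ θ ∈ Set.Ico (0 : ℝ) 1, ‖∑ i ∈ range (P + 1), CC (z θ) i * g (P - i)‖
      ≤ ε * Real.exp D := by
    intro θ hθ
    have h2 : ∑ i ∈ range (P + 1), CC (z θ) i * g (P - i)
        = ∑ l ∈ range (P + 1), cc (z θ) l * ∑ i ∈ range (P - l + 1), g i := by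
      have h3 : ∑ i ∈ range (P + 1), CC (z θ) i * g (P - i)
          = ∑ i ∈ range (P + 1), CC (z θ) (P - i) * g i := by
        rw [← Finset.sum_range_reflect]
        refine Finset.sum_congr rfl fun i hi => ?_
        rw [Finset.mem_range] at hi
        have e1 : P + 1 - 1 - i = P - i := by omega
        have e2 : P - (P - i) = i := by omega
        rw [e1, e2]
      rw [h3]
      have h4 : ∀ i ∈ range (P + 1), CC (z θ) (P - i) * g i
          = ∑ l ∈ range (P - i + 1), cc (z θ) l * g i := by
        intro i _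
        rw [CC_eq_sum, Finset.sum_mul]
      rw [Finset.sum_congr rfl h4]
      rw [Finset.sum_comm' (s' := fun l => range (P - l + 1)) (t' := range (P + 1))]
      · refine Finset.sum_congr rfl fun l _ => ?_
        rw [Finset.mul_sum]
      · intro i l
        simp only [Finset.mem_range]
        omega
    rw [h2]
    have h3 : ∀ k ≤ P, ‖∑ i ∈ range (k + 1), g i‖ ≤ ε := by
      intro k hk
      rw [Finset.sum_range_succ']
      have h4 : ∑ i ∈ range k, g (i + 1) = - ∑ i ∈ range k, (x (i + 1) - y (i + 1)) / ((i : ℂ) + 1) := by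
        rw [← Finset.sum_neg_distrib]
        refine Finset.sum_congr rfl fun i _ => ?_
        simp only [hg, Nat.add_eq_zero_iff, one_ne_zero, and_false, if_false]
        push_cast
        rw [neg_div]
      have h5 : g 0 = 0 := by simp [hg]
      rw [h4, h5, add_zero, norm_neg]
      exact h1 k hk
    have h4 : ∑ l ∈ range (P + 1), ‖cc (z θ) l‖ ≤ Real.exp D := by
      refine (sum_norm_ee_le (fun k => - z θ k) P).trans (Real.exp_le_exp.2 ?_)
      have h5 : ∀ k ∈ range P, ‖- z θ (k + 1)‖ / ((k : ℝ) + 1)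
          ≤ (1 - θ) * (‖y (k + 1)‖ / ((k : ℝ) + 1)) + θ * (‖x (k + 1)‖ / ((k : ℝ) + 1)) := by
        intro k _
        have h6 : - z θ (k + 1) = -(((1 - θ : ℝ) : ℂ) * y (k + 1) + (θ : ℂ) * x (k + 1)) := by
          simp only [hz]; push_cast; ring
        rw [h6, norm_neg, ← mul_div_assoc, ← mul_div_assoc, ← add_div]
        apply div_le_div_of_nonneg_right _ (by positivity)
        refine (norm_add_le _ _).trans ?_
        rw [norm_mul, norm_mul, Complex.norm_real, Complex.norm_real, Real.norm_eq_abs,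
          Real.norm_eq_abs, abs_of_nonneg hθ.1, abs_of_nonneg (by linarith [hθ.2])]
      refine (Finset.sum_le_sum h5).trans ?_
      rw [Finset.sum_add_distrib, ← Finset.mul_sum, ← Finset.mul_sum]
      have h7 := mul_le_mul_of_nonneg_left hy (by linarith [hθ.2] : 0 ≤ 1 - θ)
      have h8 := mul_le_mul_of_nonneg_left hx hθ.1
      linarith
    calc ‖∑ l ∈ range (P + 1), cc (z θ) l * ∑ i ∈ range (P - l + 1), g i‖
        ≤ ∑ l ∈ range (P + 1), ‖cc (z θ) l‖ * ε := by
          refine (norm_sum_le _ _).trans (Finset.sum_le_sum fun l hl => ?_)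
          rw [norm_mul]
          exact mul_le_mul_of_nonneg_left (h3 _ (by omega)) (norm_nonneg _)
      _ = ε * ∑ l ∈ range (P + 1), ‖cc (z θ) l‖ := by rw [← Finset.sum_mul, mul_comm]
      _ ≤ ε * Real.exp D := mul_le_mul_of_nonneg_left h4 hε
  have h2 := norm_image_sub_le_of_norm_deriv_le_segment_01'
    (f := fun θ : ℝ => CC (z θ) P) (C := ε * Real.exp D)
    (fun θ _ => (hder θ).hasDerivWithinAt) hbound
  have h3 : z 1 = x := by funext k; simp [hz]
  have h4 : z 0 = y := by funext k; simp [hz]
  simp only [h3, h4] at h2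
  exact h2

end Pool.Agent.Helper474.Tur
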