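import Pool.Agent.Helper474.TurE

/-!
Dilation lemma.
-/

set_option autoImplicit false

namespace Pool.Agent.Helper474.Tur

open Finset

/-- dilation of a sequence -/
noncomputable def dil {F : Type*} [Field F] (r : ℕ) (a : ℕ → F) : ℕ → F :=
  fun k => if r ∣ k then (r : F) * a (k / r) else 0

lemma dil_cum {F : Type*} [Field F] [CharZero F] (a : ℕ → F) {r : ℕ} (hr : 1 ≤ r) (k : ℕ) :
    ∑ i ∈ range k, dil r a (i + 1) / ((i : F) + 1)
      = ∑ j ∈ range (k / r), a (j + 1) / ((j : F) + 1) := by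
  have hrF : (r : F) ≠ 0 := by exact_mod_cast (by omega : r ≠ 0)
  induction k with
  | zero => simp
  | succ k ih =>
    rw [Finset.sum_range_succ, ih, Nat.succ_div]
    by_cases hd : r ∣ k + 1
    · have h1 : (k + 1) / r = k / r + 1 := by rw [Nat.succ_div, if_pos hd]
      have h2 : k + 1 = r * (k / r + 1) := by rw [← h1, Nat.mul_div_cancel' hd]
      rw [if_pos hd, Finset.sum_range_succ]
      congr 1
      unfold dil
      rw [if_pos hd, h1]
      have h3 : (k : F) + 1 = (r : F) * (((k / r : ℕ) : F) + 1) := by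
        have : ((k + 1 : ℕ) : F) = ((r * (k / r + 1) : ℕ) : F) := by rw [← h2]
        push_cast at this ⊢
        exact this
      have h4 : (((k / r : ℕ) : F) + 1) ≠ 0 := Nat.cast_add_one_ne_zero _
      rw [h3]
      field_simp
    · rw [if_neg hd]
      unfold dil
      rw [if_neg hd]
      simp

lemma dil_norm (r : ℕ) (a : ℕ → ℂ) (k : ℕ) : ‖dil r a k‖ = dil r (fun k => ‖a k‖) k := by
  unfold dil
  split_ifs
  · rw [norm_mul, Complex.norm_natCast]
  · simp

lemma dil_norm_cum (a : ℕ → ℂ) {r : ℕ} (hr : 1 ≤ r) (k : ℕ) :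
    ∑ i ∈ range k, ‖dil r a (i + 1)‖ / ((i : ℝ) + 1)
      = ∑ j ∈ range (k / r), ‖a (j + 1)‖ / ((j : ℝ) + 1) := by
  have := dil_cum (fun k => ‖a k‖) hr k
  rw [← this]
  refine Finset.sum_congr rfl fun i _ => ?_
  rw [dil_norm]

lemma dil_CC (a : ℕ → ℂ) {r : ℕ} (hr : 1 ≤ r) (q : ℕ) : CC (dil r a) (r * q) = CC a q := by
  have h1 : ∀ i, cc (dil r a) i = if r ∣ i then cc a (i / r) else 0 := by
    intro i
    unfold cc
    rw [← ee_dil _ hr]
    congr 1
    funext k
    unfold dil
    split_ifs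
    · ring
    · simp
  have h2 : ∀ k, ∑ i ∈ range (k + 1), cc (dil r a) i = ∑ j ∈ range (k / r + 1), cc a j := by
    intro k
    induction k with
    | zero => simp
    | succ k ih =>
      rw [Finset.sum_range_succ, ih, Nat.succ_div, h1]
      by_cases hd : r ∣ k + 1
      · rw [if_pos hd, if_pos hd, Finset.sum_range_succ _ (k / r + 1)]
        congr 2
        rw [Nat.succ_div, if_pos hd]
      · rw [if_neg hd, if_neg hd]; simp
  rw [CC_eq_sum, CC_eq_sum, h2, Nat.mul_div_cancel_left _ (by omega)]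

lemma sum_blocks {E : Type*} [AddCommMonoid E] (f : ℕ → E) (n : ℕ) (q : ℕ) :
    ∑ i ∈ range (q * n), f i = ∑ j ∈ range q, ∑ i ∈ range n, f (j * n + i) := by
  induction q with
  | zero => simp
  | succ q ih =>
    rw [Finset.sum_range_succ, ← ih, Nat.succ_mul, Finset.sum_range_add]

/-- dilation lemma -/
lemma dilate {σ : ℝ} {t : ℕ → ℂ} {m n N : ℕ} (hm : 1 ≤ m) (hn : 1 ≤ n) (hnN : n ≤ N)
    (hσ0 : 0 ≤ σ) (ht1 : ∀ k, ‖t k‖ ≤ σ) (ht2 : ∀ k, ‖t k‖ ≤ σ * ((k : ℝ) / m)) :
    ∃ t' : ℕ → ℂ, (∀ k, ‖t' k‖ ≤ σ * (1 + 1 / m)) ∧ en t' N = en t n ∧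
      ‖CC t' N - CC t n‖ ≤ σ / m * Real.exp (∑ j ∈ range n, ‖t (j + 1)‖ / ((j : ℝ) + 1)) := by
  have hm0 : (0 : ℝ) < m := by exact_mod_cast hm
  have hN1 : 1 ≤ N := hn.trans hnN
  have hN0 : (0 : ℝ) < N := by exact_mod_cast hN1
  have hn0 : (0 : ℝ) < n := by exact_mod_cast hn
  have hNC : (N : ℂ) ≠ 0 := by exact_mod_cast (by omega : N ≠ 0)
  set g : ℕ → ℂ := fun i => t (i / N + 1) / (N * (((i / N : ℕ) : ℂ) + 1)) with hg
  have hgn : ∀ i, ‖g i‖ = ‖t (i / N + 1)‖ / (N * (((i / N : ℕ) : ℝ) + 1)) := by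
    intro i
    simp only [hg]
    rw [norm_div, norm_mul, norm_natCast_add_one, Complex.norm_natCast]
  have hg1 : ∀ i, ‖g i‖ ≤ σ / (N * m) := by
    intro i
    rw [hgn, div_le_div_iff₀ (by positivity) (by positivity)]
    have := ht2 (i / N + 1)
    rw [mul_div_assoc', le_div_iff₀ hm0] at this
    push_cast at this
    calc ‖t (i / N + 1)‖ * (N * m) = N * (‖t (i / N + 1)‖ * m) := by ring
      _ ≤ N * (σ * (((i / N : ℕ) : ℝ) + 1)) := mul_le_mul_of_nonneg_left this hN0.le
      _ = σ * (N * (((i / N : ℕ) : ℝ) + 1)) := by ring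
  have hg2 : ∀ i, ‖g i‖ ≤ σ / ((i : ℝ) + 1) := by
    intro i
    rw [hgn]
    apply div_le_div₀ hσ0 (ht1 _) (by positivity)
    have h1 : i + 1 ≤ N * (i / N + 1) := Nat.lt_mul_div_succ i (by omega)
    exact_mod_cast h1
  -- block sums of g
  have hGN : ∀ q, ∑ i ∈ range (q * N), g i = ∑ j ∈ range q, t (j + 1) / ((j : ℂ) + 1) := by
    intro q
    rw [sum_blocks]
    refine Finset.sum_congr rfl fun j _ => ?_
    have h1 : ∀ i ∈ range N, g (j * N + i) = t (j + 1) / (N * ((j : ℂ) + 1)) := by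
      intro i hi
      rw [Finset.mem_range] at hi
      have h2 : (j * N + i) / N = j := by
        rw [mul_comm, Nat.mul_add_div (by omega), Nat.div_eq_of_lt hi, add_zero]
      simp only [hg, h2]
    rw [Finset.sum_congr rfl h1, Finset.sum_const, Finset.card_range, nsmul_eq_mul]
    have h3 : ((j : ℂ) + 1) ≠ 0 := Nat.cast_add_one_ne_zero _
    field_simp
  have hGNn : ∀ q, ∑ i ∈ range (q * N), ‖g i‖ = ∑ j ∈ range q, ‖t (j + 1)‖ / ((j : ℝ) + 1) := by
    intro q
    rw [sum_blocks]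
    refine Finset.sum_congr rfl fun j _ => ?_
    have h1 : ∀ i ∈ range N, ‖g (j * N + i)‖ = ‖t (j + 1)‖ / (N * ((j : ℝ) + 1)) := by
      intro i hi
      rw [Finset.mem_range] at hi
      have h2 : (j * N + i) / N = j := by
        rw [mul_comm, Nat.mul_add_div (by omega), Nat.div_eq_of_lt hi, add_zero]
      rw [hgn, h2]
    rw [Finset.sum_congr rfl h1, Finset.sum_const, Finset.card_range, nsmul_eq_mul]
    field_simp
  -- the dilated sequence
  set t' : ℕ → ℂ := fun k => (k : ℂ) * ∑ i ∈ range n, g ((k - 1) * n + i) with ht'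
  have hdiv : ∀ j : ℕ, t' (j + 1) / ((j : ℂ) + 1) = ∑ i ∈ range n, g (j * n + i) := by
    intro j
    have h3 : ((j : ℂ) + 1) ≠ 0 := Nat.cast_add_one_ne_zero _
    simp only [ht', Nat.add_sub_cancel]
    push_cast
    field_simp
  have hGn : ∀ q, ∑ j ∈ range q, t' (j + 1) / ((j : ℂ) + 1) = ∑ i ∈ range (q * n), g i := by
    intro q
    rw [sum_blocks]
    exact Finset.sum_congr rfl fun j _ => hdiv j
  have hcumt' : ∑ j ∈ range N, ‖t' (j + 1)‖ / ((j : ℝ) + 1)
      ≤ ∑ j ∈ range n, ‖t (j + 1)‖ / ((j : ℝ) + 1) := by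
    rw [← hGNn, mul_comm n N, sum_blocks]
    refine Finset.sum_le_sum fun j _ => ?_
    have h1 : ‖t' (j + 1)‖ / ((j : ℝ) + 1) = ‖t' (j + 1) / ((j : ℂ) + 1)‖ := by
      rw [norm_div, norm_natCast_add_one]
    rw [h1, hdiv]
    exact norm_sum_le _ _
  refine ⟨t', ?_, ?_, ?_⟩
  · intro k
    have hnorm : ‖t' k‖ ≤ k * ∑ i ∈ range n, ‖g ((k - 1) * n + i)‖ := by
      simp only [ht']
      rw [norm_mul, Complex.norm_natCast]
      exact mul_le_mul_of_nonneg_left (norm_sum_le _ _) (by positivity)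
    refine hnorm.trans ?_
    by_cases hk : k ≤ m + 1
    · have h1 : ∑ i ∈ range n, ‖g ((k - 1) * n + i)‖ ≤ n * (σ / (N * m)) := by
        calc ∑ i ∈ range n, ‖g ((k - 1) * n + i)‖ ≤ ∑ i ∈ range n, σ / (N * m) :=
              Finset.sum_le_sum fun i _ => hg1 _
          _ = n * (σ / (N * m)) := by
              rw [Finset.sum_const, Finset.card_range, nsmul_eq_mul]
      have h2 : (k : ℝ) ≤ m + 1 := by exact_mod_cast hk
      have h3 : (n : ℝ) ≤ N := by exact_mod_cast hnN
      calc (k : ℝ) * ∑ i ∈ range n, ‖g ((k - 1) * n + i)‖ ≤ (m + 1) * (N * (σ / (N * m))) := by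
            apply mul_le_mul h2 _ (Finset.sum_nonneg fun i _ => norm_nonneg _) (by positivity)
            refine h1.trans ?_
            gcongr
        _ = σ * (1 + 1 / m) := by field_simp
    · push Not at hk
      obtain ⟨l, rfl⟩ : ∃ l, k = l + 1 := ⟨k - 1, by omega⟩
      have hl : m + 1 ≤ l := by omega
      have hl0 : (0 : ℝ) < l := by
        have : 0 < l := by omega
        exact_mod_cast this
      rw [Nat.add_sub_cancel]
      have h1 : ∑ i ∈ range n, ‖g (l * n + i)‖ ≤ n * (σ / (l * n)) := by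
        calc ∑ i ∈ range n, ‖g (l * n + i)‖ ≤ ∑ i ∈ range n, σ / (l * n) := by
              refine Finset.sum_le_sum fun i _ => (hg2 _).trans ?_
              apply div_le_div_of_nonneg_left hσ0 (by positivity)
              push_cast
              have : (0 : ℝ) ≤ i := by positivity
              linarith
          _ = n * (σ / (l * n)) := by
              rw [Finset.sum_const, Finset.card_range, nsmul_eq_mul]
      have h2 : (m : ℝ) ≤ l := by
        have : m ≤ l := by omega
        exact_mod_cast this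
      push_cast
      calc ((l : ℝ) + 1) * ∑ i ∈ range n, ‖g (l * n + i)‖ ≤ ((l : ℝ) + 1) * (n * (σ / (l * n))) :=
            mul_le_mul_of_nonneg_left h1 (by positivity)
        _ = σ * (1 + 1 / l) := by field_simp
        _ ≤ σ * (1 + 1 / m) := by gcongr
  · unfold en
    congr 2
    have h1 : ∑ k ∈ range N, (t' (k + 1)).re / ((k : ℝ) + 1)
        = (∑ k ∈ range N, t' (k + 1) / ((k : ℂ) + 1)).re := by
      rw [Complex.re_sum]
      refine Finset.sum_congr rfl fun k _ => ?_
      have h1 : ((k : ℂ) + 1) = (((k : ℝ) + 1 : ℝ) : ℂ) := by push_cast; rfl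
      rw [h1, Complex.div_ofReal_re]
    have h2 : ∑ k ∈ range n, (t (k + 1)).re / ((k : ℝ) + 1)
        = (∑ k ∈ range n, t (k + 1) / ((k : ℂ) + 1)).re := by
      rw [Complex.re_sum]
      refine Finset.sum_congr rfl fun k _ => ?_
      have h1 : ((k : ℂ) + 1) = (((k : ℝ) + 1 : ℝ) : ℂ) := by push_cast; rfl
      rw [h1, Complex.div_ofReal_re]
    rw [h1, h2, hGn, ← hGN, mul_comm N n]
  · have h1 : CC t' N = CC (dil n t') (n * N) := (dil_CC t' hn N).symm
    have h2 : CC t n = CC (dil N t) (n * N) := by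
      rw [mul_comm]; exact (dil_CC t hN1 n).symm
    rw [h1, h2]
    apply W_lemma (by positivity)
    · intro k hk
      have h3 : ∑ i ∈ range k, (dil n t' (i + 1) - dil N t (i + 1)) / ((i : ℂ) + 1)
          = ∑ i ∈ range (k / n * n), g i - ∑ i ∈ range (k / N * N), g i := by
        have h4 : ∀ i ∈ range k, (dil n t' (i + 1) - dil N t (i + 1)) / ((i : ℂ) + 1)
            = dil n t' (i + 1) / ((i : ℂ) + 1) - dil N t (i + 1) / ((i : ℂ) + 1) := by
          intro i _; rw [sub_div]
        rw [Finset.sum_congr rfl h4, Finset.sum_sub_distrib, dil_cum t' hn, dil_cum t hN1, hGn, hGN]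
      rw [h3]
      have hG : ∀ a b : ℕ, a ≤ b → b ≤ a + N →
          ‖∑ i ∈ range b, g i - ∑ i ∈ range a, g i‖ ≤ σ / m := by
        intro a b hab hba
        have h5 : ∑ i ∈ range b, g i - ∑ i ∈ range a, g i = ∑ i ∈ Finset.Ico a b, g i :=
          (Finset.sum_Ico_eq_sub g hab).symm
        rw [h5]
        calc ‖∑ i ∈ Finset.Ico a b, g i‖ ≤ ∑ i ∈ Finset.Ico a b, σ / (N * m) :=
              (norm_sum_le _ _).trans (Finset.sum_le_sum fun i _ => hg1 i)
          _ = ((b - a : ℕ) : ℝ) * (σ / (N * m)) := by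
              rw [Finset.sum_const, Nat.card_Ico, nsmul_eq_mul]
          _ ≤ N * (σ / (N * m)) := by
              apply mul_le_mul_of_nonneg_right _ (by positivity)
              have : b - a ≤ N := by omega
              exact_mod_cast this
          _ = σ / m := by field_simp
      have e1 : k / n * n ≤ k := Nat.div_mul_le_self k n
      have e2 : k / N * N ≤ k := Nat.div_mul_le_self k N
      have e3 : k < n * (k / n + 1) := Nat.lt_mul_div_succ k (by omega)
      have e4 : k < N * (k / N + 1) := Nat.lt_mul_div_succ k (by omega)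
      have e5 : n * (k / n + 1) = k / n * n + n := by ring
      have e6 : N * (k / N + 1) = k / N * N + N := by ring
      rcases le_total (k / N * N) (k / n * n) with h | h
      · exact hG _ _ h (by omega)
      · rw [norm_sub_rev]
        exact hG _ _ h (by omega)
    · rw [dil_norm_cum t' hn, Nat.mul_div_cancel_left _ (by omega)]
      exact hcumt'
    · rw [dil_norm_cum t hN1, Nat.mul_div_cancel _ (by omega)]

end Pool.Agent.Helper474.Tur
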