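import Pool.Agent.Helper474.TurF

/-!
Correction lemma and Theorem B.
-/

set_option autoImplicit false

namespace Pool.Agent.Helper474.Tur

open Finset

/-- coefficients of `exp(-sum ζ_k x^k/k)` for `ζ` supported beyond half -/
lemma cc_supp {ζ : ℕ → ℂ} {h N : ℕ} (hz : ∀ k, k ≤ h → ζ k = 0) (hN : N < 2 * (h + 1))
    {j : ℕ} (hj1 : 1 ≤ j) (hj : j ≤ N) : cc ζ j = - ζ j / j := by
  have hsmall : ∀ i, 1 ≤ i → i ≤ h → cc ζ i = 0 := by
    intro i hi1 hi
    have h1 : cc ζ i = ee (fun _ => (0 : ℂ)) i := by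
      unfold cc
      apply ee_congr
      intro k _ hk
      rw [hz k (by omega), neg_zero]
    rw [h1, ee_const_zero, if_neg (by omega)]
  obtain ⟨l, rfl⟩ : ∃ l, j = l + 1 := ⟨j - 1, by omega⟩
  have h1 : ((l : ℂ) + 1) * cc ζ (l + 1) = ∑ i ∈ range (l + 1), (- ζ (i + 1)) * cc ζ (l - i) := by
    unfold cc
    exact ee_succ _ l
  have h2 : ∑ i ∈ range (l + 1), (- ζ (i + 1)) * cc ζ (l - i) = - ζ (l + 1) := by
    rw [Finset.sum_eq_single l]
    · simp
    · intro i hi hil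
      rw [Finset.mem_range] at hi
      by_cases hih : i + 1 ≤ h
      · rw [hz _ hih]; simp
      · rw [hsmall (l - i) (by omega) (by omega), mul_zero]
    · intro h3
      exact absurd (Finset.self_mem_range_succ l) h3
  rw [h2] at h1
  have h3 : ((l : ℂ) + 1) ≠ 0 := Nat.cast_add_one_ne_zero l
  push_cast
  rw [eq_div_iff h3, mul_comm]
  exact h1

/-- linearized value -/
lemma CC_supp {x ζ : ℕ → ℂ} {P N : ℕ} (hPN : 2 * P ≤ N) (hP : 1 ≤ P)
    (hz : ∀ k, k ≤ N - P → ζ k = 0) :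
    CC (fun k => x k + ζ k) N
      = CC x N - ∑ i ∈ range P, CC x i * ζ (N - i) / ((N - i : ℕ) : ℂ) := by
  rw [CC_add, Finset.sum_range_succ, Nat.sub_self, cc_zero, mul_one]
  have h1 : ∑ i ∈ range N, CC x i * cc ζ (N - i)
      = ∑ i ∈ range P, CC x i * cc ζ (N - i) := by
    symm
    apply Finset.sum_subset
    · intro i hi
      rw [Finset.mem_range] at hi ⊢
      omega
    · intro i hi hi2
      rw [Finset.mem_range] at hi hi2
      rw [cc_supp (N := N) hz (by omega) (by omega) (by omega), hz (N - i) (by omega)]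
      simp
  have h2 : ∑ i ∈ range P, CC x i * cc ζ (N - i)
      = - ∑ i ∈ range P, CC x i * ζ (N - i) / ((N - i : ℕ) : ℂ) := by
    rw [← Finset.sum_neg_distrib]
    refine Finset.sum_congr rfl fun i hi => ?_
    rw [Finset.mem_range] at hi
    rw [cc_supp (N := N) hz (by omega) (by omega) (by omega)]
    ring
  rw [h1, h2]
  ring

/-- correction lemma: exact optimal use of the last half -/
lemma corr' {x : ℕ → ℂ} {N P : ℕ} {η : ℝ} (hη : 0 ≤ η) (hP : 1 ≤ P) (hPN : 2 * P ≤ N)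
    (h : ‖CC x N‖ ≤ η * ∑ i ∈ range P, ‖CC x i‖ / ((N - i : ℕ) : ℝ)) :
    ∃ ζ : ℕ → ℂ, (∀ k, ‖ζ k‖ ≤ η) ∧ (∀ k, k ≤ N - P → ζ k = 0) ∧
      CC (fun k => x k + ζ k) N = 0 := by
  set S : ℝ := ∑ i ∈ range P, ‖CC x i‖ / ((N - i : ℕ) : ℝ) with hS
  have hS0 : 0 ≤ S := Finset.sum_nonneg fun i _ => by positivity
  have hSpos : 0 < S := by
    rw [hS]
    apply Finset.sum_pos'
    · intro i _; positivity
    · refine ⟨0, Finset.mem_range.2 (by omega), ?_⟩
      rw [CC_zero, norm_one, Nat.sub_zero]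
      have : (0 : ℝ) < N := by
        have : 0 < N := by omega
        exact_mod_cast this
      positivity
  have hSC : (S : ℂ) ≠ 0 := by exact_mod_cast hSpos.ne'
  set u : ℂ := CC x N / S with hu
  have hun : ‖u‖ ≤ η := by
    rw [hu, norm_div, Complex.norm_real, Real.norm_eq_abs, abs_of_pos hSpos, div_le_iff₀ hSpos]
    exact h
  set ζ : ℕ → ℂ := fun k => if N - P < k ∧ k ≤ N then
    u * ((starRingEnd ℂ) (CC x (N - k)) / (‖CC x (N - k)‖ : ℂ)) else 0 with hζ
  have hζz : ∀ k, k ≤ N - P → ζ k = 0 := by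
    intro k hk
    simp only [hζ]
    rw [if_neg (by omega)]
  refine ⟨ζ, ?_, hζz, ?_⟩
  · intro k
    simp only [hζ]
    split_ifs
    · rw [norm_mul u, norm_div ((starRingEnd ℂ) (CC x (N - k))), RCLike.norm_conj,
        Complex.norm_real, norm_norm]
      have : ‖CC x (N - k)‖ / ‖CC x (N - k)‖ ≤ 1 := div_self_le_one _
      have h2 := norm_nonneg u
      nlinarith
    · rw [norm_zero]; exact hη
  · rw [CC_supp hPN hP hζz]
    have h1 : ∀ i ∈ range P, CC x i * ζ (N - i) / ((N - i : ℕ) : ℂ)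
        = u * ((‖CC x i‖ / ((N - i : ℕ) : ℝ) : ℝ) : ℂ) := by
      intro i hi
      rw [Finset.mem_range] at hi
      simp only [hζ]
      rw [if_pos ⟨by omega, by omega⟩]
      have h2 : N - (N - i) = i := by omega
      rw [h2]
      have h3 : CC x i * (u * ((starRingEnd ℂ) (CC x i) / (‖CC x i‖ : ℂ))) = u * (‖CC x i‖ : ℂ) := by
        by_cases h0 : CC x i = 0
        · rw [h0]; simp
        · have h4 : (‖CC x i‖ : ℂ) ≠ 0 := by
            exact_mod_cast (norm_pos_iff.2 h0).ne'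
          have h5 : CC x i * (starRingEnd ℂ) (CC x i) = (‖CC x i‖ : ℂ) * (‖CC x i‖ : ℂ) := by
            rw [Complex.mul_conj, Complex.normSq_eq_norm_sq]
            push_cast
            ring
          calc CC x i * (u * ((starRingEnd ℂ) (CC x i) / (‖CC x i‖ : ℂ)))
              = u * (CC x i * (starRingEnd ℂ) (CC x i)) / (‖CC x i‖ : ℂ) := by ring
            _ = u * (‖CC x i‖ : ℂ) := by rw [h5]; field_simp
      rw [h3]
      push_cast
      ring
    rw [Finset.sum_congr rfl h1, ← Finset.mul_sum, ← Complex.ofReal_sum, ← hS, hu]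
    field_simp
    ring

/-- the relation: there is a disc sequence with `CC s N = 0` -/
def RR (N : ℕ) (v : ℝ) : Prop := ∃ s : ℕ → ℂ, Disc v s ∧ CC s N = 0

lemma RR.mono {N : ℕ} {v w : ℝ} (h : RR N v) (hvw : v ≤ w) : RR N w := by
  obtain ⟨s, hs, h0⟩ := h
  exact ⟨s, fun k => (hs k).trans hvw, h0⟩

/-- Theorem B -/
theorem thmB {σ ε : ℝ} (hσ0 : 0 < σ) (hε : 0 < ε) (h : 2 * (σ + ε) ^ 2 < 1) :
    ∃ n₀ : ℕ, ∀ n, n₀ ≤ n → RR n σ → ∀ N, n ≤ N → RR N (σ + ε) := by
  have hσ34 : σ + ε ≤ 3 / 4 := by nlinarith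
  set σ' : ℝ := σ + ε / 2 with hσ'
  have hsq2 : Real.sqrt 2 ^ 2 = 2 := Real.sq_sqrt (by norm_num)
  have hsq0 : 0 < Real.sqrt 2 := Real.sqrt_pos.2 (by norm_num)
  have hlt : ∀ a : ℝ, 0 < a → a ≤ σ + ε → Real.sqrt 2 * a < 1 := by
    intro a ha0 ha
    have : (Real.sqrt 2 * a) ^ 2 < 1 := by
      rw [mul_pow, hsq2]
      nlinarith
    have h0 : 0 < Real.sqrt 2 * a := by positivity
    nlinarith
  have hω : ∀ a : ℝ, (Real.sqrt 2 * a) ^ 2 = 2 * a ^ 2 := by
    intro a; rw [mul_pow, hsq2]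
  obtain ⟨Q, hQ1, hQ⟩ := reg hσ0 (by linarith) (hω σ) (by positivity) (hlt σ hσ0 (by linarith))
  obtain ⟨Q', hQ'1, hQ'⟩ := reg (by linarith : 0 < σ') (by linarith) (hω σ') (by positivity)
    (hlt σ' (by linarith) (by linarith))
  obtain ⟨A, hA⟩ := exists_nat_ge (1024 * Q')
  have hA1 : 1 ≤ A := by
    have : (0 : ℝ) < A := by linarith
    exact_mod_cast this
  have hA0 : (0 : ℝ) < A := by linarith
  set δ : ℝ := ε / (512 * (A : ℝ) ^ 2) with hδ
  have hδ0 : 0 < δ := by positivity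
  obtain ⟨M, hM2, hM⟩ := exists_M (4608 * Q) (hlt σ hσ0 (by linarith)) (by positivity : 0 < δ / 2)
  have hM0 : (0 : ℝ) < M := by
    have : 0 < M := by omega
    exact_mod_cast this
  obtain ⟨m₀, hm₀⟩ := exists_nat_ge (max (2 * σ / ε) (2 * (σ * 36 * M ^ 2) / δ))
  have hm₀a : 2 * σ / ε ≤ m₀ := (le_max_left _ _).trans hm₀
  have hm₀b : 2 * (σ * 36 * M ^ 2) / δ ≤ m₀ := (le_max_right _ _).trans hm₀
  refine ⟨M * (m₀ + 1) + 4 * A, fun n hn hR N hnN => ?_⟩
  obtain ⟨s, hs, hs0⟩ := hR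
  set m : ℕ := n / M with hm
  have hmn : M * m ≤ n := Nat.mul_div_le n M
  have hnm : n < M * (m + 1) := Nat.lt_mul_div_succ n (by omega)
  have hmn2 : m ≤ n := Nat.div_le_self n M
  have hmm : m₀ + 1 ≤ m := by
    rw [hm, Nat.le_div_iff_mul_le (by omega)]
    calc (m₀ + 1) * M = M * (m₀ + 1) := by ring
      _ ≤ n := by omega
  have hm1 : 1 ≤ m := by omega
  have hm0 : (0 : ℝ) < m := by exact_mod_cast hm1
  have hmm' : (m₀ : ℝ) ≤ m := by
    have : m₀ ≤ m := by omega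
    exact_mod_cast this
  set t := tt s m with ht
  -- damping
  have h1 := damp hσ0 (by linarith) (hω σ) (by positivity) (by linarith) hs (hQ s hs) hm1 hM2 hmn
    hnm hs0
  have hen : 0 < en t n := en_pos t n
  have h2 : ‖CC t n‖ ≤ δ / 2 * en t n := by
    refine h1.trans (mul_le_mul_of_nonneg_right hM hen.le)
  -- norms of t
  have ht1 : ∀ k, ‖t k‖ ≤ σ := by
    intro k
    rw [ht, tt_norm hm1]
    have h3 := hs k
    have h4 := one_sub_nonneg hm1 k
    have h5 : 1 - (rr m ^ 2) ^ k ≤ 1 := by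
      have := rho_nonneg m
      have h4 : 0 ≤ (rr m ^ 2) ^ k := by positivity
      linarith
    have h6 := norm_nonneg (s k)
    nlinarith
  have ht2 : ∀ k, ‖t k‖ ≤ σ * ((k : ℝ) / m) := by
    intro k
    rw [ht, tt_norm hm1]
    exact mul_le_mul (hs k) (one_sub_rho_pow m k) (one_sub_nonneg hm1 k) hσ0.le
  obtain ⟨x, hx1, hx2, hx3⟩ := dilate hm1 (by omega : 1 ≤ n) hnN hσ0.le ht1 ht2
  set D : ℝ := ∑ j ∈ range n, ‖t (j + 1)‖ / ((j : ℝ) + 1) with hD
  have hDle : D ≤ σ * LL m n := by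
    rw [hD]
    unfold LL
    rw [Finset.mul_sum]
    refine Finset.sum_le_sum fun j _ => ?_
    rw [ht, tt_norm hm1, mul_div_assoc]
    exact mul_le_mul_of_nonneg_right (hs _) (div_nonneg (one_sub_nonneg hm1 _) (by positivity))
  have hLL0 : 0 ≤ LL m n := by
    unfold LL
    exact Finset.sum_nonneg fun j _ => div_nonneg (one_sub_nonneg hm1 _) (by positivity)
  have hexp := exp_LL_le hm1 (by omega : 1 ≤ M) hmn2 hnm
  have henlow : Real.exp (-D) ≤ en t n := by
    unfold en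
    apply Real.exp_le_exp.2
    apply neg_le_neg
    rw [hD]
    refine Finset.sum_le_sum fun j _ => ?_
    exact div_le_div_of_nonneg_right (Complex.re_le_norm _) (by positivity)
  have h3 : σ / m * Real.exp D ≤ δ / 2 * en t n := by
    have h4 : Real.exp D ≤ 36 * M ^ 2 * Real.exp (-D) := by
      have h5 : Real.exp D = Real.exp (2 * D) * Real.exp (-D) := by
        rw [← Real.exp_add]; congr 1; ring
      have h6 : Real.exp (2 * D) ≤ 36 * M ^ 2 := by
        have h7 : 2 * D ≤ 2 * LL m n := by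
            have h7a : σ * LL m n ≤ 1 * LL m n := mul_le_mul_of_nonneg_right (by linarith) hLL0
            linarith
        calc Real.exp (2 * D) ≤ Real.exp (2 * LL m n) := Real.exp_le_exp.2 h7
          _ = Real.exp (LL m n) ^ 2 := by rw [← Real.exp_nat_mul]; norm_num
          _ ≤ (6 * (M : ℝ)) ^ 2 := by
              have := Real.exp_pos (LL m n)
              gcongr
          _ = 36 * M ^ 2 := by ring
      rw [h5]
      exact mul_le_mul_of_nonneg_right h6 (Real.exp_pos _).le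
    have h8 : σ / m * (36 * M ^ 2) ≤ δ / 2 := by
      have h9 : 2 * (σ * 36 * M ^ 2) / δ ≤ m := hm₀b.trans hmm'
      rw [div_le_iff₀ hδ0] at h9
      rw [div_mul_eq_mul_div, div_le_iff₀ hm0]
      linarith
    calc σ / m * Real.exp D ≤ σ / m * (36 * M ^ 2 * Real.exp (-D)) :=
          mul_le_mul_of_nonneg_left h4 (by positivity)
      _ = σ / m * (36 * M ^ 2) * Real.exp (-D) := by ring
      _ ≤ δ / 2 * en t n := mul_le_mul h8 henlow (Real.exp_pos _).le (by positivity)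
  have h4 : ‖CC x N‖ ≤ δ * en x N := by
    rw [hx2]
    have h5 : ‖CC x N‖ ≤ ‖CC x N - CC t n‖ + ‖CC t n‖ := by
      have := norm_add_le (CC x N - CC t n) (CC t n)
      simpa using this
    linarith
  -- x in the disc of radius σ'
  have hxd : Disc σ' x := by
    intro k
    refine (hx1 k).trans ?_
    have h5 : 2 * σ / ε ≤ m := hm₀a.trans hmm'
    rw [div_le_iff₀ hε] at h5
    have h6 : σ / m ≤ ε / 2 := by
      rw [div_le_iff₀ hm0]; linarith
    calc σ * (1 + 1 / m) = σ + σ / m := by ring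
      _ ≤ σ' := by linarith
  -- lower bound
  set m' : ℕ := N / (2 * A) with hm'
  have hN4 : 4 * A ≤ N := by omega
  have hm'1 : 1 ≤ m' := by
    rw [hm', Nat.le_div_iff_mul_le (by omega)]
    omega
  have hm'2 : 2 * A * m' ≤ N := Nat.mul_div_le N (2 * A)
  have hm'3 : N < 2 * A * (m' + 1) := Nat.lt_mul_div_succ N (by omega)
  have hm'0 : (0 : ℝ) < m' := by exact_mod_cast hm'1
  have hN0 : (0 : ℝ) < N := by
    have : 0 < N := by omega
    exact_mod_cast this
  have h5 := lower (P := A * m') (by linarith : 0 ≤ σ') (by linarith) (by linarith) hxd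
    (hQ' x hxd) hm'1 hA1 hA le_rfl
  have hPN : 2 * (A * m') ≤ N := by
    calc 2 * (A * m') = 2 * A * m' := by ring
      _ ≤ N := hm'2
  have hP1 : 1 ≤ A * m' := Nat.mul_pos hA1 hm'1
  have hm'N : m' ≤ N := Nat.div_le_self N (2 * A)
  have h6 := (en_compare (by linarith : σ' ≤ 1) hxd hm'1 hm'N).1
  have hm'4 : (N : ℝ) ≤ 4 * A * m' := by
    have h7 : (N : ℝ) ≤ 2 * A * (m' + 1) := by exact_mod_cast hm'3.le
    have h8 : (1 : ℝ) ≤ m' := by exact_mod_cast hm'1
    have h9 : (A : ℝ) * 1 ≤ A * m' := mul_le_mul_of_nonneg_left h8 hA0.le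
    linarith
  have h7 : δ * en x N ≤ (ε / 2) * ∑ i ∈ range (A * m'), ‖CC x i‖ / ((N - i : ℕ) : ℝ) := by
    have h8 : (1 / N) * ∑ i ∈ range (A * m'), ‖CC x i‖
        ≤ ∑ i ∈ range (A * m'), ‖CC x i‖ / ((N - i : ℕ) : ℝ) := by
      rw [Finset.mul_sum]
      refine Finset.sum_le_sum fun i hi => ?_
      rw [Finset.mem_range] at hi
      rw [one_div, inv_mul_eq_div]
      apply div_le_div_of_nonneg_left (norm_nonneg _)
      · have : 0 < N - i := by omega
        exact_mod_cast this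
      · have : N - i ≤ N := by omega
        exact_mod_cast this
    have h9 : en x N / (256 * A ^ 2) ≤ (1 / N) * ∑ i ∈ range (A * m'), ‖CC x i‖ := by
      have h10 : (1 / N) * (m' * en x m' / 16) ≤ (1 / N) * ∑ i ∈ range (A * m'), ‖CC x i‖ :=
        mul_le_mul_of_nonneg_left h5 (by positivity)
      refine le_trans ?_ h10
      have h11 := en_pos x m'
      -- en x N ≤ en x m' * (N / m'), and N / m' ≤ 4 A
      have h12 : (N : ℝ) / m' ≤ 4 * A := by rw [div_le_iff₀ hm'0]; exact hm'4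
      have h13 : en x N ≤ en x m' * (4 * A) := h6.trans (mul_le_mul_of_nonneg_left h12 h11.le)
      have h14 : 1 / (4 * (A : ℝ)) ≤ m' / N := by
        rw [div_le_div_iff₀ (by positivity) hN0]
        linarith
      calc en x N / (256 * A ^ 2) ≤ en x m' * (4 * A) / (256 * A ^ 2) := by gcongr
        _ = (1 / (4 * (A : ℝ))) * (en x m' / 16) := by field_simp; norm_num
        _ ≤ (m' / N) * (en x m' / 16) := by gcongr
        _ = (1 / N) * (m' * en x m' / 16) := by ring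
    calc δ * en x N = (ε / 2) * (en x N / (256 * A ^ 2)) := by rw [hδ]; field_simp; ring
      _ ≤ (ε / 2) * ∑ i ∈ range (A * m'), ‖CC x i‖ / ((N - i : ℕ) : ℝ) :=
          mul_le_mul_of_nonneg_left (h9.trans h8) (by positivity)
  obtain ⟨ζ, hζ1, -, hζ2⟩ := corr' (by positivity : 0 ≤ ε / 2) hP1 hPN (h4.trans h7)
  refine ⟨fun k => x k + ζ k, fun k => ?_, hζ2⟩
  calc ‖x k + ζ k‖ ≤ ‖x k‖ + ‖ζ k‖ := norm_add_le _ _
    _ ≤ σ' + ε / 2 := add_le_add (hxd k) (hζ1 k)
    _ = σ + ε := by rw [hσ']; ring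

end Pool.Agent.Helper474.Tur
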