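import Pool.Agent.Helper474.TurG

/-!
Explicit construction, part 1: factorial series.
-/

set_option autoImplicit false

namespace Pool.Agent.Helper474.Tur

open Finset

section generic

/-- the product `prod_{i=1}^j (1 - b/i)` -/
def pp {F : Type*} [Field F] (b : F) (j : ℕ) : F := ∏ i ∈ range j, (1 - b / ((i : F) + 1))

@[simp] lemma pp_zero {F : Type*} [Field F] (b : F) : pp b 0 = 1 := by simp [pp]

variable {F : Type*} [Field F] [CharZero F]

lemma pp_succ (b : F) (j : ℕ) : ((j : F) + 1) * pp b (j + 1) = ((j : F) + 1 - b) * pp b j := by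
  unfold pp
  rw [Finset.prod_range_succ]
  have h3 : ((j : F) + 1) ≠ 0 := Nat.cast_add_one_ne_zero j
  field_simp

lemma cast_descFactorial_succ (J r : ℕ) :
    ((J.descFactorial (r + 1) : ℕ) : F) = ((J : F) - r) * (J.descFactorial r : ℕ) := by
  rw [Nat.descFactorial_succ]
  by_cases h : r ≤ J
  · push_cast [Nat.cast_sub h]
    ring
  · push Not at h
    have h1 : J.descFactorial r = 0 := Nat.descFactorial_eq_zero_iff_lt.2 h
    rw [h1]
    simp

/-- the moment identity -/
lemma moment (b : F) (r J : ℕ) :
    ((r : F) + 1 - b) * ∑ j ∈ range J, ((j.descFactorial r : ℕ) : F) * pp b j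
      = ((J.descFactorial (r + 1) : ℕ) : F) * pp b J := by
  induction J with
  | zero => simp
  | succ J ih =>
    rw [Finset.sum_range_succ, mul_add, ih]
    have h1 : (((J + 1).descFactorial (r + 1) : ℕ) : F) = ((J : F) + 1) * (J.descFactorial r : ℕ) := by
      rw [Nat.succ_descFactorial_succ]; push_cast; ring
    rw [h1, cast_descFactorial_succ]
    have h2 := pp_succ b J
    calc ((J : F) - r) * (J.descFactorial r : ℕ) * pp b J
          + ((r : F) + 1 - b) * (((J.descFactorial r : ℕ) : F) * pp b J)
        = (J.descFactorial r : ℕ) * (((J : F) + 1 - b) * pp b J) := by ring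
      _ = (J.descFactorial r : ℕ) * (((J : F) + 1) * pp b (J + 1)) := by rw [h2]
      _ = _ := by ring

/-- factorial series with remainder -/
lemma fact_series {N j : ℕ} (hj : j < N) (R : ℕ) (hR : R ≤ N) :
    (1 : F) / ((N : F) - j) = ∑ r ∈ range R, ((j.descFactorial r : ℕ) : F) / (N.descFactorial (r + 1) : ℕ)
      + ((j.descFactorial R : ℕ) : F) / ((N.descFactorial R : ℕ) * ((N : F) - j)) := by
  have hNj : ((N : F) - j) ≠ 0 := by
    have : ((N - j : ℕ) : F) ≠ 0 := by
      have : N - j ≠ 0 := by omega
      exact_mod_cast this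
    rwa [Nat.cast_sub hj.le] at this
  induction R with
  | zero => simp
  | succ R ih =>
    have hR' : R < N := by omega
    have hNR : ((N : F) - R) ≠ 0 := by
      have : ((N - R : ℕ) : F) ≠ 0 := by
        have : N - R ≠ 0 := by omega
        exact_mod_cast this
      rwa [Nat.cast_sub hR'.le] at this
    have hdf : ((N.descFactorial R : ℕ) : F) ≠ 0 := by
      have : N.descFactorial R ≠ 0 := by
        rw [Ne, Nat.descFactorial_eq_zero_iff_lt]; omega
      exact_mod_cast this
    rw [ih (by omega), Finset.sum_range_succ, cast_descFactorial_succ N R, cast_descFactorial_succ j R]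
    field_simp
    ring

end generic

lemma CC_const (b : ℂ) (n : ℕ) : CC (fun _ => b) n = pp b n := by
  unfold CC
  symm
  apply ee_unique (fun _ => 1 - b) (pp b) (pp_zero b)
  intro n
  have h := moment b 0 (n + 1)
  simp only [Nat.descFactorial_zero, Nat.cast_one, one_mul, Nat.cast_zero, zero_add] at h
  rw [Nat.descFactorial_one] at h
  push_cast at h
  rw [← h, Finset.mul_sum, ← Finset.sum_range_reflect (fun j => (1 - b) * pp b j)]
  refine Finset.sum_congr rfl fun i _ => ?_
  congr 1

/-- ratio of falling factorials -/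
noncomputable def ar (r J : ℕ) : ℝ := ((J.descFactorial r : ℕ) : ℝ) / (((2 * J).descFactorial r : ℕ) : ℝ)

lemma ar_nonneg (r J : ℕ) : 0 ≤ ar r J := by unfold ar; positivity

lemma ar_succ (r J : ℕ) : ar (r + 1) J = ar r J * (((J : ℝ) - r) / (2 * J - r)) := by
  unfold ar
  rw [cast_descFactorial_succ, cast_descFactorial_succ]
  push_cast
  rw [mul_div_mul_comm, mul_comm]

lemma ar_le (r J : ℕ) (h : r ≤ J) : ar r J ≤ (1 / 2) ^ r := by
  induction r with
  | zero => simp [ar]
  | succ r ih =>
    rw [ar_succ, pow_succ]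
    have h1 : (r : ℝ) + 1 ≤ J := by exact_mod_cast h
    have h2 : (((J : ℝ) - r) / (2 * J - r)) ≤ 1 / 2 := by
      rw [div_le_div_iff₀ (by linarith [Nat.cast_nonneg (α := ℝ) r]) (by norm_num)]
      have : (0 : ℝ) ≤ r := by positivity
      linarith
    have h3 : 0 ≤ (((J : ℝ) - r) / (2 * J - r)) := by
      apply div_nonneg
      · linarith
      · linarith [Nat.cast_nonneg (α := ℝ) r]
    exact mul_le_mul (ih (by omega)) h2 h3 (by positivity)

lemma ar_tendsto (r : ℕ) : Filter.Tendsto (fun J => ar r J) Filter.atTop (nhds ((1 / 2) ^ r)) := by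
  induction r with
  | zero =>
    have : (fun J => ar 0 J) = fun _ => (1 : ℝ) := by funext J; simp [ar]
    rw [this]
    simp
  | succ r ih =>
    have h1 : (fun J => ar (r + 1) J) = fun J : ℕ => ar r J * (((J : ℝ) - r) / (2 * J - r)) := by
      funext J; exact ar_succ r J
    rw [h1, pow_succ]
    apply ih.mul
    have h2 : Filter.Tendsto (fun J : ℕ => (1 - (r : ℝ) / J) / (2 - (r : ℝ) / J)) Filter.atTop
        (nhds ((1 - 0) / (2 - 0))) := by
      have h3 : Filter.Tendsto (fun J : ℕ => (r : ℝ) / J) Filter.atTop (nhds 0) :=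
        tendsto_const_div_atTop_nhds_zero_nat _
      apply Filter.Tendsto.div
      · exact h3.const_sub 1
      · exact h3.const_sub 2
      · norm_num
    rw [sub_zero, sub_zero] at h2
    refine h2.congr' ?_
    filter_upwards [Filter.eventually_ge_atTop 1] with J hJ
    have hJ0 : (J : ℝ) ≠ 0 := by
      have : J ≠ 0 := by omega
      exact_mod_cast this
    have h4 : (1 - (r : ℝ) / J) = ((J : ℝ) - r) / J := by field_simp
    have h5 : (2 - (r : ℝ) / J) = (2 * (J : ℝ) - r) / J := by field_simp
    rw [h4, h5, div_div_div_cancel_right₀ hJ0]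

end Pool.Agent.Helper474.Tur
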