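import Pool.Agent.Helper474.TurH

/-!
Explicit construction, part 2: estimates.
-/

set_option autoImplicit false

namespace Pool.Agent.Helper474.Tur

open Finset

/-- main decomposition -/
lemma sum_main {F : Type*} [Field F] [CharZero F] (b : F) (hb : ∀ r : ℕ, (r : F) + 1 - b ≠ 0)
    (J R : ℕ) (hR : R ≤ 2 * J) :
    ∑ j ∈ range J, pp b j / (((2 * J : ℕ) : F) - j)
      = pp b J * ∑ r ∈ range R, (((J.descFactorial (r + 1) : ℕ) : F)
          / ((2 * J).descFactorial (r + 1) : ℕ)) / ((r : F) + 1 - b)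
        + ∑ j ∈ range J, pp b j * (((j.descFactorial R : ℕ) : F)
          / ((((2 * J).descFactorial R : ℕ) : F) * (((2 * J : ℕ) : F) - j))) := by
  have h1 : ∀ j ∈ range J, pp b j / (((2 * J : ℕ) : F) - j)
      = ∑ r ∈ range R, (((j.descFactorial r : ℕ) : F) * pp b j) / ((2 * J).descFactorial (r + 1) : ℕ)
        + pp b j * (((j.descFactorial R : ℕ) : F)
          / ((((2 * J).descFactorial R : ℕ) : F) * (((2 * J : ℕ) : F) - j))) := by
    intro j hj
    rw [Finset.mem_range] at hj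
    have h2 := fact_series (F := F) (N := 2 * J) (j := j) (by omega) R hR
    rw [div_eq_mul_one_div, h2, mul_add, Finset.mul_sum]
    congr 1
    refine Finset.sum_congr rfl fun r _ => ?_
    ring
  rw [Finset.sum_congr rfl h1, Finset.sum_add_distrib]
  congr 1
  rw [Finset.sum_comm, Finset.mul_sum]
  refine Finset.sum_congr rfl fun r _ => ?_
  rw [← Finset.sum_div]
  have h3 := moment b r J
  have h4 := hb r
  have h5 : ∑ j ∈ range J, ((j.descFactorial r : ℕ) : F) * pp b j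
      = ((J.descFactorial (r + 1) : ℕ) : F) * pp b J / ((r : F) + 1 - b) := by
    rw [eq_div_iff h4, mul_comm]
    exact h3
  rw [h5]
  ring

lemma pp_pos {β : ℝ} (hβ : β < 1) (j : ℕ) : 0 < pp β j := by
  unfold pp
  apply Finset.prod_pos
  intro i _
  have hi : (0 : ℝ) < (i : ℝ) + 1 := by positivity
  have : β / ((i : ℝ) + 1) < 1 := by
    rw [div_lt_one hi]
    have : (0 : ℝ) ≤ i := by positivity
    linarith
  linarith

lemma pp_le_one {β : ℝ} (hβ0 : 0 ≤ β) (hβ : β < 1) (j : ℕ) : pp β j ≤ 1 := by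
  unfold pp
  apply Finset.prod_le_one
  · intro i _
    have hi : (0 : ℝ) < (i : ℝ) + 1 := by positivity
    have : β / ((i : ℝ) + 1) < 1 := by
      rw [div_lt_one hi]
      have : (0 : ℝ) ≤ i := by positivity
      linarith
    linarith
  · intro i _
    have : 0 ≤ β / ((i : ℝ) + 1) := by positivity
    linarith

lemma pp_succ' {F : Type*} [Field F] (b : F) (j : ℕ) :
    pp b (j + 1) = pp b j * (1 - b / ((j : F) + 1)) := by
  unfold pp
  rw [Finset.prod_range_succ]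

/-- growth at infinity -/
lemma pp_lower {β : ℝ} (hβ : β ≤ 1 / 2) (J : ℕ) (hJ : 1 ≤ J) :
    1 / (4 * (J : ℝ)) ≤ pp β J ^ 2 := by
  induction J, hJ using Nat.le_induction with
  | base =>
    unfold pp
    simp
    nlinarith
  | succ J hJ ih =>
    have hJ0 : (0 : ℝ) < J := by exact_mod_cast hJ
    rw [pp_succ', mul_pow]
    have h1 : 1 - (1 / 2) / ((J : ℝ) + 1) ≤ 1 - β / ((J : ℝ) + 1) := by
      have : β / ((J : ℝ) + 1) ≤ (1 / 2) / ((J : ℝ) + 1) := by gcongr
      linarith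
    have h2 : 1 - (1 / 2) / ((J : ℝ) + 1) = (2 * J + 1) / (2 * ((J : ℝ) + 1)) := by
      field_simp
      ring
    have h3 : 0 ≤ 1 - (1 / 2) / ((J : ℝ) + 1) := by rw [h2]; positivity
    have h4 : (1 - (1 / 2) / ((J : ℝ) + 1)) ^ 2 ≤ (1 - β / ((J : ℝ) + 1)) ^ 2 := by gcongr
    push_cast
    calc 1 / (4 * ((J : ℝ) + 1)) ≤ 1 / (4 * (J : ℝ)) * (1 - (1 / 2) / ((J : ℝ) + 1)) ^ 2 := by
          rw [h2, div_pow, div_mul_div_comm, div_le_div_iff₀ (by positivity) (by positivity)]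
          nlinarith [sq_nonneg ((J : ℝ))]
      _ ≤ pp β J ^ 2 * (1 - β / ((J : ℝ) + 1)) ^ 2 := mul_le_mul ih h4 (by positivity) (by positivity)

/-- comparison from below -/
lemma pp_compare1 (b : ℂ) (hb : b.re < 1) {j J : ℕ} (h : j ≤ J) :
    ‖pp b j‖ * pp b.re J ≤ ‖pp b J‖ * pp b.re j := by
  induction J, h using Nat.le_induction with
  | base => rfl
  | succ J hJ ih =>
    rw [pp_succ', pp_succ', norm_mul]
    have h1 : 1 - b.re / ((J : ℝ) + 1) ≤ ‖1 - b / ((J : ℂ) + 1)‖ := by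
      have h2 : (1 - b / ((J : ℂ) + 1)).re = 1 - b.re / ((J : ℝ) + 1) := by
        have h1 : ((J : ℂ) + 1) = (((J : ℝ) + 1 : ℝ) : ℂ) := by push_cast; rfl
        rw [h1, Complex.sub_re, Complex.one_re, Complex.div_ofReal_re]
      rw [← h2]
      exact Complex.re_le_norm _
    have h3 : 0 ≤ 1 - b.re / ((J : ℝ) + 1) := by
      have hi : (0 : ℝ) < (J : ℝ) + 1 := by positivity
      have : b.re / ((J : ℝ) + 1) ≤ 1 := by
        rw [div_le_one hi]
        have : (0 : ℝ) ≤ J := by positivity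
        linarith
      linarith
    calc ‖pp b j‖ * (pp b.re J * (1 - b.re / ((J : ℝ) + 1)))
        = (‖pp b j‖ * pp b.re J) * (1 - b.re / ((J : ℝ) + 1)) := by ring
      _ ≤ (‖pp b J‖ * pp b.re j) * ‖1 - b / ((J : ℂ) + 1)‖ :=
          mul_le_mul ih h1 h3 (mul_nonneg (norm_nonneg _) (pp_pos hb _).le)
      _ = _ := by ring

/-- the chosen parameter -/
noncomputable def bb : ℂ := ⟨43 / 100, 56 / 100⟩

lemma bb_re : bb.re = 43 / 100 := rfl
lemma bb_im : bb.im = 56 / 100 := rfl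

lemma bb_norm : ‖bb‖ ≤ 707 / 1000 := by
  have h : ‖bb‖ ^ 2 = 4985 / 10000 := by
    rw [Complex.sq_norm, Complex.normSq_apply, bb_re, bb_im]; norm_num
  have := norm_nonneg bb
  nlinarith

lemma factor_le {i : ℕ} (hi : 16 ≤ i) :
    ‖1 - bb / ((i : ℂ) + 1)‖ ≤ 1 - (42 / 100) / ((i : ℝ) + 1) := by
  have hi0 : (16 : ℝ) ≤ i := by exact_mod_cast hi
  have h1 : ((i : ℂ) + 1) = (((i : ℝ) + 1 : ℝ) : ℂ) := by push_cast; rfl
  have hre : (1 - bb / ((i : ℂ) + 1)).re = 1 - (43 / 100) / ((i : ℝ) + 1) := by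
    rw [h1, Complex.sub_re, Complex.one_re, Complex.div_ofReal_re, bb_re]
  have him : (1 - bb / ((i : ℂ) + 1)).im = - ((56 / 100) / ((i : ℝ) + 1)) := by
    rw [h1, Complex.sub_im, Complex.one_im, Complex.div_ofReal_im, bb_im, zero_sub]
  have hpos : (0 : ℝ) < (i : ℝ) + 1 := by linarith
  have h0 : 0 ≤ 1 - (42 / 100) / ((i : ℝ) + 1) := by
    have : (42 / 100) / ((i : ℝ) + 1) ≤ 1 := by
      rw [div_le_one hpos]; linarith
    linarith
  apply le_of_sq_le_sq _ h0
  rw [Complex.sq_norm, Complex.normSq_apply, hre, him]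
  have h3 : (1 - (42 / 100) / ((i : ℝ) + 1)) ^ 2
      - ((1 - (43 / 100) / ((i : ℝ) + 1)) * (1 - (43 / 100) / ((i : ℝ) + 1))
        + - ((56 / 100) / ((i : ℝ) + 1)) * - ((56 / 100) / ((i : ℝ) + 1)))
      = (1 / 50 * ((i : ℝ) + 1) - 3221 / 10000) / ((i : ℝ) + 1) ^ 2 := by
    field_simp
    ring
  have h4 : 0 ≤ (1 / 50 * ((i : ℝ) + 1) - 3221 / 10000) / ((i : ℝ) + 1) ^ 2 := by
    apply div_nonneg _ (by positivity)
    linarith
  linarith

/-- comparison from above -/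
lemma pp_compare2 {j J : ℕ} (hj : 16 ≤ j) (h : j ≤ J) :
    ‖pp bb J‖ * pp (42 / 100 : ℝ) j ≤ ‖pp bb j‖ * pp (42 / 100 : ℝ) J := by
  induction J, h using Nat.le_induction with
  | base => rfl
  | succ J hJ ih =>
    rw [pp_succ', pp_succ', norm_mul]
    have h1 := factor_le (i := J) (by omega)
    have h2 := norm_nonneg (1 - bb / ((J : ℂ) + 1))
    calc ‖pp bb J‖ * ‖1 - bb / ((J : ℂ) + 1)‖ * pp (42 / 100 : ℝ) j
        = (‖pp bb J‖ * pp (42 / 100 : ℝ) j) * ‖1 - bb / ((J : ℂ) + 1)‖ := by ring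
      _ ≤ (‖pp bb j‖ * pp (42 / 100 : ℝ) J) * (1 - (42 / 100) / ((J : ℝ) + 1)) :=
          mul_le_mul ih h1 h2 (mul_nonneg (norm_nonneg _) (pp_pos (by norm_num) _).le)
      _ = _ := by ring

lemma pp_bb_pos (J : ℕ) : 0 < ‖pp bb J‖ := by
  have h := pp_compare1 bb (by rw [bb_re]; norm_num) (Nat.zero_le J)
  rw [pp_zero, pp_zero, norm_one, one_mul, mul_one] at h
  exact lt_of_lt_of_le (pp_pos (by rw [bb_re]; norm_num) J) h

/-- upper estimate for the remainder -/
lemma rem_le {J R : ℕ} (hJ : 1 ≤ J) :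
    ‖∑ j ∈ range J, pp bb j * (((j.descFactorial R : ℕ) : ℂ)
          / ((((2 * J).descFactorial R : ℕ) : ℂ) * (((2 * J : ℕ) : ℂ) - j)))‖
      ≤ ‖pp bb J‖ * (ar R J / ((R : ℝ) + 1 - 43 / 100)) := by
  have hJ0 : (0 : ℝ) < J := by exact_mod_cast hJ
  have hβ : bb.re < 1 := by rw [bb_re]; norm_num
  have hpJ := pp_pos hβ J
  have hRb : (0 : ℝ) < (R : ℝ) + 1 - 43 / 100 := by
    have : (0 : ℝ) ≤ R := by positivity
    linarith
  refine (norm_sum_le _ _).trans ?_
  have h1 : ∀ j ∈ range J, ‖pp bb j * (((j.descFactorial R : ℕ) : ℂ)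
          / ((((2 * J).descFactorial R : ℕ) : ℂ) * (((2 * J : ℕ) : ℂ) - j)))‖
      ≤ (‖pp bb J‖ / pp bb.re J / ((2 * J).descFactorial R : ℕ) / J)
        * (((j.descFactorial R : ℕ) : ℝ) * pp bb.re j) := by
    intro j hj
    rw [Finset.mem_range] at hj
    have h2 := pp_compare1 bb hβ hj.le
    have h3 : ‖pp bb j‖ ≤ ‖pp bb J‖ / pp bb.re J * pp bb.re j := by
      rw [div_mul_eq_mul_div, le_div_iff₀ hpJ]
      exact h2
    have h4 : (((2 * J : ℕ) : ℂ) - j) = (((2 * J - j : ℕ) : ℝ) : ℂ) := by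
      rw [Nat.cast_sub (by omega : j ≤ 2 * J)]
      push_cast
      ring
    have h5 : (J : ℝ) ≤ ((2 * J - j : ℕ) : ℝ) := by
      have : J ≤ 2 * J - j := by omega
      exact_mod_cast this
    rw [norm_mul, norm_div, norm_mul, Complex.norm_natCast, Complex.norm_natCast, h4,
      Complex.norm_real, Real.norm_eq_abs, abs_of_nonneg (by positivity)]
    calc ‖pp bb j‖ * ((j.descFactorial R : ℕ) / (((2 * J).descFactorial R : ℕ) * ((2 * J - j : ℕ) : ℝ)))
        ≤ (‖pp bb J‖ / pp bb.re J * pp bb.re j)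
          * ((j.descFactorial R : ℕ) / (((2 * J).descFactorial R : ℕ) * (J : ℝ))) := by
          apply mul_le_mul h3 _ (by positivity) (by have := pp_pos hβ j; positivity)
          by_cases h0 : ((2 * J).descFactorial R : ℕ) = 0
          · rw [h0]; simp
          · have h6 : (0 : ℝ) < ((2 * J).descFactorial R : ℕ) := by
              have : 0 < (2 * J).descFactorial R := Nat.pos_of_ne_zero h0
              exact_mod_cast this
            gcongr
      _ = _ := by
          ring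
  refine (Finset.sum_le_sum h1).trans ?_
  rw [← Finset.mul_sum]
  have h2 := moment bb.re R J
  have h3 : ∑ j ∈ range J, ((j.descFactorial R : ℕ) : ℝ) * pp bb.re j
      = ((J.descFactorial (R + 1) : ℕ) : ℝ) * pp bb.re J / ((R : ℝ) + 1 - bb.re) := by
    rw [eq_div_iff (by rw [bb_re]; exact hRb.ne'), mul_comm]
    exact h2
  rw [h3, cast_descFactorial_succ]
  have h4 : ((J : ℝ) - R) * (J.descFactorial R : ℕ) ≤ J * (J.descFactorial R : ℕ) := by
    apply mul_le_mul_of_nonneg_right _ (by positivity)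
    have : (0 : ℝ) ≤ R := by positivity
    linarith
  have h5 : (0 : ℝ) ≤ ‖pp bb J‖ / pp bb.re J / ((2 * J).descFactorial R : ℕ) / J := by positivity
  calc (‖pp bb J‖ / pp bb.re J / ((2 * J).descFactorial R : ℕ) / J)
        * ((((J : ℝ) - R) * (J.descFactorial R : ℕ)) * pp bb.re J / ((R : ℝ) + 1 - bb.re))
      ≤ (‖pp bb J‖ / pp bb.re J / ((2 * J).descFactorial R : ℕ) / J)
        * ((J * (J.descFactorial R : ℕ)) * pp bb.re J / ((R : ℝ) + 1 - bb.re)) := by
        apply mul_le_mul_of_nonneg_left _ h5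
        apply div_le_div_of_nonneg_right _ (by rw [bb_re]; exact hRb.le)
        exact mul_le_mul_of_nonneg_right h4 hpJ.le
    _ = ‖pp bb J‖ * (ar R J / ((R : ℝ) + 1 - 43 / 100)) := by
        rw [bb_re] at *
        unfold ar
        field_simp

end Pool.Agent.Helper474.Tur
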