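import Pool.Agent.Helper474.TurI

/-!
Explicit construction, part 3: limits and numerics.
-/

set_option autoImplicit false

namespace Pool.Agent.Helper474.Tur

open Finset Filter

lemma prod_diff (a c : ℕ → ℂ) (n : ℕ) (ha : ∀ i, ‖a i‖ ≤ 1) (hc : ∀ i, ‖c i‖ ≤ 1) :
    ‖∏ i ∈ range n, a i - ∏ i ∈ range n, c i‖ ≤ ∑ i ∈ range n, ‖a i - c i‖ := by
  induction n with
  | zero => simp
  | succ n ih =>
    rw [Finset.prod_range_succ, Finset.prod_range_succ, Finset.sum_range_succ]
    have h1 : (∏ i ∈ range n, a i) * a n - (∏ i ∈ range n, c i) * c n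
        = (∏ i ∈ range n, a i - ∏ i ∈ range n, c i) * a n + (∏ i ∈ range n, c i) * (a n - c n) := by
      ring
    rw [h1]
    refine (norm_add_le _ _).trans (add_le_add ?_ ?_)
    · rw [norm_mul]
      have h2 := ha n
      have h3 := norm_nonneg (∏ i ∈ range n, a i - ∏ i ∈ range n, c i)
      nlinarith [norm_nonneg (a n)]
    · rw [norm_mul, norm_prod]
      have h2 : ∏ i ∈ range n, ‖c i‖ ≤ 1 := Finset.prod_le_one (fun i _ => norm_nonneg _) fun i _ => hc i
      have h3 := norm_nonneg (a n - c n)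
      nlinarith

lemma harm_tendsto : Tendsto (fun J : ℕ => ∑ i ∈ range J, 1 / (((J + i : ℕ) : ℝ) + 1)) atTop
    (nhds (Real.log 2)) := by
  have h1 := Real.tendsto_harmonic_sub_log
  have h2 : Tendsto (fun J : ℕ => 2 * J) atTop atTop :=
    tendsto_atTop_mono (fun J => by simp only [id]; omega) tendsto_id
  have h3 := (h1.comp h2).sub h1
  rw [sub_self] at h3
  have h4 := h3.add_const (Real.log 2)
  rw [zero_add] at h4
  refine h4.congr' ?_
  filter_upwards [eventually_ge_atTop 1] with J hJ
  have hJ0 : (0 : ℝ) < J := by exact_mod_cast hJ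
  simp only [Function.comp]
  have h5 : ((harmonic (2 * J) : ℚ) : ℝ) = (harmonic J : ℚ) + ∑ i ∈ range J, 1 / (((J + i : ℕ) : ℝ) + 1) := by
    unfold harmonic
    rw [two_mul, Finset.sum_range_add]
    push_cast
    congr 1
    refine Finset.sum_congr rfl fun i _ => ?_
    rw [one_div]
  rw [h5]
  push_cast
  rw [Real.log_mul (by norm_num) hJ0.ne']
  ring

lemma ratio_tendsto : Tendsto (fun J : ℕ => pp bb (2 * J) / pp bb J) atTop
    (nhds (Complex.exp (-bb * (Real.log 2 : ℂ)))) := by
  have h1 : Tendsto (fun J : ℕ => Complex.exp (-bb * ((∑ i ∈ range J, 1 / (((J + i : ℕ) : ℝ) + 1) : ℝ) : ℂ)))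
      atTop (nhds (Complex.exp (-bb * (Real.log 2 : ℂ)))) := by
    apply (Complex.continuous_exp.tendsto _).comp
    apply Tendsto.const_mul
    exact (Complex.continuous_ofReal.tendsto _).comp harm_tendsto
  have h2 : Tendsto (fun J : ℕ => pp bb (2 * J) / pp bb J
      - Complex.exp (-bb * ((∑ i ∈ range J, 1 / (((J + i : ℕ) : ℝ) + 1) : ℝ) : ℂ))) atTop (nhds 0) := by
    apply squeeze_zero_norm' (a := fun J : ℕ => 1 / (J : ℝ)) _ tendsto_one_div_atTop_nhds_zero_nat
    filter_upwards [eventually_ge_atTop 16] with J hJ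
    have hJ0 : (0 : ℝ) < J := by
      have : 0 < J := by omega
      exact_mod_cast this
    have hne : pp bb J ≠ 0 := norm_pos_iff.1 (pp_bb_pos J)
    set z : ℕ → ℂ := fun i => bb / ((((J + i : ℕ) : ℂ)) + 1) with hz
    have hsplit : pp bb (2 * J) = pp bb J * ∏ i ∈ range J, (1 - z i) := by
      unfold pp
      rw [two_mul, Finset.prod_range_add]
    have hexp : Complex.exp (-bb * ((∑ i ∈ range J, 1 / (((J + i : ℕ) : ℝ) + 1) : ℝ) : ℂ))
        = ∏ i ∈ range J, Complex.exp (- z i) := by
      rw [← Complex.exp_sum]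
      congr 1
      push_cast
      rw [Finset.mul_sum]
      refine Finset.sum_congr rfl fun i _ => ?_
      simp only [hz]
      push_cast
      ring
    rw [hsplit, mul_div_cancel_left₀ _ hne, hexp]
    have hzn : ∀ i, ‖z i‖ ≤ 1 / J := by
      intro i
      simp only [hz]
      rw [norm_div, norm_natCast_add_one]
      have h3 := bb_norm
      apply div_le_div₀ (by norm_num) (by linarith) hJ0
      push_cast
      have : (0 : ℝ) ≤ i := by positivity
      linarith
    have hJ1 : 1 / (J : ℝ) ≤ 1 := by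
      rw [div_le_one hJ0]
      have : 1 ≤ J := by omega
      exact_mod_cast this
    have h1z : ∀ i, ‖1 - z i‖ ≤ 1 := by
      intro i
      refine (factor_le (i := J + i) (by omega)).trans ?_
      have : (0 : ℝ) ≤ (42 / 100) / (((J + i : ℕ) : ℝ) + 1) := by positivity
      linarith
    have hez : ∀ i, ‖Complex.exp (- z i)‖ ≤ 1 := by
      intro i
      rw [Complex.norm_exp, Real.exp_le_one_iff, Complex.neg_re]
      have h3 : (z i).re = (43 / 100) / (((J + i : ℕ) : ℝ) + 1) := by
        simp only [hz]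
        have h1 : ((((J + i : ℕ) : ℂ)) + 1) = (((((J + i : ℕ) : ℝ)) + 1 : ℝ) : ℂ) := by push_cast; rfl
        rw [h1, Complex.div_ofReal_re, bb_re]
      rw [h3]
      have : (0 : ℝ) ≤ (43 / 100) / (((J + i : ℕ) : ℝ) + 1) := by positivity
      linarith
    refine (prod_diff (fun i => 1 - z i) (fun i => Complex.exp (- z i)) J h1z hez).trans ?_
    calc ∑ i ∈ range J, ‖1 - z i - Complex.exp (- z i)‖ ≤ ∑ i ∈ range J, (1 / (J : ℝ)) ^ 2 := by
          refine Finset.sum_le_sum fun i _ => ?_
          have h3 := Complex.norm_exp_sub_one_sub_id_le (x := - z i) (by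
            rw [norm_neg]; exact (hzn i).trans hJ1)
          rw [norm_sub_rev]
          have h4 : Complex.exp (- z i) - (1 - z i) = Complex.exp (- z i) - 1 - (- z i) := by ring
          rw [h4]
          refine h3.trans ?_
          rw [norm_neg]
          have := norm_nonneg (z i)
          have h5 := hzn i
          gcongr
      _ = 1 / (J : ℝ) := by
          rw [Finset.sum_const, Finset.card_range, nsmul_eq_mul]
          field_simp
  have h3 := h2.add h1
  rw [zero_add] at h3
  refine h3.congr fun J => ?_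
  ring

lemma tail_tendsto : Tendsto (fun J : ℕ => 16 / ((J : ℝ) * pp (42 / 100 : ℝ) J)) atTop (nhds 0) := by
  have h1 : Tendsto (fun J : ℕ => 32 / Real.sqrt J) atTop (nhds 0) := by
    apply Tendsto.div_atTop tendsto_const_nhds
    exact Real.tendsto_sqrt_atTop.comp tendsto_natCast_atTop_atTop
  refine squeeze_zero' ?_ ?_ h1
  · filter_upwards with J
    have := pp_pos (by norm_num : (42 / 100 : ℝ) < 1) J
    positivity
  · filter_upwards [eventually_ge_atTop 1] with J hJ
    have hJ0 : (0 : ℝ) < J := by exact_mod_cast hJ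
    have h2 := pp_lower (by norm_num : (42 / 100 : ℝ) ≤ 1 / 2) J hJ
    have h3 := pp_pos (by norm_num : (42 / 100 : ℝ) < 1) J
    have hs : 0 < Real.sqrt J := Real.sqrt_pos.2 hJ0
    have hs2 : Real.sqrt J ^ 2 = J := Real.sq_sqrt hJ0.le
    rw [div_le_div_iff₀ (by positivity) hs]
    have h4 : Real.sqrt J ≤ 2 * (J * pp (42 / 100 : ℝ) J) := by
      apply le_of_sq_le_sq _ (by positivity)
      rw [hs2]
      have h5 : (J : ℝ) ^ 2 * (1 / (4 * (J : ℝ))) ≤ J ^ 2 * pp (42 / 100 : ℝ) J ^ 2 :=
        mul_le_mul_of_nonneg_left h2 (by positivity)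
      have h6 : (J : ℝ) ^ 2 * (1 / (4 * (J : ℝ))) = J / 4 := by field_simp
      rw [h6] at h5
      nlinarith
    linarith

end Pool.Agent.Helper474.Tur
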