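import Pool.Agent.Helper474.TurJ

/-!
Explicit construction, part 4: numerics and Theorem A.
-/

set_option autoImplicit false

namespace Pool.Agent.Helper474.Tur

open Finset Filter

/-- the limit of the finite factorial sum -/
noncomputable def TT : ℂ := ∑ r ∈ range 5, (((1 / 2) ^ (r + 1) : ℝ) : ℂ) / ((r : ℂ) + 1 - bb)

lemma TT_re : TT.re = ∑ r ∈ range 5, (1 / 2 : ℝ) ^ (r + 1)
    * (((r : ℝ) + 57 / 100) / (((r : ℝ) + 57 / 100) ^ 2 + 3136 / 10000)) := by
  unfold TT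
  rw [Complex.re_sum]
  refine Finset.sum_congr rfl fun r _ => ?_
  rw [div_eq_mul_inv, Complex.re_ofReal_mul, Complex.inv_re, Complex.normSq_apply]
  have h1 : ((r : ℂ) + 1 - bb).re = (r : ℝ) + 57 / 100 := by
    simp [bb_re]; ring
  have h2 : ((r : ℂ) + 1 - bb).im = - (56 / 100) := by
    simp [bb_im]
  rw [h1, h2]
  congr 2
  ring

lemma TT_im : TT.im = ∑ r ∈ range 5, (1 / 2 : ℝ) ^ (r + 1)
    * ((56 / 100) / (((r : ℝ) + 57 / 100) ^ 2 + 3136 / 10000)) := by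
  unfold TT
  rw [Complex.im_sum]
  refine Finset.sum_congr rfl fun r _ => ?_
  rw [div_eq_mul_inv, Complex.im_ofReal_mul, Complex.inv_im, Complex.normSq_apply]
  have h1 : ((r : ℂ) + 1 - bb).re = (r : ℝ) + 57 / 100 := by
    simp [bb_re]; ring
  have h2 : ((r : ℂ) + 1 - bb).im = - (56 / 100) := by
    simp [bb_im]
  rw [h1, h2, neg_neg]
  congr 2
  ring

lemma TT_bounds : (6578 / 10000 < TT.re ∧ TT.re < 6580 / 10000) ∧
    (5025 / 10000 < TT.im ∧ TT.im < 5026 / 10000) := by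
  rw [TT_re, TT_im]
  simp only [Finset.sum_range_succ, Finset.sum_range_zero]
  norm_num

/-- rational approximation of the exponent -/
noncomputable def zz : ℂ := ⟨-(43 / 100 * (6931 / 10000)), -(56 / 100 * (6931 / 10000))⟩

/-- Taylor polynomial -/
noncomputable def PT : ℂ := ∑ m ∈ range 5, zz ^ m / (m.factorial : ℂ)

lemma PT_eq : PT = 1 + zz + zz ^ 2 / 2 + zz ^ 3 / 6 + zz ^ 4 / 24 := by
  unfold PT
  simp [Finset.sum_range_succ, Nat.factorial]

lemma zz_norm : ‖zz‖ ≤ 1 / 2 := by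
  have h : ‖zz‖ ^ 2 ≤ (1 / 2) ^ 2 := by
    rw [Complex.sq_norm, Complex.normSq_apply]; unfold zz; norm_num
  exact le_of_sq_le_sq h (by norm_num)

lemma PT_bounds : (6865 / 10000 < PT.re ∧ PT.re < 6875 / 10000) ∧
    (-2815 / 10000 < PT.im ∧ PT.im < -2805 / 10000) := by
  rw [PT_eq]
  have e1 : (zz ^ 2 / 2 : ℂ) = ((1 / 2 : ℝ) : ℂ) * (zz * zz) := by push_cast; ring
  have e2 : (zz ^ 3 / 6 : ℂ) = ((1 / 6 : ℝ) : ℂ) * (zz * (zz * zz)) := by push_cast; ring
  have e3 : (zz ^ 4 / 24 : ℂ) = ((1 / 24 : ℝ) : ℂ) * ((zz * zz) * (zz * zz)) := by push_cast; ring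
  rw [e1, e2, e3]
  simp only [Complex.add_re, Complex.add_im, Complex.ofReal_re, Complex.ofReal_im,
    Complex.mul_re, Complex.mul_im, Complex.one_re, Complex.one_im]
  unfold zz
  norm_num

lemma E_bound : ‖Complex.exp (-bb * (Real.log 2 : ℂ)) - PT‖ ≤ 1 / 1000 := by
  have h1 : ‖Complex.exp zz - PT‖ ≤ 5 / 10000 := by
    have h2 := Complex.exp_bound (x := zz) (by linarith [zz_norm]) (n := 5) (by norm_num)
    refine h2.trans ?_
    have h3 := zz_norm
    have h4 : ‖zz‖ ^ 5 ≤ (1 / 2) ^ 5 := by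
      have := norm_nonneg zz
      gcongr
    have h5 : ((Nat.succ 5 : ℕ) : ℝ) * ((Nat.factorial 5 : ℕ) * ((5 : ℕ) : ℝ))⁻¹ = 1 / 100 := by
      norm_num [Nat.factorial]
    rw [h5]
    linarith
  have h2 : ‖Complex.exp (-bb * (Real.log 2 : ℂ)) - Complex.exp zz‖ ≤ 2 / 10000 := by
    have h3 : Complex.exp (-bb * (Real.log 2 : ℂ)) - Complex.exp zz
        = Complex.exp zz * (Complex.exp (-bb * (Real.log 2 : ℂ) - zz) - 1) := by
      rw [mul_sub, ← Complex.exp_add]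
      ring_nf
    have h4 : -bb * (Real.log 2 : ℂ) - zz = - (((Real.log 2 - 6931 / 10000 : ℝ)) : ℂ) * bb := by
      apply Complex.ext
      · simp [bb, zz]; ring
      · simp [bb, zz]; ring
    have h5 : ‖-bb * (Real.log 2 : ℂ) - zz‖ ≤ 1 / 10000 := by
      rw [h4, norm_mul, norm_neg, Complex.norm_real, Real.norm_eq_abs]
      have h6 := Real.log_two_gt_d9
      have h7 := Real.log_two_lt_d9
      have h8 : |Real.log 2 - 6931 / 10000| ≤ 1 / 10000 := by
        rw [abs_le]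
        constructor <;> norm_num at * <;> linarith
      have h9 := bb_norm
      have h10 := norm_nonneg bb
      have h11 := abs_nonneg (Real.log 2 - 6931 / 10000)
      nlinarith
    have h6 := Complex.norm_exp_sub_one_le (x := -bb * (Real.log 2 : ℂ) - zz) (by linarith)
    have h7 : ‖Complex.exp zz‖ ≤ 1 := by
      rw [Complex.norm_exp, Real.exp_le_one_iff]
      unfold zz
      norm_num
    rw [h3, norm_mul]
    have h8 := norm_nonneg (Complex.exp (-bb * (Real.log 2 : ℂ) - zz) - 1)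
    nlinarith
  calc ‖Complex.exp (-bb * (Real.log 2 : ℂ)) - PT‖
      ≤ ‖Complex.exp (-bb * (Real.log 2 : ℂ)) - Complex.exp zz‖ + ‖Complex.exp zz - PT‖ :=
        norm_sub_le_norm_sub_add_norm_sub _ _ _
    _ ≤ 1 / 1000 := by linarith

lemma main_bound : ‖Complex.exp (-bb * (Real.log 2 : ℂ)) + bb * TT‖ ≤ 757 / 1000 := by
  have h1 : ‖PT + bb * TT‖ ≤ 755 / 1000 := by
    apply le_of_sq_le_sq _ (by norm_num)
    rw [Complex.sq_norm, Complex.normSq_apply, Complex.add_re, Complex.add_im, Complex.mul_re,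
      Complex.mul_im, bb_re, bb_im]
    obtain ⟨⟨a1, a2⟩, a3, a4⟩ := TT_bounds
    obtain ⟨⟨b1, b2⟩, b3, b4⟩ := PT_bounds
    have c1 : |PT.re + (43 / 100 * TT.re - 56 / 100 * TT.im)| ≤ 691 / 1000 := by
      rw [abs_le]; constructor <;> linarith
    have c2 : |PT.im + (43 / 100 * TT.im + 56 / 100 * TT.re)| ≤ 3045 / 10000 := by
      rw [abs_le]; constructor <;> linarith
    have d1 := sq_le_sq' (abs_le.1 c1).1 (abs_le.1 c1).2
    have d2 := sq_le_sq' (abs_le.1 c2).1 (abs_le.1 c2).2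
    nlinarith
  have h2 : Complex.exp (-bb * (Real.log 2 : ℂ)) + bb * TT
      = (Complex.exp (-bb * (Real.log 2 : ℂ)) - PT) + (PT + bb * TT) := by ring
  rw [h2]
  refine (norm_add_le _ _).trans ?_
  have := E_bound
  linarith

/-- upper function -/
noncomputable def Phi (J : ℕ) : ℝ :=
  ‖pp bb (2 * J) / pp bb J + bb * ∑ r ∈ range 5, ((ar (r + 1) J : ℝ) : ℂ) / ((r : ℂ) + 1 - bb)‖
    + ‖bb‖ * (ar 5 J / (((5 : ℕ) : ℝ) + 1 - 43 / 100))

/-- lower function -/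
noncomputable def Psi (J : ℕ) : ℝ :=
  707 / 1000 * (∑ r ∈ range 5, ar (r + 1) J / ((r : ℝ) + 1 - 42 / 100)
    - 16 / ((J : ℝ) * pp (42 / 100 : ℝ) J))

lemma bb_ne (r : ℕ) : (r : ℂ) + 1 - bb ≠ 0 := by
  intro h
  have := congrArg Complex.im h
  simp [bb_im] at this

lemma Phi_tendsto : Tendsto Phi atTop
    (nhds (‖Complex.exp (-bb * (Real.log 2 : ℂ)) + bb * TT‖
      + ‖bb‖ * ((1 / 2) ^ 5 / (((5 : ℕ) : ℝ) + 1 - 43 / 100)))) := by
  unfold Phi
  apply Tendsto.add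
  · apply Tendsto.norm
    apply ratio_tendsto.add
    apply Tendsto.const_mul
    unfold TT
    apply tendsto_finsetSum
    intro r _
    apply Tendsto.div_const
    exact (Complex.continuous_ofReal.tendsto _).comp (ar_tendsto (r + 1))
  · apply Tendsto.const_mul
    apply Tendsto.div_const
    exact ar_tendsto 5

lemma Psi_tendsto : Tendsto Psi atTop
    (nhds (707 / 1000 * (∑ r ∈ range 5, (1 / 2 : ℝ) ^ (r + 1) / ((r : ℝ) + 1 - 42 / 100) - 0))) := by
  unfold Psi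
  apply Tendsto.const_mul
  apply Tendsto.sub _ tail_tendsto
  apply tendsto_finsetSum
  intro r _
  apply Tendsto.div_const
  exact ar_tendsto (r + 1)

lemma eventually_lt : ∀ᶠ J in atTop, Phi J < Psi J := by
  apply Phi_tendsto.eventually_lt Psi_tendsto
  have h1 := main_bound
  have h2 := bb_norm
  have h3 : ‖bb‖ * ((1 / 2) ^ 5 / (((5 : ℕ) : ℝ) + 1 - 43 / 100)) ≤ 4 / 1000 := by
    have h4 : ((1 / 2 : ℝ) ^ 5 / (((5 : ℕ) : ℝ) + 1 - 43 / 100)) ≤ 564 / 100000 := by norm_num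
    have h5 : 0 ≤ ((1 / 2 : ℝ) ^ 5 / (((5 : ℕ) : ℝ) + 1 - 43 / 100)) := by norm_num
    have h6 := norm_nonneg bb
    nlinarith
  have h4 : 770 / 1000 < 707 / 1000 * (∑ r ∈ range 5, (1 / 2 : ℝ) ^ (r + 1) / ((r : ℝ) + 1 - 42 / 100) - 0) := by
    simp only [Finset.sum_range_succ, Finset.sum_range_zero]
    norm_num
  linarith

lemma upper_est {J : ℕ} (hJ : 5 ≤ J) :
    ‖pp bb (2 * J) + bb * ∑ j ∈ range J, pp bb j / (((2 * J : ℕ) : ℂ) - j)‖ ≤ ‖pp bb J‖ * Phi J := by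
  have hne : pp bb J ≠ 0 := norm_pos_iff.1 (pp_bb_pos J)
  rw [sum_main bb bb_ne J 5 (by omega)]
  set R := ∑ j ∈ range J, pp bb j * (((j.descFactorial 5 : ℕ) : ℂ)
          / ((((2 * J).descFactorial 5 : ℕ) : ℂ) * (((2 * J : ℕ) : ℂ) - j))) with hR
  have hrem : ‖R‖ ≤ ‖pp bb J‖ * (ar 5 J / (((5 : ℕ) : ℝ) + 1 - 43 / 100)) := rem_le (by omega)
  have h1 : ∑ r ∈ range 5, (((J.descFactorial (r + 1) : ℕ) : ℂ)
          / ((2 * J).descFactorial (r + 1) : ℕ)) / ((r : ℂ) + 1 - bb)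
      = ∑ r ∈ range 5, ((ar (r + 1) J : ℝ) : ℂ) / ((r : ℂ) + 1 - bb) := by
    refine Finset.sum_congr rfl fun r _ => ?_
    congr 1
    unfold ar
    push_cast
    rfl
  rw [h1]
  set S := ∑ r ∈ range 5, ((ar (r + 1) J : ℝ) : ℂ) / ((r : ℂ) + 1 - bb) with hS
  have h2 : pp bb (2 * J) + bb * (pp bb J * S + R)
      = pp bb J * (pp bb (2 * J) / pp bb J + bb * S) + bb * R := by
    field_simp
    ring
  rw [h2]
  refine (norm_add_le _ _).trans ?_
  rw [norm_mul, norm_mul bb]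
  unfold Phi
  rw [mul_add, ← hS]
  have h3 := mul_le_mul_of_nonneg_left hrem (norm_nonneg bb)
  linarith

lemma lower_est {J : ℕ} (hJ : 16 ≤ J) :
    ‖pp bb J‖ * Psi J ≤ 707 / 1000 * ∑ j ∈ range J, ‖pp bb j‖ / ((2 * J - j : ℕ) : ℝ) := by
  have hJ0 : (0 : ℝ) < J := by
    have : 0 < J := by omega
    exact_mod_cast this
  set β : ℝ := 42 / 100 with hβ
  have hβ1 : β < 1 := by rw [hβ]; norm_num
  have hq := pp_pos hβ1 J
  have hcast : ∀ j ∈ range J, ((2 * J - j : ℕ) : ℝ) = ((2 * J : ℕ) : ℝ) - j := by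
    intro j hj
    rw [Finset.mem_range] at hj
    rw [Nat.cast_sub (by omega : j ≤ 2 * J)]
  -- full sum of the comparison sequence
  have h1 : ∑ r ∈ range 5, ar (r + 1) J / ((r : ℝ) + 1 - β) * pp β J
      ≤ ∑ j ∈ range J, pp β j / ((2 * J - j : ℕ) : ℝ) := by
    have h2 : ∑ j ∈ range J, pp β j / ((2 * J - j : ℕ) : ℝ)
        = ∑ j ∈ range J, pp β j / (((2 * J : ℕ) : ℝ) - j) :=
      Finset.sum_congr rfl fun j hj => by rw [hcast j hj]
    have hne : ∀ r : ℕ, (r : ℝ) + 1 - β ≠ 0 := by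
      intro r
      have : (0 : ℝ) ≤ r := by positivity
      have : 0 < (r : ℝ) + 1 - β := by linarith
      exact this.ne'
    rw [h2, sum_main β hne J 5 (by omega)]
    have h3 : 0 ≤ ∑ j ∈ range J, pp β j * (((j.descFactorial 5 : ℕ) : ℝ)
          / ((((2 * J).descFactorial 5 : ℕ) : ℝ) * (((2 * J : ℕ) : ℝ) - j))) := by
      apply Finset.sum_nonneg
      intro j hj
      rw [← hcast j hj]
      have := pp_pos hβ1 j
      positivity
    have h4 : pp β J * ∑ r ∈ range 5, (((J.descFactorial (r + 1) : ℕ) : ℝ)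
          / ((2 * J).descFactorial (r + 1) : ℕ)) / ((r : ℝ) + 1 - β)
        = ∑ r ∈ range 5, ar (r + 1) J / ((r : ℝ) + 1 - β) * pp β J := by
      rw [Finset.mul_sum]
      refine Finset.sum_congr rfl fun r _ => ?_
      unfold ar
      ring
    rw [h4]
    linarith
  -- removing the first 16 terms
  have hsplit : ∀ f : ℕ → ℝ, ∑ j ∈ range J, f j = ∑ j ∈ range 16, f j + ∑ j ∈ Finset.Ico 16 J, f j := by
    intro f
    rw [Finset.range_eq_Ico, Finset.range_eq_Ico, Finset.sum_Ico_consecutive _ (by omega) hJ]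
  have h2 : ∑ j ∈ range 16, pp β j / ((2 * J - j : ℕ) : ℝ) ≤ 16 / J := by
    calc ∑ j ∈ range 16, pp β j / ((2 * J - j : ℕ) : ℝ) ≤ ∑ j ∈ range 16, 1 / (J : ℝ) := by
          refine Finset.sum_le_sum fun j hj => ?_
          rw [Finset.mem_range] at hj
          apply div_le_div₀ (by norm_num) (pp_le_one (by rw [hβ]; norm_num) hβ1 j) hJ0
          have : J ≤ 2 * J - j := by omega
          exact_mod_cast this
      _ = 16 / J := by
          rw [Finset.sum_const, Finset.card_range, nsmul_eq_mul]; push_cast; ring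
  have h3 : ‖pp bb J‖ / pp β J * ∑ j ∈ Finset.Ico 16 J, pp β j / ((2 * J - j : ℕ) : ℝ)
      ≤ ∑ j ∈ Finset.Ico 16 J, ‖pp bb j‖ / ((2 * J - j : ℕ) : ℝ) := by
    rw [Finset.mul_sum]
    refine Finset.sum_le_sum fun j hj => ?_
    rw [Finset.mem_Ico] at hj
    rw [← mul_div_assoc]
    apply div_le_div_of_nonneg_right _ (by positivity)
    rw [div_mul_eq_mul_div, div_le_iff₀ hq]
    exact pp_compare2 hj.1 hj.2.le
  have h4 : ∑ j ∈ Finset.Ico 16 J, ‖pp bb j‖ / ((2 * J - j : ℕ) : ℝ)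
      ≤ ∑ j ∈ range J, ‖pp bb j‖ / ((2 * J - j : ℕ) : ℝ) := by
    rw [hsplit (fun j => ‖pp bb j‖ / ((2 * J - j : ℕ) : ℝ))]
    have : 0 ≤ ∑ j ∈ range 16, ‖pp bb j‖ / ((2 * J - j : ℕ) : ℝ) :=
      Finset.sum_nonneg fun j _ => by positivity
    linarith
  have h5 : ∑ r ∈ range 5, ar (r + 1) J / ((r : ℝ) + 1 - β) * pp β J - 16 / J
      ≤ ∑ j ∈ Finset.Ico 16 J, pp β j / ((2 * J - j : ℕ) : ℝ) := by
    rw [hsplit (fun j => pp β j / ((2 * J - j : ℕ) : ℝ))] at h1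
    linarith
  have h6 : ‖pp bb J‖ * (∑ r ∈ range 5, ar (r + 1) J / ((r : ℝ) + 1 - β) - 16 / ((J : ℝ) * pp β J))
      = ‖pp bb J‖ / pp β J * (∑ r ∈ range 5, ar (r + 1) J / ((r : ℝ) + 1 - β) * pp β J - 16 / J) := by
    rw [← Finset.sum_mul]
    field_simp
  unfold Psi
  calc ‖pp bb J‖ * (707 / 1000 * (∑ r ∈ range 5, ar (r + 1) J / ((r : ℝ) + 1 - β)
        - 16 / ((J : ℝ) * pp β J)))
      = 707 / 1000 * (‖pp bb J‖ * (∑ r ∈ range 5, ar (r + 1) J / ((r : ℝ) + 1 - β)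
        - 16 / ((J : ℝ) * pp β J))) := by ring
    _ ≤ 707 / 1000 * ∑ j ∈ range J, ‖pp bb j‖ / ((2 * J - j : ℕ) : ℝ) := by
        apply mul_le_mul_of_nonneg_left _ (by norm_num)
        rw [h6]
        refine le_trans (mul_le_mul_of_nonneg_left h5 (by positivity)) (h3.trans h4)

/-- Theorem A -/
theorem thmA : ∃ J₀ : ℕ, ∀ J, J₀ ≤ J → RR (2 * J) (707 / 1000) := by
  obtain ⟨J₀, hJ₀⟩ := eventually_atTop.1 eventually_lt
  refine ⟨max J₀ 16, fun J hJ => ?_⟩
  have hJ1 : J₀ ≤ J := (le_max_left _ _).trans hJ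
  have hJ2 : 16 ≤ J := (le_max_right _ _).trans hJ
  set x : ℕ → ℂ := trunc (fun _ => bb) J with hx
  have hxC : ∀ j ≤ J, CC x j = pp bb j := by
    intro j hj
    rw [hx, trunc_CC _ hj, CC_const]
  have hval : CC x (2 * J) = pp bb (2 * J)
      + bb * ∑ j ∈ range J, pp bb j / (((2 * J : ℕ) : ℂ) - j) := by
    set ζ : ℕ → ℂ := fun k => if k ≤ J then 0 else - bb with hζ
    have h1 : CC x (2 * J) = CC (fun k => (fun _ => bb) k + ζ k) (2 * J) := by
      congr 1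
      funext k
      simp only [hx, hζ, trunc]
      split_ifs <;> simp
    rw [h1, CC_supp (P := J) le_rfl (by omega) (by
      intro k hk
      simp only [hζ]
      rw [if_pos (by omega)]), CC_const, Finset.mul_sum, sub_eq_add_neg, ← Finset.sum_neg_distrib]
    congr 1
    refine Finset.sum_congr rfl fun j hj => ?_
    rw [Finset.mem_range] at hj
    rw [CC_const]
    simp only [hζ]
    rw [if_neg (by omega), Nat.cast_sub (by omega : j ≤ 2 * J)]
    ring
  have hmain : ‖CC x (2 * J)‖ ≤ 707 / 1000 * ∑ i ∈ range J, ‖CC x i‖ / ((2 * J - i : ℕ) : ℝ) := by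
    rw [hval]
    refine (upper_est (by omega)).trans ?_
    have h1 := mul_le_mul_of_nonneg_left (hJ₀ J hJ1).le (norm_nonneg (pp bb J))
    refine h1.trans ((lower_est hJ2).trans (le_of_eq ?_))
    congr 1
    refine Finset.sum_congr rfl fun j hj => ?_
    rw [Finset.mem_range] at hj
    rw [hxC j hj.le]
  obtain ⟨ζ, hζ1, hζ2, hζ3⟩ := corr' (by norm_num : (0 : ℝ) ≤ 707 / 1000) (by omega : 1 ≤ J)
    (le_refl (2 * J)) hmain
  refine ⟨fun k => x k + ζ k, fun k => ?_, hζ3⟩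
  by_cases hk : k ≤ J
  · simp only
    rw [hζ2 k (by omega), add_zero, hx]
    simp only [trunc, if_pos hk]
    exact bb_norm
  · simp only [hx, trunc, if_neg hk, zero_add]
    exact hζ1 k

end Pool.Agent.Helper474.Tur
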