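import Pool.Agent.Helper474.TurK

/-!
Power sums and the sequences `CC`.
-/

set_option autoImplicit false

namespace Pool.Agent.Helper474.Tur

open Finset

lemma ee_neg_pow (z : ℂ) (n : ℕ) :
    ee (fun k => - z ^ k) n = if n = 0 then 1 else if n = 1 then -z else 0 := by
  symm
  apply ee_unique (fun k => - z ^ k) (fun n => if n = 0 then 1 else if n = 1 then -z else 0) (by simp)
  intro n
  cases n with
  | zero => simp
  | succ n =>
    rw [Finset.sum_range_succ, Finset.sum_range_succ]
    have h1 : ∑ i ∈ range n, - z ^ (i + 1) *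
        (if n + 1 - i = 0 then 1 else if n + 1 - i = 1 then -z else 0) = 0 := by
      apply Finset.sum_eq_zero
      intro i hi
      rw [Finset.mem_range] at hi
      rw [if_neg (by omega), if_neg (by omega), mul_zero]
    rw [h1, if_neg (by omega), if_neg (by omega), if_neg (by omega), if_pos (by omega),
      if_pos (by omega)]
    ring

lemma Eps_neg_pow (z : ℂ) :
    Eps (fun k => - z ^ k) = ((1 - Polynomial.C z * Polynomial.X : Polynomial ℂ) : PowerSeries ℂ) := by
  ext n
  rw [Eps, PowerSeries.coeff_mk, ee_neg_pow, Polynomial.coeff_coe, Polynomial.coeff_sub,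
    Polynomial.coeff_C_mul, Polynomial.coeff_one, Polynomial.coeff_X]
  rcases n with _ | _ | n
  · simp
  · simp
  · simp

/-- the reversed characteristic polynomial -/
noncomputable def rev {ι : Type*} (S : Finset ι) (z : ι → ℂ) : Polynomial ℂ :=
  ∏ j ∈ S, (1 - Polynomial.C (z j) * Polynomial.X)

lemma Eps_sum {ι : Type*} [DecidableEq ι] (S : Finset ι) (z : ι → ℂ) :
    Eps (fun k => - ∑ j ∈ S, z j ^ k) = (rev S z : PowerSeries ℂ) := by
  induction S using Finset.induction_on with
  | empty =>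
    unfold rev
    ext n
    rw [Eps, PowerSeries.coeff_mk]
    have : (fun k : ℕ => - ∑ j ∈ (∅ : Finset ι), z j ^ k) = fun _ => (0 : ℂ) := by
      funext k; simp
    rw [this, ee_const_zero, Finset.prod_empty, Polynomial.coeff_coe, Polynomial.coeff_one]
  | insert a S ha ih =>
    have h1 : (fun k : ℕ => - ∑ j ∈ insert a S, z j ^ k)
        = fun k : ℕ => (- z a ^ k) + (- ∑ j ∈ S, z j ^ k) := by
      funext k
      rw [Finset.sum_insert ha]
      ring
    rw [h1, Eps_add, ih, Eps_neg_pow, ← Polynomial.coe_mul]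
    unfold rev
    rw [Finset.prod_insert ha]

lemma cc_sum {N : ℕ} (z : Fin N → ℂ) (i : ℕ) :
    cc (fun k => ∑ j, z j ^ k) i = (rev Finset.univ z).coeff i := by
  have h := congrArg (PowerSeries.coeff i) (Eps_sum Finset.univ z)
  rw [Eps, PowerSeries.coeff_mk, Polynomial.coeff_coe] at h
  exact h

lemma rev_natDegree {N : ℕ} (z : Fin N → ℂ) : (rev Finset.univ z).natDegree ≤ N := by
  unfold rev
  refine (Polynomial.natDegree_prod_le _ _).trans ?_
  calc ∑ j : Fin N, (1 - Polynomial.C (z j) * Polynomial.X : Polynomial ℂ).natDegree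
      ≤ ∑ j : Fin N, 1 := by
        refine Finset.sum_le_sum fun j _ => ?_
        refine (Polynomial.natDegree_sub_le _ _).trans ?_
        rw [Polynomial.natDegree_one]
        have h1 : (Polynomial.C (z j) * Polynomial.X : Polynomial ℂ).natDegree ≤ 1 := by
          have := Polynomial.natDegree_C_mul_X_pow_le (z j) 1
          rwa [pow_one] at this
        omega
    _ = N := by simp

/-- PS1 -/
lemma CC_power_sum {N : ℕ} (z : Fin N → ℂ) (j₀ : Fin N) (hz : z j₀ = 1) :
    CC (fun k => ∑ j, z j ^ k) N = 0 := by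
  rw [CC_eq_sum]
  have h1 : ∑ i ∈ range (N + 1), cc (fun k => ∑ j, z j ^ k) i
      = (rev Finset.univ z).eval 1 := by
    rw [Polynomial.eval_eq_sum_range' (Nat.lt_succ_of_le (rev_natDegree z))]
    refine Finset.sum_congr rfl fun i _ => ?_
    rw [cc_sum]; simp
  rw [h1]
  unfold rev
  rw [Polynomial.eval_prod]
  apply Finset.prod_eq_zero (Finset.mem_univ j₀)
  simp [hz]

/-- splitting -/
lemma exists_roots : ∀ (N : ℕ) (p : Polynomial ℂ), p.Monic → p.natDegree = N →
    ∃ z : Fin N → ℂ, p = ∏ j, (Polynomial.X - Polynomial.C (z j))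
  | 0, p, hp, hN => by
      refine ⟨fun _ => 0, ?_⟩
      rw [Finset.univ_eq_empty, Finset.prod_empty]
      exact Polynomial.eq_one_of_monic_natDegree_zero hp hN
  | N + 1, p, hp, hN => by
      have hdeg : p.degree ≠ 0 := by
        intro h
        have := Polynomial.natDegree_eq_of_degree_eq_some (n := 0) h
        omega
      obtain ⟨a, ha⟩ := IsAlgClosed.exists_root p hdeg
      obtain ⟨q, hq⟩ := Polynomial.dvd_iff_isRoot.2 ha
      have hqm : q.Monic := by
        apply Polynomial.Monic.of_mul_monic_left (Polynomial.monic_X_sub_C a)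
        rw [← hq]; exact hp
      have hqN : q.natDegree = N := by
        have := congrArg Polynomial.natDegree hq
        rw [Polynomial.Monic.natDegree_mul (Polynomial.monic_X_sub_C a) hqm,
          Polynomial.natDegree_X_sub_C, hN] at this
        omega
      obtain ⟨z, hz⟩ := exists_roots N q hqm hqN
      refine ⟨Fin.cons a z, ?_⟩
      rw [Fin.prod_univ_succ, hq, hz]
      simp

/-- inverting the exponential relation -/
lemma ee_inj {a b : ℕ → ℂ} {N : ℕ} (h : ∀ i ≤ N, ee a i = ee b i) :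
    ∀ k, 1 ≤ k → k ≤ N → a k = b k := by
  intro k
  induction k using Nat.strong_induction_on with
  | _ k ih =>
    intro hk1 hkN
    obtain ⟨n, rfl⟩ : ∃ n, k = n + 1 := ⟨k - 1, by omega⟩
    have h1 := ee_succ a n
    have h2 := ee_succ b n
    rw [Finset.sum_range_succ, Nat.sub_self, ee_zero, mul_one] at h1 h2
    have h3 : ∑ i ∈ range n, a (i + 1) * ee a (n - i) = ∑ i ∈ range n, b (i + 1) * ee b (n - i) := by
      refine Finset.sum_congr rfl fun i hi => ?_
      rw [Finset.mem_range] at hi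
      rw [ih (i + 1) (by omega) (by omega) (by omega), h (n - i) (by omega)]
    rw [h (n + 1) hkN, h3] at h1
    rw [h2] at h1
    exact (add_left_cancel h1).symm

/-- PS2: existence of a vector with prescribed power sums -/
lemma exists_power_sum {N : ℕ} (s : ℕ → ℂ) (h0 : CC s N = 0) :
    ∃ r : Fin N → ℂ, (∀ k, 1 ≤ k → k ≤ N → ∑ j, r j ^ k = s k) ∧ ∃ j, r j = 1 := by
  set q : Polynomial ℂ := ∑ i ∈ range N, Polynomial.C (cc s (i + 1)) * Polynomial.X ^ (N - 1 - i) with hq
  have hqd : q.degree < (N : WithBot ℕ) := by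
    refine lt_of_le_of_lt (Polynomial.degree_sum_le _ _) ?_
    rw [Finset.sup_lt_iff (by exact WithBot.bot_lt_coe N)]
    intro i hi
    rw [Finset.mem_range] at hi
    refine lt_of_le_of_lt (Polynomial.degree_C_mul_X_pow_le _ _) ?_
    exact_mod_cast (by omega : N - 1 - i < N)
  set p : Polynomial ℂ := Polynomial.X ^ N + q with hp
  have hpm : p.Monic := Polynomial.monic_X_pow_add hqd
  have hpN : p.natDegree = N := by
    rw [hp, Polynomial.natDegree_add_eq_left_of_degree_lt, Polynomial.natDegree_X_pow]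
    rw [Polynomial.degree_X_pow]; exact hqd
  obtain ⟨r, hr⟩ := exists_roots N p hpm hpN
  have hpeval : ∀ x : ℂ, p.eval x = x ^ N + ∑ i ∈ range N, cc s (i + 1) * x ^ (N - 1 - i) := by
    intro x
    rw [hp, hq, Polynomial.eval_add, Polynomial.eval_finsetSum]
    simp
  have hrev : rev Finset.univ r = ∑ i ∈ range (N + 1), Polynomial.C (cc s i) * Polynomial.X ^ i := by
    apply Polynomial.funext
    intro x
    unfold rev
    rw [Polynomial.eval_prod, Polynomial.eval_finsetSum]
    simp only [Polynomial.eval_sub, Polynomial.eval_one, Polynomial.eval_mul, Polynomial.eval_C,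
      Polynomial.eval_X, Polynomial.eval_pow]
    by_cases hx : x = 0
    · subst hx
      rw [Finset.sum_range_succ']
      simp
    · have h1 : ∏ j, (1 - r j * x) = x ^ N * p.eval x⁻¹ := by
        rw [hr, Polynomial.eval_prod]
        have : x ^ N = ∏ _j : Fin N, x := by simp
        rw [this, ← Finset.prod_mul_distrib]
        refine Finset.prod_congr rfl fun j _ => ?_
        simp only [Polynomial.eval_sub, Polynomial.eval_X, Polynomial.eval_C]
        field_simp
      rw [h1, hpeval, mul_add, Finset.sum_range_succ', Finset.mul_sum]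
      have h2 : x ^ N * x⁻¹ ^ N = 1 := by
        rw [← mul_pow, mul_inv_cancel₀ hx, one_pow]
      rw [h2, cc_zero, pow_zero, one_mul, add_comm]
      congr 1
      refine Finset.sum_congr rfl fun i hi => ?_
      rw [Finset.mem_range] at hi
      have h3 : x ^ N = x ^ (i + 1) * x ^ (N - 1 - i) := by
        rw [← pow_add]; congr 1; omega
      rw [h3, inv_pow]
      have h4 : x ^ (N - 1 - i) ≠ 0 := pow_ne_zero _ hx
      field_simp
  have hcc : ∀ i ≤ N, ee (fun k => - ∑ j, r j ^ k) i = ee (fun k => - s k) i := by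
    intro i hi
    have h1 : ee (fun k => - ∑ j, r j ^ k) i = (rev Finset.univ r).coeff i := cc_sum r i
    rw [h1, hrev, Polynomial.finsetSum_coeff]
    simp only [Polynomial.coeff_C_mul_X_pow]
    rw [Finset.sum_ite_eq (range (N + 1)) i, if_pos (Finset.mem_range.2 (by omega))]
    rfl
  refine ⟨r, ?_, ?_⟩
  · intro k hk1 hkN
    have := ee_inj hcc k hk1 hkN
    exact neg_injective this
  · have h1 : p.eval 1 = 0 := by
      rw [hpeval, one_pow]
      simp only [one_pow, mul_one]
      rw [CC_eq_sum, Finset.sum_range_succ', cc_zero] at h0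
      rw [add_comm]; exact h0
    rw [hr, Polynomial.eval_prod, Finset.prod_eq_zero_iff] at h1
    obtain ⟨j, _, hj⟩ := h1
    refine ⟨j, ?_⟩
    simp only [Polynomial.eval_sub, Polynomial.eval_X, Polynomial.eval_C] at hj
    exact (sub_eq_zero.1 hj).symm

/-- normalization -/
lemma exists_vector {n : ℕ} {v : ℝ} (h : RR (n + 1) v) :
    ∃ z : Fin (n + 1) → ℂ, (z 0 = 1 ∧ ∀ j, ‖z j‖ ≤ 1) ∧
      ∀ k : Fin (n + 1), ‖∑ j, z j ^ (k.val + 1)‖ ≤ v := by
  obtain ⟨s, hs, h0⟩ := h
  obtain ⟨r, hr, j₁, hj₁⟩ := exists_power_sum s h0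
  obtain ⟨j₀, -, hj₀⟩ := Finset.exists_max_image Finset.univ (fun j => ‖r j‖) ⟨0, Finset.mem_univ _⟩
  have hmax : ∀ j, ‖r j‖ ≤ ‖r j₀‖ := fun j => hj₀ j (Finset.mem_univ j)
  have h1 : 1 ≤ ‖r j₀‖ := by
    have := hmax j₁
    rw [hj₁, norm_one] at this
    exact this
  have hne : r j₀ ≠ 0 := by
    intro h
    rw [h, norm_zero] at h1
    linarith
  refine ⟨fun j => r (Equiv.swap 0 j₀ j) / r j₀, ⟨?_, ?_⟩, ?_⟩
  · simp only [Equiv.swap_apply_left]
    exact div_self hne
  · intro j
    rw [norm_div, div_le_one (by linarith)]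
    exact hmax _
  · intro k
    have h2 : ∑ j, (r (Equiv.swap 0 j₀ j) / r j₀) ^ (k.val + 1) = s (k.val + 1) / r j₀ ^ (k.val + 1) := by
      rw [← hr (k.val + 1) (by omega) (by omega), Finset.sum_div]
      rw [← Equiv.sum_comp (Equiv.swap 0 j₀) (fun j => r j ^ (k.val + 1) / r j₀ ^ (k.val + 1))]
      refine Finset.sum_congr rfl fun j _ => ?_
      rw [div_pow]
    rw [h2, norm_div, norm_pow]
    have h3 : 1 ≤ ‖r j₀‖ ^ (k.val + 1) := one_le_pow₀ h1
    exact (div_le_self (norm_nonneg _) h3).trans (hs _)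

/-- conversely -/
lemma RR_of_vector {n : ℕ} {v : ℝ} (hv : 0 ≤ v) (z : Fin (n + 1) → ℂ) (hz : z 0 = 1)
    (h : ∀ k : Fin (n + 1), ‖∑ j, z j ^ (k.val + 1)‖ ≤ v) : RR (n + 1) v := by
  refine ⟨fun k => if 1 ≤ k ∧ k ≤ n + 1 then ∑ j, z j ^ k else 0, ?_, ?_⟩
  · intro k
    simp only
    split_ifs with hk
    · obtain ⟨l, rfl⟩ : ∃ l, k = l + 1 := ⟨k - 1, by omega⟩
      exact h ⟨l, by omega⟩
    · rw [norm_zero]; exact hv
  · rw [← CC_power_sum z 0 hz]
    apply CC_congr
    intro k hk1 hk2
    rw [if_pos ⟨hk1, hk2⟩]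

end Pool.Agent.Helper474.Tur
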