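import Pool.Agent.Helper474.TurL

/-!
Final assembly: the constants converge.
-/

set_option autoImplicit false

namespace Pool.Agent.Helper474.Tur

open Finset Filter

/-- the constants, index shifted by one -/
noncomputable def sg (n : ℕ) : ℝ :=
  ⨅ z : {z : Fin (n + 1) → ℂ // z 0 = 1 ∧ ∀ j, ‖z j‖ ≤ 1},
    ⨆ k : Fin (n + 1), ‖∑ j, (z.1 j) ^ (k.val + 1)‖

lemma sg_nonneg (n : ℕ) : 0 ≤ sg n :=
  Real.iInf_nonneg fun _ => Real.iSup_nonneg fun _ => norm_nonneg _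

lemma sg_le {n : ℕ} {v : ℝ} (h : RR (n + 1) v) : sg n ≤ v := by
  obtain ⟨z, hz, hk⟩ := exists_vector h
  have h1 : sg n ≤ ⨆ k : Fin (n + 1), ‖∑ j, z j ^ (k.val + 1)‖ :=
    ciInf_le ⟨0, by
      rintro x ⟨w, rfl⟩
      exact Real.iSup_nonneg fun _ => norm_nonneg _⟩
      (⟨z, hz⟩ : {z : Fin (n + 1) → ℂ // z 0 = 1 ∧ ∀ j, ‖z j‖ ≤ 1})
  exact h1.trans (ciSup_le hk)

lemma RR_of_lt {n : ℕ} {v : ℝ} (h : sg n < v) : RR (n + 1) v := by
  haveI : Nonempty {z : Fin (n + 1) → ℂ // z 0 = 1 ∧ ∀ j, ‖z j‖ ≤ 1} :=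
    ⟨⟨fun _ => 1, rfl, fun _ => by simp⟩⟩
  obtain ⟨⟨z, hz⟩, hlt⟩ := exists_lt_of_ciInf_lt h
  have hv : 0 ≤ v := (sg_nonneg n).trans h.le
  apply RR_of_vector hv z hz.1
  intro k
  have h1 : ‖∑ j, z j ^ (k.val + 1)‖ ≤ ⨆ k : Fin (n + 1), ‖∑ j, z j ^ (k.val + 1)‖ :=
    le_ciSup (f := fun k : Fin (n + 1) => ‖∑ j, z j ^ (k.val + 1)‖) (Set.finite_range _).bddAbove k
  exact h1.trans hlt.le

lemma RR_one (n : ℕ) : RR (n + 1) 1 := by
  apply RR_of_vector (by norm_num) (fun j => if j = 0 then 1 else 0) (by simp)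
  intro k
  have : ∑ j : Fin (n + 1), (if j = 0 then (1 : ℂ) else 0) ^ (k.val + 1) = 1 := by
    rw [Finset.sum_eq_single 0]
    · simp
    · intro j _ hj
      rw [if_neg hj]
      simp
    · intro h
      exact absurd (Finset.mem_univ _) h
  rw [this, norm_one]

/-- the constants converge -/
theorem sg_tendsto : ∃ L : ℝ, Tendsto sg atTop (nhds L) := by
  have hb1 : IsBoundedUnder (· ≤ ·) atTop sg :=
    isBoundedUnder_of ⟨1, fun n => sg_le (RR_one n)⟩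
  have hb2 : IsBoundedUnder (· ≥ ·) atTop sg :=
    isBoundedUnder_of ⟨0, fun n => sg_nonneg n⟩
  set L := liminf sg atTop with hL
  have hL0 : 0 ≤ L := le_liminf_of_le hb1.isCoboundedUnder_ge (Eventually.of_forall sg_nonneg)
  have hL1 : L ≤ 707 / 1000 := by
    obtain ⟨J₀, hJ₀⟩ := thmA
    apply liminf_le_of_frequently_le _ hb2
    rw [frequently_atTop]
    intro a
    refine ⟨2 * (J₀ + a + 1) - 1, by omega, ?_⟩
    apply sg_le
    have h1 : 2 * (J₀ + a + 1) - 1 + 1 = 2 * (J₀ + a + 1) := by omega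
    rw [h1]
    exact hJ₀ _ (by omega)
  refine ⟨L, tendsto_of_le_liminf_of_limsup_le le_rfl ?_ hb1 hb2⟩
  apply le_of_forall_pos_le_add
  intro ε hε
  set η : ℝ := min (ε / 2) (1 / 100000) with hη
  have hη0 : 0 < η := lt_min (by linarith) (by norm_num)
  have hη1 : η ≤ ε / 2 := min_le_left _ _
  have hη2 : η ≤ 1 / 100000 := min_le_right _ _
  have hfreq : ∃ᶠ n in atTop, sg n < L + η :=
    frequently_lt_of_liminf_lt hb1.isCoboundedUnder_ge (by linarith)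
  obtain ⟨n₀, hn₀⟩ := thmB (σ := L + η) (ε := η) (by linarith) hη0 (by nlinarith)
  rw [frequently_atTop] at hfreq
  obtain ⟨n, hn, hlt⟩ := hfreq n₀
  have h1 := hn₀ (n + 1) (by omega) (RR_of_lt hlt)
  have h2 : ∀ᶠ N in atTop, sg N ≤ L + ε := by
    filter_upwards [eventually_ge_atTop n] with N hN
    have h3 := sg_le (h1 (N + 1) (by omega))
    linarith
  exact limsup_le_of_le hb2.isCoboundedUnder_le h2

end Pool.Agent.Helper474.Tur
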