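import Mathlib

/-!
Construction of a Cantor set on the line with a two-sided Holder Green function:
words, the recursive positions `X n : W n → ℝ`, first-difference level, tree sums, separation.
-/

set_option autoImplicit false

namespace Pool.Agent.Helper474.Vol

open Finset

/-- binary words of length `n`, the last letter is the outermost component. -/
def W : ℕ → Type
  | 0 => Unit
  | n + 1 => W n × Bool

instance instFintypeW : ∀ n : ℕ, Fintype (W n)
  | 0 => inferInstanceAs (Fintype Unit)
  | n + 1 => by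
      have := instFintypeW n
      exact inferInstanceAs (Fintype (W n × Bool))

instance instDecEqW : ∀ n : ℕ, DecidableEq (W n)
  | 0 => inferInstanceAs (DecidableEq Unit)
  | n + 1 => by
      haveI := instDecEqW n
      exact inferInstanceAs (DecidableEq (W n × Bool))

instance instNonemptyW : ∀ n : ℕ, Nonempty (W n)
  | 0 => inferInstanceAs (Nonempty Unit)
  | n + 1 => by
      have := instNonemptyW n
      exact inferInstanceAs (Nonempty (W n × Bool))

/-- Build a word of length `n+1`. -/
def snoc {n : ℕ} (w : W n) (a : Bool) : W (n + 1) := (w, a)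

/-- parent -/
def par {n : ℕ} (w : W (n + 1)) : W n := Prod.fst w

/-- last letter -/
def lst {n : ℕ} (w : W (n + 1)) : Bool := Prod.snd w

@[simp] lemma par_snoc {n : ℕ} (w : W n) (a : Bool) : par (snoc w a) = w := rfl
@[simp] lemma lst_snoc {n : ℕ} (w : W n) (a : Bool) : lst (snoc w a) = a := rfl
lemma snoc_eta {n : ℕ} (w : W (n + 1)) : snoc (par w) (lst w) = w := rfl

lemma snoc_inj {n : ℕ} (w v : W n) (a b : Bool) : snoc w a = snoc v b ↔ w = v ∧ a = b := by
  unfold snoc
  exact Prod.mk_inj

lemma sum_succ {n : ℕ} (f : W (n + 1) → ℝ) :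
    ∑ q, f q = ∑ v : W n, (f (snoc v false) + f (snoc v true)) := by
  have h : ∑ q, f q = ∑ v : W n, ∑ b : Bool, f (snoc v b) :=
    Fintype.sum_prod_type (f := fun q : W n × Bool => f q)
  rw [h]
  refine Finset.sum_congr rfl fun v _ => ?_
  rw [Fintype.sum_bool]
  ring

lemma card_W : ∀ n : ℕ, Fintype.card (W n) = 2 ^ n
  | 0 => rfl
  | n + 1 => by
      have h : Fintype.card (W (n + 1)) = Fintype.card (W n × Bool) := rfl
      rw [h, Fintype.card_prod, card_W n, Fintype.card_bool, pow_succ]

lemma sum_erase_succ {n : ℕ} (f : W (n + 1) → ℝ) (w : W n) (a : Bool) :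
    ∑ q ∈ univ.erase (snoc w a), f q
      = ∑ v ∈ univ.erase w, (f (snoc v false) + f (snoc v true)) + f (snoc w (!a)) := by
  have h1 : ∑ q ∈ univ.erase (snoc w a), f q = ∑ q, f q - f (snoc w a) := by
    rw [← Finset.add_sum_erase _ f (Finset.mem_univ (snoc w a))]
    ring
  have h2 : ∑ v ∈ univ.erase w, (f (snoc v false) + f (snoc v true))
      = ∑ v : W n, (f (snoc v false) + f (snoc v true))
        - (f (snoc w false) + f (snoc w true)) := by
    rw [← Finset.add_sum_erase _ (fun v : W n => f (snoc v false) + f (snoc v true))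
      (Finset.mem_univ w)]
    ring
  rw [h1, h2, sum_succ]
  cases a <;> simp <;> ring

/-- first-difference level -/
def fd : (n : ℕ) → W n → W n → ℕ
  | 0 => fun _ _ => 0
  | n + 1 => fun p q => if par p = par q then n else fd n (par p) (par q)

lemma fd_snoc_ne {n : ℕ} {w v : W n} (h : w ≠ v) (a b : Bool) :
    fd (n + 1) (snoc w a) (snoc v b) = fd n w v := by
  have h1 : fd (n + 1) (snoc w a) (snoc v b) = if w = v then n else fd n w v := rfl
  rw [h1, if_neg h]

lemma fd_snoc_eq {n : ℕ} (w : W n) (a b : Bool) :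
    fd (n + 1) (snoc w a) (snoc w b) = n := by
  have h1 : fd (n + 1) (snoc w a) (snoc w b) = if w = w then n else fd n w w := rfl
  rw [h1, if_pos rfl]

lemma fd_lt : ∀ (n : ℕ) (w v : W n), w ≠ v → fd n w v < n
  | 0, w, v, h => absurd (Subsingleton.elim (α := Unit) w v) h
  | n + 1, p, q, h => by
      unfold fd
      split_ifs with h1
      · exact Nat.lt_succ_self n
      · exact (fd_lt n _ _ h1).trans (Nat.lt_succ_self n)

/-- tree recursion -/
noncomputable def T (F : ℕ → ℝ) : ℕ → ℝ
  | 0 => 0
  | n + 1 => 2 * T F n + F n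

lemma tree_sum (F : ℕ → ℝ) : ∀ (n : ℕ) (w : W n), ∑ v ∈ univ.erase w, F (fd n w v) = T F n
  | 0, w => by
      have h : (univ.erase w : Finset (W 0)) = ∅ := by
        ext v
        simp only [Finset.mem_erase, Finset.mem_univ, and_true, Finset.notMem_empty, iff_false,
          not_not]
        exact Subsingleton.elim (α := Unit) v w
      rw [h]
      simp [T]
  | n + 1, p => by
      rw [← snoc_eta p, sum_erase_succ]
      have ih := tree_sum F n (par p)
      have h1 : ∑ v ∈ univ.erase (par p),
          (F (fd (n + 1) (snoc (par p) (lst p)) (snoc v false))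
            + F (fd (n + 1) (snoc (par p) (lst p)) (snoc v true)))
          = ∑ v ∈ univ.erase (par p), 2 * F (fd n (par p) v) := by
        refine Finset.sum_congr rfl fun v hv => ?_
        have hne : ¬ (par p = v) := fun h => (Finset.ne_of_mem_erase hv) h.symm
        rw [fd_snoc_ne hne, fd_snoc_ne hne]
        ring
      rw [h1, ← Finset.mul_sum, ih]
      have h2 : fd (n + 1) (snoc (par p) (lst p)) (snoc (par p) (!lst p)) = n := fd_snoc_eq _ _ _
      rw [h2]
      rfl

/-- the ratio -/
noncomputable def r : ℝ := 1 / 400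

lemma r_pos : 0 < r := by unfold r; norm_num
lemma r_lt : r < 1 := by unfold r; norm_num
lemma r_eq : r = 1 / 400 := rfl

lemma rpow_pos (n : ℕ) : 0 < r ^ n := pow_pos r_pos n

/-- normalising constants -/
noncomputable def e : ℕ → ℝ
  | 0 => 0
  | n + 1 => 2 * e n + (n + 1) * Real.log r

/-- logarithmic sums -/
noncomputable def LS (n : ℕ) (x : W n → ℝ) (w : W n) : ℝ :=
  ∑ v ∈ univ.erase w, Real.log |x w - x v|

/-- positions -/
noncomputable def X : (n : ℕ) → W n → ℝ
  | 0 => fun _ => 0
  | n + 1 => fun p =>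
      X n (par p) + if lst p = true then Real.exp (e n - 2 * LS n (X n) (par p)) else 0

/-- log sums of the positions -/
noncomputable def S (n : ℕ) (w : W n) : ℝ := LS n (X n) w

/-- sizes -/
noncomputable def d (n : ℕ) (w : W n) : ℝ := Real.exp (e n - 2 * S n w)

lemma d_pos (n : ℕ) (w : W n) : 0 < d n w := Real.exp_pos _

lemma X_zero (w : W 0) : X 0 w = 0 := rfl

lemma X_snoc {n : ℕ} (w : W n) (a : Bool) :
    X (n + 1) (snoc w a) = X n w + if a = true then d n w else 0 := rfl

lemma X_snoc_false {n : ℕ} (w : W n) : X (n + 1) (snoc w false) = X n w := by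
  rw [X_snoc]; simp

lemma X_snoc_true {n : ℕ} (w : W n) : X (n + 1) (snoc w true) = X n w + d n w := by
  rw [X_snoc]; simp

/-- The invariant. -/
structure Inv (n : ℕ) : Prop where
  sep : ∀ w v : W n, w ≠ v → r ^ (fd n w v) / 3 + 3 * r ^ n ≤ |X n w - X n v|
  siz : ∀ w : W n, |Real.log (d n w) - n * Real.log r| ≤ Real.log 2

lemma Inv.d_le {n : ℕ} (h : Inv n) (w : W n) : d n w ≤ 2 * r ^ n := by
  have h1 := (abs_le.1 (h.siz w)).2
  have h2 : Real.log (d n w) ≤ Real.log (2 * r ^ n) := by
    rw [Real.log_mul (by norm_num) (rpow_pos n).ne', Real.log_pow]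
    linarith
  have h3 := rpow_pos n
  exact (Real.log_le_log_iff (d_pos n w) (by positivity)).1 h2

lemma Inv.le_d {n : ℕ} (h : Inv n) (w : W n) : r ^ n / 2 ≤ d n w := by
  have h1 := (abs_le.1 (h.siz w)).1
  have h2 : Real.log (r ^ n / 2) ≤ Real.log (d n w) := by
    rw [Real.log_div (rpow_pos n).ne' (by norm_num), Real.log_pow]
    linarith
  have h3 := rpow_pos n
  exact (Real.log_le_log_iff (by positivity) (d_pos n w)).1 h2

/-- sum of inverse powers over the tree -/
lemma T_inv_bound : ∀ n : ℕ, T (fun k => (r ^ k)⁻¹) n ≤ 2 * r * (r ^ n)⁻¹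
  | 0 => by simp [T]; exact r_pos.le
  | n + 1 => by
      have ih := T_inv_bound n
      have hp := inv_pos.2 (rpow_pos n)
      have h1 : T (fun k => (r ^ k)⁻¹) (n + 1) = 2 * T (fun k => (r ^ k)⁻¹) n + (r ^ n)⁻¹ := rfl
      rw [h1]
      have h2 : 2 * r * (r ^ (n + 1))⁻¹ = 2 * (r ^ n)⁻¹ := by
        rw [pow_succ, mul_inv]
        have := r_pos.ne'
        field_simp
      rw [h2]
      have : 2 * (2 * r * (r ^ n)⁻¹) ≤ (r ^ n)⁻¹ := by
        have : 4 * r ≤ 1 := by rw [r_eq]; norm_num
        nlinarith
      linarith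

lemma abs_log_sub_log_le {a b : ℝ} (hb : b ≠ 0) (hab : |a - b| ≤ |b| / 2) :
    |(Real.log |a| - Real.log |b|)| ≤ 2 * (|a - b| / |b|) := by
  have hb' : 0 < |b| := abs_pos.2 hb
  have ha' : |b| / 2 ≤ |a| := by
    have := abs_sub_abs_le_abs_sub b a
    rw [abs_sub_comm] at this
    linarith
  have ha0 : 0 < |a| := by linarith
  have hs : 0 ≤ |a - b| / |b| := by positivity
  rw [abs_le]
  constructor
  · -- log b - log a ≤ |b - a|/|a| ≤ 2 |b-a|/|b|
    have h1 : Real.log |b| - Real.log |a| ≤ |b| / |a| - 1 := by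
      rw [← Real.log_div hb'.ne' ha0.ne']
      have := Real.log_le_sub_one_of_pos (show 0 < |b| / |a| by positivity)
      linarith
    have h2 : |b| / |a| - 1 ≤ 2 * (|a - b| / |b|) := by
      rw [div_sub_one ha0.ne', div_le_iff₀ ha0]
      have h3 : |b| - |a| ≤ |a - b| := by
        have := abs_sub_abs_le_abs_sub b a
        rwa [abs_sub_comm] at this
      have h4 : |a - b| ≤ 2 * (|a - b| / |b|) * |a| := by
        have : 2 * (|a - b| / |b|) * |a| = |a - b| * (2 * |a| / |b|) := by ring
        rw [this]
        have h5 : 1 ≤ 2 * |a| / |b| := by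
          rw [le_div_iff₀ hb']; linarith
        nlinarith [abs_nonneg (a - b)]
      linarith
    linarith
  · have h1 : Real.log |a| - Real.log |b| ≤ |a| / |b| - 1 := by
      rw [← Real.log_div ha0.ne' hb'.ne']
      have := Real.log_le_sub_one_of_pos (show 0 < |a| / |b| by positivity)
      linarith
    have h2 : |a| / |b| - 1 ≤ |a - b| / |b| := by
      rw [div_sub_one hb'.ne']
      have := abs_sub_abs_le_abs_sub a b
      gcongr
    linarith

lemma inv0 : Inv 0 where
  sep := fun w v h => absurd (Subsingleton.elim (α := Unit) w v) h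
  siz := fun w => by
    have h : S 0 w = 0 := by
      unfold S LS
      have h : (univ.erase w : Finset (W 0)) = ∅ := by
        ext v
        simp only [Finset.mem_erase, Finset.mem_univ, and_true, Finset.notMem_empty, iff_false,
          not_not]
        exact Subsingleton.elim (α := Unit) v w
      rw [h]; simp
    have : d 0 w = 1 := by
      unfold d; rw [h]; simp [e]
    rw [this]
    simp
    exact Real.log_nonneg (by norm_num)

lemma shift_bound {n : ℕ} (h : Inv n) (w v : W n) (a b : Bool) :
    |(X (n + 1) (snoc w a) - X (n + 1) (snoc v b)) - (X n w - X n v)| ≤ 2 * r ^ n := by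
  have h1 := h.d_le w
  have h2 := h.d_le v
  have h3 := d_pos n w
  have h4 := d_pos n v
  have h5 := rpow_pos n
  rw [X_snoc, X_snoc]
  have : (X n w + (if a = true then d n w else 0) - (X n v + if b = true then d n v else 0))
      - (X n w - X n v) = (if a = true then d n w else 0) - (if b = true then d n v else 0) := by
    ring
  rw [this, abs_le]
  have h6 : 0 ≤ (if a = true then d n w else 0) ∧ (if a = true then d n w else 0) ≤ 2 * r ^ n := by
    split_ifs
    · exact ⟨h3.le, h1⟩
    · exact ⟨le_refl _, by linarith⟩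
  have h7 : 0 ≤ (if b = true then d n v else 0) ∧ (if b = true then d n v else 0) ≤ 2 * r ^ n := by
    split_ifs
    · exact ⟨h4.le, h2⟩
    · exact ⟨le_refl _, by linarith⟩
  constructor <;> linarith [h6.1, h6.2, h7.1, h7.2]

lemma inv_succ_sep {n : ℕ} (h : Inv n) (p q : W (n + 1)) (hpq : p ≠ q) :
    r ^ (fd (n + 1) p q) / 3 + 3 * r ^ (n + 1) ≤ |X (n + 1) p - X (n + 1) q| := by
  have hr := rpow_pos n
  have hrr : r ^ (n + 1) = r ^ n / 400 := by rw [pow_succ, r_eq]; ring
  by_cases hpar : par p = par q
  · have hfd : fd (n + 1) p q = n := by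
      rw [← snoc_eta p, ← snoc_eta q, hpar]; exact fd_snoc_eq _ _ _
    rw [hfd]
    have hlst : lst p ≠ lst q := by
      intro hl
      apply hpq
      rw [← snoc_eta p, ← snoc_eta q, hpar, hl]
    have hd : |X (n + 1) p - X (n + 1) q| = d n (par p) := by
      have hd0 := d_pos n (par q)
      rw [← snoc_eta p, ← snoc_eta q, hpar, X_snoc, X_snoc]
      generalize lst p = a at *
      generalize lst q = b at *
      cases a <;> cases b <;> simp at hlst ⊢ <;> exact hd0.le
    rw [hd]
    have := h.le_d (par p)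
    rw [hrr]
    linarith
  · have hfd : fd (n + 1) p q = fd n (par p) (par q) := by
      rw [← snoc_eta p, ← snoc_eta q]; exact fd_snoc_ne hpar _ _
    rw [hfd]
    have h1 := h.sep _ _ hpar
    have h2 := shift_bound h (par p) (par q) (lst p) (lst q)
    rw [snoc_eta, snoc_eta] at h2
    have h3 := abs_sub_abs_le_abs_sub (X n (par p) - X n (par q)) (X (n + 1) p - X (n + 1) q)
    rw [abs_sub_comm (X n (par p) - X n (par q)) (X (n + 1) p - X (n + 1) q)] at h3
    rw [hrr]
    linarith

lemma Inv.sep' {n : ℕ} (h : Inv n) {w v : W n} (hwv : w ≠ v) :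
    r ^ (fd n w v) / 3 ≤ |X n w - X n v| := by
  have := h.sep w v hwv
  have := rpow_pos n
  linarith

lemma S_succ {n : ℕ} (w : W n) (a : Bool) :
    S (n + 1) (snoc w a) = ∑ v ∈ univ.erase w,
      (Real.log |X (n + 1) (snoc w a) - X (n + 1) (snoc v false)|
        + Real.log |X (n + 1) (snoc w a) - X (n + 1) (snoc v true)|) + (e n - 2 * S n w) := by
  have h := sum_erase_succ
    (fun q => Real.log |X (n + 1) (snoc w a) - X (n + 1) q|) w a
  unfold S LS at *
  rw [h]
  congr 1
  have : |X (n + 1) (snoc w a) - X (n + 1) (snoc w (!a))| = d n w := by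
    have hd0 := d_pos n w
    rw [X_snoc, X_snoc]
    cases a <;> simp <;> exact hd0.le
  rw [this]
  unfold d S LS
  rw [Real.log_exp]

lemma inv_succ_siz {n : ℕ} (h : Inv n) (w : W n) (a : Bool) :
    |Real.log (d (n + 1) (snoc w a)) - ((n + 1 : ℕ) : ℝ) * Real.log r| ≤ Real.log 2 := by
  have hd : Real.log (d (n + 1) (snoc w a)) = e (n + 1) - 2 * S (n + 1) (snoc w a) := by
    unfold d; rw [Real.log_exp]
  have he : e (n + 1) = 2 * e n + (n + 1) * Real.log r := rfl
  have hS : S n w = ∑ v ∈ univ.erase w, Real.log |X n w - X n v| := rfl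
  have key : Real.log (d (n + 1) (snoc w a)) - ((n + 1 : ℕ) : ℝ) * Real.log r
      = - 2 * ∑ v ∈ univ.erase w,
        ((Real.log |X (n + 1) (snoc w a) - X (n + 1) (snoc v false)| - Real.log |X n w - X n v|)
        + (Real.log |X (n + 1) (snoc w a) - X (n + 1) (snoc v true)|
          - Real.log |X n w - X n v|)) := by
    rw [hd, he, S_succ]
    have : ∑ v ∈ univ.erase w,
        ((Real.log |X (n + 1) (snoc w a) - X (n + 1) (snoc v false)| - Real.log |X n w - X n v|)
        + (Real.log |X (n + 1) (snoc w a) - X (n + 1) (snoc v true)|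
          - Real.log |X n w - X n v|))
        = ∑ v ∈ univ.erase w,
      (Real.log |X (n + 1) (snoc w a) - X (n + 1) (snoc v false)|
        + Real.log |X (n + 1) (snoc w a) - X (n + 1) (snoc v true)|) - 2 * S n w := by
      rw [hS, Finset.mul_sum, ← Finset.sum_sub_distrib]
      refine Finset.sum_congr rfl fun v _ => ?_
      ring
    rw [this]
    push_cast
    ring
  rw [key, abs_mul]
  have hb : |∑ v ∈ univ.erase w,
        ((Real.log |X (n + 1) (snoc w a) - X (n + 1) (snoc v false)| - Real.log |X n w - X n v|)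
        + (Real.log |X (n + 1) (snoc w a) - X (n + 1) (snoc v true)|
          - Real.log |X n w - X n v|))|
      ≤ ∑ v ∈ univ.erase w, 24 * r ^ n * (r ^ (fd n w v))⁻¹ := by
    refine (Finset.abs_sum_le_sum_abs _ _).trans (Finset.sum_le_sum fun v hv => ?_)
    have hne : w ≠ v := fun h => (Finset.ne_of_mem_erase hv) h.symm
    have hsep := h.sep w v hne
    have hk := rpow_pos (fd n w v)
    have hn := rpow_pos n
    have hb0 : 0 < |X n w - X n v| := by linarith
    have hb1 : X n w - X n v ≠ 0 := abs_pos.1 hb0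
    have one (b : Bool) : |(Real.log |X (n + 1) (snoc w a) - X (n + 1) (snoc v b)|
        - Real.log |X n w - X n v|)| ≤ 12 * r ^ n * (r ^ (fd n w v))⁻¹ := by
      have hs := shift_bound h w v a b
      have h2 : |(X (n + 1) (snoc w a) - X (n + 1) (snoc v b)) - (X n w - X n v)|
          ≤ |X n w - X n v| / 2 := by
        have hfd := fd_lt n w v hne
        have h9 : r ^ n ≤ r ^ (fd n w v) * (1 / 400) := by
          have h8 : r ^ n ≤ r ^ (fd n w v) * r := by
            rw [← pow_succ]
            exact pow_le_pow_of_le_one r_pos.le r_lt.le hfd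
          have h10 : r ^ (fd n w v) * r = r ^ (fd n w v) * (1 / 400) := by
            congr 1
          linarith
        linarith
      have h3 := abs_log_sub_log_le hb1 h2
      refine h3.trans ?_
      have h4 : |(X (n + 1) (snoc w a) - X (n + 1) (snoc v b)) - (X n w - X n v)|
          / |X n w - X n v| ≤ (2 * r ^ n) / (r ^ (fd n w v) / 3) := by
        apply div_le_div₀ (by positivity) hs (by positivity) (by linarith)
      calc 2 * (|(X (n + 1) (snoc w a) - X (n + 1) (snoc v b)) - (X n w - X n v)|
          / |X n w - X n v|) ≤ 2 * ((2 * r ^ n) / (r ^ (fd n w v) / 3)) := by linarith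
        _ = 12 * r ^ n * (r ^ (fd n w v))⁻¹ := by
            field_simp
            norm_num
    have h1 := one false
    have h2 := one true
    refine (abs_add_le _ _).trans ?_
    linarith
  rw [← Finset.mul_sum, tree_sum (fun k => (r ^ k)⁻¹) n w] at hb
  have hT := T_inv_bound n
  have h5 : 24 * r ^ n * T (fun k => (r ^ k)⁻¹) n ≤ 48 * r := by
    have hn := rpow_pos n
    calc 24 * r ^ n * T (fun k => (r ^ k)⁻¹) n ≤ 24 * r ^ n * (2 * r * (r ^ n)⁻¹) := by
          gcongr
      _ = 48 * r := by field_simp; ring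
  have h6 : |(-2 : ℝ)| = 2 := by norm_num
  rw [h6]
  have h7 : (1 : ℝ) / 2 < Real.log 2 := by
    have := Real.log_two_gt_d9; linarith
  have h8 : (48 : ℝ) * r = 48 / 400 := by rw [r_eq]; norm_num
  linarith

theorem inv_all : ∀ n : ℕ, Inv n
  | 0 => inv0
  | n + 1 => by
      have ih := inv_all n
      refine ⟨inv_succ_sep ih, fun p => ?_⟩
      have := inv_succ_siz ih (par p) (lst p)
      rwa [snoc_eta] at this

end Pool.Agent.Helper474.Vol
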