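import Pool.Agent.Helper474.VolA

/-!
The compact set `K`, Lagrange interpolation at the nodes of level `n`, and the two estimates.
-/

set_option autoImplicit false

namespace Pool.Agent.Helper474.Vol

open Finset

lemma r_pow_succ (n : ℕ) : r ^ (n + 1) = r ^ n / 400 := by rw [pow_succ, r_eq]; ring

lemma X_desc (n : ℕ) (w : W n) : ∀ j : ℕ, ∃ v : W (n + j), X (n + j) v = X n w
  | 0 => ⟨w, rfl⟩
  | j + 1 => by
      obtain ⟨v, hv⟩ := X_desc n w j
      exact ⟨snoc v false, by rw [← hv]; exact X_snoc_false v⟩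

lemma X_anc (n : ℕ) : ∀ (j : ℕ) (v : W (n + j)),
    ∃ w : W n, |X (n + j) v - X n w| ≤ 3 * r ^ n - 3 * r ^ (n + j)
  | 0, v => ⟨v, by simp⟩
  | j + 1, v => by
      obtain ⟨w, hw⟩ := X_anc n j (par (n := n + j) v)
      refine ⟨w, ?_⟩
      have h1 : |X (n + j + 1) v - X (n + j) (par (n := n + j) v)| ≤ 2 * r ^ (n + j) := by
        have h2 := (inv_all (n + j)).d_le (par (n := n + j) v)
        have h3 := d_pos (n + j) (par (n := n + j) v)
        have h4 := rpow_pos (n + j)
        rw [← snoc_eta v, X_snoc, par_snoc]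
        have : (X (n + j) (par v) + if lst v = true then d (n + j) (par v) else 0)
            - X (n + j) (par v) = if lst v = true then d (n + j) (par v) else 0 := by ring
        rw [this]
        split_ifs
        · rw [abs_of_pos h3]; exact h2
        · rw [abs_zero]; linarith
      have h5 := r_pow_succ (n + j)
      have h6 := rpow_pos (n + j)
      have h7 : |X (n + (j + 1)) v - X n w|
          ≤ |X (n + j + 1) v - X (n + j) (par (n := n + j) v)|
            + |X (n + j) (par (n := n + j) v) - X n w| := by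
        have := abs_add_le (X (n + j + 1) v - X (n + j) (par (n := n + j) v))
          (X (n + j) (par (n := n + j) v) - X n w)
        have h8 : (X (n + j + 1) v - X (n + j) (par (n := n + j) v))
          + (X (n + j) (par (n := n + j) v) - X n w) = X (n + j + 1) v - X n w := by ring
        rw [h8] at this
        exact this
      have h9 : r ^ (n + (j + 1)) = r ^ (n + j) / 400 := h5
      rw [h9]
      linarith

/-- the compact set -/
def K : Set ℝ := closure (⋃ n, Set.range (X n))

lemma X_mem_K (n : ℕ) (w : W n) : X n w ∈ K :=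
  subset_closure (Set.mem_iUnion.2 ⟨n, ⟨w, rfl⟩⟩)

lemma K_near {x : ℝ} (hx : x ∈ K) (n : ℕ) : ∃ w : W n, |x - X n w| ≤ 3 * r ^ n := by
  have hcl : IsClosed (⋃ w : W n, Metric.closedBall (X n w) (3 * r ^ n)) :=
    isClosed_iUnion_of_finite fun w => Metric.isClosed_closedBall
  have hn := rpow_pos n
  have hsub : (⋃ m, Set.range (X m)) ⊆ ⋃ w : W n, Metric.closedBall (X n w) (3 * r ^ n) := by
    intro y hy
    obtain ⟨m, v, rfl⟩ := Set.mem_iUnion.1 hy
    rcases le_total m n with h | h
    · obtain ⟨j, rfl⟩ := Nat.exists_eq_add_of_le h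
      obtain ⟨u, hu⟩ := X_desc m v j
      refine Set.mem_iUnion.2 ⟨u, ?_⟩
      rw [← hu]
      exact Metric.mem_closedBall_self (by positivity)
    · obtain ⟨j, rfl⟩ := Nat.exists_eq_add_of_le h
      obtain ⟨w, hw⟩ := X_anc n j v
      refine Set.mem_iUnion.2 ⟨w, ?_⟩
      rw [Metric.mem_closedBall, Real.dist_eq]
      have := rpow_pos (n + j)
      linarith
  obtain ⟨w, hw⟩ := Set.mem_iUnion.1 (closure_minimal hsub hcl hx)
  exact ⟨w, by rwa [Metric.mem_closedBall, Real.dist_eq] at hw⟩

lemma K_nonempty : K.Nonempty := ⟨X 0 (Classical.arbitrary _), X_mem_K 0 _⟩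

lemma K_compact : IsCompact K := by
  apply Metric.isCompact_of_isClosed_isBounded isClosed_closure
  refine (Metric.isBounded_closedBall (x := (0 : ℝ)) (r := 3)).subset fun x hx => ?_
  obtain ⟨w, hw⟩ := K_near hx 0
  rw [Metric.mem_closedBall, Real.dist_eq]
  rw [X_zero] at hw
  simpa using hw

lemma X_injective (n : ℕ) : Function.Injective (X n) := by
  intro w v h
  by_contra hne
  have h1 := (inv_all n).sep w v hne
  rw [h, sub_self, abs_zero] at h1
  have := rpow_pos n
  have := rpow_pos (fd n w v)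
  linarith

/-- Lagrange basis at level n -/
noncomputable def L (n : ℕ) (w : W n) (z : ℂ) : ℂ :=
  ∏ v ∈ univ.erase w, ((z - (X n v : ℂ)) / ((X n w : ℂ) - (X n v : ℂ)))

lemma interp (n : ℕ) (f : Polynomial ℂ) (hf : f.natDegree < 2 ^ n) (z : ℂ) :
    f.eval z = ∑ w : W n, f.eval (X n w : ℂ) * L n w z := by
  have hinj : Set.InjOn (fun w : W n => (X n w : ℂ)) (univ : Finset (W n)) := by
    intro a _ b _ hab
    exact X_injective n (Complex.ofReal_injective hab)
  have hdeg : f.degree < ((univ : Finset (W n)).card : WithBot ℕ) := by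
    rw [Finset.card_univ, card_W]
    exact lt_of_le_of_lt Polynomial.degree_le_natDegree (by exact_mod_cast hf)
  have h := Lagrange.eq_interpolate hinj hdeg
  have h2 := congrArg (Polynomial.eval z) h
  rw [h2, Lagrange.interpolate_apply, Polynomial.eval_finset_sum]
  refine Finset.sum_congr rfl fun w _ => ?_
  rw [Polynomial.eval_mul, Polynomial.eval_C, Lagrange.basis, Polynomial.eval_prod]
  unfold L
  congr 1
  refine Finset.prod_congr rfl fun v _ => ?_
  simp only [Lagrange.basisDivisor, Polynomial.eval_mul, Polynomial.eval_C, Polynomial.eval_sub,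
    Polynomial.eval_X]
  rw [div_eq_mul_inv, mul_comm]

/-- log sums at z -/
noncomputable def G (n : ℕ) (w : W n) (z : ℂ) : ℝ :=
  ∑ v ∈ univ.erase w, Real.log ‖z - (X n v : ℂ)‖

lemma norm_L {n : ℕ} {z : ℂ} (hz : ∀ v : W n, 0 < ‖z - (X n v : ℂ)‖) (w : W n) :
    ‖L n w z‖ = Real.exp (G n w z - S n w) := by
  unfold L G S LS
  rw [← Finset.sum_sub_distrib, Real.exp_sum, norm_prod]
  refine Finset.prod_congr rfl fun v hv => ?_
  have hne : w ≠ v := fun h => (Finset.ne_of_mem_erase hv) h.symm
  have h1 : 0 < |X n w - X n v| := abs_pos.2 (sub_ne_zero.2 fun h => hne (X_injective n h))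
  rw [Real.exp_sub, Real.exp_log (hz v), Real.exp_log h1, norm_div, ← Complex.ofReal_sub,
    Complex.norm_real, Real.norm_eq_abs]

lemma S_le (n : ℕ) (w v : W n) : S n w ≤ S n v + Real.log 2 := by
  have h1 := (inv_all n).siz w
  have h2 := (inv_all n).siz v
  have e1 : Real.log (d n w) = e n - 2 * S n w := by unfold d; rw [Real.log_exp]
  have e2 : Real.log (d n v) = e n - 2 * S n v := by unfold d; rw [Real.log_exp]
  rw [e1] at h1
  rw [e2] at h2
  have h3 := (abs_le.1 h1).1
  have h4 := (abs_le.1 h2).2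
  linarith

lemma T_mono {F H : ℕ → ℝ} : ∀ n : ℕ, (∀ k < n, F k ≤ H k) → T F n ≤ T H n
  | 0, _ => le_refl _
  | n + 1, h => by
      have h1 := T_mono n fun k hk => h k (hk.trans (Nat.lt_succ_self n))
      have h2 := h n (Nat.lt_succ_self n)
      have e1 : T F (n + 1) = 2 * T F n + F n := rfl
      have e2 : T H (n + 1) = 2 * T H n + H n := rfl
      rw [e1, e2]
      linarith

lemma T_mul (c : ℝ) (F : ℕ → ℝ) : ∀ n : ℕ, T (fun k => c * F k) n = c * T F n
  | 0 => by simp [T]
  | n + 1 => by
      have h1 := T_mul c F n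
      have e1 : T (fun k => c * F k) (n + 1) = 2 * T (fun k => c * F k) n + c * F n := rfl
      have e2 : T F (n + 1) = 2 * T F n + F n := rfl
      rw [e1, e2, h1]
      ring

/-- Upper estimate for the Lagrange basis functions. -/
lemma G_upper {n : ℕ} {z : ℂ} {δ : ℝ} (hδ : 0 < δ) (hz : ∀ v : W n, δ ≤ ‖z - (X n v : ℂ)‖)
    (w' : W n) (hw' : ‖z - (X n w' : ℂ)‖ ≤ 2 * δ) (w : W n) :
    G n w z - S n w ≤ 2 * Real.log 2 + T (fun k => Real.log (1 + 6 * δ * (r ^ k)⁻¹)) n := by
  have hpos : ∀ v : W n, 0 < ‖z - (X n v : ℂ)‖ := fun v => lt_of_lt_of_le hδ (hz v)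
  have hswap : G n w z = G n w' z + Real.log ‖z - (X n w' : ℂ)‖ - Real.log ‖z - (X n w : ℂ)‖ := by
    unfold G
    have h1 := Finset.add_sum_erase (univ : Finset (W n))
      (fun v => Real.log ‖z - (X n v : ℂ)‖) (Finset.mem_univ w)
    have h2 := Finset.add_sum_erase (univ : Finset (W n))
      (fun v => Real.log ‖z - (X n v : ℂ)‖) (Finset.mem_univ w')
    linarith
  have h1 : Real.log ‖z - (X n w' : ℂ)‖ ≤ Real.log 2 + Real.log δ := by
    rw [← Real.log_mul (by norm_num) hδ.ne']
    exact Real.log_le_log (hpos w') hw'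
  have h2 : Real.log δ ≤ Real.log ‖z - (X n w : ℂ)‖ := Real.log_le_log hδ (hz w)
  have h3 := S_le n w' w
  have h4 : G n w' z - S n w' ≤ T (fun k => Real.log (1 + 6 * δ * (r ^ k)⁻¹)) n := by
    rw [← tree_sum (fun k => Real.log (1 + 6 * δ * (r ^ k)⁻¹)) n w']
    unfold G S LS
    rw [← Finset.sum_sub_distrib]
    refine Finset.sum_le_sum fun v hv => ?_
    have hne : w' ≠ v := fun h => (Finset.ne_of_mem_erase hv) h.symm
    have hsep := (inv_all n).sep' hne
    have hk := rpow_pos (fd n w' v)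
    have hb : 0 < |X n w' - X n v| := by linarith
    rw [← Real.log_div (hpos v).ne' hb.ne']
    apply Real.log_le_log (div_pos (hpos v) hb)
    rw [div_le_iff₀ hb]
    have h5 : ‖z - (X n v : ℂ)‖ ≤ ‖z - (X n w' : ℂ)‖ + |X n w' - X n v| := by
      have h6 := norm_add_le (z - (X n w' : ℂ)) ((X n w' : ℂ) - (X n v : ℂ))
      have h7 : (z - (X n w' : ℂ)) + ((X n w' : ℂ) - (X n v : ℂ)) = z - (X n v : ℂ) := by ring
      rw [h7, ← Complex.ofReal_sub, Complex.norm_real, Real.norm_eq_abs] at h6
      exact h6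
    have h8 : 2 * δ ≤ 6 * δ * (r ^ fd n w' v)⁻¹ * |X n w' - X n v| := by
      calc 2 * δ = 6 * δ * (r ^ fd n w' v)⁻¹ * (r ^ fd n w' v / 3) := by
            field_simp
            norm_num
        _ ≤ 6 * δ * (r ^ fd n w' v)⁻¹ * |X n w' - X n v| := by gcongr
    nlinarith
  linarith

/-- the bound for the tree sum in the upper estimate -/
lemma T_upper {m : ℕ} {δ : ℝ} (hδ : 0 < δ) (hm : δ ≤ r ^ m) : ∀ i : ℕ,
    T (fun k => Real.log (1 + 6 * δ * (r ^ k)⁻¹)) (m + i)
      ≤ (1 + Real.log 400 + Real.log 7) * 2 ^ i - (i * Real.log 400 + Real.log 400 + Real.log 7)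
  | 0 => by
      have h1 : T (fun k => Real.log (1 + 6 * δ * (r ^ k)⁻¹)) m
          ≤ T (fun k => (6 * δ) * (r ^ k)⁻¹) m := by
        apply T_mono
        intro k _
        have hk := rpow_pos k
        have h2 : 0 < 1 + 6 * δ * (r ^ k)⁻¹ := by positivity
        have := Real.log_le_sub_one_of_pos h2
        linarith
      rw [T_mul (6 * δ) (fun k => (r ^ k)⁻¹)] at h1
      have h2 := T_inv_bound m
      have hmp := rpow_pos m
      have h3 : 6 * δ * T (fun k => (r ^ k)⁻¹) m ≤ 12 * r := by
        calc 6 * δ * T (fun k => (r ^ k)⁻¹) m ≤ 6 * δ * (2 * r * (r ^ m)⁻¹) := by gcongr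
          _ = 12 * r * (δ * (r ^ m)⁻¹) := by ring
          _ ≤ 12 * r * 1 := by
              have := r_pos
              gcongr
              rw [← div_eq_mul_inv, div_le_one hmp]
              exact hm
          _ = 12 * r := by ring
      have h4 : (12 : ℝ) * r = 12 / 400 := by rw [r_eq]; norm_num
      simp only [add_zero, pow_zero, mul_one, Nat.cast_zero, zero_mul, zero_add]
      linarith
  | i + 1 => by
      have ih := T_upper hδ hm i
      have e1 : T (fun k => Real.log (1 + 6 * δ * (r ^ k)⁻¹)) (m + (i + 1))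
        = 2 * T (fun k => Real.log (1 + 6 * δ * (r ^ k)⁻¹)) (m + i)
          + Real.log (1 + 6 * δ * (r ^ (m + i))⁻¹) := rfl
      have hmp := rpow_pos m
      have h1 : δ * (r ^ (m + i))⁻¹ ≤ 400 ^ i := by
        have h2 : r ^ (m + i) * 400 ^ i = r ^ m := by
          rw [pow_add, mul_assoc, ← mul_pow, r_eq]
          norm_num
        rw [← div_eq_mul_inv, div_le_iff₀ (rpow_pos _), mul_comm, h2]
        exact hm
      have h3 : Real.log (1 + 6 * δ * (r ^ (m + i))⁻¹) ≤ Real.log 7 + i * Real.log 400 := by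
        rw [← Real.log_pow, ← Real.log_mul (by norm_num) (by positivity)]
        have := rpow_pos (m + i)
        apply Real.log_le_log (by positivity)
        have h4 : (1 : ℝ) ≤ 400 ^ i := one_le_pow₀ (by norm_num)
        nlinarith
      rw [e1, pow_succ]
      push_cast
      linarith

/-- the exponent -/
noncomputable def α : ℝ := Real.log 2 / Real.log 400

lemma α_pos : 0 < α := div_pos (Real.log_pos (by norm_num)) (Real.log_pos (by norm_num))

lemma r_rpow_α : r ^ α = 1 / 2 := by
  rw [Real.rpow_def_of_pos r_pos, r_eq, Real.log_div (by norm_num) (by norm_num), Real.log_one]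
  unfold α
  have h : Real.log 400 ≠ 0 := (Real.log_pos (by norm_num)).ne'
  have : (0 - Real.log 400) * (Real.log 2 / Real.log 400) = - Real.log 2 := by
    field_simp
    ring
  rw [this, Real.exp_neg, Real.exp_log (by norm_num)]
  norm_num

lemma r_pow_rpow_α (k : ℕ) : (r ^ k) ^ α = (1 / 2) ^ k := by
  rw [← Real.rpow_natCast, ← Real.rpow_mul r_pos.le, mul_comm, Real.rpow_mul r_pos.le, r_rpow_α,
    Real.rpow_natCast]

end Pool.Agent.Helper474.Vol
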