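import Pool.Agent.Helper474.VolB

/-!
The two inequalities for the polynomial Green function of `K`.
-/

set_option autoImplicit false

namespace Pool.Agent.Helper474.Vol

open Finset

/-- image of K in the plane -/
def KC : Set ℂ := (fun x : ℝ => (x : ℂ)) '' K

lemma KC_compact : IsCompact KC := K_compact.image Complex.continuous_ofReal

lemma KC_nonempty : KC.Nonempty := K_nonempty.image _

lemma le_norm {z : ℂ} {x : ℝ} (hx : x ∈ K) : Metric.infDist z KC ≤ ‖z - (x : ℂ)‖ := by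
  rw [← dist_eq_norm]
  exact Metric.infDist_le_dist_of_mem ⟨x, hx, rfl⟩

lemma nearest {z : ℂ} {n : ℕ} (hn : 3 * r ^ n ≤ Metric.infDist z KC) :
    ∃ w : W n, ‖z - (X n w : ℂ)‖ ≤ 2 * Metric.infDist z KC := by
  obtain ⟨y, hy, hd⟩ := KC_compact.exists_infDist_eq_dist KC_nonempty z
  obtain ⟨x, hx, rfl⟩ := hy
  obtain ⟨w, hw⟩ := K_near hx n
  refine ⟨w, ?_⟩
  have h6 := norm_add_le (z - (x : ℂ)) ((x : ℂ) - (X n w : ℂ))
  have h7 : (z - (x : ℂ)) + ((x : ℂ) - (X n w : ℂ)) = z - (X n w : ℂ) := by ring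
  rw [h7, ← Complex.ofReal_sub, Complex.norm_real, Real.norm_eq_abs] at h6
  rw [dist_eq_norm] at hd
  simp only at hd
  linarith

/-- constant for the upper bound -/
noncomputable def A : ℝ := 1 + Real.log 400 + Real.log 7

lemma A_pos : 0 < A := by
  unfold A
  have := Real.log_pos (show (1 : ℝ) < 400 by norm_num)
  have := Real.log_pos (show (1 : ℝ) < 7 by norm_num)
  linarith

/-- sum bound for the Lagrange basis -/
lemma norm_L_le {z : ℂ} {m i : ℕ} (hδ : 0 < Metric.infDist z KC)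
    (hm : r ^ (m + 1) < Metric.infDist z KC) (hm' : Metric.infDist z KC ≤ r ^ m)
    (w : W (m + 2 + i)) :
    ‖L (m + 2 + i) w z‖
      ≤ Real.exp (2 * Real.log 2 + 2 ^ (m + 2 + i) * (2 * A * (Metric.infDist z KC) ^ α)) := by
  set δ := Metric.infDist z KC with hδdef
  have hz : ∀ v : W (m + 2 + i), δ ≤ ‖z - (X (m + 2 + i) v : ℂ)‖ := fun v => le_norm (X_mem_K _ v)
  have h3 : 3 * r ^ (m + 2 + i) ≤ δ := by
    have h1 : r ^ (m + 2 + i) ≤ r ^ (m + 2) :=
      pow_le_pow_of_le_one r_pos.le r_lt.le (by omega)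
    have h2 := r_pow_succ (m + 1)
    have h4 := rpow_pos (m + 1)
    have h5 : r ^ (m + 2) = r ^ (m + 1) / 400 := h2
    linarith
  obtain ⟨w', hw'⟩ := nearest h3
  rw [norm_L (fun v => lt_of_lt_of_le hδ (hz v)) w]
  apply Real.exp_le_exp.2
  refine (G_upper hδ hz w' hw' w).trans ?_
  have h4 := T_upper hδ hm' (2 + i)
  have h5 : m + (2 + i) = m + 2 + i := by ring
  rw [h5] at h4
  have h6 : (1 + Real.log 400 + Real.log 7) * (2 : ℝ) ^ (2 + i)
      ≤ 2 ^ (m + 2 + i) * (2 * A * δ ^ α) := by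
    have h7 : (1 / 2 : ℝ) ^ (m + 1) ≤ δ ^ α := by
      rw [← r_pow_rpow_α]
      exact Real.rpow_le_rpow (rpow_pos _).le hm.le α_pos.le
    have h8 : (2 : ℝ) ^ (m + 2 + i) * (2 * A * (1 / 2 : ℝ) ^ (m + 1)) = A * 2 ^ (2 + i) := by
      have : (2 : ℝ) ^ (m + 2 + i) = 2 ^ (m + 1) * 2 ^ (1 + i) := by
        rw [← pow_add]; congr 1; ring
      rw [this, one_div, inv_pow]
      have h9 : (2 : ℝ) ^ (m + 1) ≠ 0 := by positivity
      have h10 : (2 : ℝ) ^ (2 + i) = 2 * 2 ^ (1 + i) := by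
        rw [← pow_succ']; congr 1; ring
      rw [h10]
      field_simp
    have hA := A_pos
    calc (1 + Real.log 400 + Real.log 7) * (2 : ℝ) ^ (2 + i) = A * 2 ^ (2 + i) := rfl
      _ = (2 : ℝ) ^ (m + 2 + i) * (2 * A * (1 / 2 : ℝ) ^ (m + 1)) := h8.symm
      _ ≤ 2 ^ (m + 2 + i) * (2 * A * δ ^ α) := by gcongr
  have h400 := Real.log_pos (show (1 : ℝ) < 400 by norm_num)
  have h77 := Real.log_pos (show (1 : ℝ) < 7 by norm_num)
  have h11 : (0 : ℝ) ≤ ((2 + i : ℕ) : ℝ) * Real.log 400 := by positivity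
  linarith

/-- the upper estimate for powers of a polynomial -/
lemma pow_upper {z : ℂ} {m i : ℕ} (hδ : 0 < Metric.infDist z KC)
    (hm : r ^ (m + 1) < Metric.infDist z KC) (hm' : Metric.infDist z KC ≤ r ^ m)
    {p : Polynomial ℂ} (hp : ∀ x ∈ K, ‖p.eval (x : ℂ)‖ ≤ 1) {j : ℕ}
    (hj : j * p.natDegree < 2 ^ (m + 2 + i)) :
    ‖p.eval z‖ ^ j ≤ 2 ^ (m + 2 + i) *
      Real.exp (2 * Real.log 2 + 2 ^ (m + 2 + i) * (2 * A * (Metric.infDist z KC) ^ α)) := by
  have hd : (p ^ j).natDegree < 2 ^ (m + 2 + i) := by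
    rw [Polynomial.natDegree_pow]; exact hj
  have h1 := interp (m + 2 + i) (p ^ j) hd z
  have h2 : ‖p.eval z‖ ^ j = ‖(p ^ j).eval z‖ := by
    rw [Polynomial.eval_pow, norm_pow]
  rw [h2, h1]
  refine (norm_sum_le _ _).trans ?_
  have h3 : ∀ w ∈ (univ : Finset (W (m + 2 + i))),
      ‖(p ^ j).eval (X (m + 2 + i) w : ℂ) * L (m + 2 + i) w z‖
      ≤ Real.exp (2 * Real.log 2 + 2 ^ (m + 2 + i) * (2 * A * (Metric.infDist z KC) ^ α)) := by
    intro w _
    rw [norm_mul, Polynomial.eval_pow, norm_pow]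
    have h4 := norm_L_le hδ hm hm' w
    have h5 : ‖p.eval (X (m + 2 + i) w : ℂ)‖ ^ j ≤ 1 :=
      pow_le_one₀ (norm_nonneg _) (hp _ (X_mem_K _ w))
    calc ‖p.eval (X (m + 2 + i) w : ℂ)‖ ^ j * ‖L (m + 2 + i) w z‖
        ≤ 1 * ‖L (m + 2 + i) w z‖ := by gcongr
      _ ≤ _ := by rw [one_mul]; exact h4
  refine (Finset.sum_le_card_nsmul _ _ _ h3).trans ?_
  rw [Finset.card_univ, card_W, nsmul_eq_mul]
  push_cast
  exact le_refl _

theorem upper {z : ℂ} (hδ : 0 < Metric.infDist z KC) (hδ1 : Metric.infDist z KC < 1)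
    (p : Polynomial ℂ) (hdeg : 1 ≤ p.natDegree) (hp : ∀ x ∈ K, ‖p.eval (x : ℂ)‖ ≤ 1) :
    Real.log ‖p.eval z‖ / (p.natDegree : ℝ) ≤ 2 * A * (Metric.infDist z KC) ^ α := by
  obtain ⟨m, hm, hm'⟩ := exists_nat_pow_near_of_lt_one hδ hδ1.le r_pos r_lt
  set δ := Metric.infDist z KC with hδdef
  set B := 2 * A * δ ^ α with hB
  have hB0 : 0 ≤ B := by
    have := A_pos
    have := Real.rpow_nonneg hδ.le α
    positivity
  by_contra hcon
  push Not at hcon
  set D : ℝ := Real.log ‖p.eval z‖ / (p.natDegree : ℝ) with hD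
  have hn : (0 : ℝ) < p.natDegree := by exact_mod_cast hdeg
  have hD0 : 0 < D := lt_of_le_of_lt hB0 hcon
  have hlog : Real.log ‖p.eval z‖ = D * p.natDegree := by
    rw [hD]; field_simp
  have hpz : 0 < ‖p.eval z‖ := by
    rcases (norm_nonneg (p.eval z)).eq_or_lt with h | h
    · rw [← h, Real.log_zero] at hlog
      have : 0 < D * p.natDegree := mul_pos hD0 hn
      linarith
    · exact h
  -- main inequality
  have key : ∀ i : ℕ, (2 : ℝ) ^ (m + 2 + i) * (D - B)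
      ≤ (m + 2 + i + 2) * Real.log 2 + p.natDegree * D := by
    intro i
    set j := (2 ^ (m + 2 + i) - 1) / p.natDegree with hj
    have hpow : 1 ≤ 2 ^ (m + 2 + i) := Nat.one_le_two_pow
    have hj1 : j * p.natDegree < 2 ^ (m + 2 + i) := by
      have h0 := Nat.div_mul_le_self (2 ^ (m + 2 + i) - 1) p.natDegree
      rw [← hj] at h0
      omega
    have hj2 : 2 ^ (m + 2 + i) ≤ j * p.natDegree + p.natDegree := by
      have h1 := Nat.lt_div_mul_add (a := 2 ^ (m + 2 + i) - 1) (b := p.natDegree) (by omega)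
      rw [← hj] at h1
      omega
    have h1 := pow_upper hδ hm hm' hp hj1
    have h2 := Real.log_le_log (pow_pos hpz j) h1
    rw [Real.log_pow, Real.log_mul (by positivity) (Real.exp_pos _).ne', Real.log_exp,
      Real.log_pow, hlog] at h2
    have hj3 : (2 : ℝ) ^ (m + 2 + i) ≤ j * p.natDegree + p.natDegree := by exact_mod_cast hj2
    have h3 : (2 : ℝ) ^ (m + 2 + i) * D ≤ (j * p.natDegree + p.natDegree) * D := by gcongr
    push_cast at h2
    change (j : ℝ) * (D * p.natDegree) ≤ (m + 2 + i) * Real.log 2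
      + (2 * Real.log 2 + 2 ^ (m + 2 + i) * B) at h2
    linarith
  -- contradiction
  have hDB : 0 < D - B := by linarith
  obtain ⟨M, hM⟩ := exists_nat_gt ((2 + p.natDegree * D) / (D - B))
  have hkey := key (m + 2 + 2 * M)
  set P : ℕ := m + 2 + M with hP
  have hexp : m + 2 + (m + 2 + 2 * M) = P * 2 := by omega
  rw [hexp, pow_mul] at hkey
  have hPlt : (P : ℝ) + 1 ≤ 2 ^ P := by exact_mod_cast Nat.lt_two_pow_self
  have hPM : (M : ℝ) ≤ P := by
    have : M ≤ P := by omega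
    exact_mod_cast this
  rw [div_lt_iff₀ hDB] at hM
  have hcast : ((m : ℝ) + 2 + ((m + 2 + 2 * M : ℕ) : ℝ) + 2) = 2 * P + 2 := by
    rw [hP]; push_cast; ring
  rw [hcast] at hkey
  have hlog2 : Real.log 2 ≤ 1 := by
    have := Real.log_two_lt_d9; linarith
  set y : ℝ := 2 ^ P with hy
  have hy1 : 1 ≤ y := by
    have : (0 : ℝ) ≤ P := by positivity
    linarith
  have hP0 : (0 : ℝ) ≤ P := by positivity
  have h1 : (2 * (P : ℝ) + 2) * Real.log 2 ≤ 2 * y := by
    have h2 : (2 * (P : ℝ) + 2) * Real.log 2 ≤ (2 * (P : ℝ) + 2) * 1 := by gcongr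
    linarith
  have hnD : 0 ≤ (p.natDegree : ℝ) * D := by positivity
  have h2 : (p.natDegree : ℝ) * D ≤ (p.natDegree : ℝ) * D * y := le_mul_of_one_le_right hnD hy1
  have h3 : y ^ 2 * (D - B) ≤ (2 + p.natDegree * D) * y := by linarith
  have h4 : (2 + p.natDegree * D) * y < (M * (D - B)) * y :=
    mul_lt_mul_of_pos_right hM (by linarith)
  have h5 : (M * (D - B)) * y ≤ (y * (D - B)) * y := by
    have : (M : ℝ) ≤ y := by linarith
    gcongr
  nlinarith

end Pool.Agent.Helper474.Vol
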