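import Pool.Agent.Helper474.VolC

/-!
The lower estimate.
-/

set_option autoImplicit false

namespace Pool.Agent.Helper474.Vol

open Finset

/-- nodal polynomial of level n -/
noncomputable def Pn (n : ℕ) : Polynomial ℂ :=
  ∏ w : W n, (Polynomial.X - Polynomial.C (X n w : ℂ))

lemma Pn_natDegree (n : ℕ) : (Pn n).natDegree = 2 ^ n := by
  unfold Pn
  rw [Polynomial.natDegree_prod_of_monic _ _ (fun w _ => Polynomial.monic_X_sub_C _)]
  simp [card_W]

lemma Pn_eval_norm (n : ℕ) (z : ℂ) : ‖(Pn n).eval z‖ = ∏ w : W n, ‖z - (X n w : ℂ)‖ := by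
  unfold Pn
  rw [Polynomial.eval_prod, norm_prod]
  simp

lemma exp_S (n : ℕ) (w : W n) : Real.exp (S n w) = ∏ v ∈ univ.erase w, |X n w - X n v| := by
  unfold S LS
  rw [Real.exp_sum]
  refine Finset.prod_congr rfl fun v hv => ?_
  have hne : w ≠ v := fun h => (Finset.ne_of_mem_erase hv) h.symm
  exact Real.exp_log (abs_pos.2 (sub_ne_zero.2 fun h => hne (X_injective n h)))

/-- bound of the nodal polynomial on K -/
lemma Pn_on_K (n : ℕ) (w₀ : W n) {x : ℝ} (hx : x ∈ K) :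
    ‖(Pn n).eval (x : ℂ)‖ ≤ 12 * r ^ n * Real.exp (S n w₀) := by
  obtain ⟨w, hw⟩ := K_near hx n
  have hrn := rpow_pos n
  rw [Pn_eval_norm, ← Finset.mul_prod_erase _ _ (Finset.mem_univ w)]
  have h0 : ∀ v : W n, ‖(x : ℂ) - (X n v : ℂ)‖ = |x - X n v| := by
    intro v
    rw [← Complex.ofReal_sub, Complex.norm_real, Real.norm_eq_abs]
  rw [h0 w]
  have h1 : ∏ v ∈ univ.erase w, ‖(x : ℂ) - (X n v : ℂ)‖
      ≤ ∏ v ∈ univ.erase w, |X n w - X n v| * Real.exp (9 * r ^ n * (r ^ fd n w v)⁻¹) := by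
    apply Finset.prod_le_prod
    · intro v _; positivity
    · intro v hv
      rw [h0 v]
      have hne : w ≠ v := fun h => (Finset.ne_of_mem_erase hv) h.symm
      have hsep := (inv_all n).sep' hne
      have hk := rpow_pos (fd n w v)
      have hb : 0 < |X n w - X n v| := by linarith
      have h2 : |x - X n v| ≤ |x - X n w| + |X n w - X n v| := by
        have := abs_add_le (x - X n w) (X n w - X n v)
        have h3 : x - X n w + (X n w - X n v) = x - X n v := by ring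
        rwa [h3] at this
      have h4 : 3 * r ^ n ≤ |X n w - X n v| * (9 * r ^ n * (r ^ fd n w v)⁻¹) := by
        calc 3 * r ^ n = r ^ fd n w v / 3 * (9 * r ^ n * (r ^ fd n w v)⁻¹) := by
              field_simp
              norm_num
          _ ≤ |X n w - X n v| * (9 * r ^ n * (r ^ fd n w v)⁻¹) := by gcongr
      have h5 := Real.add_one_le_exp (9 * r ^ n * (r ^ fd n w v)⁻¹)
      have h6 : |X n w - X n v| * (9 * r ^ n * (r ^ fd n w v)⁻¹ + 1)
          ≤ |X n w - X n v| * Real.exp (9 * r ^ n * (r ^ fd n w v)⁻¹) := by gcongr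
      nlinarith
  rw [Finset.prod_mul_distrib, ← exp_S, ← Real.exp_sum, ← Finset.mul_sum,
    tree_sum (fun k => (r ^ k)⁻¹) n w] at h1
  have h2 : 9 * r ^ n * T (fun k => (r ^ k)⁻¹) n ≤ 1 / 2 := by
    have hT := T_inv_bound n
    calc 9 * r ^ n * T (fun k => (r ^ k)⁻¹) n ≤ 9 * r ^ n * (2 * r * (r ^ n)⁻¹) := by gcongr
      _ = 18 * r := by field_simp; ring
      _ ≤ 1 / 2 := by rw [r_eq]; norm_num
  have h3 : Real.exp (9 * r ^ n * T (fun k => (r ^ k)⁻¹) n) ≤ 2 := by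
    have h4 : (1 : ℝ) / 2 ≤ Real.log 2 := by
      have := Real.log_two_gt_d9; linarith
    calc Real.exp (9 * r ^ n * T (fun k => (r ^ k)⁻¹) n) ≤ Real.exp (Real.log 2) :=
          Real.exp_le_exp.2 (h2.trans h4)
      _ = 2 := Real.exp_log (by norm_num)
  have h4 : Real.exp (S n w) ≤ 2 * Real.exp (S n w₀) := by
    have h5 := S_le n w w₀
    calc Real.exp (S n w) ≤ Real.exp (S n w₀ + Real.log 2) := Real.exp_le_exp.2 h5
      _ = 2 * Real.exp (S n w₀) := by
          rw [Real.exp_add, Real.exp_log (by norm_num)]; ring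
  have h5 := Real.exp_pos (S n w)
  calc |x - X n w| * ∏ v ∈ univ.erase w, ‖(x : ℂ) - (X n v : ℂ)‖
      ≤ (3 * r ^ n) * (Real.exp (S n w) * Real.exp (9 * r ^ n * T (fun k => (r ^ k)⁻¹) n)) := by
        apply mul_le_mul hw h1 (Finset.prod_nonneg fun v _ => norm_nonneg _) (by positivity)
    _ ≤ (3 * r ^ n) * ((2 * Real.exp (S n w₀)) * 2) := by gcongr
    _ = 12 * r ^ n * Real.exp (S n w₀) := by ring

/-- lower bound of the nodal polynomial off K -/
lemma Pn_off_K {z : ℂ} {m n : ℕ} (hn : n = m + 2) (hδ : 0 < Metric.infDist z KC)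
    (hm' : Metric.infDist z KC ≤ r ^ m)
    (w' : W n) (hw' : ‖z - (X n w' : ℂ)‖ ≤ 2 * Metric.infDist z KC) :
    Metric.infDist z KC * Real.exp (S n w') ≤ 10 * ‖(Pn n).eval z‖ := by
  set δ := Metric.infDist z KC with hδdef
  have hz : ∀ v : W n, δ ≤ ‖z - (X n v : ℂ)‖ := fun v => le_norm (X_mem_K _ v)
  have hpos : ∀ v : W n, 0 < ‖z - (X n v : ℂ)‖ := fun v => lt_of_lt_of_le hδ (hz v)
  -- 1 ≤ sum of norms
  have h1 : (1 : ℝ) ≤ ∑ w : W n, ‖L n w z‖ := by
    have h := interp n 1 (by simp) z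
    simp only [Polynomial.eval_one, one_mul] at h
    calc (1 : ℝ) = ‖(1 : ℂ)‖ := by simp
      _ = ‖∑ w : W n, L n w z‖ := by rw [← h]
      _ ≤ ∑ w : W n, ‖L n w z‖ := norm_sum_le _ _
  -- each norm
  have hP : ∀ w : W n, Real.exp (G n w z) * ‖z - (X n w : ℂ)‖ = ‖(Pn n).eval z‖ := by
    intro w
    rw [Pn_eval_norm, ← Finset.mul_prod_erase _ _ (Finset.mem_univ w), mul_comm]
    congr 1
    unfold G
    rw [Real.exp_sum]
    exact Finset.prod_congr rfl fun v _ => Real.exp_log (hpos v)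
  have hPpos : 0 < ‖(Pn n).eval z‖ := by
    rw [← hP w']
    exact mul_pos (Real.exp_pos _) (hpos w')
  have h2 : ∀ w : W n, ‖L n w z‖
      ≤ (2 * ‖(Pn n).eval z‖ / Real.exp (S n w')) * ‖z - (X n w : ℂ)‖⁻¹ := by
    intro w
    rw [norm_L hpos w, Real.exp_sub, ← hP w]
    have h3 : Real.exp (S n w') ≤ 2 * Real.exp (S n w) := by
      calc Real.exp (S n w') ≤ Real.exp (S n w + Real.log 2) := Real.exp_le_exp.2 (S_le n w' w)
        _ = 2 * Real.exp (S n w) := by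
            rw [Real.exp_add, Real.exp_log (by norm_num)]; ring
    have h4 := Real.exp_pos (S n w)
    have h5 := Real.exp_pos (S n w')
    have h6 := Real.exp_pos (G n w z)
    have h7 := hpos w
    have h8 : (2 * (Real.exp (G n w z) * ‖z - (X n w : ℂ)‖) / Real.exp (S n w'))
        * ‖z - (X n w : ℂ)‖⁻¹ = 2 * Real.exp (G n w z) / Real.exp (S n w') := by
      field_simp
    rw [h8, div_le_div_iff₀ h4 h5]
    nlinarith
  -- sum of inverse distances
  have h3 : ∑ w : W n, ‖z - (X n w : ℂ)‖⁻¹ ≤ 5 / δ := by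
    rw [← Finset.add_sum_erase _ _ (Finset.mem_univ w')]
    have ha : ‖z - (X n w' : ℂ)‖⁻¹ ≤ 1 / δ := by
      rw [one_div]
      exact inv_anti₀ hδ (hz w')
    have hb : ∑ v ∈ univ.erase w', ‖z - (X n v : ℂ)‖⁻¹
        ≤ T (fun k => min (1 / δ) (9 * (r ^ k)⁻¹)) n := by
      rw [← tree_sum (fun k => min (1 / δ) (9 * (r ^ k)⁻¹)) n w']
      refine Finset.sum_le_sum fun v hv => ?_
      have hne : w' ≠ v := fun h => (Finset.ne_of_mem_erase hv) h.symm
      have hsep := (inv_all n).sep' hne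
      have hk := rpow_pos (fd n w' v)
      apply le_min
      · rw [one_div]
        exact inv_anti₀ hδ (hz v)
      · have h5 : |X n w' - X n v| ≤ ‖z - (X n w' : ℂ)‖ + ‖z - (X n v : ℂ)‖ := by
          have h6 := norm_sub_le (z - (X n v : ℂ)) (z - (X n w' : ℂ))
          have h7 : (z - (X n v : ℂ)) - (z - (X n w' : ℂ)) = (X n w' : ℂ) - (X n v : ℂ) := by ring
          rw [h7, ← Complex.ofReal_sub, Complex.norm_real, Real.norm_eq_abs] at h6
          linarith
        have h8 : r ^ fd n w' v / 9 ≤ ‖z - (X n v : ℂ)‖ := by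
          have := hz v
          linarith
        have h9 : (9 : ℝ) * (r ^ fd n w' v)⁻¹ = (r ^ fd n w' v / 9)⁻¹ := by
          rw [inv_div, div_eq_mul_inv]
        rw [h9]
        exact inv_anti₀ (by positivity) h8
    have hc : T (fun k => min (1 / δ) (9 * (r ^ k)⁻¹)) n ≤ 4 / δ := by
      rw [hn]
      have e1 : T (fun k => min (1 / δ) (9 * (r ^ k)⁻¹)) (m + 2)
          = 2 * (2 * T (fun k => min (1 / δ) (9 * (r ^ k)⁻¹)) m + min (1 / δ) (9 * (r ^ m)⁻¹))
            + min (1 / δ) (9 * (r ^ (m + 1))⁻¹) := rfl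
      have e2 : T (fun k => min (1 / δ) (9 * (r ^ k)⁻¹)) m ≤ T (fun k => 9 * (r ^ k)⁻¹) m :=
        T_mono m fun k _ => min_le_right _ _
      rw [T_mul 9 (fun k => (r ^ k)⁻¹) m] at e2
      have e3 := T_inv_bound m
      have e4 : (r ^ m)⁻¹ ≤ 1 / δ := by
        rw [one_div]; exact inv_anti₀ hδ hm'
      have e5 : 2 * r * (r ^ m)⁻¹ ≤ 2 * r * (1 / δ) := by
        have := r_pos
        gcongr
      have e6 : 2 * r * (1 / δ) = (1 / 200) * (1 / δ) := by rw [r_eq]; ring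
      have e7 : min (1 / δ) (9 * (r ^ m)⁻¹) ≤ 1 / δ := min_le_left _ _
      have e8 : min (1 / δ) (9 * (r ^ (m + 1))⁻¹) ≤ 1 / δ := min_le_left _ _
      have e9 : 0 < 1 / δ := by positivity
      have e10 : 4 / δ = 4 * (1 / δ) := by ring
      rw [e1, e10]
      linarith
    have hd : 5 / δ = 1 / δ + 4 / δ := by ring
    rw [hd]
    linarith
  have h4 : (1 : ℝ) ≤ (2 * ‖(Pn n).eval z‖ / Real.exp (S n w')) * (5 / δ) := by
    calc (1 : ℝ) ≤ ∑ w : W n, ‖L n w z‖ := h1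
      _ ≤ ∑ w : W n, (2 * ‖(Pn n).eval z‖ / Real.exp (S n w')) * ‖z - (X n w : ℂ)‖⁻¹ :=
          Finset.sum_le_sum fun w _ => h2 w
      _ = (2 * ‖(Pn n).eval z‖ / Real.exp (S n w')) * ∑ w : W n, ‖z - (X n w : ℂ)‖⁻¹ := by
          rw [Finset.mul_sum]
      _ ≤ (2 * ‖(Pn n).eval z‖ / Real.exp (S n w')) * (5 / δ) := by gcongr
  have h5 := Real.exp_pos (S n w')
  have h6 : (2 * ‖(Pn n).eval z‖ / Real.exp (S n w')) * (5 / δ)
      = (10 * ‖(Pn n).eval z‖) / (δ * Real.exp (S n w')) := by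
    field_simp
    ring
  rw [h6, one_le_div (by positivity)] at h4
  exact h4

theorem lower {z : ℂ} (hδ : 0 < Metric.infDist z KC) (hδ1 : Metric.infDist z KC < 1) :
    ∃ p : Polynomial ℂ, 1 ≤ p.natDegree ∧ (∀ x ∈ K, ‖p.eval (x : ℂ)‖ ≤ 1) ∧
      (1 / 4) * (Metric.infDist z KC) ^ α ≤ Real.log ‖p.eval z‖ / (p.natDegree : ℝ) := by
  obtain ⟨m, hm, hm'⟩ := exists_nat_pow_near_of_lt_one hδ hδ1.le r_pos r_lt
  have hrm := rpow_pos (m + 1)
  have hr2 : r ^ (m + 2) = r ^ (m + 1) / 400 := r_pow_succ (m + 1)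
  have h3 : 3 * r ^ (m + 2) ≤ Metric.infDist z KC := by rw [hr2]; linarith
  obtain ⟨w', hw'⟩ := nearest h3
  have hoff := Pn_off_K rfl hδ hm' w' hw'
  have hQ := Real.exp_pos (S (m + 2) w')
  set Q := Real.exp (S (m + 2) w') with hQdef
  set c : ℝ := (12 * r ^ (m + 2) * Q)⁻¹ with hc
  have hrm2 := rpow_pos (m + 2)
  have hc0 : 0 < c := by positivity
  have hcC : (c : ℂ) ≠ 0 := by exact_mod_cast hc0.ne'
  refine ⟨Polynomial.C (c : ℂ) * Pn (m + 2), ?_, ?_, ?_⟩
  · rw [Polynomial.natDegree_C_mul hcC, Pn_natDegree]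
    exact Nat.one_le_two_pow
  · intro x hx
    rw [Polynomial.eval_mul, Polynomial.eval_C, norm_mul, Complex.norm_real, Real.norm_eq_abs,
      abs_of_pos hc0]
    have h := Pn_on_K (m + 2) w' hx
    calc c * ‖(Pn (m + 2)).eval (x : ℂ)‖ ≤ c * (12 * r ^ (m + 2) * Q) := by gcongr
      _ = 1 := by rw [hc]; exact inv_mul_cancel₀ (by positivity)
  · rw [Polynomial.natDegree_C_mul hcC, Pn_natDegree, Polynomial.eval_mul, Polynomial.eval_C,
      norm_mul, Complex.norm_real, Real.norm_eq_abs, abs_of_pos hc0]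
    have h1 : (10 : ℝ) / 3 ≤ c * ‖(Pn (m + 2)).eval z‖ := by
      rw [hc, inv_mul_eq_div, div_le_div_iff₀ (by norm_num) (by positivity)]
      have : 400 * r ^ (m + 2) * Q ≤ Metric.infDist z KC * Q := by
        have : 400 * r ^ (m + 2) ≤ Metric.infDist z KC := by rw [hr2]; linarith
        gcongr
      linarith
    have h2 : (1 : ℝ) ≤ Real.log (c * ‖(Pn (m + 2)).eval z‖) := by
      rw [Real.le_log_iff_exp_le (by linarith)]
      have := Real.exp_one_lt_d9
      linarith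
    have h4 : (Metric.infDist z KC) ^ α ≤ (1 / 2) ^ m := by
      rw [← r_pow_rpow_α]
      exact Real.rpow_le_rpow hδ.le hm' α_pos.le
    have h5 : (1 / 4 : ℝ) * (1 / 2) ^ m = 1 / ((2 ^ (m + 2) : ℕ) : ℝ) := by
      push_cast
      rw [one_div_pow, pow_add]
      field_simp
      norm_num
    calc (1 / 4) * (Metric.infDist z KC) ^ α ≤ (1 / 4) * (1 / 2) ^ m := by gcongr
      _ = 1 / ((2 ^ (m + 2) : ℕ) : ℝ) := h5
      _ ≤ Real.log (c * ‖(Pn (m + 2)).eval z‖) / ((2 ^ (m + 2) : ℕ) : ℝ) := by gcongr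

end Pool.Agent.Helper474.Vol
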